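import Pool.Agent.Lib.MP_6adaea_nt.W.Defs2
import Pool.Agent.Lib.MP_6adaea_nt.G.Tors

/-!
Endomorphisms after extension of the field.
-/

set_option linter.unusedSectionVars false

namespace Pool.Agent.Lib.MP_6adaea_nt.W
open Matrix Polynomial G U
open scoped TensorProduct

variable {k Ω E : Type} [Field k] [Finite k] [Field Ω] [Field E] [Algebra k Ω] [Algebra k E]
  {θ : Ω} {r : ℕ} {g : ℕ → Ω} {φ : Ω →ₗ[k] Ω}

theorem exists_dr (θ : E) (r : ℕ) (g : ℕ → E) : ∃ φ : E →ₗ[k] E, IsDr θ r g φ := by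
  refine ⟨LinearMap.mulLeft k θ + ∑ i ∈ Finset.Icc 1 r,
    (LinearMap.mulLeft k (g i)).comp (frob k E ^ i : E →ₐ[k] E).toLinearMap, fun x => ?_⟩
  simp only [LinearMap.add_apply, LinearMap.sum_apply, LinearMap.comp_apply,
    LinearMap.mulLeft_apply, AlgHom.toLinearMap_apply, frob_pow_apply]

variable (k) in
/-- the additive polynomial with coefficients `u` -/
noncomputable def endx_poly (m : ℕ) (u : ℕ → E) : E[X] :=
  ∑ l ∈ Finset.range m, C (u l) * X ^ Nat.card k ^ l

theorem endx_eval (m : ℕ) (u : ℕ → E) (x : E) :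
    (endx_poly k m u).eval x = ∑ l ∈ Finset.range m, u l * x ^ Nat.card k ^ l := by
  simp [endx_poly, eval_finsetSum]

theorem endx_map (i : Ω →+* E) (m : ℕ) (u : ℕ → Ω) :
    (endx_poly k m u).map i = endx_poly k m fun l => i (u l) := by
  simp [endx_poly, Polynomial.map_sum]

theorem endx_degree (m : ℕ) (u : ℕ → E) :
    (endx_poly k m u).degree < ((Nat.card k ^ m : ℕ) : WithBot ℕ) := by
  have hq : 1 < Nat.card k := Finite.one_lt_card
  refine (degree_sum_le _ _).trans_lt ((Finset.sup_lt_iff (WithBot.bot_lt_coe _)).2 fun l hl => ?_)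
  refine (degree_C_mul_X_pow_le _ _).trans_lt ?_
  exact_mod_cast Nat.pow_lt_pow_right hq (Finset.mem_range.1 hl)

theorem endx_coeff (m : ℕ) (u : ℕ → E) {l : ℕ} (hl : l < m) :
    (endx_poly k m u).coeff (Nat.card k ^ l) = u l := by
  have hq : 1 < Nat.card k := Finite.one_lt_card
  rw [endx_poly, finsetSum_coeff, Finset.sum_eq_single l]
  · rw [coeff_C_mul_X_pow, if_pos rfl]
  · intro j _ hj
    rw [coeff_C_mul_X_pow, if_neg fun h => hj (Nat.pow_right_injective hq h).symm]
  · intro h
    exact absurd (Finset.mem_range.2 hl) h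

/-- Lagrange interpolation: the polynomial `∑ u i * X ^ q ^ i` of degree less than `q ^ m` agrees
with the image of the interpolation polynomial over `Ω` (`Lagrange.interpolate`,
`Lagrange.eq_interpolate`); compare the coefficients of `X ^ q ^ i` -/
theorem coeff_mem_range (i : Ω →+* E) {m : ℕ} (u : ℕ → E) (s : Finset Ω)
    (hs : Nat.card k ^ m ≤ s.card)
    (h : ∀ x ∈ s, ∑ l ∈ Finset.range m, u l * i x ^ Nat.card k ^ l ∈ i.range) :
    ∀ l < m, u l ∈ i.range := by
  classical
  intro l hl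
  have hq : 1 < Nat.card k := Finite.one_lt_card
  have h' : ∀ x, ∃ y : Ω, x ∈ s → i y = ∑ l ∈ Finset.range m, u l * i x ^ Nat.card k ^ l := by
    intro x
    by_cases hx : x ∈ s
    · obtain ⟨y, hy⟩ := h x hx
      exact ⟨y, fun _ => hy⟩
    · exact ⟨0, fun hx' => absurd hx' hx⟩
  choose v hv using h'
  have hd : (endx_poly k m u).degree < (s.card : ℕ) :=
    (endx_degree m u).trans_le (by exact_mod_cast hs)
  have hi : Set.InjOn (id : Ω → Ω) s := Function.injective_id.injOn
  have he : endx_poly k m u = (Lagrange.interpolate s id v).map i := by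
    refine eq_of_degrees_lt_of_eval_index_eq s (v := i) i.injective.injOn hd
      (degree_map_le.trans_lt (Lagrange.degree_interpolate_lt v hi)) fun x hx => ?_
    have h1 := Lagrange.eval_interpolate_at_node v hi hx
    rw [endx_eval, eval_map_apply, ← hv x hx]
    exact congrArg i h1.symm
  have hc := endx_coeff (k := k) m u hl
  rw [he, coeff_map] at hc
  exact ⟨_, hc⟩

/-- `aeval φ a` is given by the same polynomial on both fields -/
theorem exists_poly_ext (i : Ω →ₐ[k] E) {φ' : E →ₗ[k] E} (hφ : IsDr θ r g φ)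
    (hφ' : IsDr (i θ) r (fun l => i (g l)) φ') (a : k[X]) : ∃ P : Polynomial Ω,
      (∀ x, P.eval x = aeval φ a x) ∧ ∀ x, (P.map (i : Ω →+* E)).eval x = aeval φ' a x := by
  induction a using Polynomial.induction_on with
  | C c =>
    refine ⟨C (algebraMap k Ω c) * X, fun x => ?_, fun x => ?_⟩
    · simp [Algebra.smul_def]
    · simp [Algebra.smul_def]
  | add p q hp hq =>
    obtain ⟨P, h1, h2⟩ := hp
    obtain ⟨Q, h3, h4⟩ := hq
    refine ⟨P + Q, fun x => ?_, fun x => ?_⟩
    · rw [eval_add, h1, h3, map_add, LinearMap.add_apply]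
    · rw [Polynomial.map_add, eval_add, h2, h4, map_add, LinearMap.add_apply]
  | monomial n c ih =>
    obtain ⟨P, h1, h2⟩ := ih
    refine ⟨P.comp (C θ * X + ∑ l ∈ Finset.Icc 1 r, C (g l) * X ^ Nat.card k ^ l),
      fun x => ?_, fun x => ?_⟩
    · rw [eval_comp, h1, pow_succ, ← mul_assoc, map_mul (aeval φ) _ X, aeval_X,
        Module.End.mul_apply, hφ x]
      simp [eval_finsetSum]
    · rw [map_comp, eval_comp, h2, pow_succ, ← mul_assoc, map_mul (aeval φ') _ X, aeval_X,
        Module.End.mul_apply, hφ' x]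
      simp [eval_finsetSum, Polynomial.map_sum]

/-- An additive polynomial `f` that commutes with `φ'` preserves the `X ^ m`-torsion, which comes
from `Ω` (`card_tors`, `exists_poly`: the polynomial has no more roots in `E`). By
`coeff_mem_range` the coefficients come from `Ω`. A polynomial identity on the infinite field `Ω`
holds on `E`. -/
theorem endA_ext [IsSepClosed Ω] (i : Ω →ₐ[k] E) (hφ : IsDr θ r g φ) (hr : 0 < r) (hg : g r ≠ 0)
    (hθ : Transcendental k θ) (hE : U.EndA φ) :
    ∃ φ' : E →ₗ[k] E, IsDr (i θ) r (fun l => i (g l)) φ' ∧ EndA φ' := by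
  classical
  obtain ⟨φ', hφ'⟩ := exists_dr (k := k) (i θ) r fun l => i (g l)
  refine ⟨φ', hφ', fun n u hu => ?_⟩
  have hq : 1 < Nat.card k := Finite.one_lt_card
  have hinf : Infinite Ω := hθ.infinite
  have ha : (X ^ n : k[X]) ≠ 0 := pow_ne_zero _ X_ne_zero
  obtain ⟨P, hP1, hP2⟩ := exists_poly_ext i hφ hφ' (X ^ n)
  obtain ⟨Φ, h1, -, h3⟩ := exists_poly hφ hr hg ha
  have hu0 : aeval θ (X ^ n : k[X]) ≠ 0 := fun h => ha (transcendental_iff.1 hθ _ h)
  have hs := tors_sep hu0 h3
  obtain rfl : P = Φ := Polynomial.funext fun x => by rw [hP1, h1]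
  have hroot : ∀ z : E, aeval φ' (X ^ n : k[X]) z = 0 → z ∈ (i : Ω →+* E).range := fun z hz =>
    (IsSepClosed.splits_of_separable P hs).mem_range_of_isRoot hs.ne_zero
      (by rw [IsRoot, hP2, hz])
  have hc := card_tors hφ hr hg hθ ha
  have hf : Finite {y : Ω // aeval φ (X ^ n : k[X]) y = 0} :=
    Nat.finite_of_card_ne_zero (by rw [hc]; exact (pow_pos Nat.card_pos _).ne')
  have hfin : {y : Ω | aeval φ (X ^ n : k[X]) y = 0}.Finite := hf
  have hcomm : ∀ (j : ℕ) (x : E), ∑ l ∈ Finset.range n, u l * (φ' ^ j) x ^ Nat.card k ^ l =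
      (φ' ^ j) (∑ l ∈ Finset.range n, u l * x ^ Nat.card k ^ l) := by
    intro j
    induction j with
    | zero => intro x; rfl
    | succ j ih =>
      intro x
      rw [pow_succ', Module.End.mul_apply, Module.End.mul_apply, hu, ih]
  have hmem := coeff_mem_range (k := k) (i : Ω →+* E) (m := n) u hfin.toFinset (by
    rw [← Nat.card_eq_card_finite_toFinset hfin]
    refine le_of_le_of_eq ?_ hc.symm
    rw [natDegree_X_pow]
    exact Nat.pow_le_pow_right hq.le (Nat.le_mul_of_pos_left _ hr)) fun x hx => by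
      refine hroot _ ?_
      have hx0 : aeval φ (X ^ n : k[X]) x = 0 := hfin.mem_toFinset.1 hx
      have hx1 : (φ' ^ n) ((i : Ω →+* E) x) = 0 := by
        have := hP2 ((i : Ω →+* E) x)
        rw [eval_map_apply, hP1, hx0, map_zero, map_pow, aeval_X] at this
        exact this.symm
      rw [map_pow, aeval_X, ← hcomm, hx1]
      exact Finset.sum_eq_zero fun l _ => by
        rw [zero_pow (pow_pos Nat.card_pos _).ne', mul_zero]
  have h' : ∀ l, ∃ y : Ω, l < n → i y = u l := by
    intro l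
    by_cases hl : l < n
    · obtain ⟨y, hy⟩ := hmem l hl
      exact ⟨y, fun _ => hy⟩
    · exact ⟨0, fun hl' => absurd hl' hl⟩
  choose w hw using h'
  have hmap : ∀ x : E, ((endx_poly k n w).map (i : Ω →+* E)).eval x =
      ∑ l ∈ Finset.range n, u l * x ^ Nat.card k ^ l := fun x => by
    rw [endx_map, endx_eval]
    exact Finset.sum_congr rfl fun l hl => by
      rw [← hw l (Finset.mem_range.1 hl)]
      rfl
  have hi : ∀ x : Ω, i (∑ l ∈ Finset.range n, w l * x ^ Nat.card k ^ l) =
      ∑ l ∈ Finset.range n, u l * i x ^ Nat.card k ^ l := fun x => by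
    rw [← hmap, ← endx_eval]
    exact (eval_map_apply (i : Ω →+* E) x).symm
  have hφi : ∀ x : Ω, i (φ x) = φ' (i x) := fun x => by
    rw [hφ x, hφ' (i x)]
    simp
  obtain ⟨a, hA⟩ := hE n w (fun x => ∑ l ∈ Finset.range n, w l * x ^ Nat.card k ^ l)
    (fun _ => rfl) fun x => (i : Ω →+* E).injective (by
      change i _ = i _
      rw [hi, hφi, hφi, hi, hu])
  obtain ⟨Q, hQ1, hQ2⟩ := exists_poly_ext i hφ hφ' a
  have hQ : endx_poly k n w = Q := Polynomial.funext fun x => by rw [endx_eval, hQ1, ← hA]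
  exact ⟨a, fun x => by rw [← hmap, hQ, hQ2]⟩

end Pool.Agent.Lib.MP_6adaea_nt.W
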