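import Pool.Agent.Lib.MP_6adaea_nt.W.Defs2

/-!
Frobenius data from a linear Frobenius.
-/

set_option linter.unusedSectionVars false

namespace Pool.Agent.Lib.MP_6adaea_nt.W
open Matrix Polynomial G U
open scoped TensorProduct

variable {k C E : Type} [Field k] [Finite k] [Field C] [Field E] [Algebra k C] [Algebra k E]
  [Algebra C E] [IsScalarTower k C E] [IsAlgClosed C] [IsAlgClosed E] {θ : E} {r : ℕ} {g : ℕ → E}
  {n J : Type} [Fintype n] [DecidableEq n] [Fintype J] [DecidableEq J]

private lemma env2_mem (F : E →+* E) {q : E[X]} (hq : q ≠ 0) {x : E}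
    (hx : (q.map F).IsRoot x) : x ∈ Set.range F := by
  have h0 : q.map F ≠ 0 := (Polynomial.map_ne_zero_iff F.injective).2 hq
  have h1 : x ∈ (q.map F).roots := (mem_roots h0).2 hx
  rw [(IsAlgClosed.splits q).roots_map F, Multiset.mem_map] at h1
  obtain ⟨y, -, hy⟩ := h1
  exact ⟨y, hy⟩

private lemma env2_surj {Q : ℕ} (hQ : 0 < Q) (F : E →ₐ[C] E) (hF : F θ = θ ^ Q)
    (h2 : Algebra.IsAlgebraic (IntermediateField.adjoin C {θ}) E) : Function.Surjective F := by
  have hθ : θ ∈ Set.range (F : E →+* E) := by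
    refine env2_mem (F : E →+* E) (q := X ^ Q - Polynomial.C θ) (X_pow_sub_C_ne_zero hQ θ) ?_
    simp [hF]
  have hle : IntermediateField.adjoin C {θ} ≤ F.fieldRange := by
    rw [IntermediateField.adjoin_simple_le_iff]
    exact hθ
  intro x
  obtain ⟨p, hp, hx⟩ := h2.isAlgebraic x
  have hl : p.map (algebraMap _ E) ∈ lifts (F : E →+* E) := by
    rw [lifts_iff_coeff_lifts]
    intro m
    rw [coeff_map]
    exact hle (p.coeff m).2
  obtain ⟨q, hq⟩ := (mem_lifts _).1 hl
  have hq0 : q ≠ 0 := by
    rintro rfl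
    rw [Polynomial.map_zero] at hq
    exact (Polynomial.map_ne_zero_iff
      (algebraMap (IntermediateField.adjoin C {θ}) E).injective).2 hp hq.symm
  refine env2_mem (F : E →+* E) hq0 ?_
  rw [hq, IsRoot.def, eval_map, ← aeval_def, hx]

/-- The range of `F` is an algebraically closed subfield that contains `C` and `θ ^ Q`, so it
contains `θ`, and `E` is algebraic over it: `F` is bijective. Put `γ = frob⁻¹ ^ c ∘ F`. -/
theorem tri_of_frob {c : ℕ} (hc : 0 < c) (F : E →ₐ[C] E) (hF : F θ = θ ^ Nat.card k ^ c)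
    (h1 : Transcendental C θ) (h2 : Algebra.IsAlgebraic (IntermediateField.adjoin C {θ}) E) :
    ∃ T : Tri k C θ, T.c = c ∧ ∀ x, T.F x = F x := by
  have hQ : 0 < Nat.card k ^ c := Nat.pow_pos (by have := two_le_card (K := k); omega)
  have hs : Function.Surjective F := env2_surj hQ F hF h2
  have hb : Function.Bijective (G.frob k E ^ c : E →ₐ[k] E) :=
    ⟨(G.frob k E ^ c : E →ₐ[k] E).injective, fun y => by
      obtain ⟨z, hz⟩ := IsAlgClosed.exists_pow_nat_eq y hQ
      exact ⟨z, by rw [frob_pow_apply, hz]⟩⟩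
  let φ : E ≃ₐ[k] E := AlgEquiv.ofBijective (G.frob k E ^ c) hb
  let ψ : E ≃ₐ[k] E := AlgEquiv.ofBijective (F.restrictScalars k) ⟨F.injective, hs⟩
  have key : ∀ x, (ψ.trans φ.symm) x ^ Nat.card k ^ c = F x := fun x => by
    have h : φ ((ψ.trans φ.symm) x) = F x := by
      rw [AlgEquiv.trans_apply, AlgEquiv.apply_symm_apply]
      rfl
    rw [← h]
    exact (frob_pow_apply c _).symm
  refine ⟨⟨c, hc, ψ.trans φ.symm, fun x => by rw [key, F.commutes], ?_, h1, h2⟩, rfl, fun x => ?_⟩
  · apply hb.1
    rw [frob_pow_apply, frob_pow_apply, key, hF]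
  · rw [Tri.F_apply]
    exact key x

private lemma env2_lift {K L M : Type} [Field K] [Field L] [Field M] [Algebra K L]
    [Algebra.IsAlgebraic K L] [IsAlgClosed M] (f : K →+* M) :
    ∃ F : L →+* M, ∀ y, F (algebraMap K L y) = f y := by
  let := f.toAlgebra
  let F0 : L →ₐ[K] M := IsAlgClosed.lift
  exact ⟨F0.toRingHom, fun y => F0.commutes y⟩

/-- extend to the fraction field (`IsFractionRing.lift`) and then to the algebraic closure
(`IsAlgClosed.lift`) -/
theorem exists_ext_hom {A : Type} [CommRing A] [IsDomain A] (f : A →+* A)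
    (hf : Function.Injective f) :
    ∃ F : AlgebraicClosure (FractionRing A) →+* AlgebraicClosure (FractionRing A),
      ∀ x, F (algebraMap A _ x) = algebraMap A _ (f x) := by
  let L := AlgebraicClosure (FractionRing A)
  have hi : Function.Injective ((algebraMap A L).comp f) := by
    rw [IsScalarTower.algebraMap_eq A (FractionRing A) L]
    exact ((algebraMap (FractionRing A) L).injective.comp
      (IsFractionRing.injective A (FractionRing A))).comp hf
  let f1 : FractionRing A →+* L := IsFractionRing.lift hi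
  obtain ⟨F, hF⟩ := env2_lift (L := L) f1
  refine ⟨F, fun x => ?_⟩
  rw [IsScalarTower.algebraMap_apply A (FractionRing A) L, hF, IsFractionRing.lift_algebraMap]
  rfl

end Pool.Agent.Lib.MP_6adaea_nt.W
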