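import Pool.Agent.Lib.MP_6adaea_nt.W.Env1
import Pool.Agent.Lib.MP_6adaea_nt.W.Env2
import Pool.Agent.Lib.MP_6adaea_nt.U.FFun

/-!
The big field.
-/

set_option linter.unusedSectionVars false

namespace Pool.Agent.Lib.MP_6adaea_nt.W
open Matrix Polynomial G U
open scoped TensorProduct

variable {k kb K Ω : Type} [Field k] [Finite k] [Field kb] [Field K] [Field Ω] [Algebra k kb]
  [Algebra k K] [Algebra k Ω] [Algebra kb K] [Algebra kb Ω] [Algebra K Ω]
  [IsScalarTower k kb K] [IsScalarTower k kb Ω] [IsScalarTower k K Ω] [IsScalarTower kb K Ω]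
  [IsAlgClosed kb] [Algebra.IsAlgebraic k kb] [IsSepClosed Ω] [IsGalois K Ω] {θ : K} {r : ℕ}

/-- an algebraic closure of the fraction field with an extension of `f` -/
theorem env_clo {A : Type} [CommRing A] [IsDomain A] (f : A →+* A) (hf : Function.Injective f) :
    ∃ (E : Type) (_ : Field E) (_ : IsAlgClosed E) (Λ : A →+* E) (F : E →+* E),
      Function.Injective Λ ∧ (∀ x, F (Λ x) = Λ (f x)) ∧
      ∀ y : E, ∃ p : A[X], p ≠ 0 ∧ eval₂ Λ y p = 0 := by
  obtain ⟨F, hF⟩ := exists_ext_hom f hf
  refine ⟨AlgebraicClosure (FractionRing A), inferInstance, inferInstance, algebraMap A _, F, ?_,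
    hF, fun y => ?_⟩
  · rw [IsScalarTower.algebraMap_eq A (FractionRing A)]
    exact (algebraMap (FractionRing A) _).injective.comp (IsFractionRing.injective A _)
  · have h1 : IsAlgebraic (FractionRing A) y := Algebra.IsAlgebraic.isAlgebraic y
    have h2 : IsAlgebraic A y := (IsFractionRing.isAlgebraic_iff A (FractionRing A) _).2 h1
    obtain ⟨p, hp, h⟩ := h2
    exact ⟨p, hp, by rwa [aeval_def] at h⟩

/-- roots of polynomials with algebraic coefficients are algebraic -/
theorem env_alg {A L E : Type} [CommRing A] [Field L] [Field E] [Algebra L E] (Λ : A →+* E)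
    (hΛ : Function.Injective Λ) (h : ∀ x, IsAlgebraic L (Λ x))
    (hE : ∀ y : E, ∃ p : A[X], p ≠ 0 ∧ eval₂ Λ y p = 0) : Algebra.IsAlgebraic L E := by
  refine ⟨fun y => ?_⟩
  obtain ⟨p, hp, h0⟩ := hE y
  let Λ' : A →+* algebraicClosure L E :=
    Λ.codRestrict (algebraicClosure L E) fun x => mem_algebraicClosure_iff.2 (h x)
  have h1 : Function.Injective Λ' := fun a b hab => hΛ (congrArg Subtype.val hab)
  have h2 : IsAlgebraic (algebraicClosure L E) y :=
    ⟨p.map Λ', (Polynomial.map_ne_zero_iff h1).2 hp, by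
      rw [aeval_def, eval₂_map]
      exact h0⟩
  exact h2.restrictScalars L

/-- the powers of `θ ⊗ 1` are independent over `C` -/
theorem env_tr {kb K C : Type} [Field kb] [Field K] [Field C] [Algebra kb K] [Algebra kb C] {θ : K}
    (h : Transcendental kb θ) (p : C[X])
    (hp : ∑ i ∈ p.support, ((θ ^ i) ⊗ₜ p.coeff i : K ⊗[kb] C) = 0) : p = 0 := by
  ext n
  rw [coeff_zero, ← Module.forall_dual_apply_eq_zero_iff kb]
  intro l
  have h1 := congrArg (cf K l) hp
  rw [map_sum, map_zero] at h1
  simp only [cf_tmul] at h1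
  have h2 : aeval θ (∑ i ∈ p.support, monomial i (l (p.coeff i))) = 0 := by
    rw [map_sum, ← h1]
    refine Finset.sum_congr rfl fun i _ => ?_
    rw [aeval_monomial, Algebra.smul_def]
  have h3 := congrArg (fun q => coeff q n) (transcendental_iff.1 h _ h2)
  simp only [finsetSum_coeff, coeff_monomial, Finset.sum_ite_eq', coeff_zero] at h3
  split_ifs at h3 with hn
  · exact h3
  · rw [notMem_support_iff.1 hn, map_zero]

/-- the construction over an algebraically closed field `C` -/
theorem env_aux (hB : Base kb θ) (Fr : Frb k kb K Ω) (hθ : Fr.γK θ = θ) (C : Type) [Field C]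
    [Algebra k C] [Algebra kb C] [IsScalarTower k kb C] [IsAlgClosed C] :
    ∃ (E : Type) (_ : Field E) (_ : Algebra k E) (_ : Algebra C E) (_ : IsScalarTower k C E)
      (_ : IsAlgClosed E) (j : K →ₐ[k] E) (Λ : K ⊗[kb] C →+* E) (T : Tri k C (j θ)),
      Function.Injective Λ ∧ T.c = Fr.c ∧ (∀ x s, Λ (x ⊗ₜ s) = j x * algebraMap C E s) ∧
      ∀ x, T.F (j x) = j (Fr.FK x) := by
  obtain ⟨p, _, _, _, -⟩ := exists_char k kb
  have := hB.isFF
  have := tensor_domain (kb := kb) (K := K) p C
  obtain ⟨E, _, _, Λ, F, hΛ, hF, hE⟩ :=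
    env_clo (act C Fr.FK : K ⊗[kb] C →+* K ⊗[kb] C) (act_injective Fr.FK)
  let ι : C →+* E := Λ.comp (Algebra.TensorProduct.includeRight : C →ₐ[kb] K ⊗[kb] C)
  let _ : Algebra C E := ι.toAlgebra
  let _ : Algebra k E := (ι.comp (algebraMap k C)).toAlgebra
  have _ : IsScalarTower k C E := IsScalarTower.of_algebraMap_eq fun _ => rfl
  have hC : ∀ s : C, algebraMap C E s = Λ (1 ⊗ₜ s) := fun _ => rfl
  have hb : ∀ x : kb, (algebraMap kb K x ⊗ₜ 1 : K ⊗[kb] C) = 1 ⊗ₜ algebraMap kb C x := fun x => by
    rw [Algebra.algebraMap_eq_smul_one, Algebra.algebraMap_eq_smul_one, TensorProduct.smul_tmul]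
  let j : K →ₐ[k] E :=
    { Λ.comp Algebra.TensorProduct.includeLeftRingHom with
      commutes' := fun x => by
        change Λ (algebraMap k K x ⊗ₜ 1) = Λ (1 ⊗ₜ algebraMap k C x)
        rw [IsScalarTower.algebraMap_apply k kb K, IsScalarTower.algebraMap_apply k kb C, hb] }
  have hj : ∀ x, j x = Λ (x ⊗ₜ 1) := fun _ => rfl
  have hm : ∀ x s, Λ (x ⊗ₜ s) = j x * algebraMap C E s := fun x s => by
    rw [hj, hC, ← map_mul, Algebra.TensorProduct.tmul_mul_tmul, mul_one, one_mul]
  have hFj : ∀ x, F (j x) = j (Fr.FK x) := fun x => hF _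
  let F' : E →ₐ[C] E :=
    { F with
      commutes' := fun s => by
        change F (Λ (1 ⊗ₜ s)) = Λ (1 ⊗ₜ s)
        rw [hF]
        change Λ (Fr.FK 1 ⊗ₜ s) = _
        rw [map_one] }
  have h1 : Transcendental C (j θ) := transcendental_iff.2 fun q hq => by
    refine env_tr hB.tr q (hΛ ?_)
    rw [map_sum, map_zero, ← hq, aeval_def, eval₂_eq_sum, Polynomial.sum]
    refine Finset.sum_congr rfl fun i _ => ?_
    rw [hm, map_pow, mul_comm]
  have h2 : Algebra.IsAlgebraic (IntermediateField.adjoin C {j θ}) E := by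
    set L := IntermediateField.adjoin C {j θ}
    have hL : ∀ z ∈ IntermediateField.adjoin kb {θ}, j z ∈ L := fun z hz => by
      induction hz using IntermediateField.adjoin_induction with
      | mem x hx =>
        rw [Set.mem_singleton_iff.1 hx]
        exact IntermediateField.mem_adjoin_simple_self C _
      | algebraMap x =>
        rw [hj, hb, ← hC]
        exact L.algebraMap_mem _
      | add x y _ _ hx hy =>
        rw [map_add]
        exact L.add_mem hx hy
      | inv x _ hx =>
        rw [map_inv₀]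
        exact L.inv_mem hx
      | mul x y _ _ hx hy =>
        rw [map_mul]
        exact L.mul_mem hx hy
    let φ : IntermediateField.adjoin kb {θ} →+* L :=
      ((j : K →+* E).comp (algebraMap _ K)).codRestrict L fun z => hL z z.2
    have hK : ∀ x, IsAlgebraic L (j x) := fun x => by
      have := hB.fin
      exact (Algebra.IsAlgebraic.isAlgebraic (R := IntermediateField.adjoin kb {θ})
        x).ringHom_of_comp_eq φ (j : K →+* E) φ.injective rfl
    refine env_alg Λ hΛ (fun x => ?_) hE
    induction x using TensorProduct.induction_on with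
    | zero =>
      rw [map_zero]
      exact isAlgebraic_zero
    | tmul x s =>
      rw [hm]
      exact (hK x).mul (isAlgebraic_algebraMap (⟨_, L.algebraMap_mem s⟩ : L))
    | add x y hx hy =>
      rw [map_add]
      exact hx.add hy
  obtain ⟨T, hc, hT⟩ := tri_of_frob (k := k) Fr.c_pos F' (by
    change F (j θ) = _
    rw [hFj, Frb.FK_apply, hθ, map_pow]
    rfl) h1 h2
  exact ⟨E, inferInstance, inferInstance, inferInstance, inferInstance, inferInstance, j, Λ, T, hΛ,
    hc, hm, fun x => (hT _).trans (hFj x)⟩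

/-- `C` is the algebraic closure of the fraction field of `S`, `A = K ⊗ C` is a domain
(`tensor_domain`), `E` is the algebraic closure of its fraction field, `F` extends
`act C Fr.FK` (`exists_ext_hom`, `act_injective`), `tri_of_frob`. The powers of `θ` are independent
over `kb`, so the powers of `θ ⊗ 1` are independent over `C`. `K ⊗ S → K ⊗ C` is injective by
flatness. -/
theorem exists_env (hB : Base kb θ) (Fr : Frb k kb K Ω) (hθ : Fr.γK θ = θ) (S : Type) [CommRing S]
    [IsDomain S] [Algebra k S] [Algebra kb S] [IsScalarTower k kb S] :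
    ∃ (C E : Type) (_ : Field C) (_ : Field E) (_ : Algebra k C) (_ : Algebra k E) (_ : Algebra C E)
      (_ : IsScalarTower k C E) (_ : IsAlgClosed C) (_ : IsAlgClosed E) (j : K →ₐ[k] E)
      (c : S →ₐ[k] C) (Λ : K ⊗[kb] S →+* E) (T : Tri k C (j θ)), Function.Injective c ∧
      Function.Injective Λ ∧ T.c = Fr.c ∧ (∀ x s, Λ (x ⊗ₜ s) = j x * algebraMap C E (c s)) ∧
      ∀ x, T.F (j x) = j (Fr.FK x) := by
  obtain ⟨C, _, _, c₀, -, hc₀, -, -⟩ := env_clo (RingHom.id S) Function.injective_id
  let _ : Algebra kb C := (c₀.comp (algebraMap kb S)).toAlgebra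
  let _ : Algebra k C := (c₀.comp (algebraMap k S)).toAlgebra
  have _ : IsScalarTower k kb C := IsScalarTower.of_algebraMap_eq fun x =>
    congrArg c₀ (IsScalarTower.algebraMap_apply k kb S x)
  obtain ⟨E, _, _, _, _, _, j, Λ, T, hΛ, hc, hm, hT⟩ := env_aux hB Fr hθ C
  let c : S →ₐ[k] C := { c₀ with commutes' := fun _ => rfl }
  let c' : S →ₐ[kb] C := { c₀ with commutes' := fun _ => rfl }
  refine ⟨C, E, inferInstance, inferInstance, inferInstance, inferInstance, inferInstance,
    inferInstance, inferInstance, inferInstance, j, c,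
    Λ.comp (Algebra.TensorProduct.map (AlgHom.id kb K) c' : K ⊗[kb] S →+* K ⊗[kb] C), T, hc₀,
    hΛ.comp ?_, hc, fun x s => hm x (c₀ s), hT⟩
  exact Module.Flat.lTensor_preserves_injective_linearMap (M := K) c'.toLinearMap hc₀

end Pool.Agent.Lib.MP_6adaea_nt.W
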