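import Pool.Agent.Lib.MP_6adaea_nt.W.FinT
import Pool.Agent.Lib.MP_6adaea_nt.W.Env
import Pool.Agent.Lib.MP_6adaea_nt.W.EndX

/-!
The theorem over a domain of coefficients.
-/

set_option linter.unusedSectionVars false

namespace Pool.Agent.Lib.MP_6adaea_nt.W
open Matrix Polynomial G U
open scoped TensorProduct

variable {k kb K Ω : Type} [Field k] [Finite k] [Field kb] [Field K] [Field Ω] [Algebra k kb]
  [Algebra k K] [Algebra k Ω] [Algebra kb K] [Algebra kb Ω] [Algebra K Ω]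
  [IsScalarTower k kb K] [IsScalarTower k kb Ω] [IsScalarTower k K Ω] [IsScalarTower kb K Ω]
  [IsAlgClosed kb] [Algebra.IsAlgebraic k kb] [IsSepClosed Ω] [IsGalois K Ω] {θ : K} {r : ℕ}

private theorem fink_prop {E J : Type} [Field E] (a z : J → E)
    (h : ∀ l l', a l * z l' = a l' * z l) (h0 : z = 0 → a = 0) : ∃ μ : E, a = μ • z := by
  by_cases hz : z = 0
  · exact ⟨0, by rw [h0 hz, zero_smul]⟩
  · obtain ⟨l0, hl0⟩ := Function.ne_iff.mp hz
    have hl : z l0 ≠ 0 := hl0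
    refine ⟨a l0 / z l0, funext fun l => ?_⟩
    rw [Pi.smul_apply, smul_eq_mul, div_mul_eq_mul_div, eq_div_iff hl]
    exact h l l0

private theorem fink_ne {C E : Type} [Field C] [Field E] [Algebra C E] {x : E}
    (hx : Transcendental C x) {m : ℕ} (hm : 0 < m) (a : C) : algebraMap C E a - x ^ m ≠ 0 := by
  intro h
  have h1 : x ^ m = algebraMap C E a := (sub_eq_zero.mp h).symm
  exact hx (IsAlgebraic.of_pow hm (h1 ▸ isAlgebraic_algebraMap a))

/-- `exists_env`; extend `j` to `Ω` (`IsAlgClosed.lift`), `endA_ext`; `Psi_map`, `pmap_Phit`,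
`rep_map`. If `y ≠ 0` then `Ψ *ᵥ y ≠ 0` (`Phit_inv` or `Psi_inv`, `T.tr`), so the minors give
`F y = μ • Ψ *ᵥ y`; `Tri.fin`. -/
theorem fink (hB : Base kb θ) (hr : 2 ≤ r) (Fr : Frb k kb K Ω) (D : DM k Ω θ r) (hD : D.Fix Fr)
    (hE : U.EndA D.φ) {S : Type} [CommRing S] [IsDomain S] [Algebra k S] [Algebra kb S]
    [IsScalarTower k kb S] {t : Fin 2 → S} (ht : ∀ i, Transcendental k (t i))
    (h : t 0 = t 1 ∨ ∀ u : ℕ, t 1 ≠ t 0 ^ Nat.card k ^ u ∧ t 0 ≠ t 1 ^ Nat.card k ^ u)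
    {M : ℕ} {y : JJ (Fin r) M → K ⊗[kb] S}
    (hy : ∀ l l', act S Fr.FK (y l) * ((Psi k θ r D.g Fr.c M).map (evS kb K t) *ᵥ y) l' =
      act S Fr.FK (y l') * ((Psi k θ r D.g Fr.c M).map (evS kb K t) *ᵥ y) l)
    {s : Matrix (Fin r) (Fin r) (K ⊗[kb] S)[X]} (hs : s.det = 1) :
    rep M (fun i => 1 ⊗ₜ t i) s *ᵥ y = y := by
  classical
  obtain ⟨C, E, _, _, _, _, _, _, _, _, j, c, Λ, T, hc, hΛ, hTc, hΛt, hF⟩ :=
    exists_env (Ω := Ω) hB Fr hD.1 S
  let _ : Algebra K E := (j : K →+* E).toAlgebra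
  have _ : IsScalarTower k K E := IsScalarTower.of_algebraMap_eq fun x => (j.commutes x).symm
  let i0 : Ω →ₐ[K] E := IsAlgClosed.lift
  have hi : ∀ x : K, i0.restrictScalars k (algebraMap K Ω x) = j x := fun x => i0.commutes x
  have hθ1 : Transcendental k θ := fun h0 => hB.tr (h0.tower_top kb)
  have hθ2 : Transcendental k (algebraMap K Ω θ) :=
    (transcendental_algebraMap_iff (algebraMap K Ω).injective).mpr hθ1
  obtain ⟨φ', hφ', hE'⟩ := endA_ext (i0.restrictScalars k) D.dr (by omega)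
    ((_root_.map_ne_zero _).mpr D.ne) hθ2 hE
  simp only [hi] at hφ'
  have hγ : ∀ x : K, T.γ (j x) = j (Fr.γK x) := fun x => by
    have h1 := hF x
    rw [Tri.F_apply, Frb.FK_apply, map_pow, Tri.Q, Frb.Q, hTc, ← frob_pow_apply,
      ← frob_pow_apply] at h1
    exact (frob k E ^ Fr.c).injective h1
  have hact : ∀ z : K ⊗[kb] S, Λ (act S Fr.FK z) = T.F (Λ z) := fun z => by
    induction z using TensorProduct.induction_on with
    | zero => simp
    | tmul x s =>
      rw [act, Algebra.TensorProduct.map_tmul, AlgHom.id_apply, hΛt, hΛt, map_mul, hF,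
        AlgHom.commutes]
    | add a b ha hb => rw [map_add, map_add, map_add, map_add, ha, hb]
  have h1t : ∀ x : S, Λ (1 ⊗ₜ x) = algebraMap C E (c x) := fun x => by
    rw [hΛt, map_one, one_mul]
  let f : R2 K →+* E := Λ.comp (evS kb K t : R2 K →+* K ⊗[kb] S)
  have hfX : ∀ i, f (MvPolynomial.X i) = algebraMap C E (c (t i)) := fun i => by
    change Λ (evS kb K t (MvPolynomial.X i)) = _
    rw [evS, MvPolynomial.aeval_X, h1t]
  have hfC : ∀ x, f (MvPolynomial.C x) = j x := fun x => by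
    change Λ (evS kb K t (MvPolynomial.C x)) = _
    rw [evS, MvPolynomial.aeval_C, Algebra.TensorProduct.algebraMap_apply, hΛt, map_one, map_one,
      mul_one]
    rfl
  have hΨ : (Psi k θ r D.g Fr.c M).map f = rep M (fun i => algebraMap C E (c (t i)))
      (Phit k (j θ) r (fun i => j (D.g i)) T.c) := by
    have h2 : f.comp MvPolynomial.C = (j : K →+* E) := RingHom.ext hfC
    rw [Psi_map, h2, pmap_Phit, hTc]
    simp only [hfX]
  have hZ : ∀ l, Λ (((Psi k θ r D.g Fr.c M).map (evS kb K t) *ᵥ y) l) =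
      ((Psi k θ r D.g Fr.c M).map f *ᵥ fun l => Λ (y l)) l := fun l => by
    rw [RingHom.map_mulVec, Matrix.map_map]
    rfl
  have hd : f (dlt k θ Fr.c M) ≠ 0 := by
    rw [dlt, map_pow, map_prod]
    refine pow_ne_zero _ (Finset.prod_ne_zero_iff.mpr fun i _ => ?_)
    rw [map_prod]
    refine Finset.prod_ne_zero_iff.mpr fun l _ => ?_
    rw [map_sub, hfX, hfC, map_pow]
    exact fink_ne T.tr (pow_pos Nat.card_pos _) _
  obtain ⟨μ, hμ⟩ := fink_prop (fun l => T.F (Λ (y l)))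
    ((Psi k θ r D.g Fr.c M).map f *ᵥ fun l => Λ (y l))
    (fun l l' => by rw [← hact, ← hact, ← hZ, ← hZ, ← map_mul, ← map_mul, hy])
    (fun h0 => by
      obtain ⟨Ψ', -, hΨ'⟩ := Psi_inv (k := k) (θ := θ) D.ne Fr.c M
      have h3 : Ψ'.map f * (Psi k θ r D.g Fr.c M).map f = f (dlt k θ Fr.c M) • 1 := by
        rw [← Matrix.map_mul, hΨ']
        ext a b
        by_cases hab : a = b <;> simp [hab]
      have h4 := congrArg (fun v => Ψ'.map f *ᵥ v) h0
      simp only [Matrix.mulVec_mulVec, h3, Matrix.smul_mulVec, Matrix.one_mulVec,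
        Matrix.mulVec_zero] at h4
      have h5 := (smul_eq_zero.mp h4).resolve_left hd
      funext l
      have h6 : Λ (y l) = 0 := congrFun h5 l
      rw [h6, map_zero]
      rfl)
  rw [hΨ] at hμ
  have key := Tri.fin T hr (g := fun i => j (D.g i)) ((_root_.map_ne_zero _).mpr D.ne)
    (fun i => by rw [hγ, hD.2]) ⟨φ', hφ', hE'⟩ (t := fun i => c (t i))
    (fun i h0 => ht i ((isAlgebraic_algHom_iff c hc).mp h0))
    (h.imp (congrArg c) fun h0 u => ⟨fun e => (h0 u).1 (hc (by rw [map_pow]; exact e)),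
      fun e => (h0 u).2 (hc (by rw [map_pow]; exact e))⟩) hμ (s := pmap Λ s)
    (by rw [pmap_det, hs, Polynomial.map_one])
  funext l
  apply hΛ
  rw [RingHom.map_mulVec, rep_map]
  simp only [h1t]
  exact congrFun key l

end Pool.Agent.Lib.MP_6adaea_nt.W
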