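import Pool.Agent.Lib.MP_6adaea_nt.W.Lim0
import Pool.Agent.Lib.MP_6adaea_nt.W.FinK

/-!
The limit argument.
-/

set_option linter.unusedSectionVars false

namespace Pool.Agent.Lib.MP_6adaea_nt.W
open Matrix Polynomial G U
open scoped TensorProduct

variable {k kb K Ω : Type} [Field k] [Finite k] [Field kb] [Field K] [Field Ω] [Algebra k kb]
  [Algebra k K] [Algebra k Ω] [Algebra kb K] [Algebra kb Ω] [Algebra K Ω]
  [IsScalarTower k kb K] [IsScalarTower k kb Ω] [IsScalarTower k K Ω] [IsScalarTower kb K Ω]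
  [IsAlgClosed kb] [Algebra.IsAlgebraic k kb] [IsSepClosed Ω] [IsGalois K Ω] {θ : K} {r : ℕ}

/-- the projection to the limit ring -/
noncomputable def lim_pi (kb K : Type) [Field kb] [Field K] [Algebra kb K] (V : Ultrafilter ℕ) :
    K ⊗[kb] (ℕ → PowerSeries kb) →ₐ[kb] K ⊗[kb] ((ℕ → PowerSeries kb) ⧸ nul kb V) :=
  Algebra.TensorProduct.map (AlgHom.id kb K) (Ideal.Quotient.mkₐ kb (nul kb V))

theorem lim_pi_tmul (V : Ultrafilter ℕ) (x : K) (f : ℕ → PowerSeries kb) :
    lim_pi kb K V (x ⊗ₜ f) = x ⊗ₜ Ideal.Quotient.mk (nul kb V) f := rfl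

theorem lim_pi_act (V : Ultrafilter ℕ) (F : K →ₐ[kb] K) (z : K ⊗[kb] (ℕ → PowerSeries kb)) :
    lim_pi kb K V (act _ F z) = act _ F (lim_pi kb K V z) := by
  induction z using TensorProduct.induction_on with
  | zero => simp only [map_zero]
  | tmul x f => rfl
  | add a b ha hb => simp only [map_add, ha, hb]

theorem lim_pi_evS (V : Ultrafilter ℕ) (T : Fin 2 → ℕ → PowerSeries kb) (f : R2 K) :
    lim_pi kb K V (evS kb K T f) = evS kb K (fun i => Ideal.Quotient.mk (nul kb V) (T i)) f := by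
  induction f using MvPolynomial.induction_on with
  | C a =>
    simp only [evS, MvPolynomial.aeval_C]
    rfl
  | add p q hp hq => simp only [map_add, hp, hq]
  | mul_X p i hp =>
    simp only [map_mul, hp]
    simp only [evS, MvPolynomial.aeval_X]
    rfl

theorem lim_map_mulVec {A B J : Type} [CommRing A] [CommRing B] [Fintype J] (f : A →+* B)
    (P : Matrix J J A) (z : J → A) (j : J) :
    f ((P *ᵥ z) j) = (P.map f *ᵥ fun l => f (z l)) j := by
  simp [mulVec, dotProduct]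

theorem lim_rep {A B : Type} [CommRing A] [CommRing B] (f : A →+* B) {M : ℕ} (t : Fin 2 → A)
    (s : Matrix (Fin r) (Fin r) A[X]) (z : JJ (Fin r) M → A) (j : JJ (Fin r) M) :
    f ((rep M t s *ᵥ z) j) = (rep M (fun i => f (t i)) (pmap f s) *ᵥ fun l => f (z l)) j := by
  rw [lim_map_mulVec, rep_map]

theorem lim_ev {p : ℕ → Prop} (h : ∀ᶠ n in Filter.atTop, p n) :
    ∀ᶠ n in (Filter.hyperfilter ℕ : Filter ℕ), p n := by
  rw [← Nat.cofinite_eq_atTop] at h
  exact h.filter_mono Filter.hyperfilter_le_cofinite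

theorem lim_ne {V : Ultrafilter ℕ} {f g : ℕ → PowerSeries kb} {m : ℕ}
    (h : ∀ᶠ n in (V : Filter ℕ), ¬(PowerSeries.X : PowerSeries kb) ^ m ∣ f n - g n) :
    Ideal.Quotient.mk (nul kb V) f ≠ Ideal.Quotient.mk (nul kb V) g := by
  intro e
  have h1 : f - g ∈ nul kb V := Ideal.Quotient.eq.mp e
  obtain ⟨n, h2, h3⟩ := (h.and (h1 m)).exists
  exact h2 h3

/-- `U = Filter.hyperfilter ℕ`, `S` the quotient by `nul kb U`, `fink`. If the conclusion fails then
some fixed pair `a ≠ b` works for `U`-many `n` (`Ultrafilter.eventually_exists_iff`); choose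
`c0 n`, `c1 n`, and take `s = el a b (C c0 + C c1 * X)` for the classes of the sequences of constant
series. `map_eq_zero_iff`, `rep_map`. -/
theorem lim (hB : Base kb θ) (hr : 2 ≤ r) (Fr : Frb k kb K Ω) (D : DM k Ω θ r) (hD : D.Fix Fr)
    (hE : U.EndA D.φ) {M : ℕ} (W : Submodule kb K) [FiniteDimensional kb W]
    (τ : ℕ → Fin 2 → PowerSeries kb) (y : ℕ → JJ (Fin r) M → PowerSeries K)
    (hW : ∀ n j i, PowerSeries.coeff i (y n j) ∈ W)
    (hy : ∀ n, Mnr (Fr.FK : K →+* K) ((Psi k θ r D.g Fr.c M).map (gp K (τ n))) n (y n))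
    (ht : ∀ f : k[X], f ≠ 0 → ∀ i, ∃ m : ℕ, ∀ᶠ n in Filter.atTop,
      ¬(PowerSeries.X : PowerSeries kb) ^ m ∣ aeval (τ n i) f)
    (h : (∀ n, τ n 0 = τ n 1) ∨ ∀ u : ℕ, ∃ m : ℕ, ∀ n,
      ¬(PowerSeries.X : PowerSeries kb) ^ m ∣ τ n 1 - τ n 0 ^ Nat.card k ^ u ∧
      ¬(PowerSeries.X : PowerSeries kb) ^ m ∣ τ n 0 - τ n 1 ^ Nat.card k ^ u) (m : ℕ) :
    ∃ n, Fxd (τ n) m (y n) := by
  by_contra hcon
  simp only [Fxd, not_exists, not_forall] at hcon
  choose a b hab c0 c1 j hj using hcon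
  let V : Ultrafilter ℕ := Filter.hyperfilter ℕ
  obtain ⟨⟨a0, b0, j0⟩, hx⟩ : ∃ x : Fin r × Fin r × JJ (Fin r) M,
      ∀ᶠ n in (V : Filter ℕ), (a n, b n, j n) = x :=
    Ultrafilter.eventually_exists_iff.mp (Filter.Eventually.of_forall fun n => ⟨_, rfl⟩)
  have hab0 : a0 ≠ b0 := by
    obtain ⟨n, hn⟩ := hx.exists
    simp only [Prod.mk.injEq] at hn
    rw [← hn.1, ← hn.2.1]
    exact hab n
  haveI := nul_prime (kb := kb) V
  haveI : IsDomain ((ℕ → PowerSeries kb) ⧸ nul kb V) := Ideal.Quotient.isDomain _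
  let T : Fin 2 → ℕ → PowerSeries kb := fun i n => τ n i
  let t : Fin 2 → (ℕ → PowerSeries kb) ⧸ nul kb V := fun i => Ideal.Quotient.mk (nul kb V) (T i)
  have htr : ∀ i, Transcendental k (t i) := by
    rintro i ⟨f, hf, h0⟩
    obtain ⟨m', hm'⟩ := ht f hf i
    have h1 : aeval (t i) f = Ideal.Quotient.mk (nul kb V) (aeval (T i) f) :=
      aeval_algHom_apply (Ideal.Quotient.mkₐ k (nul kb V)) (T i) f
    have h2 : ∀ n, aeval (T i) f n = aeval (τ n i) f := fun n =>
      (aeval_algHom_apply (Pi.evalAlgHom k (fun _ : ℕ => PowerSeries kb) n) (T i) f).symm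
    refine lim_ne (V := V) (f := aeval (T i) f) (g := 0) (m := m') ((lim_ev hm').mono ?_) ?_
    · intro n hn
      rwa [h2, Pi.zero_apply, sub_zero]
    · rw [← h1, h0, map_zero]
  have hh : t 0 = t 1 ∨ ∀ u : ℕ, t 1 ≠ t 0 ^ Nat.card k ^ u ∧ t 0 ≠ t 1 ^ Nat.card k ^ u := by
    rcases h with h | h
    · left
      have : T 0 = T 1 := funext h
      simp only [t, this]
    · right
      intro u
      obtain ⟨m', hm'⟩ := h u
      simp only [t, ← map_pow]
      exact ⟨lim_ne (m := m') (Filter.Eventually.of_forall fun n => (hm' n).1),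
        lim_ne (m := m') (Filter.Eventually.of_forall fun n => (hm' n).2)⟩
  choose z hz using fun l => exists_evn W (fun n => y n l) fun n i => hW n l i
  let p := lim_pi kb K V
  have hΨ : (Psi k θ r D.g Fr.c M).map (evS kb K t) =
      ((Psi k θ r D.g Fr.c M).map (evS kb K T)).map (p : _ →+* _) := by
    ext l l'
    exact (lim_pi_evS V T _).symm
  have hΨn : ∀ n, ((Psi k θ r D.g Fr.c M).map (evS kb K T)).map
      (evn (kb := kb) K n : _ →+* PowerSeries K) = (Psi k θ r D.g Fr.c M).map (gp K (τ n)) := by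
    intro n
    ext1 l l'
    exact evn_evS τ n _
  have hzn : ∀ n, (fun l => (evn (kb := kb) K n : _ →+* PowerSeries K) (z l)) = y n :=
    fun n => funext fun l => hz l n
  let s0 : Matrix (Fin r) (Fin r) (K ⊗[kb] (ℕ → PowerSeries kb))[X] :=
    el a0 b0 (C (1 ⊗ₜ fun n => PowerSeries.C (c0 n)) + C (1 ⊗ₜ fun n => PowerSeries.C (c1 n)) * X)
  have key := fink hB hr Fr D hD hE htr hh (M := M) (y := fun l => (p : _ →+* _) (z l))
    (s := pmap (p : _ →+* _) s0) (by
      intro l l'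
      rw [hΨ, ← lim_map_mulVec, ← lim_map_mulVec, ← sub_eq_zero]
      simp only [RingHom.coe_coe, p, ← lim_pi_act, ← map_mul, ← map_sub]
      refine (map_eq_zero_iff V _).mpr fun m' => (lim_ev (Filter.eventually_ge_atTop m')).mono ?_
      intro n hn
      refine (pow_dvd_pow _ hn).trans ?_
      have e1 := lim_map_mulVec (evn (kb := kb) K n : _ →+* PowerSeries K)
        ((Psi k θ r D.g Fr.c M).map (evS kb K T)) z
      rw [hΨn, hzn] at e1
      simp only [RingHom.coe_coe] at e1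
      rw [map_sub, map_mul, map_mul, evn_act, evn_act, e1, e1, hz, hz]
      exact hy n l l') (by rw [pmap_det, el_det hab0, Polynomial.map_one])
  have k1 : p ((rep M (fun i => 1 ⊗ₜ T i) s0 *ᵥ z - z) j0) = 0 := by
    have e1 := lim_rep (A := K ⊗[kb] (ℕ → PowerSeries kb))
      (B := K ⊗[kb] ((ℕ → PowerSeries kb) ⧸ nul kb V)) p.toRingHom (fun i => 1 ⊗ₜ T i) s0 z j0
    rw [Pi.sub_apply, map_sub, sub_eq_zero]
    exact e1.trans (congrFun key j0)
  obtain ⟨n, hn, hn'⟩ := (hx.and ((map_eq_zero_iff V _).mp k1 m)).exists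
  simp only [Prod.mk.injEq] at hn
  obtain ⟨ha, hb, hj0⟩ := hn
  apply hj n
  rw [ha, hb, hj0]
  have e1 := lim_map_mulVec (evn (kb := kb) K n : _ →+* PowerSeries K)
    (rep M (fun i => (1 : K) ⊗ₜ[kb] T i) s0) z j0
  have e2 : pmap (evn (kb := kb) K n : _ →+* PowerSeries K) s0 =
      elc (PowerSeries K) a0 b0 (c0 n) (c1 n) := by
    have e3 : ∀ c : ℕ → kb, evn K n (1 ⊗ₜ fun n => PowerSeries.C (c n)) =
        algebraMap kb (PowerSeries K) (c n) := by
      intro c
      rw [evn_tmul, map_one, one_mul, PowerSeries.map_C, PowerSeries.algebraMap_apply]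
    rw [pmap_el, elc]
    simp only [Polynomial.map_add, Polynomial.map_mul, map_C, map_X, RingHom.coe_coe, e3]
  rw [rep_map, hzn, e2] at e1
  simp only [RingHom.coe_coe, evn_tmul, map_one, one_mul] at e1
  rw [Pi.sub_apply, map_sub, e1, hz] at hn'
  exact hn'

end Pool.Agent.Lib.MP_6adaea_nt.W
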