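import Pool.Agent.Lib.MP_6adaea_nt.W.Step
import Pool.Agent.Lib.MP_6adaea_nt.W.Lim

/-!
Thin windows.
-/

set_option linter.unusedSectionVars false

namespace Pool.Agent.Lib.MP_6adaea_nt.W
open Matrix Polynomial G U
open scoped TensorProduct

variable {k kb K Ω : Type} [Field k] [Finite k] [Field kb] [Field K] [Field Ω] [Algebra k kb]
  [Algebra k K] [Algebra k Ω] [Algebra kb K] [Algebra kb Ω] [Algebra K Ω]
  [IsScalarTower k kb K] [IsScalarTower k kb Ω] [IsScalarTower k K Ω] [IsScalarTower kb K Ω]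
  [IsAlgClosed kb] [Algebra.IsAlgebraic k kb] [IsSepClosed Ω] [IsGalois K Ω] {θ : K} {r : ℕ}

/-- the constant term as a constant series -/
noncomputable def fxb_c0 (K : Type) [Field K] : PowerSeries K →+* PowerSeries K :=
  PowerSeries.C.comp PowerSeries.constantCoeff

theorem fxb_apply (x : PowerSeries K) :
    fxb_c0 K x = PowerSeries.C (PowerSeries.constantCoeff x) := rfl

theorem fxb_C (x : K) : fxb_c0 K (PowerSeries.C x) = PowerSeries.C x := by simp [fxb_apply]

theorem fxb_dvd {x : PowerSeries K} : (PowerSeries.X : PowerSeries K) ^ 1 ∣ x ↔ fxb_c0 K x = 0 := by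
  rw [pow_one, PowerSeries.X_dvd_iff, fxb_apply,
    _root_.map_eq_zero_iff _ PowerSeries.C_injective]

theorem fxb_mulVec {S S' J : Type} [CommRing S] [CommRing S'] [Fintype J] (c : S →+* S')
    (A : Matrix J J S) (y : J → S) (j : J) :
    c ((A *ᵥ y) j) = (A.map c *ᵥ fun j => c (y j)) j := RingHom.map_mulVec c A y j

theorem fxb_gp (ζ : kb) (f : R2 K) : fxb_c0 K (gp K (fun _ => PowerSeries.C ζ) f) =
    gp K (fun _ => PowerSeries.C ζ) f := by
  induction f using MvPolynomial.induction_on with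
  | C a => rw [gp, MvPolynomial.aeval_C, PowerSeries.algebraMap_apply, fxb_C]
  | add p q hp hq => rw [map_add, map_add, hp, hq]
  | mul_X p i hp =>
    rw [map_mul, map_mul, hp, gp, MvPolynomial.aeval_X, PowerSeries.map_C, fxb_C]

theorem fxb_rep {M : ℕ} (ζ : kb) (A : Matrix (Fin r) (Fin r) kb[X]) (w : JJ (Fin r) M → kb)
    (j : JJ (Fin r) M) : (rep M (fun _ => PowerSeries.C ζ) (pmap PowerSeries.C A) *ᵥ
      fun j => PowerSeries.C (w j)) j = PowerSeries.C ((rep M ![ζ, ζ] A *ᵥ w) j) := by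
  rw [fxb_mulVec, rep_map]
  congr 3
  funext i
  fin_cases i <;> rfl

/-- apply the ring homomorphism `C ∘ constantCoeff`, which fixes the entries of the matrices -/
theorem const_step (F : K →ₐ[kb] K) {M : ℕ} (Ψ : Matrix (JJ (Fin r) M) (JJ (Fin r) M) (R2 K))
    (ζ : kb) {y : JJ (Fin r) M → PowerSeries K}
    (h : Mnr (F : K →+* K) (Ψ.map (gp K fun _ => PowerSeries.C ζ)) 1 y) (n : ℕ) :
    Mnr (F : K →+* K) (Ψ.map (gp K fun _ => PowerSeries.C ζ)) n
        (fun j => PowerSeries.C (PowerSeries.constantCoeff (y j))) ∧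
      (Fxd (fun _ => PowerSeries.C ζ) 1
        (fun j => PowerSeries.C (PowerSeries.constantCoeff (y j))) →
        Fxd (fun _ => PowerSeries.C ζ) 1 y) := by
  have hΨ : (Ψ.map (gp K fun _ => PowerSeries.C ζ)).map (fxb_c0 K) =
      Ψ.map (gp K fun _ => PowerSeries.C ζ) := by
    ext1 i j
    exact fxb_gp ζ _
  have hF : ∀ x, fxb_c0 K (PowerSeries.map (F : K →+* K) x) =
      PowerSeries.map (F : K →+* K) (fxb_c0 K x) := fun x => by
    rw [fxb_apply, fxb_apply, PowerSeries.map_C, ← PowerSeries.coeff_zero_eq_constantCoeff_apply,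
      PowerSeries.coeff_map, PowerSeries.coeff_zero_eq_constantCoeff_apply]
  refine ⟨fun l l' => ?_, fun h1 a b hab c0 c1 j => ?_⟩
  · have h1 := fxb_dvd.mp (h l l')
    rw [map_sub, map_mul, map_mul, fxb_mulVec, fxb_mulVec, hΨ, hF, hF] at h1
    exact Dvd.intro_left 0 ((zero_mul _).trans h1.symm)
  · have hR : (rep M (fun _ => PowerSeries.map (algebraMap kb K) (PowerSeries.C ζ))
        (elc (PowerSeries K) a b c0 c1)).map (fxb_c0 K) =
        rep M (fun _ => PowerSeries.map (algebraMap kb K) (PowerSeries.C ζ))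
          (elc (PowerSeries K) a b c0 c1) := by
      rw [rep_map, pmap_elc _ fun c => by rw [PowerSeries.algebraMap_apply, fxb_C],
        PowerSeries.map_C, fxb_C]
    have h2 := h1 a b hab c0 c1 j
    rw [pow_one, PowerSeries.X_dvd_iff] at h2 ⊢
    have h3 : ∀ x, PowerSeries.constantCoeff x = PowerSeries.constantCoeff (fxb_c0 K x) :=
      fun x => by simp [fxb_apply]
    rw [h3, Pi.sub_apply, map_sub, fxb_mulVec, hR]
    exact h2

theorem fxb_eig {M : ℕ} {ζ χ : kb} {B : Matrix (Fin r) (Fin r) k[X]} {w : JJ (Fin r) M → kb}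
    (h : rep M ![ζ, ζ] (pmap (algebraMap k kb) B) *ᵥ w = χ • w) (m : ℕ) :
    EigX (fun _ => PowerSeries.C ζ) (fun j => PowerSeries.C (w j)) m B := by
  refine ⟨PowerSeries.C χ, fun j => ?_⟩
  have e : algebraMap k (PowerSeries kb) = PowerSeries.C.comp (algebraMap k kb) :=
    RingHom.ext fun _ => PowerSeries.algebraMap_apply
  rw [e, ← pmap_pmap, Pi.sub_apply, fxb_rep, h]
  simp

theorem fxb_qd {a P : k[X]} (h : P ^ 2 ∣ a) {ζ : kb} (hζ : aeval ζ P = 0) (m : ℕ) :
    qd (fun _ => (Ideal.Quotient.mk _ (PowerSeries.C ζ) : Sm kb m)) ∣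
      a.map (algebraMap k (Sm kb m)) := by
  have h1 : X - C ζ ∣ P.map (algebraMap k kb) :=
    dvd_iff_isRoot.mpr (by rwa [IsRoot, eval_map_algebraMap])
  have h2 : qd (fun _ => ζ) ∣ a.map (algebraMap k kb) := by
    refine (mul_dvd_mul h1 h1).trans ?_
    rw [← Polynomial.map_mul, ← pow_two]
    exact Polynomial.map_dvd _ h
  have h3 := Polynomial.map_dvd (algebraMap kb (Sm kb m)) h2
  rwa [qd_map, Polynomial.map_map, ← IsScalarTower.algebraMap_eq] at h3

/-- If the claim fails there are data `a n, P n, ζ n, w n` with `n ≤ deg (P n)`. Apply `exists_step`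
with `m = 0` to the constant series (`rep_map` for `PowerSeries.C`; `(X - ζ) ^ 2 ∣ P ^ 2 ∣ a`), then
`const_step` and `lim` for `Fr.pow 0` with `m = 1`. If `f (ζ n) = 0` then `P n ∣ f`. -/
theorem thin (hB : Base kb θ) (hr : 2 ≤ r) (Fr : Frb k kb K Ω) (D : DM k Ω θ r)
    (hD : D.Fix Fr) (hE : U.EndA D.φ) (M : ℕ) : ∃ d, D.NoThin Fr M d := by
  by_contra hc
  obtain ⟨W, hWf, hW⟩ := exists_step hB (by omega) hD M
  have key : ∀ d : ℕ, ∃ (P : k[X]) (ζ : kb) (y : JJ (Fin r) M → PowerSeries K),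
      P = minpoly k ζ ∧ d ≤ P.natDegree ∧ (∀ j i, PowerSeries.coeff i (y j) ∈ W) ∧
      (∀ n, Mnr ((Fr.pow 0).FK : K →+* K)
        ((Psi k θ r D.g (Fr.pow 0).c M).map (gp K fun _ => PowerSeries.C ζ)) n y) ∧
      ¬Fxd (fun _ => PowerSeries.C ζ) 1 y := by
    intro d
    by_contra hd
    refine hc ⟨d, fun a P ha hP hi hdP hPa E ζ hζ w h1 h2 i j hij c0 c1 => ?_⟩
    by_contra hne
    obtain ⟨l, hl⟩ : ∃ l, w l ≠ 0 := by
      by_contra h0
      have : w = 0 := funext fun l => by_contra fun e => h0 ⟨l, e⟩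
      exact hne (by rw [this, mulVec_zero])
    obtain ⟨y, hy1, hy2, hy3⟩ := hW (fun _ => PowerSeries.C ζ) (fun j => PowerSeries.C (w j)) 0 a
      ⟨l, hl.isUnit.map _⟩ ha (fxb_qd hPa hζ _) fun hn => hn E
        (fun σ => by
          obtain ⟨B, χ, h3, h4⟩ := h1 σ
          exact ⟨B, h3, fxb_eig h4 _⟩)
        (by
          obtain ⟨B, χ, h3, h4⟩ := h2
          exact ⟨B, h3, fxb_eig h4 _⟩)
    refine hd ⟨P, ζ, fun j => PowerSeries.C (PowerSeries.constantCoeff (y j)),
      minpoly.eq_of_irreducible_of_monic hi hζ hP, hdP, fun j i => ?_,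
      fun n => (const_step _ _ ζ hy2 n).1, fun hf => hne (funext fun l => ?_)⟩
    · rw [PowerSeries.coeff_C]
      split_ifs
      · simpa using hy1 j 0
      · exact W.zero_mem
    · have h3 := hy3 1 le_rfl ((const_step _ _ ζ hy2 0).2 hf) i j hij c0 c1 l
      rw [← pmap_elc (S := kb) PowerSeries.C fun c => PowerSeries.algebraMap_apply.symm,
        Pi.sub_apply, fxb_rep, ← map_sub, pow_one, PowerSeries.X_dvd_iff,
        PowerSeries.constantCoeff_C] at h3
      exact sub_eq_zero.mp h3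
  choose P ζ y h1 h2 h3 h4 h5 using key
  obtain ⟨n, hn⟩ := lim hB hr (Fr.pow 0) D (hD.pow 0) hE W (fun n _ => PowerSeries.C (ζ n)) y h3
    (fun n => h4 n n) (fun f hf i => ⟨1, by
      filter_upwards [Filter.eventually_gt_atTop f.natDegree] with n hn h6
      have e : aeval (PowerSeries.C (ζ n)) f = PowerSeries.C (aeval (ζ n) f) :=
        aeval_algebraMap_apply (PowerSeries kb) (ζ n) f
      rw [pow_one, PowerSeries.X_dvd_iff, e, PowerSeries.constantCoeff_C] at h6
      have h7 := natDegree_le_of_dvd (minpoly.dvd k _ h6) hf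
      have h8 := h2 n
      rw [h1 n] at h8
      omega⟩) (Or.inl fun _ => rfl) 1
  exact h5 n hn

end Pool.Agent.Lib.MP_6adaea_nt.W
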