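import Pool.Agent.Lib.MP_6adaea_nt.W.Defs2
import Pool.Agent.Lib.MP_6adaea_nt.U.FFun

/-!
The defect of a line modulo a power of the variable.
-/

set_option linter.unusedSectionVars false

namespace Pool.Agent.Lib.MP_6adaea_nt.W
open Matrix Polynomial G U
open scoped TensorProduct

variable {k kb K Ω : Type} [Field k] [Finite k] [Field kb] [Field K] [Field Ω] [Algebra k kb]
  [Algebra k K] [Algebra k Ω] [Algebra kb K] [Algebra kb Ω] [Algebra K Ω]
  [IsScalarTower k kb K] [IsScalarTower k kb Ω] [IsScalarTower k K Ω] [IsScalarTower kb K Ω]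
  [IsAlgClosed kb] [Algebra.IsAlgebraic k kb] [IsSepClosed Ω] [IsGalois K Ω] {θ : K} {r : ℕ}
  {J : Type} [Fintype J]

/-- `ϖ` a uniformiser at `π v`; it is not a `p`-th power. `IsFF.exists_coord`, `Place.coord_unif`,
`FK x = γK x ^ Q`, `Frb.π_ord`; see `exists_hs` in `U/HSx.lean`. -/
theorem exists_flat (hB : Base kb θ) (Fr : Frb k kb K Ω) (v : Place kb K) : ∃ ϖ : K,
    (Fr.toK.π v).Ge ϖ 0 ∧ (∀ f, ∃ x : Fin Fr.Q → K, f = ∑ i : Fin Fr.Q, ϖ ^ (i : ℕ) * Fr.FK (x i)) ∧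
    ∀ x : Fin Fr.Q → K, (Fr.toK.π v).Ge (∑ i : Fin Fr.Q, ϖ ^ (i : ℕ) * Fr.FK (x i)) 0 →
      ∀ i, v.Ge (x i) 0 := by
  obtain ⟨p, _, _, _, f, -, hf⟩ := exists_char k kb
  have := hB.isFF
  obtain ⟨ϖ, -, hϖ⟩ := (Fr.toK.π v).surj
  have hp : ¬ ∃ y, ϖ = y ^ p := by
    rintro ⟨y, rfl⟩
    rw [Place.ord_pow] at hϖ
    exact (Fact.out : p.Prime).one_lt.ne' (by
      exact_mod_cast Int.eq_one_of_dvd_one (Int.natCast_nonneg p) ⟨_, hϖ.symm⟩)
  have h1 : ∀ Q, Q = p ^ (f * Fr.c) → ∀ y, ∃ g : Fin Q → K,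
      y = ∑ i : Fin Q, ϖ ^ (i : ℕ) * g i ^ Q := by
    rintro _ rfl y
    exact (IsFF.exists_coord kb p hp (f * Fr.c) y).exists
  refine ⟨ϖ, .of_le (by omega), fun y => ?_, fun x hx i => ?_⟩
  · obtain ⟨g, hg⟩ := h1 Fr.Q (by rw [pow_mul, ← hf]; rfl) y
    exact ⟨fun i => Fr.γK.symm (g i), by simpa only [Fr.FK_apply, AlgEquiv.apply_symm_apply] using hg⟩
  · have h2 := (Fr.toK.π v).coord_unif hϖ (fun i => Fr.γK (x i)) 0
      (by simpa only [Fr.FK_apply, mul_zero] using hx) i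
    simpa [Place.Ge, Fr.π_ord] using h2

theorem adp_ne {y : PowerSeries K} (hy : IsUnit y) : PowerSeries.coeff 0 y ≠ 0 := by
  rw [PowerSeries.coeff_zero_eq_constantCoeff_apply]
  exact (PowerSeries.isUnit_constantCoeff y hy).ne_zero

theorem adp_coeff (a b : PowerSeries K) :
    PowerSeries.coeff 0 (a * b) = PowerSeries.coeff 0 a * PowerSeries.coeff 0 b := by
  simp

theorem adp_lower {v : Place kb K} {y : J → PowerSeries K} {j : J} (hy : IsUnit (y j)) {m : ℕ}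
    (hm : 0 < m) {e : ℤ} (h : Adp v y m e) : -v.ord (PowerSeries.coeff 0 (y j)) ≤ e := by
  obtain ⟨a, h0, rfl, h1⟩ := h
  have h2 := h1 j 0 hm
  rw [adp_coeff] at h2
  have h3 := h2.le (mul_ne_zero h0 (adp_ne hy))
  rw [v.ord_mul h0 (adp_ne hy)] at h3
  omega

theorem adp_const {v : Place kb K} {y : J → PowerSeries K} {m : ℕ} {n : ℤ}
    (h : ∀ j, ∀ i < m, v.Ge (PowerSeries.coeff i (y j)) (-n)) : Adp v y m n := by
  obtain ⟨t, h0, ht⟩ := v.exists_ord_eq n
  refine ⟨PowerSeries.C t, by simpa using h0, by simpa using ht, fun j i hi => ?_⟩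
  rw [PowerSeries.coeff_C_mul]
  simpa using (Place.Ge.of_le ht.ge).mul (h j i hi)

/-- `Int.exists_least_of_bdd`; a lower bound is `-ord (y j0)(0)` -/
theorem exists_adp (v : Place kb K) {y : J → PowerSeries K} (hy : ∃ j, IsUnit (y j)) {m : ℕ}
    (hm : 0 < m) : ∃ e, Adp v y m e ∧ ∀ e', Adp v y m e' → e ≤ e' := by
  obtain ⟨j, hj⟩ := hy
  obtain ⟨n, hn⟩ := Finite.bddAbove_range fun p : J × Fin m =>
    -v.ord (PowerSeries.coeff p.2 (y p.1))
  exact Int.exists_least_of_bdd ⟨_, fun _ h => adp_lower hj hm h⟩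
    ⟨n, adp_const fun j i hi => .of_le (neg_le.1 (hn ⟨(j, ⟨i, hi⟩), rfl⟩))⟩

/-- write `a = ∑ C (ϖ ^ i) * map F (a i)` coefficientwise -/
theorem adp_frob (hB : Base kb θ) (Fr : Frb k kb K Ω) (v : Place kb K) {y : J → PowerSeries K}
    {m : ℕ} {e e' : ℤ} (he : ∀ e', Adp v y m e' → e ≤ e')
    (h : Adp (Fr.toK.π v) (fun j => PowerSeries.map (Fr.FK : K →+* K) (y j)) m e') :
    Fr.Q * e ≤ e' := by
  obtain ⟨ϖ, h1, h2, h3⟩ := exists_flat hB Fr v
  obtain ⟨a, h0, rfl, ha⟩ := h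
  choose x hx using h2
  have e1 : a = ∑ i : Fin Fr.Q, PowerSeries.C (ϖ ^ (i : ℕ)) * PowerSeries.map (Fr.FK : K →+* K)
      (PowerSeries.mk fun n => x (PowerSeries.coeff n a) i) := by
    ext n
    simp only [map_sum, PowerSeries.coeff_C_mul, PowerSeries.coeff_map, PowerSeries.coeff_mk]
    exact hx _
  have e2 : ∀ i, v.Ge (x (PowerSeries.coeff 0 a) i) e := fun i =>
    (em _).imp id fun hi => he _ ⟨PowerSeries.mk fun n => x (PowerSeries.coeff n a) i,
      by rwa [PowerSeries.coeff_mk], by rw [PowerSeries.coeff_mk], fun j n hn => by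
        refine h3 (fun i => PowerSeries.coeff n
          ((PowerSeries.mk fun n => x (PowerSeries.coeff n a) i) * y j)) ?_ i
        have e3 := ha j n hn
        rw [e1, Finset.sum_mul, map_sum] at e3
        simp only [mul_assoc, ← map_mul, PowerSeries.coeff_C_mul, PowerSeries.coeff_map] at e3
        exact e3⟩
  refine Place.Ge.le ?_ h0
  rw [hx (PowerSeries.coeff 0 a)]
  refine Place.Ge.sum fun i _ => ?_
  have e4 : (Fr.toK.π v).Ge (Fr.FK (x (PowerSeries.coeff 0 a) i)) (Fr.Q * e) :=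
    (e2 i).imp (fun e5 => by rw [e5, map_zero]) fun e5 =>
      (mul_le_mul_of_nonneg_left e5 (Int.natCast_nonneg _)).trans_eq (Fr.toK.ord_F v _).symm
  simpa using (h1.pow i).mul e4

/-- multiply `a` by `μ` and by a constant of order `κ` -/
theorem adp_mul (v : Place kb K) {y z : J → PowerSeries K} {m : ℕ} {e : ℤ} (h : Adp v y m e)
    {Ψ : Matrix J J (PowerSeries K)} {κ : ℤ}
    (hΨ : ∀ l l' i, v.Ge (PowerSeries.coeff i (Ψ l l')) (-κ)) {μ : PowerSeries K} (hμ : IsUnit μ)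
    (hz : ∀ l, (PowerSeries.X : PowerSeries K) ^ m ∣ μ * z l - (Ψ *ᵥ y) l) :
    Adp v z m (e + κ + v.ord (PowerSeries.coeff 0 μ)) := by
  obtain ⟨a, h0, rfl, ha⟩ := h
  obtain ⟨t, ht0, ht⟩ := v.exists_ord_eq κ
  have h1 : PowerSeries.coeff 0 (PowerSeries.C t * (a * μ)) =
      t * (PowerSeries.coeff 0 a * PowerSeries.coeff 0 μ) := by
    rw [PowerSeries.coeff_C_mul, adp_coeff]
  have h2 := mul_ne_zero h0 (adp_ne hμ)
  refine ⟨PowerSeries.C t * (a * μ), h1 ▸ mul_ne_zero ht0 h2, ?_, fun l i hi => ?_⟩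
  · rw [h1, v.ord_mul ht0 h2, v.ord_mul h0 (adp_ne hμ), ht]
    ring
  · have h3 := PowerSeries.X_pow_dvd_iff.1 ((hz l).mul_left a) i hi
    rw [mul_sub, map_sub, sub_eq_zero] at h3
    rw [mul_assoc, PowerSeries.coeff_C_mul, mul_assoc, h3, ← add_neg_cancel κ]
    refine (Place.Ge.of_le ht.ge).mul ?_
    rw [mulVec, dotProduct, Finset.mul_sum, map_sum]
    refine Place.Ge.sum fun l' _ => ?_
    rw [mul_left_comm, PowerSeries.coeff_mul]
    refine Place.Ge.sum fun q hq => ?_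
    have h4 : q.1 + q.2 = i := by simpa using hq
    simpa using (hΨ l l' q.1).mul (ha l' q.2 (by omega))

theorem adp_tot {α : Type} (c : α →₀ ℤ) : tot c = ∑ᶠ v, c v :=
  (finsum_eq_sum_of_support_subset _ (by simp)).symm

/-- the least values `e v` vanish at almost all places, and
`Q * e v ≤ e (π v) + κ (π v) + ord (π v) (μ 0)`; sum up and use the product formula -/
theorem adp_bound (hB : Base kb θ) (Fr : Frb k kb K Ω) {y : J → PowerSeries K}
    (hy : ∃ j, IsUnit (y j)) {m : ℕ} (hm : 0 < m) {Ψ : Matrix J J (PowerSeries K)}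
    {κ : Place kb K →₀ ℕ} (hΨ : ∀ l l' i, PowerSeries.coeff i (Ψ l l') ∈ LL κ) {μ : PowerSeries K}
    (hμ : IsUnit μ) (hz : ∀ l, (PowerSeries.X : PowerSeries K) ^ m ∣
      μ * PowerSeries.map (Fr.FK : K →+* K) (y l) - (Ψ *ᵥ y) l) :
    ∃ e : Place kb K →₀ ℤ, (∀ v, Adp v y m (e v)) ∧ tot e ≤ (tot κ : ℕ) := by
  have hff := hB.ff k
  choose e he1 he2 using fun v : Place kb K => exists_adp v hy hm
  obtain ⟨j, hj⟩ := hy
  have hfin : (Function.support e).Finite := by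
    refine (Set.finite_iUnion fun p : J × Fin m =>
      hff.fin (PowerSeries.coeff p.2 (y p.1))).subset fun v hv => ?_
    by_contra h
    simp only [Set.mem_iUnion, not_exists, Set.mem_ofPred_eq, not_not] at h
    have h1 := he2 v 0 (adp_const fun j i hi => .of_le (by rw [h (j, ⟨i, hi⟩), neg_zero]))
    have h2 := adp_lower hj hm (he1 v)
    rw [h (j, ⟨0, hm⟩)] at h2
    exact hv (by omega)
  refine ⟨Finsupp.ofSupportFinite e hfin, he1, ?_⟩
  have hκ : (Function.support fun v => (κ v : ℤ)).Finite :=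
    κ.hasFiniteSupport.subset fun v hv h => hv (by simp [h])
  have h1 : ((tot κ : ℕ) : ℤ) = ∑ᶠ v, (κ v : ℤ) := by
    rw [finsum_eq_sum_of_support_subset (s := κ.support) _ fun v hv => by simpa using hv, tot,
      Finsupp.sum, Nat.cast_sum]
  have h2 : ∀ v, Fr.Q * e v ≤ e (Fr.toK.π v) + κ (Fr.toK.π v) +
      (Fr.toK.π v).ord (PowerSeries.coeff 0 μ) := fun v =>
    adp_frob hB Fr v (he2 v) (adp_mul _ (he1 _) (fun l l' i => hΨ l l' i _) hμ hz)
  have h3 : Function.HasFiniteSupport fun v => e v + κ v := hfin.union hκ |>.subset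
    (Function.support_add _ _)
  have h4 : Function.HasFiniteSupport fun v => e v + κ v + v.ord (PowerSeries.coeff 0 μ) :=
    (Set.Finite.union h3 (hff.fin _)).subset (Function.support_add _ _)
  have h5 := finsum_le_finsum' (f := fun v => Fr.Q * e v)
    (hfin.subset fun v hv h => hv (by simp [h]))
    (h4.preimage Fr.toK.π.injective.injOn) h2
  rw [finsum_comp_equiv Fr.toK.π (f := fun v => e v + κ v + v.ord (PowerSeries.coeff 0 μ)),
    finsum_add_distrib h3 (hff.fin _), finsum_add_distrib hfin hκ, hff.prod, ← mul_finsum, ← h1] at h5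
  rw [adp_tot, Finsupp.ofSupportFinite_coe]
  have h6 : (2 : ℤ) ≤ Fr.Q := by exact_mod_cast Fr.two_le
  have h7 := Int.natCast_nonneg (tot κ)
  nlinarith

end Pool.Agent.Lib.MP_6adaea_nt.W
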