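import Pool.Agent.Lib.MP_6adaea_nt.W.Sec

/-!
A multiple with bounded poles.
-/

set_option linter.unusedSectionVars false

namespace Pool.Agent.Lib.MP_6adaea_nt.W
open Matrix Polynomial G U
open scoped TensorProduct

variable {kb K : Type} [Field kb] [Field K] [Algebra kb K] [IsAlgClosed kb] [IsFF kb K]
  (p : ℕ) [Fact p.Prime] [CharP kb p]
  {J : Type} [Fintype J]

include p in
theorem bnd_place : Nonempty (Place kb K) := by
  by_contra h
  obtain ⟨t, ht, -⟩ := IsFF.ex (k := kb) (K := K)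
  obtain ⟨c, rfl⟩ := IsFF.pole (k := kb) p (x := t) fun v => absurd ⟨v⟩ h
  exact ht (isAlgebraic_algebraMap c)

/-- the series with given first coefficients -/
noncomputable def bnd_ser {M : ℕ} (a : Fin M → K) : PowerSeries K :=
  PowerSeries.mk fun n => if h : n < M then a ⟨n, h⟩ else 0

theorem bnd_coeff {M : ℕ} (a : Fin M → K) {n : ℕ} (h : n < M) :
    PowerSeries.coeff n (bnd_ser a) = a ⟨n, h⟩ := by
  rw [bnd_ser, PowerSeries.coeff_mk, dif_pos h]

theorem bnd_out {M : ℕ} (v : Place kb K) {a : Fin M → K} {s : ℤ} (ha : ∀ i, v.Ge (a i) s)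
    {y : PowerSeries K} (hy : ∀ n < M, v.Ge (PowerSeries.coeff n y) 0) {n : ℕ} (hn : n < M) :
    v.Ge (PowerSeries.coeff n (bnd_ser a * y)) s := by
  rw [PowerSeries.coeff_mul]
  refine Place.Ge.sum fun q hq => ?_
  have h := Finset.HasAntidiagonal.mem_antidiagonal.mp hq
  rw [bnd_coeff a (by omega)]
  simpa using (ha _).mul (hy q.2 (by omega))

theorem bnd_in {M : ℕ} (v : Place kb K) {c : Fin M → K} {s : ℤ} (hc : ∀ i, v.Ge (c i) s)
    (a : Fin M → PowerSeries K) {y : PowerSeries K}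
    (hy : ∀ i : Fin M, ∀ n < M - i, v.Ge (PowerSeries.coeff n (a i * y)) 0) {n : ℕ} (hn : n < M) :
    v.Ge (PowerSeries.coeff n (bnd_ser (∑ i, c i • fun l : Fin M =>
      PowerSeries.coeff l (PowerSeries.X ^ (i : ℕ) * a i)) * y)) s := by
  have e : PowerSeries.coeff n (bnd_ser (∑ i, c i • fun l : Fin M =>
      PowerSeries.coeff l (PowerSeries.X ^ (i : ℕ) * a i)) * y) =
      PowerSeries.coeff n ((∑ i, c i • (PowerSeries.X ^ (i : ℕ) * a i)) * y) := by
    rw [PowerSeries.coeff_mul, PowerSeries.coeff_mul]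
    refine Finset.sum_congr rfl fun q hq => ?_
    have h := Finset.HasAntidiagonal.mem_antidiagonal.mp hq
    rw [bnd_coeff _ (by omega), map_sum, Finset.sum_apply]
    rfl
  rw [e, Finset.sum_mul, map_sum]
  refine Place.Ge.sum fun i _ => ?_
  rw [smul_mul_assoc, map_smul, smul_eq_mul, mul_assoc, PowerSeries.coeff_X_pow_mul']
  split_ifs with h
  · simpa using (hc i).mul (hy i (n - i) (by omega))
  · simp

theorem bnd_lead {M : ℕ} {a : Fin M → K} {i : Fin M} (h : ∀ j < i, a j = 0) :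
    ∃ l : PowerSeries K, bnd_ser a = PowerSeries.X ^ (i : ℕ) * l ∧
      PowerSeries.constantCoeff l = a i := by
  obtain ⟨l, hl⟩ : (PowerSeries.X : PowerSeries K) ^ (i : ℕ) ∣ bnd_ser a :=
    PowerSeries.X_pow_dvd_iff.mpr fun n hn => by
      rw [bnd_coeff a (hn.trans i.2)]
      exact h _ hn
  refine ⟨l, hl, ?_⟩
  rw [← PowerSeries.coeff_zero_eq_constantCoeff_apply, ← PowerSeries.coeff_X_pow_mul l i 0, ← hl,
    zero_add, bnd_coeff a i.2]

theorem bnd_sum (m N : ℕ) : (∑ i : Fin (2 * m + 1), if m < (i : ℕ) then N else 0) = m * N := by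
  rw [Fin.sum_univ_eq_sum_range (fun i => if m < i then N else 0),
    show 2 * m + 1 = m + 1 + m by ring, Finset.sum_range_add,
    Finset.sum_eq_zero fun i hi => if_neg (by have := Finset.mem_range.mp hi; omega),
    Finset.sum_congr rfl fun i _ => if_pos (by omega)]
  simp

theorem bnd_small {m N : ℕ} {W : Submodule kb K} [FiniteDimensional kb W]
    (hW : Module.finrank kb W ≤ N) {u : K} (hu : u ≠ 0) (U : Submodule kb (Fin (2 * m + 1) → K))
    [FiniteDimensional kb U] (h0 : ∀ b ∈ U, ∀ i : Fin (2 * m + 1), (i : ℕ) ≤ m → b i = 0)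
    (h1 : ∀ b ∈ U, ∀ i, (∀ j < i, b j = 0) → b i * u ∈ W) : Module.finrank kb U ≤ m * N := by
  have h : ∀ i : Fin (2 * m + 1), ∃ L : Submodule kb K, FiniteDimensional kb L ∧
      Module.finrank kb L ≤ (if m < (i : ℕ) then N else 0) ∧
      ∀ b ∈ U, (∀ j < i, b j = 0) → b i ∈ L := fun i => by
    split_ifs with hm
    · exact ⟨W.map (LinearMap.mulRight kb u⁻¹), inferInstance,
        (Submodule.finrank_map_le _ _).trans hW,
        fun b hb hi => ⟨_, h1 b hb i hi, mul_inv_cancel_right₀ hu _⟩⟩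
    · exact ⟨⊥, inferInstance, (finrank_bot kb K).le, fun b hb _ => h0 b hb i (not_lt.mp hm)⟩
  choose L h2 h3 h4 using h
  exact (finrank_filt U L fun b hb i => h4 i b hb).trans
    ((Finset.sum_le_sum fun i _ => h3 i).trans_eq (bnd_sum m N))

include p in
/-- `C0` from `exists_sec`, `D = N • (one place)` with `N = 2 * (C0 + C1) + 1`, `W = LL D`. For
`i < 2 * m + 1` take `e i` for the level `2 * m + 1 - i`, `T` a finite set that contains the
supports and the poles of the first coefficients of `y`, `α v i` the coefficients of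
`X ^ i * a v i`. For `a ∈ U` the first `2 * m + 1` coefficients of `(∑ a i * X ^ i) * y j` lie in `W`.
If `a i = 0` for all `a ∈ U`, `i ≤ m`, then `finrank_filt` gives `finrank U ≤ m * (N + 1)`, which is
too small. Divide by the exact power of `X`. -/
theorem bnd_count (C1 : ℕ) : ∃ W : Submodule kb K, FiniteDimensional kb W ∧
    ∀ (m : ℕ) (y : J → PowerSeries K), (∃ j, IsUnit (y j)) →
      (∀ i, 0 < i → i ≤ 2 * m + 1 → ∃ e : Place kb K →₀ ℤ, (∀ v, Adp v y i (e v)) ∧ tot e ≤ C1) →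
      ∃ (l : PowerSeries K) (y' : J → PowerSeries K), IsUnit l ∧
        (∀ j i, PowerSeries.coeff i (y' j) ∈ W) ∧
        ∀ j, (PowerSeries.X : PowerSeries K) ^ (m + 1) ∣ l * y j - y' j := by
  classical
  obtain ⟨C0, hC0⟩ := exists_sec (kb := kb) (K := K) p
  obtain ⟨v0⟩ := bnd_place (kb := kb) (K := K) p
  obtain ⟨D, hD⟩ : ∃ D : Place kb K →₀ ℕ, tot D = 2 * (C0 + C1) + 1 :=
    ⟨Finsupp.single v0 _, Finsupp.sum_single_index rfl⟩
  obtain ⟨hfin, hrk⟩ := LL_fin p D
  refine ⟨LL D, hfin, fun m y ⟨j0, hj0⟩ h => ?_⟩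
  choose e he he' using fun i : Fin (2 * m + 1) =>
    h (2 * m + 1 - i) (Nat.sub_pos_of_lt i.2) (Nat.sub_le _ _)
  choose a ha0 ha1 ha2 using he
  obtain ⟨T, hT1, hT2⟩ : ∃ T : Finset (Place kb K), (∀ i, (e i).support ⊆ T) ∧
      ∀ v ∉ T, ∀ j, ∀ n < 2 * m + 1, v.Ge (PowerSeries.coeff n (y j)) 0 := by
    refine ⟨Finset.univ.biUnion (fun i => (e i).support) ∪ Finset.univ.biUnion fun j =>
      (Finset.range (2 * m + 1)).biUnion fun n => (IsFF.fin p (PowerSeries.coeff n (y j))).toFinset,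
      fun i => (Finset.subset_biUnion_of_mem (fun i => (e i).support) (Finset.mem_univ i)).trans
        Finset.subset_union_left, fun v hv j n hn => Place.Ge.of_le (ge_of_eq ?_)⟩
    by_contra h0
    exact hv (Finset.mem_union_right _ (Finset.mem_biUnion.mpr ⟨j, Finset.mem_univ _,
      Finset.mem_biUnion.mpr ⟨n, Finset.mem_range.mpr hn, (Set.Finite.mem_toFinset _).mpr h0⟩⟩))
  have hd : ∀ v (i : Fin (2 * m + 1)), PowerSeries.coeff i (PowerSeries.X ^ (i : ℕ) * a i v) =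
      PowerSeries.coeff 0 (a i v) := fun v i => by
    rw [PowerSeries.coeff_X_pow_mul', if_pos le_rfl, Nat.sub_self]
  obtain ⟨U, hU, h1, h2⟩ := hC0 (2 * m + 1) D T
    (fun v i l => PowerSeries.coeff l (PowerSeries.X ^ (i : ℕ) * a i v))
    (fun v i l hl => by rw [PowerSeries.coeff_X_pow_mul', if_neg (not_le.mpr (Fin.lt_def.mp hl))])
    fun v i => by rw [hd]; exact ha0 i v
  have h3 : ∀ b ∈ U, ∀ j, ∀ n < 2 * m + 1, PowerSeries.coeff n (bnd_ser b * y j) ∈ LL D := by
    intro b hb j n hn v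
    by_cases hv : v ∈ T
    · obtain ⟨c, hc, rfl⟩ := (h2 b hb).1 v hv
      exact bnd_in v hc (fun i => a i v) (fun i => ha2 i v j) hn
    · exact bnd_out v ((h2 b hb).2 v hv) (hT2 v hv j) hn
  have h4 : ∑ v ∈ T, ∑ i : Fin (2 * m + 1),
      v.ord (PowerSeries.coeff i (PowerSeries.X ^ (i : ℕ) * a i v)) ≤ (2 * m + 1 : ℕ) * C1 := by
    simp only [hd, ha1]
    rw [Finset.sum_comm]
    refine (Finset.sum_le_card_nsmul _ _ (C1 : ℤ) fun i _ => ?_).trans_eq (by simp)
    exact (Finsupp.sum_of_support_subset (e i) (hT1 i) (fun _ x => x) fun _ _ => rfl).symm.trans_le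
      (he' i)
  obtain ⟨b, hb, i, hi, hi0⟩ : ∃ b ∈ U, ∃ i : Fin (2 * m + 1), (i : ℕ) ≤ m ∧ b i ≠ 0 := by
    by_contra hc
    push Not at hc
    have hu : PowerSeries.constantCoeff (y j0) ≠ 0 :=
      (PowerSeries.isUnit_iff_constantCoeff.mp hj0).ne_zero
    have h6 := bnd_small hrk hu U hc fun b hb i hi => by
      obtain ⟨l, hl, hl0⟩ := bnd_lead hi
      have h5 := h3 b hb j0 i i.2
      rwa [hl, mul_assoc, PowerSeries.coeff_X_pow_mul', if_pos le_rfl, Nat.sub_self,
        PowerSeries.coeff_zero_eq_constantCoeff_apply, map_mul, hl0] at h5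
    rw [hD] at h1 h6
    have h7 : (Module.finrank kb U : ℤ) ≤ m * (2 * (C0 + C1) + 1 + 1) := by exact_mod_cast h6
    have h8 : (0 : ℤ) ≤ C0 + C1 := by positivity
    push_cast at h1 h4
    linarith
  obtain ⟨i0, hi1, hi2⟩ := wellFounded_lt.has_min {i | b i ≠ 0} ⟨i, hi0⟩
  have hi3 : (i0 : ℕ) ≤ m := le_trans (not_lt.mp (hi2 i hi0)) hi
  obtain ⟨l, hl, hl0⟩ := bnd_lead (a := b) (i := i0) fun j hj => not_not.mp fun h => hi2 j h hj
  refine ⟨l, fun j => PowerSeries.mk fun n =>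
    if n < m + 1 then PowerSeries.coeff n (l * y j) else 0,
    PowerSeries.isUnit_iff_constantCoeff.mpr (hl0 ▸ Ne.isUnit hi1), fun j n => ?_,
    fun j => PowerSeries.X_pow_dvd_iff.mpr fun n hn => ?_⟩
  · rw [PowerSeries.coeff_mk]
    split_ifs with hn
    · rw [← PowerSeries.coeff_X_pow_mul _ i0, ← mul_assoc, ← hl]
      exact h3 b hb j _ (by omega)
    · exact zero_mem _
  · rw [map_sub, PowerSeries.coeff_mk, if_pos hn, sub_self]

theorem bnd_gp (W : Submodule kb K) (τ : Fin 2 → PowerSeries kb) (f : R2 K)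
    (h : ∀ μ ∈ f.support, f.coeff μ ∈ W) (i : ℕ) : PowerSeries.coeff i (gp K τ f) ∈ W := by
  rw [gp, MvPolynomial.aeval_def, MvPolynomial.eval₂_eq', map_sum]
  refine W.sum_mem fun μ hμ => ?_
  simp only [← map_pow, ← map_prod]
  rw [← Algebra.smul_def, map_smul, PowerSeries.coeff_map, smul_eq_mul, mul_comm,
    ← Algebra.smul_def]
  exact W.smul_mem _ (h μ hμ)

include p in
/-- the coefficients of `gp K τ f` are `kb`-linear combinations of the coefficients of `f`;
`north_poles` -/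
theorem exists_gp_bound (Ψ : Matrix J J (R2 K)) : ∃ κ : Place kb K →₀ ℕ,
    ∀ (τ : Fin 2 → PowerSeries kb) l l' i, PowerSeries.coeff i (Ψ.map (gp K τ) l l') ∈ LL κ := by
  choose κ hκ _ using north_poles (k := kb) (K := K) p
  refine ⟨∑ l, ∑ l', ∑ μ ∈ (Ψ l l').support, κ ((Ψ l l').coeff μ), fun τ l l' i =>
    bnd_gp (LL _) τ (Ψ l l') (fun μ hμ v => ?_) i⟩
  refine (hκ _ v).mono (neg_le_neg (Int.ofNat_le.mpr ?_))
  simp only [Finsupp.finsetSum_apply]
  refine le_trans ?_ (Finset.single_le_sum (fun _ _ => Nat.zero_le _) (Finset.mem_univ l))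
  refine le_trans ?_ (Finset.single_le_sum (fun _ _ => Nat.zero_le _) (Finset.mem_univ l'))
  exact Finset.single_le_sum (f := fun μ => κ ((Ψ l l').coeff μ) v) (fun _ _ => Nat.zero_le _) hμ

end Pool.Agent.Lib.MP_6adaea_nt.W
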