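import Pool.Agent.Lib.MP_6adaea_nt.W.PhiA
import Pool.Agent.Lib.MP_6adaea_nt.U.FFun

/-!
Centres of valuations and their transport.
-/

set_option linter.unusedSectionVars false

namespace Pool.Agent.Lib.MP_6adaea_nt.W
open Matrix Polynomial G U
open scoped TensorProduct

variable {k C E : Type} [Field k] [Finite k] [Field C] [Field E] [Algebra k C] [Algebra k E]
  [Algebra C E] [IsScalarTower k C E] [IsAlgClosed C] [IsAlgClosed E] {θ : E} {r : ℕ} {g : ℕ → E}
  {n J : Type} [Fintype n] [DecidableEq n] [Fintype J] [DecidableEq J]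

theorem cen_ge {V : QVal E} {a : C} (hV : Cen C V θ a) : V.Ge θ 0 := by
  simpa using hV.2.ge.add (hV.1.ge_const a)

theorem cen_pow {V : QVal E} {a : C} (hV : Cen C V θ a) (m : ℕ) :
    V.Gt (θ ^ m - algebraMap C E (a ^ m)) 0 := by
  have h := hV.1.gt_res ((cen_ge hV).pow₀ m)
  rwa [hV.1.res_pow (cen_ge hV), hV.1.res_eq hV.2] at h

theorem cen_unit {V : QVal E} (hV : V.HasRes C) {x : E} {c : C} (hc : c ≠ 0)
    (h : V.Gt (x - algebraMap C E c) 0) : x ≠ 0 ∧ V.ord x = 0 := by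
  have h1 := QVal.ord_eq_of_sub (V := V) (f := algebraMap C E c) (g := x) (by simpa using hc)
    (by rwa [hV.const])
  rwa [hV.const] at h1

theorem cen_aeval {V : QVal E} {a : C} (hV : Cen C V θ a) (p : C[X]) :
    V.Gt (aeval θ p - algebraMap C E (p.eval a)) 0 := by
  induction p using Polynomial.induction_on' with
  | add p q hp hq =>
    rw [map_add, eval_add, map_add, add_sub_add_comm]
    exact hp.add hq
  | monomial m c =>
    rw [aeval_monomial, eval_monomial, map_mul, ← mul_sub]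
    exact (hV.1.ge_const c).mul_gt₀ (cen_pow hV m)

theorem cen_fin (c : IntermediateField.adjoin C {θ}) :
    {a : C | ∃ V, Cen C V θ a ∧ V.ord (c : E) ≠ 0}.Finite := by
  classical
  obtain ⟨p, q, h⟩ := (IntermediateField.mem_adjoin_simple_iff C (c : E)).1 c.2
  by_cases h0 : (c : E) = 0
  · exact Set.finite_empty.subset fun a ⟨V, _, h1⟩ => h1 (by rw [h0, V.ord_zero'])
  have hp : p ≠ 0 := fun e => h0 (by simp [h, e])
  have hq : q ≠ 0 := fun e => h0 (by simp [h, e])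
  refine ((p * q).roots.toFinset.finite_toSet).subset fun a ⟨V, hV, h1⟩ => ?_
  rw [Finset.mem_coe, Multiset.mem_toFinset, mem_roots (mul_ne_zero hp hq), IsRoot, eval_mul,
    mul_eq_zero]
  by_contra h2
  rw [not_or] at h2
  obtain ⟨h3, h4⟩ := cen_unit hV.1 h2.1 (cen_aeval hV p)
  obtain ⟨h5, h6⟩ := cen_unit hV.1 h2.2 (cen_aeval hV q)
  exact h1 (by rw [h, V.ord_div h3 h5, h4, h6, sub_self])

theorem cen_card_pos (i : ℕ) : 0 < Nat.card k ^ i :=
  pow_pos (lt_of_lt_of_le two_pos two_le_card) i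

theorem cen_sign (V : QVal E) (m : ℕ) : V.ord ((-1) ^ m : E) = 0 := by simp

variable (T : Tri k C θ)

theorem cen_Q_pos : (0 : ℚ) < T.Q := by
  have := T.two_le
  exact_mod_cast (by omega : 0 < T.Q)

theorem cen_root (c : C) : ∃ d : C, d ^ T.Q = c :=
  IsAlgClosed.exists_pow_nat_eq c (by have := T.two_le; omega)

theorem cen_γ (c : C) : T.γ (algebraMap C E (c ^ T.Q)) = algebraMap C E c := by
  rw [← T.symm_const, AlgEquiv.apply_symm_apply]

include T in
/-- `f` is a root of `∑ p i (θ) * f ^ i` with polynomials `p i` over `C`, not all zero. If no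
nonzero `p i` vanishes at `a` then all nonzero coefficients have order zero, and
`QVal.exists_two_min` gives `V.ord f = 0`. -/
theorem Tri.finV (f : E) : {a : C | ∃ V, Cen C V θ a ∧ V.ord f ≠ 0}.Finite := by
  have := T.alg
  obtain ⟨μ, hμ, h⟩ := Algebra.IsAlgebraic.isAlgebraic (R := IntermediateField.adjoin C {θ}) f
  refine (μ.support.finite_toSet.biUnion fun i _ => cen_fin (μ.coeff i)).subset
    fun a ⟨V, hV, h1⟩ => ?_
  by_contra h2
  simp only [Set.mem_iUnion, not_exists, Set.mem_ofPred_eq, not_and, not_not] at h2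
  have h0 : f ≠ 0 := fun e => h1 (by rw [e, V.ord_zero'])
  have h3 : ∀ i ∈ μ.support, (μ.coeff i : E) * f ^ i ≠ 0 ∧
      V.ord ((μ.coeff i : E) * f ^ i) = i * V.ord f := fun i hi => by
    have h4 : (μ.coeff i : E) ≠ 0 := fun e => mem_support_iff.1 hi (Subtype.ext e)
    exact ⟨mul_ne_zero h4 (pow_ne_zero _ h0), by
      rw [V.ord_mul h4 (pow_ne_zero _ h0), h2 i hi V hV, V.ord_pow, zero_add]⟩
  rw [aeval_def, eval₂_eq_sum, Polynomial.sum_def] at h
  obtain ⟨b, hb⟩ := support_nonempty.2 hμ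
  obtain ⟨i, hi, j, hj, hij, -, -, h5, -⟩ := QVal.exists_two_min (V := V)
    (f := fun i => (μ.coeff i : E) * f ^ i) h hb (h3 b hb).1
  rw [(h3 i hi).2, (h3 j hj).2] at h5
  exact hij (Nat.cast_injective (mul_right_cancel₀ h1 h5))

include T in
/-- `C⟮θ⟯` is a function field, `(θ - a)⁻¹` has a pole (`IsFF.pole`, `exists_char`);
`exists_qval`, `QVal.Over.hasRes` -/
theorem Tri.exists_cen (a : C) : ∃ V, Cen C V θ a := by
  have := T.alg
  have h1 : IntermediateField.adjoin C {IntermediateField.AdjoinSimple.gen C θ} = ⊤ :=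
    IntermediateField.lift_injective _ (by
      rw [IntermediateField.lift_adjoin_simple, IntermediateField.lift_top]
      rfl)
  have h2 : Transcendental C (IntermediateField.AdjoinSimple.gen C θ) :=
    (transcendental_algebraMap_iff
      (algebraMap (IntermediateField.adjoin C {θ}) E).injective).1 T.tr
  have : IsFF C (IntermediateField.adjoin C {θ}) := ⟨_, h2, by
    rw [h1]
    exact Module.finite_of_finrank_pos (by rw [IntermediateField.finrank_top]; exact one_pos)⟩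
  obtain ⟨p, _, _, _, -⟩ := exists_char k C
  set x := IntermediateField.AdjoinSimple.gen C θ - algebraMap C _ a with hx
  have h3 : ¬ ∀ v : Place C (IntermediateField.adjoin C {θ}), v.Ge x⁻¹ 0 := fun h => by
    obtain ⟨c, hc⟩ := IsFF.pole p h
    refine h2 ?_
    have h4 : IntermediateField.AdjoinSimple.gen C θ = algebraMap C _ (c⁻¹ + a) := by
      rw [map_add, map_inv₀, ← hc, inv_inv, hx, sub_add_cancel]
    rw [h4]
    exact isAlgebraic_algebraMap _
  obtain ⟨v, hv⟩ := not_forall.1 h3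
  obtain ⟨V, hV⟩ := exists_qval E v
  refine ⟨V, hV.hasRes, QVal.Gt.of_lt ?_⟩
  have h5 := (QVal.not_ge_iff.1 (mt hV.ge_zero.1 hv)).2
  rw [map_inv₀, V.ord_inv, neg_lt_zero] at h5
  exact h5

theorem Cen.ord_sub_pow {V : QVal E} {a : C} (hV : Cen C V θ a) {s : C} {m : ℕ} (h : s ≠ a ^ m) :
    algebraMap C E s - θ ^ m ≠ 0 ∧ V.ord (algebraMap C E s - θ ^ m) = 0 := by
  refine cen_unit hV.1 (sub_ne_zero.2 h) ?_
  have h1 := (cen_pow hV m).neg
  rw [map_sub]
  convert h1 using 1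
  ring

theorem pow_inj {a : C} (ha : Transcendental k a) {m m' : ℕ} (h : a ^ m = a ^ m') : m = m' := by
  have h1 : (X ^ m : k[X]) = X ^ m' :=
    transcendental_iff_injective.1 ha (by simpa using h)
  simpa using congrArg natDegree h1

theorem Orb.tr {t a : C} (h : Orb (Nat.card k) t a) (ht : Transcendental k t) :
    Transcendental k a := by
  obtain ⟨i, j, h⟩ := h
  exact fun ha => ht (IsAlgebraic.of_pow (cen_card_pos j) (h ▸ ha.pow _))

/-- `V.comap γ.symm` -/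
theorem Tri.cen_up {V : QVal E} {a : C} (hV : Cen C V θ a) :
    ∃ V' a', Cen C V' θ a' ∧ a' ^ T.Q = a ∧ T.Tr V V' := by
  obtain ⟨a', ha⟩ := cen_root T a
  refine ⟨V.comap (T.γ.symm : E →+* E), a', ⟨⟨fun c => ?_, fun x hx => ?_⟩, ?_⟩, ha, fun x => ?_⟩
  · rw [QVal.comap_ord, RingHom.coe_coe, T.symm_const, hV.1.const]
  · obtain ⟨c, hc⟩ := hV.1.res _ ((V.comap_ge _ _ _).1 hx)
    obtain ⟨d, rfl⟩ := cen_root T c
    exact ⟨d, by rwa [QVal.comap_gt, map_sub, RingHom.coe_coe, T.symm_const]⟩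
  · have h1 : T.γ.symm θ = θ := by rw [AlgEquiv.symm_apply_eq, T.fix]
    rw [QVal.comap_gt, map_sub, RingHom.coe_coe, T.symm_const, ha, h1]
    exact hV.2
  · rw [QVal.comap_ord, RingHom.coe_coe, T.F_apply, map_pow, AlgEquiv.symm_apply_apply, V.ord_pow]

/-- `V.comap γ` -/
theorem Tri.cen_down {V : QVal E} {a : C} (hV : Cen C V θ a) :
    ∃ V', Cen C V' θ (a ^ T.Q) ∧ T.Tr V' V := by
  refine ⟨V.comap (T.γ : E →+* E), ⟨⟨fun c => ?_, fun x hx => ?_⟩, ?_⟩, fun x => ?_⟩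
  · obtain ⟨d, rfl⟩ := cen_root T c
    rw [QVal.comap_ord, RingHom.coe_coe, cen_γ, hV.1.const]
  · obtain ⟨c, hc⟩ := hV.1.res _ ((V.comap_ge _ _ _).1 hx)
    exact ⟨c ^ T.Q, by rwa [QVal.comap_gt, map_sub, RingHom.coe_coe, cen_γ]⟩
  · rw [QVal.comap_gt, map_sub, RingHom.coe_coe, cen_γ, T.fix]
    exact hV.2
  · rw [QVal.comap_ord, RingHom.coe_coe, T.F_apply, V.ord_pow]

theorem Tri.exists_chain {V : QVal E} {t : C} (hV : Cen C V θ t) (ht : Transcendental k t) :
    ∃ (W : ℕ → QVal E) (a : ℕ → C), W 0 = V ∧ (∀ m, Cen C (W m) θ (a m)) ∧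
      (∀ m, a m ^ T.Q ^ m = t) ∧ Function.Injective a ∧ ∀ m, T.Tr (W m) (W (m + 1)) := by
  have h1 : ∀ x : {x : QVal E × C // Cen C x.1 θ x.2}, ∃ y : {x : QVal E × C // Cen C x.1 θ x.2},
      y.1.2 ^ T.Q = x.1.2 ∧ T.Tr x.1.1 y.1.1 := fun x => by
    obtain ⟨V', a', h2, h3⟩ := T.cen_up x.2
    exact ⟨⟨(V', a'), h2⟩, h3⟩
  choose f h2 h3 using h1
  have h4 : ∀ m, (f^[m] ⟨(V, t), hV⟩).1.2 ^ T.Q ^ m = t := fun m => by
    induction m with
    | zero => simp
    | succ m ih => rw [Function.iterate_succ_apply', pow_succ', pow_mul, h2, ih]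
  refine ⟨fun m => (f^[m] ⟨(V, t), hV⟩).1.1, fun m => (f^[m] ⟨(V, t), hV⟩).1.2, rfl,
    fun m => (f^[m] ⟨(V, t), hV⟩).2, h4, fun m m' h => ?_, fun m => ?_⟩
  · have h5 : Transcendental k (f^[m] ⟨(V, t), hV⟩).1.2 := fun h6 => ht (h4 m ▸ h6.pow _)
    have h6 := h4 m'
    rw [← (show (f^[m] ⟨(V, t), hV⟩).1.2 = (f^[m'] ⟨(V, t), hV⟩).1.2 from h)] at h6
    exact Nat.pow_right_injective T.two_le (pow_inj h5 ((h4 m).trans h6.symm))
  · simp only [Function.iterate_succ_apply']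
    exact h3 _

theorem Tri.exists_chain' {V : QVal E} {t : C} (hV : Cen C V θ t) :
    ∃ W : ℕ → QVal E, W 0 = V ∧ (∀ m, Cen C (W m) θ (t ^ T.Q ^ m)) ∧
      ∀ m, T.Tr (W (m + 1)) (W m) := by
  have h1 : ∀ m (x : {x : QVal E // Cen C x θ (t ^ T.Q ^ m)}),
      ∃ y : {x : QVal E // Cen C x θ (t ^ T.Q ^ (m + 1))}, T.Tr y.1 x.1 := fun m x => by
    obtain ⟨V', h2, h3⟩ := T.cen_down x.2
    exact ⟨⟨V', by rwa [pow_succ, pow_mul]⟩, h3⟩
  choose f hf using h1
  let W : ∀ m, {x : QVal E // Cen C x θ (t ^ T.Q ^ m)} := fun m =>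
    Nat.rec ⟨V, by rwa [pow_zero, pow_one]⟩ f m
  exact ⟨fun m => (W m).1, rfl, fun m => (W m).2, fun m => hf m (W m)⟩

variable {T}

theorem Tri.Tr.ge_iff {V V' : QVal E} (h : T.Tr V V') {x : E} : V'.Ge (T.F x) 0 ↔ V.Ge x 0 := by
  simp [QVal.Ge, h x, cen_Q_pos T]

theorem Tri.Tr.gt_iff {V V' : QVal E} (h : T.Tr V V') {x : E} : V'.Gt (T.F x) 0 ↔ V.Gt x 0 := by
  simp [QVal.Gt, h x, cen_Q_pos T]

theorem Tri.Tr.red {V V' : QVal E} (h : T.Tr V V') {y : J → E} {w : J → C} (hy : Red V y w) :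
    Red V' (fun j => T.F (y j)) w := by
  obtain ⟨h0, l, hl⟩ := hy
  refine ⟨h0, T.F l, fun j => ?_⟩
  have h1 := h.gt_iff.2 (hl j)
  rwa [map_sub, map_mul, AlgHom.commutes] at h1

theorem Tri.Tr.uni_iff {V V' : QVal E} (h : T.Tr V V') {A : Matrix n n E} :
    Uni V' (A.map T.F) ↔ Uni V A := by
  constructor
  · rintro ⟨h1, B, h2, h3⟩
    refine ⟨fun i j => h.ge_iff.1 (h1 i j), B.map T.Fe.symm, fun i j => h.ge_iff.1 ?_, ?_⟩
    · rw [map_apply, ← T.Fe_apply, RingEquiv.apply_symm_apply]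
      exact h2 i j
    · have h4 : A = (A.map T.F).map T.Fe.symm := by
        ext i j
        rw [map_apply, map_apply, ← T.Fe_apply, RingEquiv.symm_apply_apply]
      rw [h4, ← Matrix.map_mul, h3, Matrix.map_one _ (map_zero _) (map_one _)]
  · rintro ⟨h1, B, h2, h3⟩
    refine ⟨fun i j => h.ge_iff.2 (h1 i j), B.map T.F, fun i j => h.ge_iff.2 (h2 i j), ?_⟩
    rw [← Matrix.map_mul, h3, Matrix.map_one _ (map_zero _) (map_one _)]

variable (T)

/-- along the chain the order of `x` is constant; `finV` -/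
theorem Tri.ord_fix {V : QVal E} {a : C} (hV : Cen C V θ a) (ha : Transcendental k a) {x : E}
    (hx : T.γ x = x) : V.ord x = 0 := by
  obtain ⟨W, b, h0, h1, -, h2, h3⟩ := T.exists_chain hV ha
  have h4 : ∀ m, (W m).ord x = V.ord x := fun m => by
    induction m with
    | zero => rw [h0]
    | succ m ih =>
      have h5 := h3 m x
      rw [T.F_apply, hx, QVal.ord_pow, ih] at h5
      exact mul_left_cancel₀ (cen_Q_pos T).ne' h5
  by_contra h5
  refine Set.infinite_of_injective_forall_mem h2 (fun m => ?_) (T.finV x)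
  exact ⟨W m, h1 m, by rwa [h4]⟩

theorem Tri.co_ge (hg : ∀ i, T.γ (g i) = g i) {V : QVal E} {a : C} (hV : Cen C V θ a)
    (ha : Transcendental k a) (i : Fin r) : V.Ge (co θ g r i) 0 := by
  unfold co
  split_ifs
  · exact cen_ge hV
  · exact QVal.Ge.of_le (T.ord_fix hV ha (hg i)).ge

theorem Tri.uniOrb_tw {t : C} {A : Matrix J J E} (h : UniOrb k θ t A) (j : ℕ) :
    UniOrb k θ t (tw T.F A j) := by
  induction j with
  | zero => exact h
  | succ j ih =>
    intro V a hV ha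
    obtain ⟨V', h1, h2⟩ := T.cen_down hV
    refine (h2.uni_iff.2 (ih V' _ h1 ?_)).mul (h V a hV ha)
    obtain ⟨i, l, h3⟩ := ha
    exact ⟨i, l + T.c, by rw [pow_right_comm, h3, pow_add, pow_mul, Tri.Q]⟩

/-- `Phit_det`, `Cen.ord_sub_pow` -/
theorem Cen.det_Phit {V : QVal E} {a : C} (hV : Cen C V θ a) (hr : 0 < r) (hg : g r = 1) {s : C}
    {c : ℕ} (h : ∀ i < c, s ≠ a ^ Nat.card k ^ i) :
    (Phit k θ r g c).det.eval (algebraMap C E s) ≠ 0 ∧
      V.ord ((Phit k θ r g c).det.eval (algebraMap C E s)) = 0 := by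
  have h1 : ∀ i ∈ Finset.range c,
      (-1) ^ (r - 1) * (algebraMap C E s - θ ^ Nat.card k ^ i) ≠ 0 ∧
        V.ord ((-1) ^ (r - 1) * (algebraMap C E s - θ ^ Nat.card k ^ i)) = 0 := fun i hi => by
    obtain ⟨h2, h3⟩ := hV.ord_sub_pow (h i (Finset.mem_range.1 hi))
    have h4 : ((-1) ^ (r - 1) : E) ≠ 0 := by simp
    exact ⟨mul_ne_zero h4 h2, by rw [V.ord_mul h4 h2, h3, cen_sign, add_zero]⟩
  simp only [Phit_det hr hg, eval_prod, eval_mul, eval_pow, eval_neg, eval_one, eval_sub, eval_X,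
    eval_C]
  exact ⟨Finset.prod_ne_zero_iff.2 fun i hi => (h1 i hi).1, by
    rw [V.ord_prod _ _ fun i hi => (h1 i hi).1]
    exact Finset.sum_eq_zero fun i hi => (h1 i hi).2⟩

theorem Cen.det_frob_Phit {V : QVal E} {t : C} (hV : Cen C V θ t) (ht : Transcendental k t)
    (hr : 0 < r) (hg : g r = 1) (c : ℕ) :
    (pmap (frob k E : E →+* E) (Phit k θ r g c)).det.eval (algebraMap C E t) ≠ 0 ∧
      V.ord ((pmap (frob k E : E →+* E) (Phit k θ r g c)).det.eval (algebraMap C E t)) = 0 := by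
  have h0 : ∀ x : E, frob k E x = x ^ Nat.card k := fun x => by
    simpa using frob_pow_apply (k := k) 1 x
  have h1 : ∀ i ∈ Finset.range c,
      (-1) ^ (r - 1) * (algebraMap C E t - θ ^ Nat.card k ^ (i + 1)) ≠ 0 ∧
        V.ord ((-1) ^ (r - 1) * (algebraMap C E t - θ ^ Nat.card k ^ (i + 1))) = 0 := fun i _ => by
    obtain ⟨h2, h3⟩ := hV.ord_sub_pow (s := t) (m := Nat.card k ^ (i + 1)) fun e =>
      (Nat.one_lt_pow i.succ_ne_zero (two_le_card (K := k))).ne
        (pow_inj ht ((pow_one t).trans e))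
    have h4 : ((-1) ^ (r - 1) : E) ≠ 0 := by simp
    exact ⟨mul_ne_zero h4 h2, by rw [V.ord_mul h4 h2, h3, cen_sign, add_zero]⟩
  simp only [pmap_det, Phit_det hr hg, Polynomial.map_prod, Polynomial.map_mul, Polynomial.map_pow,
    Polynomial.map_neg, Polynomial.map_one, Polynomial.map_sub, map_X, map_C, RingHom.coe_coe, h0,
    ← pow_mul, ← pow_succ, eval_prod, eval_mul, eval_pow, eval_neg, eval_one, eval_sub, eval_X,
    eval_C]
  exact ⟨Finset.prod_ne_zero_iff.2 fun i hi => (h1 i hi).1, by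
    rw [V.ord_prod _ _ fun i hi => (h1 i hi).1]
    exact Finset.sum_eq_zero fun i hi => (h1 i hi).2⟩

/-- the Frobenius matrix is unimodular away from its zeros -/
theorem Tri.uni_Ph (hr : 0 < r) (hD : T.Dr r g) {V : QVal E} {a : C} (hV : Cen C V θ a)
    (ha : Transcendental k a) {s : C} (h : ∀ i < T.c, s ≠ a ^ Nat.card k ^ i) :
    Uni V (T.Ph r g s) := by
  obtain ⟨h1, h2⟩ := hV.det_Phit hr hD.one h
  exact uni_eval (Phit_mem hD.one V.O (fun i => T.co_ge hD.fix hV ha i) _) (hV.1.ge_const s) h1 h2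

theorem Tri.ne_of_root {t a : C} (ht : Transcendental k t) {m : ℕ} (h : a ^ T.Q ^ (m + 1) = t) :
    Transcendental k a ∧ Orb (Nat.card k) t a ∧ ∀ i < T.c, t ≠ a ^ Nat.card k ^ i := by
  have ha : Transcendental k a := fun h1 => ht (h ▸ h1.pow _)
  rw [Tri.Q, ← pow_mul] at h
  refine ⟨ha, ⟨_, 0, by rw [h, pow_zero, pow_one]⟩, fun i hi e => ?_⟩
  have h1 := Nat.pow_right_injective (two_le_card (K := k)) (pow_inj ha (h.trans e))
  have h2 : T.c ≤ T.c * (m + 1) := Nat.le_mul_of_pos_right _ m.succ_pos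
  omega

end Pool.Agent.Lib.MP_6adaea_nt.W
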