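import Pool.Agent.Lib.MP_6adaea_nt.W.Defs2

/-!
Linear conditions at one place.
-/

set_option linter.unusedSectionVars false

namespace Pool.Agent.Lib.MP_6adaea_nt.W
open Matrix Polynomial G U
open scoped TensorProduct

variable {kb K : Type} [Field kb] [Field K] [Algebra kb K] [IsAlgClosed kb] [IsFF kb K]
  (p : ℕ) [Fact p.Prime] [CharP kb p]

theorem cut_one {A : Type} [AddCommGroup A] [Module kb A] (U : Submodule kb A)
    [FiniteDimensional kb U] (l : A →ₗ[kb] K) (v : Place kb K) (s : ℤ)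
    (h : ∀ u ∈ U, v.Ge (l u) s) :
    ∃ U' ≤ U, (∀ u ∈ U', v.Ge (l u) (s + 1)) ∧ Module.finrank kb U ≤ Module.finrank kb U' + 1 := by
  by_cases hc : ∀ u ∈ U, v.Ge (l u) (s + 1)
  · exact ⟨U, le_rfl, hc, Nat.le_succ _⟩
  obtain ⟨u₀, hu₀⟩ := not_forall.mp hc
  obtain ⟨hU, hn⟩ := Classical.not_imp.mp hu₀
  obtain ⟨h0, h1⟩ := Place.not_ge_iff.mp hn
  have h2 : v.ord (l u₀) = s := by
    have := (h u₀ hU).le h0
    omega
  let Z : Submodule kb A :=
    { carrier := {u | v.Ge (l u) (s + 1)}
      add_mem' := fun ha hb => by simpa using Place.Ge.add ha hb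
      zero_mem' := by simp
      smul_mem' := fun c _ ha => by simpa using Place.Ge.smul ha c }
  have : FiniteDimensional kb ↥(U ⊓ Z) := Submodule.finiteDimensional_of_le inf_le_left
  refine ⟨U ⊓ Z, inf_le_left, fun u hu => hu.2, ?_⟩
  have hle : U ≤ (U ⊓ Z) ⊔ Submodule.span kb {u₀} := fun u hu => by
    have h3 : v.Ge (l u * (l u₀)⁻¹) 0 := by
      rw [Place.ge_mul_iff (inv_ne_zero h0)]
      simpa [h2] using h u hu
    obtain ⟨c, hc⟩ := v.exists_res h3
    have h4 := hc.mul (v.ge_ord (l u₀))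
    rw [sub_mul, inv_mul_cancel_right₀ h0, ← Algebra.smul_def, h2, add_comm] at h4
    have e : u = (u - c • u₀) + c • u₀ := by abel
    rw [e]
    refine Submodule.add_mem_sup ⟨U.sub_mem hu (U.smul_mem c hU), ?_⟩
      (Submodule.smul_mem _ c (Submodule.mem_span_singleton_self u₀))
    change v.Ge (l (u - c • u₀)) (s + 1)
    simpa using h4
  have h5 : Module.finrank kb (Submodule.span kb {u₀}) ≤ 1 := by
    simpa using finrank_span_le_card ({u₀} : Set A)
  exact (Submodule.finrank_mono hle).trans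
    ((Submodule.finrank_add_le_finrank_add_finrank _ _).trans (by omega))

theorem cut_filter {m n : ℕ} (hn : n < m) {M : Type} [AddCommMonoid M] (f : Fin m → M) :
    ∑ i ∈ Finset.univ.filter (fun i : Fin m => (i : ℕ) < n + 1), f i =
      ∑ i ∈ Finset.univ.filter (fun i : Fin m => (i : ℕ) < n), f i + f ⟨n, hn⟩ := by
  have e : Finset.univ.filter (fun i : Fin m => (i : ℕ) < n + 1) =
      insert ⟨n, hn⟩ (Finset.univ.filter fun i : Fin m => (i : ℕ) < n) := by
    ext i
    simp only [Finset.mem_filter, Finset.mem_univ, true_and, Finset.mem_insert, Fin.ext_iff]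
    omega
  rw [e, Finset.sum_insert (by simp), add_comm]

theorem cut_rank {A B : Type} [AddCommGroup A] [Module kb A] [AddCommGroup B] [Module kb B]
    (f : A →ₗ[kb] B) (X : Submodule kb A) [FiniteDimensional kb X] :
    Module.finrank kb (X.map f) + Module.finrank kb ↥(X ⊓ LinearMap.ker f) =
      Module.finrank kb X := by
  have h := LinearMap.finrank_range_add_finrank_ker (f.domRestrict X)
  rw [LinearMap.range_domRestrict, LinearMap.ker_domRestrict] at h
  rw [← h, ← Submodule.finrank_map_subtype_eq X (Submodule.comap X.subtype (LinearMap.ker f)),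
    Submodule.map_comap_subtype]

/-- induction on `d`; the residue of `l u / π ^ s` is a linear functional (`Place.exists_res`) -/
theorem cut {A : Type} [AddCommGroup A] [Module kb A] (U : Submodule kb A) [FiniteDimensional kb U]
    (l : A →ₗ[kb] K) (v : Place kb K) (s : ℤ) (d : ℕ) (h : ∀ u ∈ U, v.Ge (l u) s) :
    ∃ U' ≤ U, (∀ u ∈ U', v.Ge (l u) (s + d)) ∧ Module.finrank kb U ≤ Module.finrank kb U' + d := by
  induction d with
  | zero => exact ⟨U, le_rfl, by simpa using h, by simp⟩
  | succ d ih =>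
    obtain ⟨U₁, h1, h2, h3⟩ := ih
    have : FiniteDimensional kb U₁ := Submodule.finiteDimensional_of_le h1
    obtain ⟨U₂, h4, h5, h6⟩ := cut_one U₁ l v (s + d) h2
    refine ⟨U₂, h4.trans h1, fun u hu => (h5 u hu).mono (le_of_eq ?_), by omega⟩
    push_cast
    ring

/-- Induction on `i ≤ m`: there are `U' ≤ U` and `K`-linear functionals `c j`, `j < i`, such that on
`U'` the `c j a` have order at least `s`, and `a - ∑ j < i, c j a • α j` has vanishing coordinates
below `i` and all coordinates of order at least `-d`. The next functional is the coordinate `i`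
divided by `α i i`; use `cut`. -/
theorem cut_tri {m : ℕ} (U : Submodule kb (Fin m → K)) [FiniteDimensional kb U] (v : Place kb K)
    (α : Fin m → Fin m → K) (h0 : ∀ i j, j < i → α i j = 0) (h1 : ∀ i, α i i ≠ 0) (s d : ℤ)
    (hα : ∀ i j, v.Ge (α i j) (-d - s)) (h : ∀ a ∈ U, ∀ i, v.Ge (a i) (-d)) :
    ∃ U' ≤ U, (∀ a ∈ U', ∃ c : Fin m → K, (∀ i, v.Ge (c i) s) ∧ a = ∑ i, c i • α i) ∧
      (Module.finrank kb U : ℤ) ≤ Module.finrank kb U' + ∑ i, (s + d + v.ord (α i i)) := by
  have key : ∀ n ≤ m, ∃ U' ≤ U, ∃ r : (Fin m → K) →ₗ[kb] (Fin m → K),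
      (∀ a ∈ U', (∃ c : Fin m → K, (∀ i, v.Ge (c i) s) ∧ a = r a + ∑ i, c i • α i) ∧
        (∀ j : Fin m, (j : ℕ) < n → r a j = 0) ∧ ∀ j, v.Ge (r a j) (-d)) ∧
      (Module.finrank kb U : ℤ) ≤ Module.finrank kb U' +
        ∑ i ∈ Finset.univ.filter (fun i : Fin m => (i : ℕ) < n), (s + d + v.ord (α i i)) := by
    intro n
    induction n with
    | zero =>
      exact fun _ => ⟨U, le_rfl, LinearMap.id, fun a ha =>
        ⟨⟨0, fun _ => v.ge_zero _, by simp⟩, fun _ hj => absurd hj (Nat.not_lt_zero _), h a ha⟩,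
        by simp⟩
    | succ n ih =>
      intro hn
      obtain ⟨U₁, h2, r, h3, h4⟩ := ih (Nat.le_of_succ_le hn)
      have : FiniteDimensional kb U₁ := Submodule.finiteDimensional_of_le h2
      obtain ⟨i, hi⟩ : ∃ i : Fin m, i = ⟨n, hn⟩ := ⟨_, rfl⟩
      have hin : (i : ℕ) = n := by rw [hi]
      obtain ⟨l, hl⟩ : ∃ l : (Fin m → K) →ₗ[kb] K, ∀ a, l a = r a i * (α i i)⁻¹ :=
        ⟨LinearMap.mulRight kb (α i i)⁻¹ ∘ₗ LinearMap.proj i ∘ₗ r, fun _ => rfl⟩
      have hpos := (hα i i).le (h1 i)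
      obtain ⟨e, he⟩ : ∃ e : ℕ, (e : ℤ) = s + d + v.ord (α i i) :=
        ⟨_, Int.toNat_of_nonneg (by omega)⟩
      obtain ⟨U₂, h5, h6, h7⟩ := cut U₁ l v (-d - v.ord (α i i)) e fun a ha => by
        rw [hl, Place.ge_mul_iff (inv_ne_zero (h1 i))]
        simpa using (h3 a ha).2.2 i
      refine ⟨U₂, h5.trans h2, r - l.smulRight (α i), fun a ha => ?_, ?_⟩
      · obtain ⟨⟨c, hc, ec⟩, hz, hg⟩ := h3 a (h5 ha)
        have h8 : v.Ge (l a) s := (h6 a ha).mono (by omega)
        refine ⟨⟨c + Pi.single i (l a), fun j => (hc j).add ?_, ?_⟩, fun j hj => ?_, fun j => ?_⟩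
        · rw [Pi.single_apply]
          split_ifs
          exacts [h8, v.ge_zero _]
        · simp only [Pi.add_apply, add_smul, Finset.sum_add_distrib, LinearMap.sub_apply,
            LinearMap.smulRight_apply, Pi.single_apply, ite_smul, zero_smul, Finset.sum_ite_eq',
            Finset.mem_univ, if_true]
          rw [add_comm (∑ x, c x • α x), ← add_assoc, sub_add_cancel]
          exact ec
        · simp only [LinearMap.sub_apply, LinearMap.smulRight_apply, Pi.sub_apply, Pi.smul_apply,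
            smul_eq_mul]
          rcases Nat.lt_succ_iff_lt_or_eq.mp hj with hj | hj
          · rw [hz j hj, h0 i j (Fin.lt_def.mpr (by omega)), mul_zero, sub_zero]
          · have : j = i := Fin.ext (by omega)
            rw [this, hl, inv_mul_cancel_right₀ (h1 i), sub_self]
        · simp only [LinearMap.sub_apply, LinearMap.smulRight_apply, Pi.sub_apply, Pi.smul_apply,
            smul_eq_mul]
          exact (hg j).sub ((h8.mul (hα i j)).mono (by omega))
      · rw [cut_filter hn, ← hi, ← he]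
        omega
  obtain ⟨U', h2, r, h3, h4⟩ := key m le_rfl
  refine ⟨U', h2, fun a ha => ?_, by simpa using h4⟩
  obtain ⟨⟨c, hc, ec⟩, hz, -⟩ := h3 a ha
  have : r a = 0 := funext fun j => hz j j.2
  exact ⟨c, hc, by rw [this, zero_add] at ec; exact ec⟩

/-- induction on the number of coordinates, rank and nullity -/
theorem finrank_filt {m : ℕ} (U : Submodule kb (Fin m → K)) [FiniteDimensional kb U]
    (L : Fin m → Submodule kb K) [∀ i, FiniteDimensional kb (L i)]
    (h : ∀ a ∈ U, ∀ i, (∀ j < i, a j = 0) → a i ∈ L i) :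
    Module.finrank kb U ≤ ∑ i, Module.finrank kb (L i) := by
  have key : ∀ n ≤ m, ∃ U' ≤ U, (∀ a ∈ U', ∀ j : Fin m, (j : ℕ) < n → a j = 0) ∧
      Module.finrank kb U ≤ Module.finrank kb U' +
        ∑ i ∈ Finset.univ.filter (fun i : Fin m => (i : ℕ) < n), Module.finrank kb (L i) := by
    intro n
    induction n with
    | zero => exact fun _ => ⟨U, le_rfl, fun _ _ _ hj => absurd hj (Nat.not_lt_zero _), by simp⟩
    | succ n ih =>
      intro hn
      obtain ⟨U₁, h1, h2, h3⟩ := ih (Nat.le_of_succ_le hn)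
      have : FiniteDimensional kb U₁ := Submodule.finiteDimensional_of_le h1
      have h4 := cut_rank (LinearMap.proj (R := kb) (φ := fun _ : Fin m => K) ⟨n, hn⟩) U₁
      have h5 : U₁.map (LinearMap.proj (R := kb) (φ := fun _ : Fin m => K) ⟨n, hn⟩) ≤
          L ⟨n, hn⟩ := by
        rintro _ ⟨a, ha, rfl⟩
        exact h a (h1 ha) _ fun j hj => h2 a ha j hj
      have h6 := Submodule.finrank_mono h5
      refine ⟨U₁ ⊓ LinearMap.ker (LinearMap.proj (R := kb) (φ := fun _ : Fin m => K) ⟨n, hn⟩),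
        inf_le_left.trans h1, fun a ha j hj => ?_, ?_⟩
      · rcases Nat.lt_succ_iff_lt_or_eq.mp hj with hj | hj
        · exact h2 a ha.1 j hj
        · have : j = ⟨n, hn⟩ := Fin.ext hj
          rw [this]
          exact ha.2
      · rw [cut_filter hn]
        omega
  obtain ⟨U', -, h2, h3⟩ := key m le_rfl
  have : U' = ⊥ := (Submodule.eq_bot_iff _).mpr fun a ha => funext fun j => h2 a ha j j.2
  rw [this] at h3
  simpa using h3

end Pool.Agent.Lib.MP_6adaea_nt.W
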