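import Pool.Agent.Lib.MP_6adaea_nt.W.Cen

/-!
A stable function field that contains the ratios.
-/

set_option linter.unusedSectionVars false

namespace Pool.Agent.Lib.MP_6adaea_nt.W
open Matrix Polynomial G U
open scoped TensorProduct

variable {k C E : Type} [Field k] [Finite k] [Field C] [Field E] [Algebra k C] [Algebra k E]
  [Algebra C E] [IsScalarTower k C E] [IsAlgClosed C] [IsAlgClosed E] {θ : E} {r : ℕ} {g : ℕ → E}
  {n J : Type} [Fintype n] [DecidableEq n] [Fintype J] [DecidableEq J]

variable (T : Tri k C θ)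

/-- the preimage under `γ` -/
def Tri.fld_up (M : IntermediateField C E) : IntermediateField C E :=
  (M.toSubfield.comap (T.γ : E →+* E)).toIntermediateField fun x => by
    obtain ⟨y, hy⟩ := IsAlgClosed.exists_pow_nat_eq x (n := T.Q) (by have := T.two_le; omega)
    change T.γ (algebraMap C E x) ∈ M
    rw [← hy, ← T.symm_const, AlgEquiv.apply_symm_apply]
    exact M.algebraMap_mem y

/-- the image under `γ` -/
def Tri.fld_down (M : IntermediateField C E) : IntermediateField C E :=
  (M.toSubfield.comap (T.γ.symm : E →+* E)).toIntermediateField fun x => by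
    change T.γ.symm (algebraMap C E x) ∈ M
    rw [T.symm_const]
    exact M.algebraMap_mem _

theorem Tri.fld_mem_up {M : IntermediateField C E} {x : E} : x ∈ T.fld_up M ↔ T.γ x ∈ M := Iff.rfl

theorem Tri.fld_mem_down {M : IntermediateField C E} {x : E} :
    x ∈ T.fld_down M ↔ T.γ.symm x ∈ M := Iff.rfl

include T in
theorem Tri.fld_base : IsFF C (IntermediateField.adjoin C {θ}) := by
  let t : IntermediateField.adjoin C {θ} := ⟨θ, IntermediateField.mem_adjoin_simple_self C θ⟩
  have h1 : IntermediateField.adjoin C {t} = ⊤ := by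
    apply IntermediateField.lift_injective
    rw [IntermediateField.lift_adjoin_simple, IntermediateField.lift_top]
  refine ⟨t, (transcendental_algebraMap_iff
    (algebraMap (IntermediateField.adjoin C {θ}) E).injective).1 T.tr, ?_⟩
  refine Module.Finite.of_surjective (Algebra.linearMap _ _) fun x => ⟨⟨x, ?_⟩, rfl⟩
  rw [h1]
  exact IntermediateField.mem_top

theorem Tri.fld_onto (N : IntermediateField (IntermediateField.adjoin C {θ}) E)
    [FiniteDimensional (IntermediateField.adjoin C {θ}) N] (h : ∀ x ∈ N, T.γ.symm x ∈ N) :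
    ∀ x ∈ N, T.γ x ∈ N := by
  have hL : IntermediateField.adjoin C {θ} ≤ T.fld_up (IntermediateField.adjoin C {θ}) := by
    rw [IntermediateField.adjoin_simple_le_iff, T.fld_mem_up, T.fix]
    exact IntermediateField.mem_adjoin_simple_self C θ
  let b := Module.finBasis (IntermediateField.adjoin C {θ}) N
  let v : Fin (Module.finrank (IntermediateField.adjoin C {θ}) N) → N :=
    fun i => ⟨T.γ.symm (b i), h _ (b i).2⟩
  let s : IntermediateField.adjoin C {θ} → IntermediateField.adjoin C {θ} :=
    fun l => ⟨T.γ l, hL l.2⟩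
  have key : ∀ l : Fin (Module.finrank (IntermediateField.adjoin C {θ}) N) →
      IntermediateField.adjoin C {θ},
      T.γ ((∑ i, l i • v i : N) : E) = ((∑ i, s (l i) • b i : N) : E) := by
    intro l
    rw [IntermediateField.coe_sum, IntermediateField.coe_sum, map_sum]
    refine Finset.sum_congr rfl fun i _ => ?_
    change T.γ ((l i : E) * T.γ.symm (b i)) = T.γ (l i) * (b i : E)
    rw [map_mul, AlgEquiv.apply_symm_apply]
  have h1 : LinearIndependent (IntermediateField.adjoin C {θ}) v := by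
    refine Fintype.linearIndependent_iff.2 fun l hl i => ?_
    have h2 := key l
    rw [hl, IntermediateField.coe_zero, map_zero] at h2
    have h3 := Fintype.linearIndependent_iff.1 b.linearIndependent (fun i => s (l i))
      (Subtype.ext h2.symm) i
    exact Subtype.ext (T.γ.injective ((congrArg Subtype.val h3).trans (map_zero T.γ).symm))
  have h2 := h1.span_eq_top_of_card_eq_finrank' (Fintype.card_fin _)
  intro x hx
  obtain ⟨l, hl⟩ := (Submodule.mem_span_range_iff_exists_fun _).1
    (h2 ▸ Submodule.mem_top : (⟨x, hx⟩ : N) ∈ Submodule.span _ (Set.range v))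
  have h3 := key l
  rw [hl] at h3
  exact h3 ▸ (∑ i, s (l i) • b i : N).2

/-- `N` is generated by the `a i` and `z j`; it is finite over `C⟮θ⟯` (`T.alg`). The image `γ N` is
an intermediate field (`γ` maps `C` onto `C`, `symm_const`) that contains the `a i` and the
`T.F (z j) = γ (z j) ^ Q`, so `N ≤ γ N`. Both have the same degree over `C⟮θ⟯`, which `γ` maps onto
itself (`Algebra.finrank_eq_of_equiv_equiv`), so `N = γ N`. -/
theorem Tri.exists_fld {I : Type} [Finite I] (a : I → E) (ha : ∀ i, T.γ (a i) = a i) {i0 : I}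
    (h0 : a i0 = θ) (z : J → E)
    (hz : ∀ M : IntermediateField C E, (∀ i, a i ∈ M) → (∀ j, T.F (z j) ∈ M) → ∀ j, z j ∈ M) :
    ∃ N : IntermediateField C E, IsFF C N ∧ (∀ i, a i ∈ N) ∧ (∀ j, z j ∈ N) ∧
      ∀ x, x ∈ N ↔ T.γ x ∈ N := by
  have := T.alg
  have := T.fld_base
  let N := IntermediateField.adjoin (IntermediateField.adjoin C {θ}) (Set.range a ∪ Set.range z)
  have : Finite (Set.range a ∪ Set.range z : Set E) :=
    ((Set.finite_range a).union (Set.finite_range z)).to_subtype
  have hN : FiniteDimensional (IntermediateField.adjoin C {θ}) N :=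
    IntermediateField.finiteDimensional_adjoin fun x _ => Algebra.IsIntegral.isIntegral x
  have h1 : ∀ i, a i ∈ N := fun i => IntermediateField.subset_adjoin _ _ (Or.inl ⟨i, rfl⟩)
  have h2 : ∀ j, z j ∈ N := fun j => IntermediateField.subset_adjoin _ _ (Or.inr ⟨j, rfl⟩)
  have h3 : ∀ i, a i ∈ T.fld_down (N.restrictScalars C) := fun i => by
    rw [T.fld_mem_down, ← ha i, AlgEquiv.symm_apply_apply]
    exact h1 i
  have h4 : ∀ j, z j ∈ T.fld_down (N.restrictScalars C) := hz _ h3 fun j => by
    rw [T.fld_mem_down, T.F_apply, map_pow, AlgEquiv.symm_apply_apply]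
    exact pow_mem (h2 j) _
  have h5 : IntermediateField.adjoin C {θ} ≤ T.fld_down (N.restrictScalars C) := by
    have h6 := h3 i0
    rw [h0] at h6
    exact IntermediateField.adjoin_simple_le_iff.2 h6
  have h6 : N ≤ IntermediateField.extendScalars h5 := by
    rw [IntermediateField.adjoin_le_iff]
    rintro _ (⟨i, rfl⟩ | ⟨j, rfl⟩)
    exacts [h3 i, h4 j]
  have h7 : ∀ x ∈ N, T.γ.symm x ∈ N := fun x hx => h6 hx
  have hF : IsFF C (N.restrictScalars C) := by
    let _ : Algebra (IntermediateField.adjoin C {θ}) (N.restrictScalars C) :=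
      inferInstanceAs (Algebra (IntermediateField.adjoin C {θ}) N)
    have : IsScalarTower C (IntermediateField.adjoin C {θ}) (N.restrictScalars C) :=
      IsScalarTower.of_algebraMap_eq fun _ => rfl
    have : FiniteDimensional (IntermediateField.adjoin C {θ}) (N.restrictScalars C) := hN
    exact IsFF.of_finite (IntermediateField.adjoin C {θ}) _
  refine ⟨N.restrictScalars C, hF, h1, h2,
    fun x => ⟨T.fld_onto N h7 x, fun hx => ?_⟩⟩
  have h8 := h7 _ hx
  rwa [AlgEquiv.symm_apply_apply] at h8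

/-- `exists_fld` for `z j = y j / y j0`; `y` is proportional to `Ψ' *ᵥ F z` (`inv_mem`) -/
theorem Tri.fld_of_eq {I : Type} [Finite I] (a : I → E) (ha : ∀ i, T.γ (a i) = a i) {i0 : I}
    (h0 : a i0 = θ) {Ψ Ψ' : Matrix J J E} (hΨ : Ψ' * Ψ = 1)
    (hm : ∀ i j, Ψ i j ∈ Algebra.adjoin C (Set.range a)) {y : J → E} (hy0 : y ≠ 0) {μ : E}
    (hy : (fun j => T.F (y j)) = μ • Ψ *ᵥ y) :
    ∃ N : IntermediateField C E, IsFF C N ∧ (∀ i, a i ∈ N) ∧ (∀ j j', y j / y j' ∈ N) ∧
      ∀ x, x ∈ N ↔ T.γ x ∈ N := by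
  obtain ⟨j0, hj0⟩ := Function.ne_iff.1 hy0
  have hj : y j0 ≠ 0 := hj0
  have hF : T.F (y j0) ≠ 0 := (_root_.map_ne_zero _).2 hj
  have hμ : μ ≠ 0 := fun h => hF (by rw [congrFun hy j0, h, zero_smul, Pi.zero_apply])
  have h1 : Ψ' *ᵥ (fun j => T.F (y j / y j0)) = (μ / T.F (y j0)) • y := by
    have h2 : (fun j => T.F (y j / y j0)) = (T.F (y j0))⁻¹ • fun j => T.F (y j) := by
      funext j
      rw [map_div₀, div_eq_inv_mul]
      rfl
    rw [h2, hy, mulVec_smul, mulVec_smul, mulVec_mulVec, hΨ, one_mulVec, smul_smul, div_eq_inv_mul]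
  obtain ⟨N, hN, h3, h4, h5⟩ := T.exists_fld a ha h0 (fun j => y j / y j0) fun M hM hz j => by
    have h6 : Algebra.adjoin C (Set.range a) ≤ M.toSubalgebra :=
      Algebra.adjoin_le (Set.range_subset_iff.2 hM)
    have h7 : ∀ j, μ / T.F (y j0) * y j ∈ M := fun j => by
      have h8 := congrFun h1 j
      rw [Pi.smul_apply, smul_eq_mul] at h8
      rw [← h8]
      exact sum_mem fun l _ => mul_mem (inv_mem M.toSubfield (fun i j => h6 (hm i j)) hΨ j l) (hz l)
    rw [← mul_div_mul_left _ _ (div_ne_zero hμ hF)]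
    exact div_mem (h7 j) (h7 j0)
  refine ⟨N, hN, h3, fun j j' => ?_, h5⟩
  rw [← div_div_div_cancel_right₀ hj]
  exact div_mem (h4 j) (h4 j')

end Pool.Agent.Lib.MP_6adaea_nt.W
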