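import Pool.Agent.Lib.MP_6adaea_nt.W.RedA

/-!
Construction of polynomial representations.
-/

set_option linter.unusedSectionVars false

namespace Pool.Agent.Lib.MP_6adaea_nt.W
open Matrix Polynomial G U
open scoped TensorProduct

variable {C E : Type} [Field C] [Field E] [Algebra C E] {n J : Type} [Fintype n] [DecidableEq n]
  [Fintype J] [DecidableEq J] {V : QVal E}

variable (C n) in
/-- the universal matrix -/
noncomputable def pr_U : Matrix n n (MvPolynomial (n × n) C) :=
  Matrix.of fun i j => MvPolynomial.X (i, j)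

variable (C) in
/-- evaluation at a matrix -/
noncomputable def pr_ev {R : Type} [CommRing R] [Algebra C R] (A : Matrix n n R) :
    MvPolynomial (n × n) C →ₐ[C] R := MvPolynomial.aeval fun ij => A ij.1 ij.2

theorem pr_ap {R : Type} [CommRing R] [Algebra C R] (P : Matrix J J (MvPolynomial (n × n) C))
    (A : Matrix n n R) : ap P A = P.map (pr_ev C A : MvPolynomial (n × n) C →+* R) := rfl

theorem pr_U_map {R : Type} [CommRing R] [Algebra C R] (A : Matrix n n R) :
    (pr_U C n).map (pr_ev C A) = A := by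
  ext i j
  simp [pr_U, pr_ev]

theorem pr_shift (P : Matrix J J (MvPolynomial (n × n) C)) :
    ∃ β : Matrix J J (MvPolynomial (n × n) C), ∀ (R : Type) [CommRing R] [Algebra C R]
      (B : Matrix n n R), ap β B = ap P (B - 1) := by
  refine ⟨ap P (pr_U C n - 1), fun R _ _ B => ?_⟩
  refine (ap_map (pr_ev C B) P _).trans ?_
  rw [Matrix.map_sub _ (map_sub _), pr_U_map, Matrix.map_one _ (map_zero _) (map_one _)]

/-- take the universal matrix over the polynomial ring and use `ap_map` -/
theorem exists_shift (P : Matrix J J (MvPolynomial (n × n) C)) :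
    ∃ β : Matrix J J (MvPolynomial (n × n) C), ∀ (R : Type) [CommRing R] [Algebra C R]
      (B : Matrix n n R), ap β B = ap P (1 + B) := by
  refine ⟨ap P (1 + pr_U C n), fun R _ _ B => ?_⟩
  refine (ap_map (pr_ev C B) P _).trans ?_
  rw [Matrix.map_add _ (map_add _), pr_U_map, Matrix.map_one _ (map_zero _) (map_one _)]

theorem PRep.exists_ten (ρ : PRep C n J) (d : ℕ) : ∃ ρ' : PRep C n (Fin d → J),
    ∀ (R : Type) [CommRing R] [Algebra C R] (A : Matrix n n R), ap ρ'.P A = ten d (ap ρ.P A) := by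
  have h : ∀ (R : Type) [CommRing R] [Algebra C R] (A : Matrix n n R),
      ap (ten d ρ.P) A = ten d (ap ρ.P A) := fun R _ _ A => by
    rw [pr_ap, ten_map, pr_ap]
  exact ⟨⟨ten d ρ.P, fun R _ _ => by rw [h, ρ.one, ten_one],
    fun R _ _ A B => by rw [h, h, h, ρ.mul, ten_mul]⟩, h⟩

variable (C n) in
theorem exists_ten (d : ℕ) : ∃ ρ : PRep C n (Fin d → n),
    ∀ (R : Type) [CommRing R] [Algebra C R] (A : Matrix n n R), ap ρ.P A = ten d A := by
  have h : ∀ (R : Type) [CommRing R] [Algebra C R] (A : Matrix n n R), ap (pr_U C n) A = A :=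
    fun R _ _ A => pr_U_map A
  obtain ⟨ρ, hρ⟩ := PRep.exists_ten
    (⟨pr_U C n, fun R _ _ => h R _, fun R _ _ A B => by rw [h, h, h]⟩ : PRep C n n) d
  exact ⟨ρ, fun R _ _ A => by rw [hρ, h]⟩

variable (n) in
/-- universal matrix and `rep_map` -/
theorem exists_lift (M : ℕ) (t : Fin 2 → C) (e : C[X]) :
    ∃ P : Matrix (JJ n M) (JJ n M) (MvPolynomial (n × n) C),
      ∀ (R : Type) [CommRing R] [Algebra C R] (A : Matrix n n R), ap P A =
        rep M (fun i => algebraMap C R (t i))
          (1 + e.map (algebraMap C R) • A.map Polynomial.C) := by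
  refine ⟨rep M (fun i => algebraMap C _ (t i))
    (1 + e.map (algebraMap C (MvPolynomial (n × n) C)) • (pr_U C n).map Polynomial.C),
    fun R _ _ A => ?_⟩
  rw [pr_ap, rep_map]
  congr 1
  · exact funext fun i => (pr_ev C A).commutes _
  · ext1 i j
    have h1 : (pr_ev C A : MvPolynomial (n × n) C →+* R) (pr_U C n i j) = A i j :=
      congrFun (congrFun (pr_U_map A) i) j
    simp only [pmap, Matrix.map_apply, Matrix.add_apply, Matrix.smul_apply, smul_eq_mul,
      Polynomial.map_add, Polynomial.map_mul, Polynomial.map_map, Polynomial.map_C, h1,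
      AlgHom.comp_algebraMap, Matrix.one_apply]
    split_ifs <;> simp

theorem pr_cong {R : Type} [CommRing R] {q a : R[X]} {A B Z : Matrix n n R[X]} (h : q ∣ a)
    (e : A = B + a • Z) : Cong q A B := fun i j => by
  rw [e, Matrix.add_apply, add_sub_cancel_left, Matrix.smul_apply, smul_eq_mul]
  exact h.mul_right _

theorem pr_dvd (R : Type) [CommRing R] [Algebra C R] {t : Fin 2 → C} {a : C[X]} (h : qd t ∣ a) :
    qd (fun i => algebraMap C R (t i)) ∣ a.map (algebraMap C R) := by
  rw [← qd_map]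
  exact Polynomial.map_dvd _ h

variable (n) in
theorem pr_idem (M : ℕ) (t : Fin 2 → C) {e : C[X]} (he : qd t ∣ e - e * e) :
    ∃ ρ : PRep C n (JJ n M), ∀ (R : Type) [CommRing R] [Algebra C R] (A : Matrix n n R),
      ap ρ.P A = rep M (fun i => algebraMap C R (t i))
        (1 + e.map (algebraMap C R) • (A.map Polynomial.C - 1)) := by
  obtain ⟨P, hP⟩ := exists_lift n M t e
  obtain ⟨β, hβ⟩ := pr_shift P
  have h : ∀ (R : Type) [CommRing R] [Algebra C R] (A : Matrix n n R),
      ap β A = rep M (fun i => algebraMap C R (t i))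
        (1 + e.map (algebraMap C R) • (A.map Polynomial.C - 1)) := fun R _ _ A => by
    rw [hβ, hP, Matrix.map_sub _ (map_sub _), Matrix.map_one _ (map_zero _) (map_one _)]
  refine ⟨⟨β, fun R _ _ => ?_, fun R _ _ A B => ?_⟩, h⟩
  · rw [h, Matrix.map_one _ (map_zero _) (map_one _), sub_self, smul_zero, add_zero, rep_one]
  · rw [h, h, h, ← rep_mul, Matrix.map_mul]
    refine rep_congr M (pr_cong (Z := (A.map Polynomial.C - 1) * (B.map Polynomial.C - 1))
      (pr_dvd R he) ?_)
    simp only [Polynomial.map_sub, Polynomial.map_mul, mul_add, add_mul, mul_sub, sub_mul, mul_one,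
      one_mul, smul_sub, Matrix.mul_smul, Matrix.smul_mul]
    module

variable (n) in
theorem exists_dual (M : ℕ) (t : C) :
    ∃ (ρ : PRep C n (JJ n M)) (β : Matrix (JJ n M) (JJ n M) (MvPolynomial (n × n) C)),
      (∀ (R : Type) [CommRing R] [Algebra C R] (A : Matrix n n R),
        ap ρ.P A = rep M (fun _ => algebraMap C R t) (A.map Polynomial.C)) ∧
      ∀ (R : Type) [CommRing R] [Algebra C R] (B : Matrix n n R), ap β B =
        rep M (fun _ => algebraMap C R t)
          (1 + (X - Polynomial.C (algebraMap C R t)) • B.map Polynomial.C) := by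
  obtain ⟨ρ, hρ⟩ := pr_idem n M (fun _ => t) (e := 1) (by simp)
  obtain ⟨β, hβ⟩ := exists_lift n M (fun _ => t) (X - Polynomial.C t)
  refine ⟨ρ, β, fun R _ _ A => ?_, fun R _ _ B => ?_⟩
  · rw [hρ, Polynomial.map_one, one_smul, add_sub_cancel]
  · rw [hβ, Polynomial.map_sub, Polynomial.map_X, Polynomial.map_C]

variable (n E) in
/-- With the idempotents `e 0 = (X - t 1) / (t 0 - t 1)`, `e 1 = 1 - e 0` modulo `qd t` put
`ρ i A = rep (1 + e i • (A - 1))`; `s ≡ e 0 • s (t 0) + e 1 • s (t 1)`. -/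
theorem exists_pair (M : ℕ) {t : Fin 2 → C} (h : t 0 ≠ t 1) : ∃ ρ0 ρ1 : PRep C n (JJ n M),
    (∀ A B : Matrix n n E, ap ρ0.P A * ap ρ1.P B = ap ρ1.P B * ap ρ0.P A) ∧
    ∀ s : Matrix n n E[X], rep M (fun i => algebraMap C E (t i)) s =
      ap ρ0.P (s.map (eval (algebraMap C E (t 0)))) *
        ap ρ1.P (s.map (eval (algebraMap C E (t 1)))) := by
  have hu : (t 0 - t 1)⁻¹ * (t 0 - t 1) = 1 := inv_mul_cancel₀ (sub_ne_zero.2 h)
  obtain ⟨e, he⟩ : ∃ e : C[X], e = Polynomial.C (t 0 - t 1)⁻¹ * (X - Polynomial.C (t 1)) :=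
    ⟨_, rfl⟩
  have h0 : e.eval (t 0) = 1 := by
    rw [he, eval_mul, eval_C, eval_sub, eval_X, eval_C, hu]
  have h1 : e.eval (t 1) = 0 := by
    rw [he, eval_mul, eval_sub, eval_X, eval_C, eval_C, sub_self, mul_zero]
  have hq : ∀ f : E[X], f.eval (algebraMap C E (t 0)) = 0 → f.eval (algebraMap C E (t 1)) = 0 →
      qd (fun i => algebraMap C E (t i)) ∣ f := fun f a b =>
    (isCoprime_X_sub_C_of_isUnit_sub (by
      rw [← map_sub]
      exact ((_root_.map_ne_zero _).2 (sub_ne_zero.2 h)).isUnit)).mul_dvd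
        (dvd_iff_isRoot.2 a) (dvd_iff_isRoot.2 b)
  have h2 : qd t ∣ e - e * e :=
    (isCoprime_X_sub_C_of_isUnit_sub (sub_ne_zero.2 h).isUnit).mul_dvd
      (dvd_iff_isRoot.2 (by simp [h0])) (dvd_iff_isRoot.2 (by simp [h1]))
  obtain ⟨ρ0, g0⟩ := pr_idem n M t h2
  obtain ⟨ρ1, g1⟩ := pr_idem n M t (e := 1 - e) (by convert h2 using 1; ring)
  have h3 := pr_dvd E h2
  have h4 : (e.map (algebraMap C E)).eval (algebraMap C E (t 0)) = 1 := by
    rw [eval_map, eval₂_at_apply, h0, map_one]
  have h5 : (e.map (algebraMap C E)).eval (algebraMap C E (t 1)) = 0 := by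
    rw [eval_map, eval₂_at_apply, h1, map_zero]
  simp only [Polynomial.map_sub, Polynomial.map_mul, Polynomial.map_one] at g1 h3
  have g0 := g0 E
  have g1 := g1 E
  generalize e.map (algebraMap C E) = d at g0 g1 h3 h4 h5
  have h6 : ∀ A B : Matrix n n E, ap ρ0.P A * ap ρ1.P B = rep M (fun i => algebraMap C E (t i))
      (d • A.map Polynomial.C + (1 - d) • B.map Polynomial.C) := fun A B => by
    rw [g0, g1, ← rep_mul]
    refine rep_congr M (pr_cong (Z := (A.map Polynomial.C - 1) * (B.map Polynomial.C - 1)) h3 ?_)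
    simp only [mul_add, add_mul, mul_sub, sub_mul, mul_one, one_mul, smul_sub, Matrix.mul_smul,
      Matrix.smul_mul]
    module
  refine ⟨ρ0, ρ1, fun A B => ?_, fun s => ?_⟩
  · rw [h6, g0, g1, ← rep_mul]
    refine (rep_congr M (pr_cong (Z := (B.map Polynomial.C - 1) * (A.map Polynomial.C - 1)) h3
      ?_)).symm
    simp only [mul_add, add_mul, mul_sub, sub_mul, mul_one, one_mul, smul_sub, Matrix.mul_smul,
      Matrix.smul_mul]
    module
  · rw [h6]
    exact rep_congr M fun i j => hq _ (by simp [h4]) (by simp [h5])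

end Pool.Agent.Lib.MP_6adaea_nt.W
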