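import Pool.Agent.Lib.MP_6adaea_nt.W.PhiA

/-!
The local change of the companion matrix.
-/

set_option linter.unusedSectionVars false

namespace Pool.Agent.Lib.MP_6adaea_nt.W
open Matrix Polynomial G U
open scoped TensorProduct

variable {C E : Type} [Field C] [Field E] [Algebra C E] {n J : Type} [Fintype n] [DecidableEq n]
  [Fintype J] [DecidableEq J] {V : QVal E}
  {θ : E} {r : ℕ} {g : ℕ → E}

/-- companion matrix with last row `-c` -/
def phib_M {m : ℕ} (c : Fin (m + 1) → E) : Matrix (Fin (m + 1)) (Fin (m + 1)) E :=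
  Matrix.of fun i j => if (i : ℕ) + 1 = m + 1 then -c j else if (i : ℕ) + 1 = j then 1 else 0

/-- its inverse -/
def phib_N {m : ℕ} (c : Fin (m + 1) → E) : Matrix (Fin (m + 1)) (Fin (m + 1)) E :=
  Matrix.of fun i j => if (i : ℕ) = 0 then
    -(c 0)⁻¹ * (if h : (j : ℕ) + 1 < m + 1 then c ⟨j + 1, h⟩ else 1)
    else if (i : ℕ) = j + 1 then 1 else 0

theorem phib_mul {m : ℕ} (c c' : Fin (m + 1) → E) (h : c' 0 ≠ 0) :
    phib_N c' * phib_M c = 1 + vecMulVec (e0 E (m + 1)) fun l => (c l - c' l) / c' 0 := by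
  ext i l
  rw [mul_apply, Fin.sum_univ_castSucc]
  have e1 : ∀ j : Fin m, phib_M c j.castSucc l = if j.succ = l then 1 else 0 := fun j => by
    have := j.2
    simp only [phib_M, of_apply, Fin.val_castSucc, Fin.ext_iff, Fin.val_succ]
    rw [if_neg (by omega)]
  have e2 : phib_M c (Fin.last m) l = -c l := by simp [phib_M]
  simp only [e1, e2]
  refine Fin.cases ?_ (fun i => ?_) i
  · have e3 : ∀ j : Fin m, phib_N c' 0 j.castSucc = -(c' 0)⁻¹ * c' j.succ := fun j => by
      have := j.2
      simp only [phib_N, of_apply, Fin.val_zero, if_true, Fin.val_castSucc]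
      rw [dif_pos (by omega)]
      rfl
    have e4 : phib_N c' 0 (Fin.last m) = -(c' 0)⁻¹ := by simp [phib_N]
    simp only [e3, e4]
    refine Fin.cases ?_ (fun l => ?_) l
    · simp [vecMulVec_apply, e0, Fin.succ_ne_zero]
      field_simp
      ring
    · simp [vecMulVec_apply, e0, (Fin.succ_ne_zero l).symm]
      field_simp
      ring
  · have e3 : ∀ j : Fin m, phib_N c' i.succ j.castSucc = if i = j then 1 else 0 := fun j => by
      simp only [phib_N, of_apply, Fin.val_succ, Fin.val_castSucc, Nat.succ_ne_zero, if_false,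
        Nat.add_right_cancel_iff, Fin.val_inj]
    have e4 : phib_N c' i.succ (Fin.last m) = 0 := by
      have := i.2
      simp only [phib_N, of_apply, Fin.val_succ, Fin.val_last]
      rw [if_neg (by omega), if_neg (by omega)]
    simp only [e3, e4, ite_mul, one_mul, zero_mul, Finset.sum_ite_eq, Finset.mem_univ, if_true]
    simp [vecMulVec_apply, e0, one_apply]

theorem phib_map {m : ℕ} (c : Fin (m + 1) → E) (ι : E ≃ₐ[C] E) :
    (phib_N c).map ι = phib_N fun i => ι (c i) := by
  ext i j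
  simp only [phib_N, map_apply, of_apply]
  split_ifs <;> simp

/-- Let `u = θ - t`, `P` the matrix. `P'` has row `0` equal to `(g 1, …, g (r - 1), 1) / (-u)` and
row `i + 1` equal to `e i`. `P - ι P` has only the last row, with entries `ι (co i) - co i`, and
the last column of `ι P'` is `e0 / (-ι u)`; `ι u = u + (ι θ - θ)`. -/
theorem dl_one (hV : V.HasRes C) (hr : 0 < r) (hg : g r = 1) (ι : E ≃ₐ[C] E)
    (hι : ∀ x, V.ord (ι x) = V.ord x) (t : C) (h0 : θ - algebraMap C E t ≠ 0)
    (h1 : V.Gt (θ - algebraMap C E t) 0) (hi : ∀ i, V.Ge (co θ g r i) 0) (d : Fin r → C)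
    (hd : ∀ i, V.Gt (ι (co θ g r i) - co θ g r i - algebraMap C E (d i) * (θ - algebraMap C E t))
      (V.ord (θ - algebraMap C E t))) (hu : 1 + d ⟨0, hr⟩ ≠ 0) :
    ∃ P' : Matrix (Fin r) (Fin r) E, P' * (Phi θ r g).map (eval (algebraMap C E t)) = 1 ∧
      MGe V P' (-V.ord (θ - algebraMap C E t)) ∧
      MRed V (P'.map ι * (Phi θ r g).map (eval (algebraMap C E t)))
        (1 + (-(1 + d ⟨0, hr⟩)⁻¹) • vecMulVec (e0 C r) d) := by
  obtain ⟨m, rfl⟩ : ∃ m, r = m + 1 := ⟨r - 1, by omega⟩
  set u := θ - algebraMap C E t with hu_def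
  let c : Fin (m + 1) → E := fun j => if (j : ℕ) = 0 then u else g j
  have hc0 : c 0 = u := by simp [c]
  have hP : (Phi θ (m + 1) g).map (eval (algebraMap C E t)) = phib_M c := by
    ext i j
    simp only [Phi, phib_M, map_apply, of_apply, hg, c]
    split_ifs <;> simp [hu_def]
  have hpos : 0 < V.ord u := h1.lt h0
  have hc : ∀ j, V.Ge (c j) 0 := fun j => by
    by_cases hj : (j : ℕ) = 0
    · simpa only [c, if_pos hj] using h1.ge
    · simpa only [c, co, if_neg hj] using hi j
  have hdiff : ∀ j, ι (c j) - c j = ι (co θ g (m + 1) j) - co θ g (m + 1) j := fun j => by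
    by_cases hj : (j : ℕ) = 0
    · simp only [c, co, if_pos hj, hu_def, map_sub, AlgEquiv.commutes]
      ring
    · simp only [c, co, if_neg hj]
  have hι0 : ι u ≠ 0 := by simpa using h0
  refine ⟨phib_N c, ?_, fun i j => ?_, fun i j => ?_⟩
  · rw [hP, phib_mul c c (hc0 ▸ h0)]
    ext i j
    simp [vecMulVec_apply]
  · simp only [phib_N, of_apply, hc0]
    have h2 : V.Ge (-u⁻¹) (-V.ord u) := QVal.Ge.of_le (by simp)
    split_ifs
    · simpa using h2.mul (hc _)
    · simpa using h2
    · exact V.ge_one.mono (by linarith)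
    · exact V.ge_zero _
  · rw [hP, phib_map, phib_mul c _ (hc0 ▸ hι0)]
    have h2 := hd j
    have h3 := hd 0
    rw [← hdiff] at h2 h3
    rw [hc0] at h3
    have h4 := (((hV.ge_const ((1 + d 0)⁻¹ * d j)).mul_gt₀ h3).sub h2)
    rw [← hι u, ← zero_add (V.ord (ι u)), ← QVal.gt_div_iff hι0] at h4
    have h5 := (hV.ge_const (e0 C (m + 1) i)).mul_gt₀ h4
    have h6 : algebraMap C E (1 + d 0) ≠ 0 := (_root_.map_ne_zero _).2 hu
    have h7 : algebraMap C E (e0 C (m + 1) i) = e0 E (m + 1) i := by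
      unfold e0
      split_ifs <;> simp
    have h8 : algebraMap C E ((1 : Matrix (Fin (m + 1)) (Fin (m + 1)) C) i j) =
        (1 : Matrix (Fin (m + 1)) (Fin (m + 1)) E) i j := by
      simp only [one_apply]
      split_ifs <;> simp
    convert h5 using 1
    change _ - algebraMap C E (_ + -(1 + d 0)⁻¹ * (e0 C (m + 1) i * d j)) = _
    simp only [Matrix.add_apply, vecMulVec_apply, map_add, map_mul, map_neg, map_inv₀, h7, h8, hc0] at h6 ⊢
    field_simp
    simp only [map_one]
    ring

end Pool.Agent.Lib.MP_6adaea_nt.W
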