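import Pool.Agent.Lib.MP_6adaea_nt.W.PhiA

/-!
The local change of the companion matrix over the dual numbers.
-/

set_option linter.unusedSectionVars false

namespace Pool.Agent.Lib.MP_6adaea_nt.W
open Matrix Polynomial G U
open scoped TensorProduct

variable {C E : Type} [Field C] [Field E] [Algebra C E] {n J : Type} [Fintype n] [DecidableEq n]
  [Fintype J] [DecidableEq J] {V : QVal E}
  {θ : E} {r : ℕ} {g : ℕ → E}

theorem phic_hat {S : Type} [CommRing S] (z : S) (A : Matrix n n S[X]) (i j : n) (a b : Fin 2) :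
    hat (fun _ => z) A (i, a) (j, b) =
      if a = b then (A i j).eval z else if a = 1 then (A i j).derivative.eval z else 0 := by
  have e : (fun _ => z) = ![z, z] := by
    ext l
    fin_cases l <;> rfl
  rw [hat, of_apply, e]
  fin_cases a <;> fin_cases b
  · simpa using aeval_cm_00 ![z, z] _
  · simpa using aeval_cm_01 ![z, z] _
  · simpa using aeval_cm_10' z _
  · simpa using aeval_cm_11 ![z, z] _

/-- the shape of the inverse of the companion matrix -/
noncomputable def phic_inv (w : E[X]) (a : ℕ → E) (r : ℕ) : Matrix (Fin r) (Fin r) E[X] :=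
  Matrix.of fun i j =>
    if (i : ℕ) = 0 then w * Polynomial.C (a (j + 1)) else if (j : ℕ) + 1 = i then 1 else 0

theorem phic_mul (hg : g r = 1) (w : E[X]) {a : ℕ → E} (ha : a r = 1) (i j : Fin r) :
    (phic_inv w a r * Phi θ r g) i j =
      if (i : ℕ) = 0 then w * (if (j : ℕ) = 0 then X - Polynomial.C θ else Polynomial.C (a j - g j))
      else if i = j then 1 else 0 := by
  obtain ⟨s, rfl⟩ := Nat.exists_eq_succ_of_ne_zero i.pos.ne'
  rw [mul_apply]
  refine Fin.cases ?_ (fun i => ?_) i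
  · rw [Fin.sum_univ_castSucc]
    have h1 : ∀ l : Fin s, (l : ℕ) ≠ s := fun l => l.2.ne
    refine Fin.cases ?_ (fun j => ?_) j
    · simp [phic_inv, Phi, hg, ha, h1]
    · simp [phic_inv, Phi, hg, ha, h1, Fin.val_inj, mul_add, sub_eq_add_neg]
  · rw [Finset.sum_eq_single i.castSucc]
    · have h1 : (i : ℕ) + 1 ≠ s.succ := fun e => i.2.ne (Nat.succ_injective e)
      simp only [phic_inv, Phi, of_apply, Fin.val_succ, Fin.val_castSucc, Nat.succ_ne_zero,
        if_false, if_true, if_neg h1, one_mul, Fin.ext_iff]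
    · intro l _ hl
      have : (l : ℕ) ≠ i := fun e => hl (Fin.ext e)
      simp [phic_inv, this]
    · simp

theorem phic_map (f : E →+* E) (w : E[X]) (a : ℕ → E) :
    pmap f (phic_inv w a r) = phic_inv (w.map f) (fun i => f (a i)) r := by
  ext i j : 2
  simp only [pmap, phic_inv, map_apply, of_apply]
  split_ifs <;> simp

/-- As `dl_one` with `X - θ` in place of `t - θ`. With `u = θ - t`, `ε = X - t` the inverse of
`X - θ` modulo `ε ^ 2` is `-u⁻¹ - u⁻¹ ^ 2 * ε`; take `P' = hat t A'` for the polynomial matrix `A'`.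
`pmap ι A' * Phi ≡ 1 + (-(ι u)⁻¹ - (ι u)⁻¹ ^ 2 * ε) • e0 ⊗ (ι co - co)`. The entries of `hat` are
the value and the derivative (`aeval_cm_00`, `aeval_cm_11`, `aeval_cm_01`, `aeval_cm_10'`). -/
theorem dl_eps (hV : V.HasRes C) (hr : 0 < r) (hg : g r = 1) (ι : E ≃ₐ[C] E)
    (hι : ∀ x, V.ord (ι x) = V.ord x) (t : C) (h0 : θ - algebraMap C E t ≠ 0)
    (h1 : V.Gt (θ - algebraMap C E t) 0) (hi : ∀ i, V.Ge (co θ g r i) 0) (d : Fin r → C)
    (hd : ∀ i, V.Gt (ι (co θ g r i) - co θ g r i -
      algebraMap C E (d i) * (θ - algebraMap C E t) ^ 2) (2 * V.ord (θ - algebraMap C E t))) :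
    ∃ P' : Matrix (Fin r × Fin 2) (Fin r × Fin 2) E,
      P' * hat (fun _ => algebraMap C E t) (Phi θ r g) = 1 ∧
      MGe V P' (-(2 * V.ord (θ - algebraMap C E t))) ∧
      MRed V (P'.map ι * hat (fun _ => algebraMap C E t) (Phi θ r g))
        (hat (fun _ => t) (1 + (X - Polynomial.C t) •
          ((-1 : C) • vecMulVec (e0 C r) d).map Polynomial.C)) := by
  obtain ⟨u, hu⟩ : ∃ u, u = θ - algebraMap C E t := ⟨_, rfl⟩
  obtain ⟨v, hv⟩ : ∃ v, v = ι θ - algebraMap C E t := ⟨_, rfl⟩
  have h3 : ι u = v := by rw [hu, hv, map_sub, AlgEquiv.commutes]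
  rw [← hu] at h0 h1 hd ⊢
  have h4 : v ≠ 0 := h3 ▸ (map_ne_zero ι).2 h0
  have h5 : V.ord v = V.ord u := by rw [← h3, hι]
  have h6 := h1.lt h0
  have h7 : V.Ge (u ^ 2) (2 * V.ord u) := by simpa using (V.ge_ord u).pow 2
  have h8 : ∀ i, V.Ge (ι (co θ g r i) - co θ g r i) (2 * V.ord u) := fun i => by
    simpa using (hd i).ge.add ((hV.ge_const (d i)).mul₀ h7)
  have h9 : ∀ i, V.Gt ((ι (co θ g r i) - co θ g r i) / v) 0 := fun i =>
    (QVal.gt_div_iff h4).2 ((h8 i).gt (by linarith))
  have h10 : ∀ i, V.Gt ((ι (co θ g r i) - co θ g r i) / v ^ 2 - algebraMap C E (d i)) 0 := fun i => by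
    have h11 : V.Gt ((v - u) * (v + u)) (2 * V.ord u) := by
      have h12 : v - u = ι (co θ g r ⟨0, hr⟩) - co θ g r ⟨0, hr⟩ := by
        rw [hu, hv]
        simp [co]
      exact ((h12 ▸ h8 _).mul ((h5 ▸ V.ge_ord v).add (V.ge_ord u))).gt (by linarith)
    rw [div_sub' (pow_ne_zero 2 h4), QVal.gt_div_iff (pow_ne_zero 2 h4), V.ord_pow, h5, zero_add,
      Nat.cast_ofNat]
    convert (hd i).sub ((hV.ge_const (d i)).mul_gt₀ h11) using 1
    ring
  have h11 : ∀ j : Fin r, V.Ge (g (j + 1)) 0 := fun j => by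
    rcases (Nat.succ_le_of_lt j.2).lt_or_eq with h | h
    · simpa [co] using hi ⟨j + 1, h⟩
    · rw [show (j : ℕ) + 1 = r from h, hg]
      exact V.ge_one
  have h12 : θ = u + algebraMap C E t := by rw [hu, sub_add_cancel]
  refine ⟨hat (fun _ => algebraMap C E t) (phic_inv (-Polynomial.C u⁻¹ -
    Polynomial.C (u⁻¹ ^ 2) * (X - Polynomial.C (algebraMap C E t))) g r), ?_, ?_, ?_⟩
  · rw [← hat_mul, ← hat_one fun _ => algebraMap C E t]
    ext ⟨i, a⟩ ⟨j, b⟩
    rw [phic_hat, phic_hat, phic_mul hg _ hg, Matrix.one_apply]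
    by_cases e : (i : ℕ) = 0 <;> by_cases e' : (j : ℕ) = 0 <;>
      simp [e, e', Fin.ext_iff, h12, h0, eq_comm, pow_two]
  · rintro ⟨i, a⟩ ⟨j, b⟩
    have h13 : V.Ge u⁻¹ (-V.ord u) := by simpa using V.ge_ord u⁻¹
    rw [phic_hat, phic_inv, of_apply]
    split_ifs
    · simpa [mul_comm] using ((h11 j).mul₀ (h13.mono (m' := -(2 * V.ord u)) (by linarith))).neg
    · simpa using V.ge_one.mono (m' := -(2 * V.ord u)) (by linarith)
    · simp
    · simpa [mul_comm] using ((h11 j).mul₀ (h13.pow 2)).neg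
    all_goals simp
  · rintro ⟨i, a⟩ ⟨j, b⟩
    have e : (hat (fun _ => algebraMap C E t) (phic_inv (-Polynomial.C u⁻¹ -
        Polynomial.C (u⁻¹ ^ 2) * (X - Polynomial.C (algebraMap C E t))) g r)).map ι = _ :=
      hat_map (ι : E →+* E) _ _
    simp only [RingHom.coe_coe, AlgEquiv.commutes] at e
    rw [e, ← hat_mul, phic_map, phic_hat, phic_hat, phic_mul hg _ (by simp [hg])]
    have h13 := (h9 j).neg
    have h14 := (h10 j).neg
    have h15 : ι θ = v + algebraMap C E t := by rw [hv, sub_add_cancel]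
    have h16 : (if (j : ℕ) = 0 then X - Polynomial.C θ else Polynomial.C (ι (g j) - g j)) =
        (if (j : ℕ) = 0 then X - Polynomial.C (algebraMap C E t) - Polynomial.C v else 0) +
          Polynomial.C (ι (co θ g r j) - co θ g r j) := by
      by_cases e' : (j : ℕ) = 0
      · simp only [co, e', if_true, h15, map_sub, map_add]
        ring
      · simp only [co, e', if_false, zero_add]
    simp only [RingHom.coe_coe, h16]
    generalize ι (co θ g r j) - co θ g r j = δ at h13 h14
    by_cases e : (i : ℕ) = 0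
    · by_cases e' : (j : ℕ) = 0 <;> split_ifs <;>
        simp [e, e', e0, Matrix.one_apply, Fin.ext_iff, vecMulVec_apply, h3, eq_comm]
      · convert h13 using 1
        field_simp
        ring
      · convert h14 using 1
        field_simp
        ring
      · convert h13 using 1
        ring
      · convert h14 using 1
        ring
    · have h17 : vecMulVec (e0 C r) d i j = 0 := by simp [vecMulVec_apply, e0, e]
      rw [if_neg e, Matrix.add_apply, Matrix.smul_apply, map_apply, Matrix.smul_apply, h17,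
        Matrix.one_apply]
      split_ifs <;> simp

end Pool.Agent.Lib.MP_6adaea_nt.W
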