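import Pool.Agent.Lib.MP_6adaea_nt.W.Defs2

/-!
Places with infinite orbit.
-/

set_option linter.unusedSectionVars false

namespace Pool.Agent.Lib.MP_6adaea_nt.W
open Matrix Polynomial G U
open scoped TensorProduct

variable {kb K : Type} [Field kb] [Field K] [Algebra kb K] [IsAlgClosed kb] [IsFF kb K]
  (p : ℕ) [Fact p.Prime] [CharP kb p]
  {k : Type} [Field k] [Algebra k kb]

theorem tay2_uniq (w : Place kb K) {s : K} {c c' : kb} (h : 0 < w.ord (s - algebraMap kb K c))
    (h' : 0 < w.ord (s - algebraMap kb K c')) : c = c' := by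
  have h1 : w.Ge (s - algebraMap kb K c - (s - algebraMap kb K c')) 1 :=
    (Place.Ge.of_le h).sub (Place.Ge.of_le h')
  rw [sub_sub_sub_cancel_left, ← map_sub] at h1
  rcases h1 with h1 | h1
  · exact (sub_eq_zero.mp ((map_eq_zero _).mp h1)).symm
  · rw [w.ord_const] at h1
    omega

theorem tay2_inj (a : kb ≃+* kb) {Q : ℕ} (hQ : 2 ≤ Q) (ha : ∀ c, a c ^ Q = c) {c : kb}
    (hc : Transcendental k c) : Function.Injective fun n : ℕ => a^[n] c := by
  have h1 : ∀ n : ℕ, (a^[n] c) ^ Q ^ n = c := fun n => by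
    induction n with
    | zero => simp
    | succ n ih => rw [Function.iterate_succ_apply', pow_succ', pow_mul, ha, ih]
  have h2 : ∀ n : ℕ, a^[n] c = c → n = 0 := fun n hn => by
    by_contra h0
    have h3 := h1 n
    rw [hn] at h3
    have h4 : 1 < Q ^ n := Nat.one_lt_pow h0 hQ
    refine hc ⟨X ^ Q ^ n - X, ?_, by simp [h3]⟩
    exact FiniteField.X_pow_card_sub_X_ne_zero k h4
  have h5 : ∀ m n : ℕ, m ≤ n → a^[m] c = a^[n] c → m = n := fun m n hmn e => by
    obtain ⟨d, rfl⟩ := Nat.exists_eq_add_of_le hmn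
    rw [Function.iterate_add_apply] at e
    rw [h2 d (a.injective.iterate m e).symm, add_zero]
  intro m n e
  rcases le_total m n with h | h
  · exact h5 m n h e
  · exact (h5 n m h e.symm).symm

theorem tay2_max {I : Type} (v : Place kb K) (a : I → K) {i0 : I} (h : v.ord (a i0) ≠ 0) :
    ∃ (b : ℕ) (x : I → K), (∀ i, x i ^ p ^ b = a i) ∧ ∃ i, ¬∃ y, x i = y ^ p := by
  by_contra hc
  have h1 : ∀ b : ℕ, ∃ x : I → K, ∀ i, x i ^ p ^ b = a i := fun b => by
    induction b with
    | zero => exact ⟨a, fun i => by simp⟩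
    | succ b ih =>
      obtain ⟨x, hx⟩ := ih
      have h2 : ∀ i, ∃ y, x i = y ^ p := fun i => by
        by_contra h2
        exact hc ⟨b, x, hx, i, h2⟩
      choose y hy using h2
      exact ⟨y, fun i => by rw [pow_succ', pow_mul, ← hy, hx]⟩
  obtain ⟨x, hx⟩ := h1 (v.ord (a i0)).natAbs
  have h2 : ((p ^ (v.ord (a i0)).natAbs : ℕ) : ℤ) ∣ v.ord (a i0) :=
    ⟨v.ord (x i0), by rw [← v.ord_pow, hx]⟩
  have h3 := Nat.le_of_dvd (Int.natAbs_pos.mpr h) (Int.natCast_dvd.mp h2)
  exact absurd (Nat.lt_pow_self (Fact.out : p.Prime).one_lt) (not_lt.mpr h3)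

include p in
/-- `(s - c)⁻¹` is not constant, so it has a pole `v` (`IsFF.pole`). Let `π` be the permutation of
the places from `Place.exists_perm`; `(π ^ n) v` is a zero of `s - a ^ n c`, where `(a c) ^ Q = c`,
and these values are distinct, so the places `(π ^ n) v` are distinct. A finite `π`-stable set
does not contain `v`; apply this to the sets of `IsFF.unif` and `IsFF.fin`. -/
theorem exists_place_orbit (γ : K ≃+* K) (a : kb ≃+* kb)
    (h : ∀ c, γ (algebraMap kb K c) = algebraMap kb K (a c)) {Q : ℕ} (hQ : 2 ≤ Q)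
    (ha : ∀ c, a c ^ Q = c) {s : K} (hs : ¬∃ y, s = y ^ p) (h1 : γ s = s) {c : kb}
    (hc : Transcendental k c) : ∃ v : Place kb K, v.ord (s - algebraMap kb K c) = 1 ∧
      ∀ x, γ x = x → v.ord x = 0 := by
  have hp : p.Prime := Fact.out
  obtain ⟨v, hv⟩ : ∃ v : Place kb K, 0 < v.ord (s - algebraMap kb K c) := by
    by_contra hv
    obtain ⟨d, hd⟩ := IsFF.pole (k := kb) p (x := (s - algebraMap kb K c)⁻¹) fun v =>
      Place.Ge.of_le (by
        rw [v.ord_inv]
        exact neg_nonneg.mpr (not_lt.mp fun h => hv ⟨v, h⟩))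
    obtain ⟨y, hy⟩ := IsAlgClosed.exists_pow_nat_eq (c + d⁻¹) hp.pos
    refine hs ⟨algebraMap kb K y, ?_⟩
    rw [← map_pow, hy, map_add, map_inv₀, ← hd, inv_inv, add_sub_cancel]
  obtain ⟨π, hπ⟩ := Place.exists_perm γ a h
  have h2 : ∀ (w : Place kb K) (c' : kb),
      (π w).ord (s - algebraMap kb K (a c')) = w.ord (s - algebraMap kb K c') := fun w c' => by
    rw [← hπ w, map_sub, h1, h]
  have h3 : ∀ n : ℕ, 0 < (π^[n] v).ord (s - algebraMap kb K (a^[n] c)) := fun n => by
    induction n with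
    | zero => exact hv
    | succ n ih => rwa [Function.iterate_succ_apply', Function.iterate_succ_apply', h2]
  have h4 : Function.Injective fun n : ℕ => π^[n] v := fun m n e =>
    tay2_inj a hQ ha hc (tay2_uniq (π^[n] v) (by
      have := h3 m
      rwa [show π^[m] v = π^[n] v from e] at this) (h3 n))
  have h5 : ∀ T : Set (Place kb K), T.Finite → (∀ w ∈ T, π w ∈ T) → v ∉ T := by
    intro T hT h6 h7
    refine Set.infinite_of_injective_forall_mem h4 (fun n => ?_) hT
    induction n with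
    | zero => exact h7
    | succ n ih =>
      rw [Function.iterate_succ_apply']
      exact h6 _ ih
  refine ⟨v, ?_, fun x hx => ?_⟩
  · have h6 := h5 _ (IsFF.unif (k := kb) hs) fun w hw ⟨c', hc'⟩ => hw ⟨a.symm c', by
      rwa [← h2, a.apply_symm_apply]⟩
    obtain ⟨c', hc'⟩ := not_not.mp h6
    rwa [tay2_uniq v hv (hc'.symm ▸ one_pos)]
  · refine not_not.mp (h5 _ (IsFF.fin (k := kb) p x) fun w hw => ?_)
    have h6 := hπ w x
    rw [hx] at h6
    exact fun e => hw (h6.symm.trans e)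

variable (kb) in
include kb in
include p in
/-- `γ⁻¹ ∘ D ∘ γ` is a derivation with value one at `s`; `IsFF.der_eq` -/
theorem der_comm (γ : K ≃+* K) {s : K} (h1 : γ s = s) (D : Derivation ℤ K K) (hD : D s = 1) (x : K) :
    D (γ x) = γ (D x) := by
  let D' : Derivation ℤ K K := Derivation.mk'
    (γ.symm.toAddMonoidHom.comp ((D : K →ₗ[ℤ] K).toAddMonoidHom.comp γ.toAddMonoidHom)).toIntLinearMap
    fun a b => by
      change γ.symm (D (γ (a * b))) = a • γ.symm (D (γ b)) + b • γ.symm (D (γ a))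
      rw [map_mul, D.leibniz]
      simp
  have h2 : ∀ y, D' y = γ.symm (D (γ y)) := fun y => rfl
  have h3 := IsFF.der_eq kb p D D' (t := s) (by rw [h2, h1, hD, map_one]) x
  rw [h3, hD, one_mul, h2, γ.apply_symm_apply]

/-- some place has `ord θ ≠ 0` (`IsFF.pole`), so `θ` is not a `p ^ N`-th power for large `N`. Take
`b` maximal such that all `a i` are `p ^ b`-th powers and `e` maximal such that the root of `θ`
is a `p ^ e`-th power. -/
theorem exists_roots {I : Type} (a : I → K) {i0 : I} (h0 : Transcendental kb (a i0)) :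
    ∃ (b e : ℕ) (s : K) (x : I → K), (¬∃ y, s = y ^ p) ∧ s ^ p ^ e = x i0 ∧
      (∀ i, x i ^ p ^ b = a i) ∧ ∃ i, ¬∃ y, x i = y ^ p := by
  obtain ⟨v, hv⟩ : ∃ v : Place kb K, v.ord (a i0) ≠ 0 := by
    by_contra hv
    obtain ⟨d, hd⟩ := IsFF.pole (k := kb) p (x := a i0) fun v =>
      Place.Ge.of_le (not_not.mp fun h => hv ⟨v, h⟩ : v.ord (a i0) = 0).ge
    exact h0 (hd ▸ isAlgebraic_algebraMap d)
  obtain ⟨b, x, h1, h2⟩ := tay2_max p v a hv
  obtain ⟨e, s, h3, i, h4⟩ := tay2_max p v (fun _ : Unit => x i0) (i0 := ()) fun h => hv (by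
    rw [← h1, v.ord_pow, show v.ord (x i0) = 0 from h, mul_zero])
  exact ⟨b, e, s i, x, h4, h3 i, h1, h2⟩

end Pool.Agent.Lib.MP_6adaea_nt.W
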