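import Pool.Agent.Lib.MP_6adaea_nt.W.Tay1
import Pool.Agent.Lib.MP_6adaea_nt.W.Tay2
import Pool.Agent.Lib.MP_6adaea_nt.W.Cen

/-!
The local automorphisms.
-/

set_option linter.unusedSectionVars false

namespace Pool.Agent.Lib.MP_6adaea_nt.W
open Matrix Polynomial G U
open scoped TensorProduct

variable {k C E : Type} [Field k] [Finite k] [Field C] [Field E] [Algebra k C] [Algebra k E]
  [Algebra C E] [IsScalarTower k C E] [IsAlgClosed C] [IsAlgClosed E] {θ : E} {r : ℕ} {g : ℕ → E}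
  {n J : Type} [Fintype n] [DecidableEq n] [Fintype J] [DecidableEq J]

/-- the local automorphism `π ↦ π + c * π ^ μ` -/
theorem tay_aut {K : Type} [Field K] [Algebra C K] [Algebra K E] [IsScalarTower C K E] [IsFF C K]
    (p : ℕ) [Fact p.Prime] [CharP C p] {V : QVal E} {v : Place C K} (hV : V.Over v) {π : K}
    (hπ : v.ord π = 1)
    [Algebra.IsAlgebraic (IntermediateField.adjoin C {algebraMap K E π}) E] (D : Derivation ℤ K K)
    (hD : D π = 1) {μ : ℕ} (hμ : 0 < μ) {c : C} (hc : c ≠ -1) :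
    ∃ ι : E ≃ₐ[C] E, (∀ x, V.ord (ι x) = V.ord x) ∧ ∀ x : K, v.Ge x 0 → v.Ge (D x) 0 ∧
      V.Ge (ι (algebraMap K E x) - algebraMap K E x -
        algebraMap K E (D x) * (algebraMap C E c * algebraMap K E π ^ μ)) (2 * μ) := by
  have h1 : V.ord (algebraMap K E π) = 1 := by rw [hV, hπ, Int.cast_one]
  have h0 : algebraMap K E π ≠ 0 := fun e => by simp [e] at h1
  have h2 : V.Ge (algebraMap C E c * algebraMap K E π ^ μ) μ := by
    simpa [h1] using (hV.ge_const c).mul₀ ((V.ge_ord (algebraMap K E π)).pow μ)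
  have h3 : V.ord (algebraMap K E π + algebraMap C E c * algebraMap K E π ^ μ) =
      V.ord (algebraMap K E π) := by
    rcases Nat.lt_or_ge 1 μ with h | h
    · exact (QVal.ord_add_of_gt h0 (h2.gt (by rw [h1]; exact_mod_cast h))).2
    · have h4 : algebraMap C E (1 + c) ≠ 0 :=
        (_root_.map_ne_zero _).2 fun e => hc (eq_neg_of_add_eq_zero_right e)
      rw [le_antisymm h hμ, pow_one, ← one_add_mul, ← map_one (algebraMap C E), ← map_add,
        V.ord_mul h4 h0, hV.ord_const, zero_add]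
  obtain ⟨σ, s1, s2, s3⟩ := V.exists_aut_rat hV.ord_const (by rw [h1]; exact one_pos) h3
    (RingEquiv.refl C)
  refine ⟨AlgEquiv.ofRingEquiv (f := σ) s2, s3, fun x hx => ?_⟩
  have e : AlgEquiv.ofRingEquiv (f := σ) s2 (algebraMap K E π) - algebraMap K E π =
      algebraMap C E c * algebraMap K E π ^ μ := by
    rw [sub_eq_iff_eq_add']
    exact s1
  rw [← e] at h2 ⊢
  exact taylor_aut p hV hπ D hD _ s3 (Nat.cast_nonneg μ) h2 hx

/-- the action of `γ` on the constants -/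
theorem tay_const (T : Tri k C θ) : ∃ a : C ≃+* C, (∀ c, a c ^ T.Q = c) ∧
    ∀ c, T.γ (algebraMap C E c) = algebraMap C E (a c) := by
  let φ : C ≃+* C := RingEquiv.ofBijective (G.frob k C ^ T.c : C →ₐ[k] C)
    ⟨(G.frob k C ^ T.c : C →ₐ[k] C).injective, fun y => by
      obtain ⟨z, hz⟩ := IsAlgClosed.exists_pow_nat_eq y (n := T.Q) (by have := T.two_le; omega)
      exact ⟨z, (frob_pow_apply _ _).trans hz⟩⟩
  have h : ∀ c, φ.symm c ^ T.Q = c := fun c =>
    (frob_pow_apply (k := k) T.c _).symm.trans (φ.apply_symm_apply c)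
  exact ⟨φ.symm, h, fun c => by rw [← AlgEquiv.eq_symm_apply, T.symm_const, h]⟩

/-- In the function field `N` take `b, e, s, x` from `exists_roots`; `γ` fixes `s` and the `x i`.
`D` from `IsFF.exists_der`, `c1 ^ p ^ (e + b) = t`, `v` from `exists_place_orbit`, `π = s - c1`,
`V` from `exists_qval`, so `θ - t = π ^ p ^ (e + b)`. `d i` is the `p ^ b`-th power of the residue
of `D (x i)`, which is fixed by `γ` (`der_comm`), and `c0 = (-1) ^ p ^ b`. For `c' ^ p ^ b = c`,
`μ = p ^ e * m` take `ι π = π + c' * π ^ μ` (`QVal.exists_aut_rat`, `aut_basis`); `taylor_aut`. -/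
theorem Tri.exists_loc (T : Tri k C θ) (N : IntermediateField C E) (hN : IsFF C N)
    (hγ : ∀ x, x ∈ N ↔ T.γ x ∈ N) {I : Type} (a : I → E) (h1 : ∀ i, a i ∈ N)
    (ha : ∀ i, T.γ (a i) = a i) {i0 : I} (h0 : a i0 = θ) {t : C} (ht : Transcendental k t) :
    ∃ (V : QVal E) (d : I → C) (c0 : C), Cen C V θ t ∧ d ≠ 0 ∧ ∀ m : ℕ, 0 < m → ∀ c : C, c ≠ c0 →
      ∃ ι : E ≃ₐ[C] E, (∀ x, V.ord (ι x) = V.ord x) ∧ (∀ x ∈ N, V.Ge x 0 → V.Ge (ι x - x) 1) ∧
        ∀ i, V.Gt (ι (a i) - a i - algebraMap C E (c * d i) * (θ - algebraMap C E t) ^ m)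
          (m * V.ord (θ - algebraMap C E t)) := by
  obtain ⟨p, _, _, _, -⟩ := exists_char k C
  have hp : p.Prime := Fact.out
  have : CharP E p := charP_of_injective_algebraMap (algebraMap C E).injective p
  have : CharP N p := charP_of_injective_algebraMap (algebraMap C N).injective p
  obtain ⟨α, α1, α2⟩ := tay_const T
  let γ : N ≃+* N :=
    { toFun := fun x => ⟨T.γ x, (hγ x).1 x.2⟩
      invFun := fun x => ⟨T.γ.symm x, (hγ _).2 (by rw [AlgEquiv.apply_symm_apply]; exact x.2)⟩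
      left_inv := fun x => Subtype.ext (T.γ.symm_apply_apply x)
      right_inv := fun x => Subtype.ext (T.γ.apply_symm_apply x)
      map_mul' := fun x y => Subtype.ext (map_mul T.γ (x : E) y)
      map_add' := fun x y => Subtype.ext (map_add T.γ (x : E) y) }
  have hroot : ∀ (y : N) (j : ℕ), γ (y ^ p ^ j) = y ^ p ^ j → γ y = y := fun y j h => by
    rw [map_pow, ← sub_eq_zero, ← sub_pow_char_pow] at h
    exact sub_eq_zero.1 (pow_eq_zero_iff (pow_ne_zero j hp.ne_zero) |>.1 h)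
  obtain ⟨b, e, s, x, hs, hsx, hx, i1, hi1⟩ := exists_roots (kb := C) p
    (fun i => (⟨a i, h1 i⟩ : N)) (i0 := i0)
    ((transcendental_algebraMap_iff (algebraMap N E).injective).1 (h0.symm ▸ T.tr :
      Transcendental C (a i0)))
  have hxγ : ∀ i, γ (x i) = x i := fun i => hroot _ b (by rw [hx]; exact Subtype.ext (ha i))
  have hsγ : γ s = s := hroot _ e (by rw [hsx, hxγ])
  obtain ⟨D, hD, hD0⟩ := IsFF.exists_der C p hs
  obtain ⟨c1, hc1⟩ := IsAlgClosed.exists_pow_nat_eq t (pow_pos hp.pos (e + b))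
  obtain ⟨v, hπ, hv⟩ := exists_place_orbit (k := k) p γ α (fun c => Subtype.ext (α2 c)) T.two_le α1
    hs hsγ (c := c1) fun h => ht (hc1 ▸ h.pow _)
  have := T.alg
  have : Algebra.IsAlgebraic N E :=
    ⟨aut_alg (k := C) (π := θ) N.toSubfield N.algebraMap_mem (h0 ▸ h1 i0)⟩
  obtain ⟨V, hV⟩ := exists_qval E v
  have hres := hV.hasRes
  generalize hπd : s - algebraMap C N c1 = π at hπ
  have hDπ : D π = 1 := by rw [← hπd, map_sub, hD, ffd_const p D, sub_zero]
  have hxa : ∀ i, algebraMap N E (x i) ^ p ^ b = a i := fun i => by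
    rw [← map_pow, hx]
    rfl
  have hθ : θ - algebraMap C E t = algebraMap N E π ^ p ^ (e + b) := by
    rw [← hπd, map_sub, sub_pow_char_pow, ← IsScalarTower.algebraMap_apply, ← map_pow (algebraMap C E),
      hc1, pow_add, pow_mul, ← map_pow, hsx, hxa, h0]
  have o1 : V.ord (algebraMap N E π) = 1 := by rw [hV, hπ, Int.cast_one]
  have o2 : V.ord (θ - algebraMap C E t) = p ^ (e + b) := by
    rw [hθ, QVal.ord_pow, o1, mul_one, Nat.cast_pow]
  have hp0 : (0 : ℚ) < p := by exact_mod_cast hp.pos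
  have := aut_basis (π' := algebraMap N E π) T.tr fun ⟨f, hf, h⟩ =>
    (V.ord_aeval hres.const (by rw [o1]; exact one_pos) hf).1 h
  refine ⟨V, fun i => V.res C (algebraMap N E (D (x i))) ^ p ^ b, (-1) ^ p ^ b,
    ⟨hres, QVal.Gt.of_lt (by rw [o2]; positivity)⟩, fun h => ?_, fun m hm c hc => ?_⟩
  · refine hres.res_ne_zero ((_root_.map_ne_zero _).2 fun h => hi1 (hD0 _ h)) ?_
      (pow_eq_zero_iff (pow_ne_zero b hp.ne_zero) |>.1 (congrFun h i1))
    rw [hV, hv _ (by rw [← der_comm C p γ hsγ D hD, hxγ]), Int.cast_zero]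
  obtain ⟨c', rfl⟩ := IsAlgClosed.exists_pow_nat_eq c (pow_pos hp.pos b)
  have hμ : 0 < p ^ e * m := Nat.mul_pos (pow_pos hp.pos e) hm
  have hμ' : (1 : ℚ) ≤ (p ^ e * m : ℕ) := by exact_mod_cast hμ
  obtain ⟨ι, ι1, ι2⟩ := tay_aut p hV hπ D hDπ hμ (c := c') fun h => hc (by rw [h])
  have h2 : V.Ge (algebraMap C E c' * algebraMap N E π ^ (p ^ e * m)) (p ^ e * m : ℕ) := by
    simpa only [o1, mul_one] using
      (hV.ge_const c').mul₀ ((V.ge_ord (algebraMap N E π)).pow (p ^ e * m))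
  refine ⟨ι, ι1, fun y hy h => ?_, fun i => ?_⟩
  · obtain ⟨h3, h4⟩ := ι2 ⟨y, hy⟩ (hV.ge_zero.1 h)
    have h5 := (h4.mono (m' := 1) (by linarith)).add (((hV.ge_zero.2 h3).mul₀ h2).mono hμ')
    rwa [sub_add_cancel] at h5
  · obtain ⟨h3, h4⟩ := ι2 (x i) (Place.Ge.of_le (hv _ (hxγ i)).ge)
    have h5 := (((h4.gt (m' := (p ^ e * m : ℕ)) (by linarith)).add
      (by simpa only [zero_add] using (hres.gt_res (hV.ge_zero.2 h3)).mul_ge h2)).pow
        (pow_ne_zero b hp.ne_zero))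
    convert h5 using 1
    · rw [show ∀ u w y z : E, u - w * z + (w - y) * z = u - y * z from fun _ _ _ _ => by ring,
        sub_pow_char_pow, sub_pow_char_pow, ← map_pow, hxa, hθ]
      simp only [map_mul, map_pow, mul_pow, ← pow_mul, pow_add]
      ring
    · rw [o2]
      push_cast
      ring

end Pool.Agent.Lib.MP_6adaea_nt.W
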