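import Pool.Agent.Lib.MP_6adaea_nt.W.DLc
import Pool.Agent.Lib.MP_6adaea_nt.W.Tay
import Pool.Agent.Lib.MP_6adaea_nt.W.Fld
import Pool.Agent.Lib.MP_6adaea_nt.W.PhiB
import Pool.Agent.Lib.MP_6adaea_nt.W.PhiC
import Pool.Agent.Lib.MP_6adaea_nt.W.PR

/-!
Rank one families at one place.
-/

set_option linter.unusedSectionVars false

namespace Pool.Agent.Lib.MP_6adaea_nt.W
open Matrix Polynomial G U
open scoped TensorProduct

variable {k C E : Type} [Field k] [Finite k] [Field C] [Field E] [Algebra k C] [Algebra k E]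
  [Algebra C E] [IsScalarTower k C E] [IsAlgClosed C] [IsAlgClosed E] {θ : E} {r : ℕ} {g : ℕ → E}
  {n J : Type} [Fintype n] [DecidableEq n] [Fintype J] [DecidableEq J]

variable (T : Tri k C θ)

/-- `Phit_mem` for the preimage of `dev` under `frob`, `pow_mem_dev` -/
theorem frob_Phit_dev {V : QVal E} (hV : V.HasRes C) (ι : E ≃ₐ[C] E)
    (hι : ∀ x, V.ord (ι x) = V.ord x) (hg : g r = 1) {δ : ℚ} (hδ : 0 < δ)
    (h0 : ∀ i, V.Ge (co θ g r i) 0) (h1 : ∀ i, V.Ge (ι (co θ g r i) - co θ g r i) δ) (c : ℕ) :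
    PIn (dev hV ι hι δ).toSubring (pmap (frob k E : E →+* E) (Phit k θ r g c)) :=
  PIn.of_comap _ (Phit_mem hg _ (fun i => pow_mem_dev hV ι hι (frob k E : E →+* E)
    (two_le_card (K := k)) (fun x => by simpa using frob_pow_apply (k := k) 1 x) hδ (h0 i) (h1 i)) c)

theorem dl_e0_ne (hr : 0 < r) : e0 C r ≠ 0 := fun h => by
  simpa [e0] using congrFun h ⟨0, hr⟩

/-- the values `-c / (1 + c * d)` are infinitely many -/
theorem dl_infinite (c0 d : C) {S : Set C}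
    (h : ∀ c, c ≠ c0 → 1 + c * d ≠ 0 → -(1 + c * d)⁻¹ * c ∈ S) : S.Infinite := by
  have h1 : ({c0, -d⁻¹} : Set C).Finite := Set.toFinite _
  have h2 : ∀ c ∈ ({c0, -d⁻¹} : Set C)ᶜ, c ≠ c0 ∧ 1 + c * d ≠ 0 := fun c hc => by
    simp only [Set.mem_compl_iff, Set.mem_insert_iff, Set.mem_singleton_iff, not_or] at hc
    refine ⟨hc.1, fun e => hc.2 ?_⟩
    have hd : d ≠ 0 := by
      rintro rfl
      simp at e
    field_simp
    linear_combination e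
  refine ((h1.infinite_compl).image (f := fun c => -(1 + c * d)⁻¹ * c) fun a ha b hb e => ?_).mono ?_
  · have h3 := (h2 a ha).2
    have h4 := (h2 b hb).2
    simp only [neg_mul, neg_inj, ← div_eq_inv_mul] at e
    rw [div_eq_div_iff h3 h4] at e
    linear_combination e
  · rintro _ ⟨c, hc, rfl⟩
    exact h c (h2 c hc).1 (h2 c hc).2

theorem dl_co_fix (hD : T.Dr r g) (i : Fin r) : T.γ (co θ g r i) = co θ g r i := by
  unfold co
  split_ifs
  · exact T.fix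
  · exact hD.fix i

include T in
theorem dl_ne (t : C) : θ - algebraMap C E t ≠ 0 := fun h =>
  T.tr (sub_eq_zero.1 h ▸ isAlgebraic_algebraMap t)

theorem dl_move {V : QVal E} (hV : V.HasRes C) {x u : E} {c : C} {δ : ℚ}
    (h : V.Gt (x - algebraMap C E c * u) δ) (hu : V.Ge u δ) : V.Ge x δ := by
  simpa using h.ge.add ((hV.ge_const c).mul₀ hu)

/-- `fld_of_eq`, `exists_loc` with `a = co θ g r`, `m = 1`, `dl_one` with `c • d`, `dl2` with
`U = (pmap frob (Phit ((T.pow j).c - 1))).map (eval t)` and `tw T.F Θ j` (`tw_eq`, `tw_mul`,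
`tw_Ph`, `uniOrb_tw`). The values `s = -c / (1 + c * d 0)` are infinitely many; `eig_line`. -/
theorem Tri.dl_plain (hr : 0 < r) (hD : T.Dr r g) {t : C} (ht : Transcendental k t)
    (ρ : PRep C (Fin r) J) {Θ : Matrix J J E} (hΘ : Aux k θ g t ρ Θ) {y : J → E} (hy0 : y ≠ 0)
    {μ : E} (hy : (fun j => T.F (y j)) = μ • (ap ρ.P (T.Ph r g t) * Θ) *ᵥ y)
    {β : Matrix J J (MvPolynomial (Fin r × Fin r) C)}
    (hβ : ∀ B : Matrix (Fin r) (Fin r) C, ap β B = ap ρ.P (1 + B)) :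
    ∃ V, Cen C V θ t ∧ RkAt V β y := by
  obtain ⟨V0, hV0⟩ := T.exists_cen t
  obtain ⟨-, Θ', -, hΘ'⟩ := hΘ.uni V0 t hV0 ⟨0, 0, rfl⟩
  have hinv : Θ' * ap ρ.P (T.Ph r g t)⁻¹ * (ap ρ.P (T.Ph r g t) * Θ) = 1 := by
    rw [Matrix.mul_assoc, ← Matrix.mul_assoc _ _ Θ, ← ρ.mul,
      Matrix.nonsing_inv_mul _ (T.Ph_det hr hD.one t).isUnit, ρ.one, Matrix.one_mul, hΘ']
  have hmem : ∀ i j, (ap ρ.P (T.Ph r g t) * Θ) i j ∈ Algebra.adjoin C (Set.range (co θ g r)) := by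
    intro i j
    rw [Matrix.mul_apply]
    refine Subalgebra.sum_mem _ fun l _ => Subalgebra.mul_mem _ (ap_mem _ _ (fun a b => ?_) _ _)
      (hΘ.mem _ _)
    exact (Phit_mem hD.one (Algebra.adjoin C (Set.range (co θ g r))).toSubring
      (fun i => Algebra.subset_adjoin ⟨i, rfl⟩) T.c).eval_mem (Subalgebra.algebraMap_mem _ t) a b
  have h00 : co θ g r ⟨0, hr⟩ = θ := if_pos rfl
  obtain ⟨N, hN, hN1, hN2, hN3⟩ := T.fld_of_eq (co θ g r) (dl_co_fix T hD) h00 hinv hmem hy0 hy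
  obtain ⟨V, d, c0, hV, hd, H⟩ := T.exists_loc N hN hN3 (co θ g r) hN1 (dl_co_fix T hD) h00 ht
  obtain ⟨w, hw⟩ := exists_red hV.1 hy0
  have hu := dl_ne T t
  have hi := T.co_ge hD.fix hV ht (r := r)
  refine ⟨V, hV, w, e0 C r, d, hw, dl_e0_ne hr, hd,
    eig_line β _ w (dl_infinite c0 (d ⟨0, hr⟩) fun c hc hc' => ?_)⟩
  obtain ⟨ι, hι, hι1, hι2⟩ := H 1 one_pos c hc
  simp only [pow_one, Nat.cast_one, one_mul] at hι2
  obtain ⟨P', hP, hP1, hP2⟩ := dl_one hV.1 hr hD.one ι hι t hu hV.2 hi (c • d) hι2 hc'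
  have hG : (1 : Matrix (Fin r) (Fin r) C) + (-(1 + (c • d) ⟨0, hr⟩)⁻¹) • vecMulVec (e0 C r) (c • d) =
      1 + (-(1 + c * d ⟨0, hr⟩)⁻¹ * c) • vecMulVec (e0 C r) d := by
    rw [vecMulVec_smul, smul_smul]
    rfl
  change Eig _ w
  rw [hβ, ← hG]
  refine T.dl2 hV.1 ι hι N (fun x => (hN3 x).1) hι1 ρ hP
    (fun a b => (Phi_mem hD.one V.O hi).eval_mem (hV.1.ge_const t) a b) hP1 hP2 hN2 hw fun j => ?_
  obtain ⟨μ', hμ⟩ := T.tw_eq hy j
  obtain ⟨m, hm⟩ := Nat.exists_eq_succ_of_ne_zero (T.pow j).c_pos.ne'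
  have hdev := frob_Phit_dev (k := k) hV.1 ι hι hD.one (hV.2.lt hu) hi
    (fun i => dl_move hV.1 (hι2 i) (V.ge_ord _)) m
  have hdet := hV.det_frob_Phit ht hr hD.one m
  refine ⟨μ', (pmap (G.frob k E : E →+* E) (Phit k θ r g m)).map (eval (algebraMap C E t)),
    tw T.F Θ j, uni_eval (fun a b l => (hdev a b l).1) (hV.1.ge_const t) hdet.1 hdet.2,
    fun a b => hdev.eval_mem (Subalgebra.algebraMap_mem _ t) a b,
    T.uniOrb_tw hΘ.uni j V t hV ⟨0, 0, rfl⟩, (T.tw_mul ρ (T.Ph r g t) hΘ.comm j).1, ?_⟩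
  rw [hμ, (T.tw_mul ρ (T.Ph r g t) hΘ.comm j).2, T.tw_Ph hD.fix, Tri.Ph, hm, Phit]
  congr 4
  exact Matrix.map_mul (f := evalRingHom (algebraMap C E t))

end Pool.Agent.Lib.MP_6adaea_nt.W
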