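import Pool.Agent.Lib.MP_6adaea_nt.W.PhiA

/-!
The local argument.
-/

set_option linter.unusedSectionVars false

namespace Pool.Agent.Lib.MP_6adaea_nt.W
open Matrix Polynomial G U
open scoped TensorProduct

variable {k C E : Type} [Field k] [Finite k] [Field C] [Field E] [Algebra k C] [Algebra k E]
  [Algebra C E] [IsScalarTower k C E] [IsAlgClosed C] [IsAlgClosed E] {θ : E} {r : ℕ} {g : ℕ → E}
  {n J : Type} [Fintype n] [DecidableEq n] [Fintype J] [DecidableEq J]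

private lemma dlc_mul {V : QVal E} (hV : V.HasRes C) {x y : E} {a b : C}
    (hx : V.Gt (x - algebraMap C E a) 0) (hy : V.Gt (y - algebraMap C E b) 0) :
    V.Gt (x * y - algebraMap C E (a * b)) 0 := by
  have h1 : V.Ge y 0 := by simpa using hy.ge.add (hV.ge_const b)
  have := (h1.mul_gt₀ hx).add ((hV.ge_const a).mul_gt₀ hy)
  convert this using 1
  rw [map_mul]
  ring

private lemma dlc_ge_gt {V : QVal E} {A B : Matrix n n E} {s t : ℚ} (hA : MGe V A s)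
    (hB : ∀ i j, V.Gt (B i j) t) (i j : n) : V.Gt ((A * B) i j) (s + t) := by
  rw [Matrix.mul_apply]
  exact QVal.Gt.sum fun l _ => (hA i l).mul_gt (hB l j)

private lemma dlc_gt_ge {V : QVal E} {A B : Matrix n n E} {s t : ℚ} (hA : ∀ i j, V.Gt (A i j) s)
    (hB : MGe V B t) (i j : n) : V.Gt ((A * B) i j) (s + t) := by
  rw [Matrix.mul_apply]
  exact QVal.Gt.sum fun l _ => (hA i l).mul_ge (hB l j)

private lemma dlc_min (V : QVal E) {x : J → E} (hx : x ≠ 0) :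
    ∃ l, x l ≠ 0 ∧ ∀ j, V.Ge (x j / x l) 0 := by
  classical
  obtain ⟨a, ha⟩ := Function.ne_iff.mp hx
  obtain ⟨l, hl, hmin⟩ := Finset.exists_min_image (Finset.univ.filter fun l => x l ≠ 0)
    (fun l => V.ord (x l)) ⟨a, Finset.mem_filter.mpr ⟨Finset.mem_univ _, ha⟩⟩
  have h1 := (Finset.mem_filter.mp hl).2
  refine ⟨l, h1, fun j => ?_⟩
  rw [QVal.ge_div_iff h1, zero_add]
  exact (em (x j = 0)).imp id fun h => hmin j (Finset.mem_filter.mpr ⟨Finset.mem_univ _, h⟩)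

private lemma dlc_pow_mem (σ : E ≃ₐ[k] E) (N : IntermediateField C E) (h : ∀ x ∈ N, σ x ∈ N)
    (m : ℕ) {x : E} (hx : x ∈ N) : (σ ^ m) x ∈ N := by
  induction m with
  | zero => exact hx
  | succ m ih =>
    rw [pow_succ', AlgEquiv.mul_apply]
    exact h _ ih

/-- Let `y0 = μ • y = Ψ' *ᵥ fr z`. Then `ι y0 = (ι Ψ' * Ψ) *ᵥ y0 + ι Ψ' *ᵥ fr (ι z - z)`, and the
last term has order at least `Q - B > 0`. The least order `ω` of an entry `y0 j0` is at most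
zero, because `fr z = Ψ *ᵥ y0` has an entry of order zero. Divide by `y0 j0` and reduce
(`HasRes.gt_sub`, `Red.uniq`). -/
theorem dl_core {V : QVal E} (hV : V.HasRes C) (ι : E ≃ₐ[C] E) (hι : ∀ x, V.ord (ι x) = V.ord x)
    (fr : E →+* E) {Q : ℕ} (hfr : ∀ x, fr x = x ^ Q) {Ψ Ψ' : Matrix J J E} (hΨ : Ψ' * Ψ = 1)
    (h0 : MGe V Ψ 0) {B : ℚ} (h1 : MGe V Ψ' (-B)) (hB : B < Q) {G : Matrix J J C}
    (hG : MRed V (Ψ'.map ι * Ψ) G) {z : J → E} (hz : ∀ j, V.Ge (ι (z j) - z j) 1) {j1 : J}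
    (hj : z j1 = 1) {y : J → E} {μ : E} (hy : (fun j => fr (z j)) = μ • Ψ *ᵥ y) {w : J → C}
    (hw : Red V y w) : Eig G w := by
  obtain ⟨hw0, l, hl⟩ := hw
  have hι0 : ∀ {x : E} {m : ℚ}, V.Gt x m → V.Gt (ι x) m := fun h =>
    h.imp (fun e => by rw [e, map_zero]) fun e => by rwa [hι]
  have hl0 : l ≠ 0 := by
    rintro rfl
    refine hw0 (funext fun j => (hV.eq_of_gt (c := 0) (d := w j) ?_).symm)
    simpa using hl j
  obtain ⟨u, hu⟩ : ∃ u : J → E, u = l • y := ⟨_, rfl⟩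
  have hu1 : ∀ j, V.Gt (u j - algebraMap C E (w j)) 0 := fun j => by
    rw [hu]
    exact hl j
  have hu0 : ∀ j, V.Ge (u j) 0 := fun j => by simpa using (hu1 j).ge.add (hV.ge_const (w j))
  obtain ⟨c, hc⟩ : ∃ c : E, c = μ / l := ⟨_, rfl⟩
  have e1 : (fun j => fr (z j)) = c • Ψ *ᵥ u := by
    rw [hy, hu, hc, Matrix.mulVec_smul, smul_smul, div_mul_cancel₀ _ hl0]
  have e2 : c * (Ψ *ᵥ u) j1 = 1 := by
    have := congrFun e1 j1
    simp only [hj, map_one, Pi.smul_apply, smul_eq_mul] at this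
    exact this.symm
  have hc0 : c ≠ 0 := left_ne_zero_of_mul_eq_one e2
  have hc1 : V.Ge c⁻¹ 0 := by
    rw [← eq_inv_of_mul_eq_one_right e2]
    exact QVal.Ge.sum fun i _ => (h0 j1 i).mul₀ (hu0 i)
  have e3 : Ψ' *ᵥ (fun j => fr (z j)) = c • u := by
    rw [e1, Matrix.mulVec_smul, Matrix.mulVec_mulVec, hΨ, Matrix.one_mulVec]
  have e4 : ∀ j, ι c * ι (u j) = c * ((Ψ'.map ι * Ψ) *ᵥ u) j +
      ∑ i, ι (Ψ' j i) * (ι (z i) - z i) ^ Q := fun j => by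
    have a1 := congrArg ι (congrFun e3 j)
    simp only [Matrix.mulVec, dotProduct, map_sum, map_mul, Pi.smul_apply, smul_eq_mul] at a1
    have a2 : c * ((Ψ'.map ι * Ψ) *ᵥ u) j = ∑ i, ι (Ψ' j i) * fr (z i) := by
      have : c • ((Ψ'.map ι * Ψ) *ᵥ u) = Ψ'.map ι *ᵥ fun j => fr (z j) := by
        rw [e1, Matrix.mulVec_smul, Matrix.mulVec_mulVec]
      exact congrFun this j
    rw [← a1, a2, ← Finset.sum_add_distrib]
    refine Finset.sum_congr rfl fun i _ => ?_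
    rw [← hfr, map_sub, hfr (z i), hfr (ι (z i)), map_pow]
    ring
  obtain ⟨lam, hlam⟩ := hV.res (ι c / c) (QVal.Ge.of_le (by
    rw [V.ord_div (by simpa using hc0) hc0, hι, sub_self]))
  refine ⟨lam, funext fun j => hV.eq_of_gt ?_⟩
  have b1 : V.Gt (ι c / c * ι (u j) - algebraMap C E (lam * w j)) 0 := by
    refine dlc_mul hV hlam ?_
    simpa using hι0 (hu1 j)
  have b2 : V.Gt (((Ψ'.map ι * Ψ) *ᵥ u) j - algebraMap C E ((G *ᵥ w) j)) 0 := by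
    simp only [Matrix.mulVec, dotProduct, map_sum]
    rw [← Finset.sum_sub_distrib]
    exact QVal.Gt.sum fun i _ => dlc_mul hV (hG j i) (hu1 i)
  have b3 : V.Gt (c⁻¹ * ∑ i, ι (Ψ' j i) * (ι (z i) - z i) ^ Q) 0 := by
    refine hc1.mul_gt₀ (QVal.Gt.sum fun i _ => ?_)
    have a1 : V.Ge (ι (Ψ' j i)) (-B) :=
      (h1 j i).imp (fun e => by rw [e, map_zero]) fun e => by rwa [hι]
    exact (a1.mul ((hz i).pow Q)).gt (by linarith)
  have b4 := (b1.sub b3).sub b2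
  convert b4 using 1
  have : ι c / c * ι (u j) = c⁻¹ * (ι c * ι (u j)) := by ring
  rw [this, e4, mul_add, ← mul_assoc, inv_mul_cancel₀ hc0, one_mul, Pi.smul_apply, smul_eq_mul]
  ring

/-- Take `j` with `B' < (T.pow j).Q`, where `ap ρ.P P'` has poles bounded by `B'`, and
`Ψ = ρ (U * P) * Θ`, `Ψ' = Θ' * ρ (P' * U')`, `z l = γ ^ (j + 1) (y l / y l1)` with `l1` chosen so
that `z` is integral. `ι Ψ' * Ψ = ι Θ' * Θ * ρ (ι P' * (ι U' * U) * P)`, and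
`ι U' * U - 1 = ι U' * (U - ι U)` has order greater than `B`. -/
theorem Tri.dl2 (T : Tri k C θ) {V : QVal E} (hV : V.HasRes C) (ι : E ≃ₐ[C] E)
    (hι : ∀ x, V.ord (ι x) = V.ord x) (N : IntermediateField C E) (hγ : ∀ x ∈ N, T.γ x ∈ N)
    (hN : ∀ x ∈ N, V.Ge x 0 → V.Ge (ι x - x) 1) (ρ : PRep C n J) {P P' : Matrix n n E}
    (hP : P' * P = 1) (h0 : MGe V P 0) {B : ℚ} (h1 : MGe V P' (-B)) {G : Matrix n n C}
    (hG : MRed V (P'.map ι * P) G) {y : J → E} (hy : ∀ j j', y j / y j' ∈ N) {w : J → C}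
    (hw : Red V y w)
    (h : ∀ j, ∃ (μ : E) (U : Matrix n n E) (Θ : Matrix J J E), Uni V U ∧
      (∀ a b, U a b ∈ dev hV ι hι B) ∧ Uni V Θ ∧
      (∀ A : Matrix n n E, Θ * ap ρ.P A = ap ρ.P A * Θ) ∧
      (fun l => (T.pow j).F (y l)) = μ • (ap ρ.P (U * P) * Θ) *ᵥ y) : Eig (ap ρ.P G) w := by
  obtain ⟨B', -, hB'⟩ := exists_mge V (ap ρ.P P')
  obtain ⟨j, hj⟩ := T.lt_pow_Q B'
  obtain ⟨μ, U, Θ, hU, hUd, hΘ, hc, he⟩ := h j
  obtain ⟨U', hU', hU1, -⟩ := hU.exists_inv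
  obtain ⟨Θ', Θ0, Θ0', hΘ1, -, hΘ2, hΘ3, hΘ4, -⟩ := hΘ.exists_red hV
  have hy0 : (fun l => (T.pow j).γ (y l)) ≠ 0 := fun e => hw.ne_zero hV (funext fun l => by
    simpa using congrFun e l)
  obtain ⟨l1, hl1, hl2⟩ := dlc_min V hy0
  have hl3 : y l1 ≠ 0 := by simpa using hl1
  refine dl_core hV ι hι ((MP_6adaea_nt.G.frob k E ^ (T.pow j).c : E →ₐ[k] E) : E →+* E) (Q := (T.pow j).Q)
    (fun x => frob_pow_apply _ _) (Ψ := ap ρ.P (U * P) * Θ) (Ψ' := Θ' * ap ρ.P (P' * U')) ?_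
    (((hU.1.mul₀ h0).ap hV _).mul₀ hΘ.1) (B := B') ?_ hj ?_
    (z := fun l => (T.pow j).γ (y l / y l1)) (fun l => hN _ ?_ ?_) (j1 := l1) ?_
    (μ := ((T.pow j).F (y l1))⁻¹ * μ) ?_ hw
  · rw [Matrix.mul_assoc, ← Matrix.mul_assoc (ap ρ.P (P' * U')), ← ρ.mul, Matrix.mul_assoc P',
      ← Matrix.mul_assoc U', hU1, Matrix.one_mul, hP, ρ.one, Matrix.one_mul, hΘ1]
  · have := (hΘ3.mge hV).mul (hB'.mul (hU'.1.ap hV ρ.P))
    rwa [← ρ.mul, zero_add, add_zero] at this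
  · have e1 : (Θ' * ap ρ.P (P' * U')).map ι * (ap ρ.P (U * P) * Θ) =
        (Θ'.map ι * Θ) * ap ρ.P (P'.map ι * (U'.map ι * U) * P) := by
      have a1 : (ap ρ.P (P' * U')).map ι = ap ρ.P (P'.map ι * U'.map ι) := by
        rw [← Matrix.map_mul]
        exact ap_map (ι : E →ₐ[C] E) ρ.P _
      rw [Matrix.map_mul, a1, Matrix.mul_assoc, ← Matrix.mul_assoc (ap ρ.P _), ← ρ.mul, ← hc]
      simp only [Matrix.mul_assoc]
    rw [e1, ← Matrix.one_mul (ap ρ.P G), ← hΘ4]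
    refine ((hΘ3.map hV ι hι).mul hV hΘ2).mul hV (MRed.ap hV _ (hG.congr fun a b => ?_))
    have e2 : P'.map ι * (U'.map ι * U) * P - P'.map ι * P =
        P'.map ι * (U'.map ι * (U - U.map ι)) * P := by
      have a1 : U'.map ι * U.map ι = 1 := by
        rw [← Matrix.map_mul, hU1]
        exact Matrix.map_one _ (map_zero ι) (map_one ι)
      rw [Matrix.mul_sub, a1, Matrix.mul_sub, Matrix.mul_one, Matrix.sub_mul]
    rw [← Matrix.sub_apply, e2]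
    have a2 : ∀ a b, V.Gt ((U - U.map ι) a b) B := fun a b => by
      simpa using (hUd a b).2.neg
    have := dlc_gt_ge (dlc_ge_gt (h1.map (map_zero ι) hι)
      (dlc_ge_gt (hU'.1.map (map_zero ι) hι) a2)) h0 a b
    simpa using this
  · exact dlc_pow_mem T.γ N hγ _ (hy l l1)
  · rw [map_div₀]
    exact hl2 l
  · rw [div_self hl3, map_one]
  · rw [← smul_smul, ← he]
    funext l
    change (T.pow j).F (y l / y l1) = _
    rw [map_div₀, Pi.smul_apply, smul_eq_mul, div_eq_inv_mul]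

end Pool.Agent.Lib.MP_6adaea_nt.W
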