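import Pool.Agent.Lib.MP_6adaea_nt.W.DL

/-!
Rank one families at one place, dual numbers.
-/

set_option linter.unusedSectionVars false

namespace Pool.Agent.Lib.MP_6adaea_nt.W
open Matrix Polynomial G U
open scoped TensorProduct

variable {k C E : Type} [Field k] [Finite k] [Field C] [Field E] [Algebra k C] [Algebra k E]
  [Algebra C E] [IsScalarTower k C E] [IsAlgClosed C] [IsAlgClosed E] {θ : E} {r : ℕ} {g : ℕ → E}
  {n J : Type} [Fintype n] [DecidableEq n] [Fintype J] [DecidableEq J]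

variable (T : Tri k C θ)

/-- as `dl_plain` (`fld_of_eq`, `exists_loc`, `dl2`, `frob_Phit_dev`, `eig_line`) with `m = 2`, `dl_eps`, `exists_ten`, `Θ = 1`, `tw_rep`, `uni_hat` -/
theorem Tri.dl_dual (hr : 0 < r) (hD : T.Dr r g) {t : C} (ht : Transcendental k t) {M : ℕ}
    {y : JJ (Fin r) M → E} (hy0 : y ≠ 0) {μ : E}
    (hy : (fun j => T.F (y j)) = μ • rep M (fun _ => algebraMap C E t) (Phit k θ r g T.c) *ᵥ y)
    {β : Matrix (JJ (Fin r) M) (JJ (Fin r) M) (MvPolynomial (Fin r × Fin r) C)}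
    (hβ : ∀ B : Matrix (Fin r) (Fin r) C, ap β B =
      rep M (fun _ => t) (1 + (X - Polynomial.C t) • B.map Polynomial.C)) :
    ∃ V, Cen C V θ t ∧ RkAt V β y := by
  have hg := hD.one
  have ha : ∀ i, T.γ (co θ g r i) = co θ g r i := fun i => by
    unfold co
    split_ifs
    · exact T.fix
    · exact hD.fix _
  have h00 : co θ g r ⟨0, hr⟩ = θ := by simp [co]
  have hdet : IsUnit ((Phit k θ r g T.c).det.eval (algebraMap C E t)) := by
    have h1 := T.Ph_det (g := g) hr hg t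
    rw [Tri.Ph, ← coe_evalRingHom, ← RingHom.mapMatrix_apply, ← RingHom.map_det] at h1
    exact h1.isUnit
  obtain ⟨A', hA', -⟩ := exists_cong_inv (fun _ : Fin 2 => algebraMap C E t) fun _ => hdet
  have hΨ : rep M (fun _ => algebraMap C E t) A' *
      rep M (fun _ => algebraMap C E t) (Phit k θ r g T.c) = 1 := by
    rw [← rep_mul, rep_congr M hA', rep_one]
  have hm : ∀ i j, rep M (fun _ => algebraMap C E t) (Phit k θ r g T.c) i j ∈
      Algebra.adjoin C (Set.range (co θ g r)) := fun i j =>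
    (Phit_mem hg (Algebra.adjoin C (Set.range (co θ g r))).toSubring
      (fun i => Algebra.subset_adjoin ⟨i, rfl⟩) T.c).rep_mem
      (fun _ => Subalgebra.algebraMap_mem _ t) M i j
  obtain ⟨N, hN, h1, h2, h3⟩ := T.fld_of_eq (co θ g r) ha h00 hΨ hm hy0 hy
  obtain ⟨V, d, c0, hV, hd0, hd⟩ := T.exists_loc N hN h3 (co θ g r) h1 ha h00 ht
  obtain ⟨w, hw⟩ := exists_red hV.1 hy0
  have hu : θ - algebraMap C E t ≠ 0 := fun e =>
    T.tr (sub_eq_zero.1 e ▸ isAlgebraic_algebraMap t)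
  have hpos : 0 < V.ord (θ - algebraMap C E t) := hV.2.lt hu
  have hco : ∀ i, V.Ge (co θ g r i) 0 := T.co_ge hD.fix hV ht
  obtain ⟨ρ, hρ⟩ := exists_ten C (Fin r × Fin 2) M
  refine ⟨V, hV, w, e0 C r, d, hw, fun e => ?_, hd0, eig_line β _ w ?_⟩
  · have := congrFun e ⟨0, hr⟩
    simp [e0] at this
  refine (Set.finite_singleton (-c0)).infinite_compl.mono fun s hs => ?_
  obtain ⟨ι, hι, hιN, hιd⟩ := hd 2 two_pos (-s) fun e => hs (by simp [← e])
  rw [Nat.cast_ofNat] at hιd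
  obtain ⟨P', hP, hP1, hG⟩ := dl_eps hV.1 hr hg ι hι t hu hV.2 hco (fun i => -s * d i) hιd
  have hδ : ∀ i, V.Ge (ι (co θ g r i) - co θ g r i) (2 * V.ord (θ - algebraMap C E t)) :=
    fun i => by
      have h4 := (hιd i).ge.add ((hV.1.ge_const (-s * d i)).mul₀
        ((V.ge_ord (θ - algebraMap C E t)).pow 2))
      rwa [sub_add_cancel] at h4
  have hP0 : MGe V (hat (fun _ => algebraMap C E t) (Phi θ r g)) 0 := fun x y =>
    (Phi_mem hg V.O hco).hat_mem (fun _ => hV.1.ge_const t) x y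
  have key := T.dl2 hV.1 ι hι N (fun x hx => (h3 x).1 hx) hιN ρ hP hP0 hP1 hG h2 hw fun j => by
    obtain ⟨μ', hμ'⟩ := T.tw_eq hy j
    obtain ⟨c', hc'⟩ : ∃ c', (T.pow j).c = c' + 1 :=
      ⟨_, (Nat.succ_pred_eq_of_pos (T.pow j).c_pos).symm⟩
    have hin := frob_Phit_dev (k := k) hV.1 ι hι hg (by linarith) hco hδ c'
    refine ⟨μ', hat (fun _ => algebraMap C E t) (pmap (G.frob k E : E →+* E) (Phit k θ r g c')), 1,
      uni_hat (fun a b m => (hin a b m).1) (fun _ => hV.1.ge_const t)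
        fun _ => hV.det_frob_Phit ht hr hg c',
      fun a b => hin.hat_mem (fun _ => Subalgebra.algebraMap_mem _ t) a b, uni_one,
      fun A => by rw [one_mul, mul_one], ?_⟩
    rw [hμ', T.tw_rep hD.fix (fun _ => t), hc', mul_one, hρ, ← hat_mul]
    rfl
  rw [hρ] at key
  have h5 : s • vecMulVec (e0 C r) d = (-1 : C) • vecMulVec (e0 C r) fun i => -s * d i := by
    ext i j
    simp only [Matrix.smul_apply, vecMulVec_apply, smul_eq_mul]
    ring
  change Eig (ap β (s • vecMulVec (e0 C r) d)) w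
  rw [hβ, h5]
  exact key

end Pool.Agent.Lib.MP_6adaea_nt.W
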