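import Pool.Agent.Lib.MP_6adaea_nt.U.RepL
import Pool.Agent.Lib.MP_6adaea_nt.V.All

/-!
Definitions for the Zariski density theorem: Frobenius data over an algebraically closed field of
coefficients, rank one families, polynomial representations, reduction.
-/

set_option linter.unusedSectionVars false

namespace Pool.Agent.Lib.MP_6adaea_nt.W
open Matrix Polynomial G U

/-- every additive polynomial that commutes with `φ` is a polynomial in `φ` -/
def EndA {k Ω : Type} [Field k] [Field Ω] [Algebra k Ω] (φ : Ω →ₗ[k] Ω) : Prop :=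
  ∀ (n : ℕ) (u : ℕ → Ω),
    (∀ x, ∑ i ∈ Finset.range n, u i * φ x ^ Nat.card k ^ i =
      φ (∑ i ∈ Finset.range n, u i * x ^ Nat.card k ^ i)) →
    ∃ a : k[X], ∀ x, ∑ i ∈ Finset.range n, u i * x ^ Nat.card k ^ i = aeval φ a x

section grp
variable {F n : Type} [Field F] [Fintype n] [DecidableEq n]

/-- `G` contains the invertible matrices `1 + c x f` -/
def RK (G : Subgroup (GL n F)) (x f : n → F) : Prop :=
  ∀ (c : F) (g : GL n F), g.val = 1 + c • vecMulVec x f → g ∈ G

/-- `G` is closed under specialisation along polynomial curves -/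
def Cl (G : Subgroup (GL n F)) : Prop :=
  ∀ A : Matrix n n F[X], {s : F | ∃ g ∈ G, g.val = A.map (eval s)}.Infinite →
    ∀ g : GL n F, g.val = A.map (eval 0) → g ∈ G

/-- the semilinear operator on row vectors -/
def rw (σ : F → F) (P : Matrix n n F) (x : n → F) : n → F := (fun j => σ (x j)) ᵥ* P

/-- no power of the semilinear operator has a proper stable subspace -/
def Smp (σ : F → F) (P : Matrix n n F) : Prop :=
  ∀ N, 0 < N → ∀ W : Submodule F (n → F), (∀ x ∈ W, (rw σ P)^[N] x ∈ W) → W = ⊥ ∨ W = ⊤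

end grp

section tri
variable (k C : Type) {E : Type} [Field k] [Finite k] [Field C] [Field E] [Algebra k C]
  [Algebra k E] [Algebra C E] [IsScalarTower k C E]

/-- `E` is algebraic over `C(θ)` and `γ` inverts a power of Frobenius on `C` -/
structure Tri (θ : E) where
  c : ℕ
  c_pos : 0 < c
  γ : E ≃ₐ[k] E
  frob : ∀ x : C, γ (algebraMap C E x) ^ Nat.card k ^ c = algebraMap C E x
  fix : γ θ = θ
  tr : Transcendental C θ
  alg : Algebra.IsAlgebraic (IntermediateField.adjoin C {θ}) E

variable {k C} {θ : E} (T : Tri k C θ)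

namespace Tri

/-- the exponent -/
noncomputable def Q : ℕ := Nat.card k ^ T.c

lemma two_le : 2 ≤ T.Q := (two_le_card (K := k)).trans (Nat.le_self_pow T.c_pos.ne' _)

lemma symm_const (x : C) : T.γ.symm (algebraMap C E x) = algebraMap C E (x ^ T.Q) := by
  rw [AlgEquiv.symm_apply_eq, map_pow, map_pow, Q, T.frob]

lemma frob_pow (n : ℕ) (x : C) :
    (T.γ ^ n) (algebraMap C E x) ^ Nat.card k ^ (T.c * n) = algebraMap C E x := by
  induction n with
  | zero => simp
  | succ n ih =>
    rw [pow_succ', AlgEquiv.mul_apply, Nat.mul_succ, pow_add, pow_mul, ← map_pow, ih, T.frob]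

lemma pow_fix {x : E} (h : T.γ x = x) (n : ℕ) : (T.γ ^ n) x = x := by
  induction n with
  | zero => rfl
  | succ n ih => rw [pow_succ, AlgEquiv.mul_apply, h, ih]

/-- the `(j + 1)`-st power -/
def pow (j : ℕ) : Tri k C θ where
  c := T.c * (j + 1)
  c_pos := Nat.mul_pos T.c_pos j.succ_pos
  γ := T.γ ^ (j + 1)
  frob := T.frob_pow _
  fix := T.pow_fix T.fix _
  tr := T.tr
  alg := T.alg

/-- the `C`-linear Frobenius -/
noncomputable def F : E →ₐ[C] E :=
  { ((G.frob k E ^ T.c : E →ₐ[k] E) : E →+* E).comp (T.γ : E →+* E) with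
    commutes' := fun x => by
      change (G.frob k E ^ T.c) (T.γ (algebraMap C E x)) = _
      rw [frob_pow_apply, T.frob] }

lemma F_apply (x : E) : T.F x = T.γ x ^ T.Q := frob_pow_apply _ _

lemma F_pow (j : ℕ) (x : E) : (T.pow j).F x = T.F^[j + 1] x := by
  induction j with
  | zero => simp [F_apply, pow, Q]
  | succ j ih =>
    rw [Function.iterate_succ_apply', ← ih, F_apply, F_apply, F_apply, map_pow, ← pow_mul]
    simp only [pow, Q]
    rw [← pow_add, pow_succ' T.γ (j + 1), AlgEquiv.mul_apply]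
    rfl

lemma F_bijective [IsAlgClosed E] : Function.Bijective T.F :=
  ⟨T.F.injective, fun y => by
    obtain ⟨z, hz⟩ := IsAlgClosed.exists_pow_nat_eq y (n := T.Q) (by have := T.two_le; omega)
    exact ⟨T.γ.symm z, by rw [F_apply, AlgEquiv.apply_symm_apply, hz]⟩⟩

/-- the Frobenius as an automorphism -/
noncomputable def Fe [IsAlgClosed E] : E ≃+* E := RingEquiv.ofBijective T.F T.F_bijective

@[simp] lemma Fe_apply [IsAlgClosed E] (x : E) : T.Fe x = T.F x := rfl

/-- the Frobenius matrix at `t` -/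
noncomputable def Ph (r : ℕ) (g : ℕ → E) (t : C) : Matrix (Fin r) (Fin r) E :=
  (Phit k θ r g T.c).map (eval (algebraMap C E t))

/-- a normalised Drinfeld module fixed by `γ` without extra endomorphisms -/
structure Dr (r : ℕ) (g : ℕ → E) : Prop where
  one : g r = 1
  fix : ∀ i, T.γ (g i) = g i
  endA : ∃ φ : E →ₗ[k] E, IsDr θ r g φ ∧ EndA φ

end Tri

end tri

section red
variable {C E : Type} [Field C] [Field E] [Algebra C E] {ι κ J : Type}

variable (C) in
/-- `V` has residue field `C` and `θ` has the value `a` -/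
def Cen (V : QVal E) (θ : E) (a : C) : Prop := V.HasRes C ∧ V.Gt (θ - algebraMap C E a) 0

/-- all entries have order at least `m` -/
def MGe (V : QVal E) (A : Matrix ι κ E) (m : ℚ) : Prop := ∀ i j, V.Ge (A i j) m

/-- `A` reduces to `B` -/
def MRed (V : QVal E) (A : Matrix ι κ E) (B : Matrix ι κ C) : Prop :=
  ∀ i j, V.Gt (A i j - algebraMap C E (B i j)) 0

/-- unimodular matrices -/
def Uni [Fintype ι] [DecidableEq ι] (V : QVal E) (A : Matrix ι ι E) : Prop :=
  MGe V A 0 ∧ ∃ B, MGe V B 0 ∧ B * A = 1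

/-- the line through `y` reduces to the line through `w` -/
def Red (V : QVal E) (y : J → E) (w : J → C) : Prop :=
  w ≠ 0 ∧ ∃ l : E, ∀ j, V.Gt (l * y j - algebraMap C E (w j)) 0

/-- `w` is an eigenvector of `A` -/
def Eig {R : Type} [CommRing R] [Fintype J] (A : Matrix J J R) (w : J → R) : Prop :=
  ∃ l : R, A *ᵥ w = l • w

/-- evaluation of a matrix of polynomials in the entries of `A` -/
noncomputable def ap {R : Type} [CommRing R] [Algebra C R]
    (P : Matrix J J (MvPolynomial (ι × ι) C)) (A : Matrix ι ι R) : Matrix J J R :=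
  P.map (MvPolynomial.aeval fun ij => A ij.1 ij.2)

variable (C ι J) in
/-- polynomial representations of the monoid of matrices -/
structure PRep [Fintype ι] [DecidableEq ι] [Fintype J] [DecidableEq J] where
  P : Matrix J J (MvPolynomial (ι × ι) C)
  one : ∀ (R : Type) [CommRing R] [Algebra C R], ap P (1 : Matrix ι ι R) = 1
  mul : ∀ (R : Type) [CommRing R] [Algebra C R] (A B : Matrix ι ι R),
    ap P (A * B) = ap P A * ap P B

/-- `a` and `t` lie in the same Frobenius orbit -/
def Orb (q : ℕ) (t a : C) : Prop := ∃ i j : ℕ, a ^ q ^ i = t ^ q ^ j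

end red

end Pool.Agent.Lib.MP_6adaea_nt.W
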