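import Pool.Agent.Lib.MP_6adaea_nt.W.Defs
import Pool.Agent.Lib.MP_6adaea_nt.U.NoL

/-!
More definitions for the Zariski density theorem.
-/

set_option linter.unusedSectionVars false

namespace Pool.Agent.Lib.MP_6adaea_nt.W
open Matrix Polynomial G U
open scoped TensorProduct

section mem
variable {C E : Type} [Field C] [Field E] [Algebra C E] {n J : Type}

/-- the coefficients `θ, g 1, …, g (r - 1)` -/
def co (θ : E) (g : ℕ → E) (r : ℕ) (i : Fin r) : E := if (i : ℕ) = 0 then θ else g i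

/-- the first basis vector -/
def e0 (R : Type) [CommRing R] (r : ℕ) (i : Fin r) : R := if (i : ℕ) = 0 then 1 else 0

/-- all coefficients lie in `S` -/
def PIn {R : Type} [CommRing R] (S : Subring R) (A : Matrix n n R[X]) : Prop :=
  ∀ i j m, (A i j).coeff m ∈ S

/-- integral elements that `ι` moves by an element of order greater than `δ` -/
def dev {V : QVal E} (hV : V.HasRes C) (ι : E ≃ₐ[C] E) (hι : ∀ x, V.ord (ι x) = V.ord x) (δ : ℚ) :
    Subalgebra C E where
  carrier := {x | V.Ge x 0 ∧ V.Gt (ι x - x) δ}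
  add_mem' := fun {a b} ha hb => ⟨ha.1.add hb.1, by
    rw [map_add, add_sub_add_comm]
    exact ha.2.add hb.2⟩
  mul_mem' := fun {a b} ha hb => ⟨ha.1.mul₀ hb.1, by
    have h1 : V.Ge (ι a) 0 := ha.1.imp (fun e => by rw [e, map_zero]) fun e => by rwa [hι]
    have := (h1.mul_gt₀ hb.2).add (hb.1.mul_gt₀ ha.2)
    convert this using 1
    rw [map_mul]
    ring⟩
  algebraMap_mem' c := ⟨hV.ge_const c, by simp⟩

/-- products of Frobenius twists -/
def tw {R : Type} [CommRing R] [Fintype J] (σ : R → R) (A : Matrix J J R) : ℕ → Matrix J J R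
  | 0 => A
  | j + 1 => (tw σ A j).map σ * A

/-- the reduction of `y` is an eigenvector of a rank one family -/
def RkAt [Fintype J] (V : QVal E) (β : Matrix J J (MvPolynomial (n × n) C)) (y : J → E) : Prop :=
  ∃ (w : J → C) (x f : n → C), Red V y w ∧ x ≠ 0 ∧ f ≠ 0 ∧
    ∀ s : C, Eig (ap β (s • vecMulVec x f)) w

end mem

section tri
variable {k C E : Type} [Field k] [Finite k] [Field C] [Field E] [Algebra k C] [Algebra k E]
  [Algebra C E] [IsScalarTower k C E] {θ : E}

/-- `V'` is the transport of `V` -/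
def Tri.Tr (T : Tri k C θ) (V V' : QVal E) : Prop := ∀ x, V'.ord (T.F x) = T.Q * V.ord x

variable (k θ) in
/-- unimodular along the orbit of `t` -/
def UniOrb {J : Type} [Fintype J] [DecidableEq J] (t : C) (A : Matrix J J E) : Prop :=
  ∀ V a, Cen C V θ a → Orb (Nat.card k) t a → Uni V A

variable (k θ) in
/-- the auxiliary factor of the Frobenius matrix -/
structure Aux {r : ℕ} {J : Type} [Fintype J] [DecidableEq J] (g : ℕ → E) (t : C)
    (ρ : PRep C (Fin r) J) (Θ : Matrix J J E) : Prop where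
  comm : ∀ A : Matrix (Fin r) (Fin r) E, Θ * ap ρ.P A = ap ρ.P A * Θ
  mem : ∀ i j, Θ i j ∈ Algebra.adjoin C (Set.range (co θ g r))
  uni : UniOrb k θ t Θ

end tri

section ser
variable {kb K : Type} [Field kb] [Field K] [Algebra kb K] {J : Type}

/-- functions with poles bounded by `D` -/
def LL (D : Place kb K →₀ ℕ) : Submodule kb K where
  carrier := {f | ∀ v : Place kb K, v.Ge f (-(D v : ℤ))}
  add_mem' ha hb v := (ha v).add (hb v)
  zero_mem' v := v.ge_zero _
  smul_mem' c _ h v := (h v).smul c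

/-- some multiple `a * y` is integral modulo `X ^ m` and the constant term of `a` has order `e` -/
def Adp (v : Place kb K) (y : J → PowerSeries K) (m : ℕ) (e : ℤ) : Prop :=
  ∃ a : PowerSeries K, PowerSeries.coeff 0 a ≠ 0 ∧ v.ord (PowerSeries.coeff 0 a) = e ∧
    ∀ j, ∀ i < m, v.Ge (PowerSeries.coeff i (a * y j)) 0

/-- `F y` and `Ψ y` are proportional modulo `X ^ m` -/
def Mnr [Fintype J] (F : K →+* K) (Ψ : Matrix J J (PowerSeries K)) (m : ℕ)
    (y : J → PowerSeries K) : Prop :=
  ∀ l l', (PowerSeries.X : PowerSeries K) ^ m ∣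
    PowerSeries.map F (y l) * (Ψ *ᵥ y) l' - PowerSeries.map F (y l') * (Ψ *ᵥ y) l

/-- `y` is fixed by the elementary matrices modulo `X ^ m` -/
def Fxd {r M : ℕ} (τ : Fin 2 → PowerSeries kb) (m : ℕ) (y : JJ (Fin r) M → PowerSeries K) : Prop :=
  ∀ a b : Fin r, a ≠ b → ∀ (c0 c1 : kb) (j : JJ (Fin r) M), (PowerSeries.X : PowerSeries K) ^ m ∣
    (rep M (fun i => PowerSeries.map (algebraMap kb K) (τ i)) (elc (PowerSeries K) a b c0 c1) *ᵥ y
      - y) j

variable (K) in
/-- the `n`-th member of a sequence -/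
noncomputable def evn (n : ℕ) : K ⊗[kb] (ℕ → PowerSeries kb) →ₐ[kb] PowerSeries K :=
  Algebra.TensorProduct.lift (IsScalarTower.toAlgHom kb K (PowerSeries K))
    ((PowerSeries.mapAlgHom (Algebra.ofId kb K)).comp
      (Pi.evalAlgHom kb (fun _ : ℕ => PowerSeries kb) n)) fun _ _ => Commute.all _ _

end ser

end Pool.Agent.Lib.MP_6adaea_nt.W
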