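import Pool.Agent.Lib.MP_6adaea_nt.W.Defs2
import Pool.Agent.Lib.MP_6adaea_nt.U.Tens

/-!
Constant field extensions are domains.
-/

set_option linter.unusedSectionVars false

namespace Pool.Agent.Lib.MP_6adaea_nt.W
open Matrix Polynomial G U
open scoped TensorProduct

variable {kb K : Type} [Field kb] [Field K] [Algebra kb K] [IsAlgClosed kb] [IsFF kb K]
  (p : ℕ) [Fact p.Prime] [CharP kb p]

include p in
/-- for every `c` the function `t - c` has a zero (`IsFF.pole`) -/
theorem infinite_place : Infinite (Place kb K) := by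
  obtain ⟨t, ht, -⟩ := IsFF.ex (k := kb) (K := K)
  have h1 : ∀ c : kb, ∃ v : Place kb K, v.toQ.Gt (t - algebraMap kb K c) 0 := fun c => by
    by_contra h
    have h0 : t - algebraMap kb K c ≠ 0 := fun e =>
      ht (sub_eq_zero.1 e ▸ isAlgebraic_algebraMap c)
    obtain ⟨d, hd⟩ := IsFF.pole p (k := kb) (x := (t - algebraMap kb K c)⁻¹) fun v => by
      rw [← v.toQ_over.ge_zero]
      refine QVal.Ge.of_le ?_
      have := (QVal.not_gt_iff.1 fun h' => h ⟨v, h'⟩).2
      rw [Algebra.algebraMap_self, RingHom.id_apply, QVal.ord_inv]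
      linarith
    rw [inv_eq_iff_eq_inv, ← map_inv₀, sub_eq_iff_eq_add, ← map_add] at hd
    exact ht (hd ▸ isAlgebraic_algebraMap _)
  choose v hv using h1
  refine Infinite.of_injective v fun c d e => sub_eq_zero.1 ((v d).toQ_over.const_eq_zero ?_)
  have := (hv d).sub (e ▸ hv c)
  rwa [sub_sub_sub_cancel_left, ← map_sub] at this

/-- the valuation ring as an algebra -/
def env1_O (v : Place kb K) : Subalgebra kb K :=
  { v.toQ.O with algebraMap_mem' := v.toQ_over.ge_const }

/-- the residue map -/
noncomputable def env1_res (v : Place kb K) : env1_O v →ₐ[kb] kb :=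
  { v.toQ_over.hasRes.resHom with commutes' := v.toQ_over.hasRes.res_const }

theorem env1_lift {C ι : Type} [Field C] [Algebra kb C] (b : Module.Basis ι kb C) (v : Place kb K)
    {x : K ⊗[kb] C} (h0 : x ≠ 0) (h : ∀ i, v.ord ((Algebra.TensorProduct.basis K b).repr x i) = 0) :
    ∃ x' : env1_O v ⊗[kb] C, Algebra.TensorProduct.map (env1_O v).val (AlgHom.id kb C) x' = x ∧
      Algebra.TensorProduct.lift ((Algebra.ofId kb C).comp (env1_res v)) (AlgHom.id kb C)
        (fun _ _ => Commute.all _ _) x' ≠ 0 := by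
  set a := (Algebra.TensorProduct.basis K b).repr x with ha
  have h1 : ∀ i, v.toQ.ord (a i) = 0 := fun i => by rw [Place.toQ_ord, h, Int.cast_zero]
  refine ⟨∑ i ∈ a.support, (⟨a i, QVal.Ge.of_le (h1 i).ge⟩ : env1_O v) ⊗ₜ b i, ?_, fun e => ?_⟩
  · conv_rhs => rw [← (Algebra.TensorProduct.basis K b).linearCombination_repr x, ← ha,
      Finsupp.linearCombination_apply, Finsupp.sum]
    rw [map_sum]
    refine Finset.sum_congr rfl fun i _ => ?_
    rw [Algebra.TensorProduct.map_tmul, Algebra.TensorProduct.basis_apply,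
      TensorProduct.smul_tmul', smul_eq_mul, mul_one]
    rfl
  · obtain ⟨i, hi⟩ := Finsupp.support_nonempty_iff.2
      (show a ≠ 0 from fun e => h0 ((LinearEquiv.map_eq_zero_iff _).1 (ha ▸ e)))
    rw [map_sum] at e
    refine v.toQ_over.hasRes.res_ne_zero (Finsupp.mem_support_iff.1 hi) (h1 i)
      (linearIndependent_iff'.1 b.linearIndependent a.support (fun i => v.toQ.res kb (a i)) ?_ i hi)
    rw [← e]
    refine Finset.sum_congr rfl fun i _ => ?_
    rw [Algebra.TensorProduct.lift_tmul, Algebra.smul_def]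
    rfl

include p in
/-- Let `x * y = 0`, `x = ∑ a i ⊗ b i`, `y = ∑ a' j ⊗ b j` with `b` linearly independent over `kb`
(a basis of `C`). If `a i ≠ 0 ≠ a' j` take a place `v` at which all `a i`, `a' j` have order zero
(`IsFF.fin`, `infinite_place`). The residue map of the valuation ring `O` of `v` gives a ring
homomorphism `O ⊗ C → C`, and `O ⊗ C → K ⊗ C` is injective (flatness). The images of `x` and `y` in
`C` are not zero. -/
theorem tensor_domain (C : Type) [Field C] [Algebra kb C] : IsDomain (K ⊗[kb] C) := by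
  have := infinite_place (kb := kb) (K := K) p
  have : Nontrivial (K ⊗[kb] C) := inferInstance
  have : NoZeroDivisors (K ⊗[kb] C) := ⟨fun {x y} hxy => by
    by_contra h
    obtain ⟨hx, hy⟩ := not_or.1 h
    let b := Module.Basis.ofVectorSpace kb C
    have hf : ∀ z : K ⊗[kb] C, {v : Place kb K |
        ∃ i, v.ord ((Algebra.TensorProduct.basis K b).repr z i) ≠ 0}.Finite := fun z => by
      refine (((Algebra.TensorProduct.basis K b).repr z).support.finite_toSet.biUnion
        fun i _ => IsFF.fin p ((Algebra.TensorProduct.basis K b).repr z i)).subset ?_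
      rintro v ⟨i, hi⟩
      refine Set.mem_biUnion (Finsupp.mem_support_iff.2 fun e => hi ?_) hi
      rw [e, v.ord_zero]
    obtain ⟨v, hv⟩ := ((hf x).union (hf y)).exists_notMem
    obtain ⟨x', h1, h2⟩ := env1_lift b v hx fun i => by_contra fun e => hv (.inl ⟨i, e⟩)
    obtain ⟨y', h3, h4⟩ := env1_lift b v hy fun i => by_contra fun e => hv (.inr ⟨i, e⟩)
    have h5 : Function.Injective (Algebra.TensorProduct.map (env1_O v).val (AlgHom.id kb C)) :=
      Module.Flat.rTensor_preserves_injective_linearMap (M := C) (env1_O v).val.toLinearMap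
        Subtype.val_injective
    refine mul_ne_zero h2 h4 ?_
    rw [← map_mul, h5 (a₁ := x' * y') (a₂ := 0) (by rw [map_mul, h1, h3, hxy, map_zero]), map_zero]⟩
  exact NoZeroDivisors.to_isDomain _

end Pool.Agent.Lib.MP_6adaea_nt.W
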