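import Mathlib

/-!
Systems of full transvection groups.
-/

set_option linter.unusedSectionVars false

namespace Pool.Agent.Lib.MP_6adaea_nt.W
open Matrix

variable {F n : Type} [Field F] [Fintype n] [DecidableEq n]

/-- a family of pairs (vector, covector) without proper stable subspace -/
def Irr (R : (n → F) → (n → F) → Prop) : Prop :=
  ∀ U : Submodule F (n → F), (∀ x f, R x f → ∀ u ∈ U, (f ⬝ᵥ u) • x ∈ U) → U = ⊥ ∨ U = ⊤

/-- an irreducible system of full transvection groups `1 + c x f` -/
structure TS (R : (n → F) → (n → F) → Prop) : Prop where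
  orth : ∀ {x f}, R x f → f ⬝ᵥ x = 0
  zl : ∀ f, R 0 f
  zr : ∀ x, R x 0
  addl : ∀ {x y f}, R x f → R y f → R (x + y) f
  addr : ∀ {x f h}, R x f → R x h → R x (f + h)
  smull : ∀ (c : F) {x f}, R x f → R (c • x) f
  smulr : ∀ (c : F) {x f}, R x f → R x (c • f)
  conj : ∀ {x f y h}, R x f → R y h → ∀ c : F,
    R (x + (c * h ⬝ᵥ x) • y) (f - (c * f ⬝ᵥ y) • h)
  irr : Irr R

/-- the annihilator of a stable subspace is stable -/
theorem Irr.flip {R : (n → F) → (n → F) → Prop} (h : Irr R) : Irr fun f x => R x f := by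
  intro W hW
  let U : Submodule F (n → F) :=
    { carrier := {u | ∀ w ∈ W, w ⬝ᵥ u = 0}
      zero_mem' := fun _ _ => dotProduct_zero _
      add_mem' := fun ha hb w hw => by rw [dotProduct_add, ha w hw, hb w hw, add_zero]
      smul_mem' := fun c u hu w hw => by rw [dotProduct_smul, hu w hw, smul_zero] }
  rcases h U fun x f hR u hu w hw => by
      have := hu _ (hW f x hR w hw)
      rw [smul_dotProduct, smul_eq_mul, dotProduct_comm x w] at this
      rw [dotProduct_smul, smul_eq_mul, mul_comm, this] with h1 | h1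
  · refine Or.inr (eq_top_iff.2 fun v _ => ?_)
    by_contra hv
    obtain ⟨l, hl, hl'⟩ := Submodule.exists_dual_map_eq_bot_of_notMem hv inferInstance
    have e : ∀ w, l w = w ⬝ᵥ fun i => l (Pi.single i 1) := fun w => by
      conv_lhs => rw [pi_eq_sum_univ' w]
      simp only [map_sum, map_smul, smul_eq_mul, dotProduct]
    have h2 : (fun i => l (Pi.single i 1)) ∈ U := fun w hw => by
      rw [← e]
      exact (Submodule.eq_bot_iff _).1 hl' _ (Submodule.mem_map_of_mem hw)
    rw [h1, Submodule.mem_bot] at h2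
    exact hl (by rw [e, h2, dotProduct_zero])
  · refine Or.inl ((Submodule.eq_bot_iff _).2 fun w hw => funext fun i => ?_)
    have : Pi.single i 1 ∈ U := h1 ▸ Submodule.mem_top
    simpa using this w hw

theorem TS.flip {R : (n → F) → (n → F) → Prop} (h : TS R) : TS fun f x => R x f where
  orth hR := by rw [dotProduct_comm, h.orth hR]
  zl := h.zr
  zr := h.zl
  addl := h.addr
  addr := h.addl
  smull := fun c _ _ => h.smulr c
  smulr := fun c _ _ => h.smull c
  conj := fun {f x k y} h1 h2 c => by
    have := h.conj h1 h2 (-c)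
    rwa [neg_mul, neg_mul, neg_smul, neg_smul, sub_neg_eq_add, ← sub_eq_add_neg,
      dotProduct_comm k x, dotProduct_comm f y] at this
  irr := h.irr.flip

end Pool.Agent.Lib.MP_6adaea_nt.W
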