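import Pool.Agent.Lib.MP_6adaea_nt.W.Defs
import Pool.Agent.Lib.MP_6adaea_nt.W.GT0
import Pool.Agent.Lib.MP_6adaea_nt.G.Gen

/-!
Rank one families in a closed group.
-/

set_option linter.unusedSectionVars false

namespace Pool.Agent.Lib.MP_6adaea_nt.W
open Matrix Polynomial G U

variable {F n : Type} [Field F] [Fintype n] [DecidableEq n]

theorem GT2_mul (x f y h : n → F) (c e : F) :
    (1 + c • vecMulVec x f) * (1 + e • vecMulVec y h) =
      1 + c • vecMulVec x f + e • vecMulVec y h + (c * e * f ⬝ᵥ y) • vecMulVec x h := by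
  rw [add_mul, mul_add, mul_add, Matrix.one_mul, Matrix.one_mul, Matrix.mul_one, Matrix.smul_mul,
    Matrix.mul_smul, vecMulVec_mul_vecMulVec, vecMulVec_smul, smul_smul, smul_smul]
  abel

theorem GT2_rk (x f : n → F) (c : F) (h : 1 + c * f ⬝ᵥ x ≠ 0) :
    ∃ g : GL n F, g.val = 1 + c • vecMulVec x f ∧
      (g⁻¹).val = 1 + (-(c / (1 + c * f ⬝ᵥ x))) • vecMulVec x f := by
  refine ⟨⟨1 + c • vecMulVec x f, 1 + (-(c / (1 + c * f ⬝ᵥ x))) • vecMulVec x f, ?_, ?_⟩, rfl, rfl⟩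
  · rw [GT2_mul, add_assoc, add_assoc, ← add_smul, ← add_smul,
      show c + (-(c / (1 + c * f ⬝ᵥ x)) + c * -(c / (1 + c * f ⬝ᵥ x)) * f ⬝ᵥ x) = 0 by
        field_simp; ring, zero_smul, add_zero]
  · rw [GT2_mul, add_assoc, add_assoc, ← add_smul, ← add_smul,
      show -(c / (1 + c * f ⬝ᵥ x)) + (c + -(c / (1 + c * f ⬝ᵥ x)) * c * f ⬝ᵥ x) = 0 by
        field_simp; ring, zero_smul, add_zero]

theorem GT2_conj (g : GL n F) (x f : n → F) (c : F) :
    g.val * (1 + c • vecMulVec x f) * (g⁻¹).val =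
      1 + c • vecMulVec (g.val *ᵥ x) (f ᵥ* (g⁻¹).val) := by
  rw [mul_add, add_mul, Matrix.mul_one, Units.mul_inv, Matrix.mul_smul, Matrix.smul_mul,
    mul_vecMulVec, vecMulVec_mul]

theorem GT2_map {K : Type} [CommRing K] (τ : K →+* F) (x f : n → K) (c : K) :
    (1 + c • vecMulVec x f).map τ = 1 + τ c • vecMulVec (fun i => τ (x i)) fun i => τ (f i) := by
  ext i j
  simp [Matrix.one_apply, vecMulVec_apply, apply_ite τ]

theorem GT2_mulVec (x f y : n → F) (c : F) :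
    (1 + c • vecMulVec x f) *ᵥ y = y + (c * f ⬝ᵥ y) • x := by
  rw [add_mulVec, one_mulVec, smul_mulVec, vecMulVec_mulVec]
  ext i
  simp [mul_comm, mul_left_comm]

theorem GT2_vecMul (x f y : n → F) (c : F) :
    y ᵥ* (1 + c • vecMulVec x f) = y + (c * y ⬝ᵥ x) • f := by
  rw [vecMul_add, vecMul_one, vecMul_smul, vecMul_vecMulVec, smul_smul]

theorem GT2_dot (g : GL n F) (x f : n → F) : (f ᵥ* (g⁻¹).val) ⬝ᵥ (g.val *ᵥ x) = f ⬝ᵥ x := by
  rw [dotProduct_mulVec, vecMul_vecMul, Units.inv_mul, vecMul_one]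

/-- `1 + c x f` has the inverse `1 - (c / (1 + c f x)) x f` -/
theorem exists_rk (x f : n → F) (c : F) (h : 1 + c * f ⬝ᵥ x ≠ 0) :
    ∃ g : GL n F, g.val = 1 + c • vecMulVec x f := by
  obtain ⟨g, hg, -⟩ := GT2_rk x f c h
  exact ⟨g, hg⟩

/-- conjugation: `g (1 + c x f) g⁻¹ = 1 + c (g x) (f g⁻¹)` -/
theorem RK.conj {G : Subgroup (GL n F)} {x f : n → F} (h : RK G x f) {g : GL n F} (hg : g ∈ G) :
    RK G (g.val *ᵥ x) (f ᵥ* (g⁻¹).val) := by
  intro c u hu
  have h1 : g⁻¹ * u * g ∈ G := h c _ (by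
    have := GT2_conj g⁻¹ (g.val *ᵥ x) (f ᵥ* (g⁻¹).val) c
    rw [inv_inv, mulVec_mulVec, vecMul_vecMul, Units.inv_mul, one_mulVec, vecMul_one] at this
    rw [Units.val_mul, Units.val_mul, hu, this])
  rwa [G.mul_mem_cancel_right hg, G.mul_mem_cancel_left (G.inv_mem hg)] at h1

theorem RK.smul {G : Subgroup (GL n F)} {x f : n → F} (h : RK G x f) (a b : F) :
    RK G (a • x) (b • f) := by
  intro c u hu
  exact h (c * a * b) u (by rw [hu, smul_vecMulVec, vecMulVec_smul, smul_smul, smul_smul])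

/-- `P⁻¹ * σ (1 + c x f) * P = 1 + σ c (P⁻¹ σ x) (σ f P)` -/
theorem rk_iff {G : Subgroup (GL n F)} (σ : F ≃+* F) (P : GL n F)
    (hG : ∀ g : GL n F, g ∈ G ↔ P⁻¹ * red (σ : F →+* F) g * P ∈ G) (x f : n → F) :
    RK G x f ↔ RK G ((P⁻¹).val *ᵥ fun i => σ (x i)) (rw σ P.val f) := by
  have key : ∀ (c : F) (u : GL n F), u.val = 1 + c • vecMulVec x f →
      (P⁻¹ * red (σ : F →+* F) u * P).val =
        1 + σ c • vecMulVec ((P⁻¹).val *ᵥ fun i => σ (x i)) (rw σ P.val f) := fun c u hu => by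
    have := GT2_conj P⁻¹ (fun i => σ (x i)) (fun i => σ (f i)) (σ c)
    rw [inv_inv] at this
    rw [Units.val_mul, Units.val_mul, red_val, hu, GT2_map]
    exact this
  refine ⟨fun h c u hu => ?_, fun h c u hu => (hG u).2 (h _ _ (key c u hu))⟩
  have h2 : (red (σ.symm : F →+* F) (P * u * P⁻¹)).val = 1 + σ.symm c • vecMulVec x f := by
    rw [red_val, Units.val_mul, Units.val_mul, hu, GT2_conj, GT2_map, rw, mulVec_mulVec,
      vecMul_vecMul, Units.mul_inv, one_mulVec, vecMul_one]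
    simp
  have h3 := key _ _ h2
  rw [RingEquiv.apply_symm_apply, ← hu] at h3
  rw [← Units.ext h3]
  exact (hG _).1 (h _ _ h2)

/-- Let `(a, f)` be a pair with `f a = 1` (else done). The line through `a` is not stable, so some
pair `(b, h)` has `α = h a ≠ 0` and `b0 = b - f b • a ≠ 0`; put `h0 = h - α • f`. For `s ≠ 0` the
element `1 + (s - 1) a f` of `G` conjugates `(b, h)` to `(b0 + s f b • a, h0 + s⁻¹ α • f)`. So
`A s = 1 + c (b0 + s f b • a) (s • h0 + α • f)` is in `G` when `1 + c s (h b) ≠ 0`, and `Cl` gives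
`1 + c α b0 f ∈ G`. -/
theorem exists_transv [Infinite F] [Nontrivial n] {G : Subgroup (GL n F)} (hcl : Cl G)
    (hI : Irr (RK G)) (h0 : ∃ x f, x ≠ 0 ∧ f ≠ 0 ∧ RK G x f) :
    ∃ x f, x ≠ 0 ∧ f ≠ 0 ∧ f ⬝ᵥ x = 0 ∧ RK G x f := by
  obtain ⟨a, f₀, ha, hf₀, hR₀⟩ := h0
  by_cases hd : f₀ ⬝ᵥ a = 0
  · exact ⟨a, f₀, ha, hf₀, hd, hR₀⟩
  obtain ⟨f, hfa, hR⟩ : ∃ f, f ⬝ᵥ a = 1 ∧ RK G a f :=
    ⟨(f₀ ⬝ᵥ a)⁻¹ • f₀, by rw [smul_dotProduct, smul_eq_mul, inv_mul_cancel₀ hd],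
      by simpa using hR₀.smul 1 (f₀ ⬝ᵥ a)⁻¹⟩
  have hf : f ≠ 0 := fun h => by simp [h] at hfa
  obtain ⟨b, h, hbh, hα, hb⟩ : ∃ b h, RK G b h ∧ h ⬝ᵥ a ≠ 0 ∧ b ∉ Submodule.span F {a} := by
    by_contra hc
    push Not at hc
    rcases hI (Submodule.span F {a}) (fun b h hbh u hu => by
      by_cases h1 : h ⬝ᵥ a = 0
      · obtain ⟨t, rfl⟩ := Submodule.mem_span_singleton.1 hu
        simp [h1]
      · exact Submodule.smul_mem _ _ (hc b h hbh h1)) with h1 | h1
    · exact ha (Submodule.span_singleton_eq_bot.1 h1)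
    · have h2 := finrank_span_singleton (K := F) ha
      rw [h1, finrank_top, Module.finrank_fintype_fun_eq_card] at h2
      exact absurd h2 Fintype.one_lt_card.ne'
  refine ⟨b - (f ⬝ᵥ b) • a, f, fun h1 => hb ?_, hf, by simp [hfa], fun c' u hu => ?_⟩
  · rw [sub_eq_zero.1 h1]
    exact Submodule.smul_mem _ _ (Submodule.mem_span_singleton_self a)
  obtain ⟨c, rfl⟩ : ∃ c, c' = c * h ⬝ᵥ a := ⟨c' / h ⬝ᵥ a, by field_simp⟩
  refine hcl (1 + C c • vecMulVec (fun i => C ((b - (f ⬝ᵥ b) • a) i) + X * C (f ⬝ᵥ b * a i))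
    fun j => X * C ((h - (h ⬝ᵥ a) • f) j) + C (h ⬝ᵥ a * f j)) ?_ u ?_
  · refine (Set.toFinite ({0, -(c * h ⬝ᵥ b)⁻¹} : Set F)).infinite_compl.mono fun s hs => ?_
    simp only [Set.mem_compl_iff, Set.mem_insert_iff, Set.mem_singleton_iff, not_or] at hs
    obtain ⟨hs0, hs1⟩ := hs
    obtain ⟨g, hg, hg'⟩ := GT2_rk a f (s - 1) (by simpa [hfa] using hs0)
    obtain ⟨v, hv⟩ := exists_rk (g.val *ᵥ b) (h ᵥ* (g⁻¹).val) (c * s) (by
      rw [GT2_dot]
      intro h1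
      have h2 : c * h ⬝ᵥ b ≠ 0 := fun h2 => by
        rw [mul_right_comm, h2] at h1
        simp at h1
      refine hs1 (mul_left_cancel₀ h2 ?_)
      rw [mul_neg, mul_inv_cancel₀ h2]
      linear_combination h1)
    refine ⟨v, hbh.conj (hR _ _ hg) _ _ hv, ?_⟩
    rw [hv, hg', hg, GT2_mulVec, GT2_vecMul, hfa, ← coe_evalRingHom, GT2_map]
    congr 1
    ext i j
    simp only [Matrix.smul_apply, vecMulVec_apply, Pi.add_apply, Pi.smul_apply, Pi.sub_apply,
      smul_eq_mul, coe_evalRingHom, eval_add, eval_mul, eval_C, eval_X, mul_one, add_sub_cancel]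
    field_simp
    ring
  · rw [hu, ← coe_evalRingHom, GT2_map]
    congr 1
    ext i j
    simp only [Matrix.smul_apply, vecMulVec_apply, smul_eq_mul, coe_evalRingHom, eval_add, eval_mul,
      eval_C, eval_X]
    ring

/-- here `R 0 f` holds for all `f`; products `(1 + c x f) (1 + c y f) = 1 + c (x + y) f` -/
theorem ts_of_irr {G : Subgroup (GL n F)} (hI : Irr fun x f => f ⬝ᵥ x = 0 ∧ RK G x f) :
    TS fun x f => f ⬝ᵥ x = 0 ∧ RK G x f := by
  refine ⟨fun h => h.1, fun f => ⟨dotProduct_zero f, fun c u hu => ?_⟩,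
    fun x => ⟨zero_dotProduct x, fun c u hu => ?_⟩,
    fun {x y f} h1 h2 => ⟨by rw [dotProduct_add, h1.1, h2.1, add_zero], fun c u hu => ?_⟩,
    fun {x f h} h1 h2 => ⟨by rw [add_dotProduct, h1.1, h2.1, add_zero], fun c u hu => ?_⟩,
    fun c {x f} h => ⟨by rw [dotProduct_smul, h.1, smul_zero], by simpa using h.2.smul c 1⟩,
    fun c {x f} h => ⟨by rw [smul_dotProduct, h.1, smul_zero], by simpa using h.2.smul 1 c⟩,
    fun {x f y h} h1 h2 c => ?_, hI⟩
  · rw [show u = 1 from Units.ext (by simpa using hu)]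
    exact G.one_mem
  · rw [show u = 1 from Units.ext (by simpa using hu)]
    exact G.one_mem
  · obtain ⟨g, hg⟩ := exists_rk x f c (by simp [h1.1])
    obtain ⟨g', hg'⟩ := exists_rk y f c (by simp [h2.1])
    rw [show u = g * g' from Units.ext (by
      rw [Units.val_mul, hg, hg', GT2_mul, h2.1, hu, add_vecMulVec, smul_add, mul_zero, zero_smul,
        add_zero, add_assoc])]
    exact G.mul_mem (h1.2 _ _ hg) (h2.2 _ _ hg')
  · obtain ⟨g, hg⟩ := exists_rk x f c (by simp [h1.1])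
    obtain ⟨g', hg'⟩ := exists_rk x h c (by simp [h2.1])
    rw [show u = g * g' from Units.ext (by
      rw [Units.val_mul, hg, hg', GT2_mul, h1.1, hu, vecMulVec_add, smul_add, mul_zero, zero_smul,
        add_zero, add_assoc])]
    exact G.mul_mem (h1.2 _ _ hg) (h2.2 _ _ hg')
  · obtain ⟨g, hg, hg'⟩ := GT2_rk y h c (by simp [h2.1])
    have e1 : x + (c * h ⬝ᵥ x) • y = g.val *ᵥ x := by rw [hg, GT2_mulVec]
    have e2 : f - (c * f ⬝ᵥ y) • h = f ᵥ* (g⁻¹).val := by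
      rw [hg', GT2_vecMul, h2.1, mul_zero, add_zero, div_one, neg_mul, neg_smul, sub_eq_add_neg]
    rw [e1, e2]
    exact ⟨by rw [GT2_dot, h1.1], h1.2.conj (h2.2 _ _ hg)⟩

/-- `Matrix.Pivot.exists_list_transvec_mul_diagonal_mul_list_transvec` (or
`Matrix.diagonal_transvection_induction_of_det_ne_zero`) and `G.gen_diag` with `s = 1` -/
theorem hasSL_field {G : Subgroup (GL n F)} (h : ∀ x f : n → F, f ⬝ᵥ x = 0 → RK G x f) :
    HasSL G := by
  have hr : Roots G {x | (1 : F) ∣ x} := fun i j hij x _ =>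
    h (Pi.single i 1) (Pi.single j 1) (by simp [hij.symm]) x _ (by
      rw [rt_val, ← single_eq_single_vecMulVec_single, smul_single, smul_eq_mul, mul_one])
  have hl : ∀ L : List (TransvectionStruct n F), ∃ u ∈ G,
      u.val = (L.map TransvectionStruct.toMatrix).prod := fun L => by
    induction L with
    | nil => exact ⟨1, G.one_mem, by simp⟩
    | cons t L ih =>
      obtain ⟨u, hu, e⟩ := ih
      exact ⟨rt t.hij t.c * u, G.mul_mem (hr t.hij _ (one_dvd _)) hu, by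
        rw [Units.val_mul, e, List.map_cons, List.prod_cons]; rfl⟩
  intro g hd
  obtain ⟨L, L', D, e⟩ := Pivot.exists_list_transvec_mul_mul_list_transvec_eq_diagonal g.val
  obtain ⟨u, hu, e1⟩ := hl L
  obtain ⟨u', hu', e2⟩ := hl L'
  have h1 : u * g * u' ∈ G := gen_diag hr _
    (by rw [Units.val_mul, Units.val_mul, det_mul, det_mul, e1, e2, hd,
      TransvectionStruct.det_toMatrix_prod, TransvectionStruct.det_toMatrix_prod, one_mul, one_mul])
    ⟨fun i j hij => ⟨one_dvd _, fun h0 => absurd (by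
      rw [Units.val_mul, Units.val_mul, e1, e2, e, diagonal_apply_ne _ hij]) h0⟩,
      fun i => by rw [one_pow]; exact one_dvd _⟩
  rwa [G.mul_mem_cancel_right hu', G.mul_mem_cancel_left hu] at h1

end Pool.Agent.Lib.MP_6adaea_nt.W
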