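import Pool.Agent.Lib.MP_6adaea_nt.W.GT3

/-!
A centre with two axes gives all transvections.
-/

set_option linter.unusedSectionVars false

namespace Pool.Agent.Lib.MP_6adaea_nt.W
open Matrix

variable {F n : Type} [Field F] [Fintype n] [DecidableEq n]

/-- the axes of a centre -/
def GT4_A {R : (n → F) → (n → F) → Prop} (h : TS R) (y : n → F) : Submodule F (n → F) where
  carrier := {f | R y f}
  zero_mem' := h.zr y
  add_mem' := h.addr
  smul_mem' := fun c _ hf => h.smulr c hf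

theorem GT4_sub {R : (n → F) → (n → F) → Prop} (h : TS R) {x f g : n → F} (h1 : R x f)
    (h2 : R x g) : R x (f - g) :=
  (GT4_A h x).sub_mem h1 h2

theorem GT4_unsmul {R : (n → F) → (n → F) → Prop} (h : TS R) {x f : n → F} {c : F} (hc : c ≠ 0)
    (h1 : R x (c • f)) : R x f := by
  have := h.smulr c⁻¹ h1
  rwa [smul_smul, inv_mul_cancel₀ hc, one_smul] at this

/-- an axis of `y` that kills `x` is an axis of `x` if some axis of `x` does not kill `y` -/
theorem GT4_ii {R : (n → F) → (n → F) → Prop} (h : TS R) {x f y k : n → F} (h1 : R x f)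
    (h2 : R y k) (hk : k ⬝ᵥ x = 0) (hf : f ⬝ᵥ y ≠ 0) : R x k := by
  have h3 := h.conj h1 h2 1
  rw [hk, mul_zero, zero_smul, add_zero, one_mul] at h3
  have h4 := GT4_sub h h1 h3
  rw [sub_sub_cancel] at h4
  exact GT4_unsmul h hf h4

theorem GT4_zero {g : n → F} (hg : ∀ u, g ⬝ᵥ u = 0) : g = 0 :=
  funext fun i => by simpa using hg (Pi.single i 1)

theorem GT4_ann (A : Submodule F (n → F)) {g : n → F}
    (hg : ∀ w, (∀ f ∈ A, f ⬝ᵥ w = 0) → g ⬝ᵥ w = 0) : g ∈ A := by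
  by_contra hv
  obtain ⟨l, hl, hl'⟩ := Submodule.exists_dual_map_eq_bot_of_notMem hv inferInstance
  have e : ∀ w, l w = w ⬝ᵥ fun i => l (Pi.single i 1) := fun w => by
    conv_lhs => rw [pi_eq_sum_univ' w]
    simp only [map_sum, map_smul, smul_eq_mul, dotProduct]
  refine hl ?_
  rw [e]
  refine hg _ fun f hf => ?_
  rw [← e]
  exact (Submodule.eq_bot_iff _).1 hl' _ (Submodule.mem_map_of_mem hf)

/-- a centre with an axis that does not kill the maximal centre `x` is not killed by all axes of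
`x` -/
theorem GT4_i {R : (n → F) → (n → F) → Prop} (h : TS R) {x : n → F}
    (hmax : ∀ y, y ≠ 0 → Module.finrank F (GT4_A h y) ≤ Module.finrank F (GT4_A h x))
    {y k : n → F} (hy : y ≠ 0) (h2 : R y k) (hk : k ⬝ᵥ x ≠ 0) : ∃ f, R x f ∧ f ⬝ᵥ y ≠ 0 := by
  by_contra hne
  push Not at hne
  have hle : GT4_A h x ≤ GT4_A h y := fun f hf => GT4_ii h h2 hf (hne f hf) hk
  have hlt : GT4_A h x < GT4_A h y := lt_of_le_of_ne hle fun e => by
    have : k ∈ GT4_A h x := e ▸ h2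
    exact hk (h.orth this)
  exact absurd (Submodule.finrank_lt_finrank_of_lt hlt) (not_lt.2 (hmax y hy))

theorem GT4_iiiA {R : (n → F) → (n → F) → Prop} (h : TS R) {x y k y2 k2 f0 f1 : n → F}
    (hy : R y k) (hk : k ⬝ᵥ x = 1) (hy2 : R y2 k2) (hk2 : k2 ⬝ᵥ x = 1) (h0 : R x f0)
    (h0' : f0 ⬝ᵥ y2 ≠ 0) (h1 : R x f1) (h1' : f1 ⬝ᵥ y2 = 0) (h1'' : f1 ⬝ᵥ y ≠ 0) :
    R x (k - k2) := by
  obtain ⟨f, hf, e1, e2⟩ : ∃ f, R x f ∧ f ⬝ᵥ y2 = k ⬝ᵥ y2 ∧ k2 ⬝ᵥ y + f ⬝ᵥ y ≠ 0 := by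
    have a1 : ((k ⬝ᵥ y2 / f0 ⬝ᵥ y2) • f0) ⬝ᵥ y2 = k ⬝ᵥ y2 := by
      rw [smul_dotProduct, smul_eq_mul, div_mul_cancel₀ _ h0']
    by_cases e : k2 ⬝ᵥ y + ((k ⬝ᵥ y2 / f0 ⬝ᵥ y2) • f0) ⬝ᵥ y = 0
    · refine ⟨(k ⬝ᵥ y2 / f0 ⬝ᵥ y2) • f0 + f1, h.addr (h.smulr _ h0) h1, ?_, ?_⟩
      · rw [add_dotProduct, a1, h1', add_zero]
      · rw [add_dotProduct, ← add_assoc, e, zero_add]
        exact h1''
    · exact ⟨_, h.smulr _ h0, a1, e⟩
  have h3 := h.conj hy hf 1
  rw [hk, one_mul, one_mul, one_smul] at h3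
  have h4 : R y2 (k - f) := GT4_ii h hy2 h3 (by rw [sub_dotProduct, e1, sub_self]) (by
    rw [dotProduct_add, dotProduct_smul, hk2, smul_eq_mul, mul_one]
    exact e2)
  have h5 : R x (k - f - k2) := GT4_ii h h0 (GT4_sub h h4 hy2) (by
    rw [sub_dotProduct, sub_dotProduct, hk, hk2, h.orth hf]
    ring) h0'
  have h6 := h.addr h5 hf
  rwa [show k - f - k2 + f = k - k2 by abel] at h6

theorem GT4_norm {k x : n → F} (hk : k ⬝ᵥ x ≠ 0) : ((k ⬝ᵥ x)⁻¹ • k) ⬝ᵥ x = 1 := by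
  rw [smul_dotProduct, smul_eq_mul, inv_mul_cancel₀ hk]

theorem GT4_third {R : (n → F) → (n → F) → Prop} (h : TS R) {x : n → F} (hx : x ≠ 0)
    (htwo : ∀ y, ∃ g, R x g ∧ g ≠ 0 ∧ g ⬝ᵥ y = 0) {y2 k2 : n → F} (hy2 : R y2 k2)
    (hk2 : k2 ⬝ᵥ x = 1) :
    ∃ y3 k3 f, R y3 k3 ∧ k3 ⬝ᵥ x = 1 ∧ R x f ∧ f ⬝ᵥ y2 = 0 ∧ f ⬝ᵥ y3 ≠ 0 := by
  by_contra hne
  push Not at hne
  let U : Submodule F (n → F) :=
    { carrier := {u | ∀ f, R x f → f ⬝ᵥ y2 = 0 → f ⬝ᵥ u = 0}
      zero_mem' := fun _ _ _ => dotProduct_zero _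
      add_mem' := fun ha hb w hw hw' => by
        rw [dotProduct_add, ha w hw hw', hb w hw hw', add_zero]
      smul_mem' := fun c u hu w hw hw' => by rw [dotProduct_smul, hu w hw hw', smul_zero] }
  rcases h.irr U fun z k hR u hu f hf hf' => by
      rw [dotProduct_smul, smul_eq_mul, mul_eq_zero]
      by_cases e1 : k ⬝ᵥ x = 0
      · by_cases e2 : k ⬝ᵥ y2 = 0
        · by_cases e3 : f ⬝ᵥ z = 0
          · exact Or.inr e3
          · exact Or.inl (hu k (GT4_ii h hf hR e1 e3) e2)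
        · have h3 := hne _ _ f (h.conj hy2 hR 1) (by
            rw [sub_dotProduct, smul_dotProduct, e1, hk2, smul_zero, sub_zero]) hf hf'
          rw [dotProduct_add, hf', zero_add, dotProduct_smul, one_mul, smul_eq_mul,
            mul_eq_zero] at h3
          exact Or.inr (h3.resolve_left e2)
      · exact Or.inr (hne z _ f (h.smulr _ hR) (GT4_norm e1) hf hf') with h1 | h1
  · have : x ∈ U := fun f hf _ => h.orth hf
    rw [h1, Submodule.mem_bot] at this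
    exact hx this
  · obtain ⟨g, hg, hg0, hg'⟩ := htwo y2
    refine hg0 (GT4_zero fun u => ?_)
    have : u ∈ U := h1 ▸ Submodule.mem_top
    exact this g hg hg'

theorem GT4_iii {R : (n → F) → (n → F) → Prop} (h : TS R) {x : n → F} (hx : x ≠ 0)
    (hmax : ∀ y, y ≠ 0 → Module.finrank F (GT4_A h y) ≤ Module.finrank F (GT4_A h x))
    (htwo : ∀ y, ∃ g, R x g ∧ g ≠ 0 ∧ g ⬝ᵥ y = 0) {y k y2 k2 : n → F} (hy0 : y ≠ 0)
    (hy : R y k) (hk : k ⬝ᵥ x = 1) (hy20 : y2 ≠ 0) (hy2 : R y2 k2) (hk2 : k2 ⬝ᵥ x = 1) :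
    R x (k - k2) := by
  obtain ⟨f0, h0, h0'⟩ := GT4_i h hmax hy20 hy2 (by rw [hk2]; exact one_ne_zero)
  by_cases e : ∃ f1, R x f1 ∧ f1 ⬝ᵥ y2 = 0 ∧ f1 ⬝ᵥ y ≠ 0
  · obtain ⟨f1, h1, h1', h1''⟩ := e
    exact GT4_iiiA h hy hk hy2 hk2 h0 h0' h1 h1' h1''
  · push Not at e
    obtain ⟨g0, g1, g2⟩ := GT4_i h hmax hy0 hy (by rw [hk]; exact one_ne_zero)
    obtain ⟨y3, k3, f, h3, hk3, hf, hf', hf''⟩ := GT4_third h hx htwo hy2 hk2
    have a1 := GT4_iiiA h h3 hk3 hy2 hk2 h0 h0' hf hf' hf''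
    have a2 := GT4_iiiA h h3 hk3 hy hk g1 g2 hf (e f hf hf') hf''
    have a3 := GT4_sub h a1 a2
    rwa [show k3 - k2 - (k3 - k) = k - k2 by abel] at a3

theorem GT4_full {R : (n → F) → (n → F) → Prop} (h : TS R) {x : n → F} (hx : x ≠ 0)
    (hmax : ∀ y, y ≠ 0 → Module.finrank F (GT4_A h y) ≤ Module.finrank F (GT4_A h x))
    (htwo : ∀ y, ∃ g, R x g ∧ g ≠ 0 ∧ g ⬝ᵥ y = 0) : ∀ g, g ⬝ᵥ x = 0 → R x g := by
  obtain ⟨y, k, hy0, hy, hk⟩ : ∃ y k, y ≠ 0 ∧ R y k ∧ k ⬝ᵥ x = 1 := by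
    by_contra hne
    push Not at hne
    rcases h.irr (Submodule.span F {x}) fun z k hR u hu => by
        obtain ⟨c, rfl⟩ := Submodule.mem_span_singleton.1 hu
        by_cases e1 : k ⬝ᵥ x = 0
        · rw [dotProduct_smul, e1, smul_zero, zero_smul]
          exact Submodule.zero_mem _
        · by_cases e2 : z = 0
          · rw [e2, smul_zero]
            exact Submodule.zero_mem _
          · exact absurd (GT4_norm e1) (hne z _ e2 (h.smulr _ hR)) with h1 | h1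
    · exact hx (Submodule.span_singleton_eq_bot.1 h1)
    · obtain ⟨g, hg, hg0, -⟩ := htwo x
      refine hg0 (GT4_zero fun u => ?_)
      have : u ∈ Submodule.span F {x} := h1 ▸ Submodule.mem_top
      obtain ⟨c, rfl⟩ := Submodule.mem_span_singleton.1 this
      rw [dotProduct_smul, h.orth hg, smul_zero]
  obtain ⟨f0, h0, h0'⟩ := GT4_i h hmax hy0 hy (by rw [hk]; exact one_ne_zero)
  let U : Submodule F (n → F) :=
    { carrier := {u | (∀ f, R x f → f ⬝ᵥ u = 0) ∧ k ⬝ᵥ u = 0}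
      zero_mem' := ⟨fun _ _ => dotProduct_zero _, dotProduct_zero _⟩
      add_mem' := fun ha hb => ⟨fun w hw => by
        rw [dotProduct_add, ha.1 w hw, hb.1 w hw, add_zero],
        by rw [dotProduct_add, ha.2, hb.2, add_zero]⟩
      smul_mem' := fun c u hu => ⟨fun w hw => by rw [dotProduct_smul, hu.1 w hw, smul_zero],
        by rw [dotProduct_smul, hu.2, smul_zero]⟩ }
  rcases h.irr U fun z l hR u hu => by
      by_cases e0 : l ⬝ᵥ u = 0
      · rw [e0, zero_smul]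
        exact U.zero_mem
      by_cases e1 : z = 0
      · rw [e1, smul_zero]
        exact U.zero_mem
      refine U.smul_mem _ ?_
      have e2 : l ⬝ᵥ x = 0 := by
        by_contra e2
        have a := hu.1 _ (GT4_iii h hx hmax htwo e1 (h.smulr _ hR) (GT4_norm e2) hy0 hy hk)
        rw [sub_dotProduct, hu.2, sub_zero, smul_dotProduct, smul_eq_mul] at a
        exact mul_ne_zero (inv_ne_zero e2) e0 a
      have e3 : ∀ f, R x f → f ⬝ᵥ z = 0 := fun f hf => by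
        by_contra e3
        exact e0 (hu.1 _ (GT4_ii h hf hR e2 e3))
      refine ⟨e3, ?_⟩
      have a := hu.1 _ (GT4_iii h hx hmax htwo hy0 hy hk (fun e => h0' (by
        have := congrArg (f0 ⬝ᵥ ·) e
        simpa only [dotProduct_add, dotProduct_smul, e3 f0 h0, smul_zero, add_zero,
          dotProduct_zero] using this)) (h.conj hy hR 1) (by
        rw [sub_dotProduct, smul_dotProduct, e2, hk, smul_zero, sub_zero]))
      rw [sub_sub_cancel, smul_dotProduct, one_mul, smul_eq_mul] at a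
      exact (mul_eq_zero.1 a).resolve_right e0 with h1 | h1
  · intro g hg
    refine GT4_ann (GT4_A h x) fun w hw => ?_
    have : w - (k ⬝ᵥ w) • x ∈ U := ⟨fun f hf => by
      rw [dotProduct_sub, dotProduct_smul, hw f hf, h.orth hf, smul_zero, sub_zero],
      by rw [dotProduct_sub, dotProduct_smul, hk, smul_eq_mul, mul_one, sub_self]⟩
    rw [h1, Submodule.mem_bot, sub_eq_zero] at this
    rw [this, dotProduct_smul, hg, smul_zero]
  · have : x ∈ U := h1 ▸ Submodule.mem_top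
    exact absurd (hk.symm.trans this.2) one_ne_zero

/-- Let `A y` be the subspace `{f | R y f}`; choose `x ≠ 0` with `m = finrank (A x) ≥ 2` maximal and
put `W = {w | f w = 0 for f ∈ A x}`, `x ∈ W`; a covector that kills `W` is in `A x`.
All centres `y, y2, y3` below are nonzero (note `R 0 h` for all `h`).
(i) If `R y h`, `h x ≠ 0` then `A y ≥ (A x ⊓ ker y) ⊔ span h` (conjugate `(y, h)` by `(x, f)`), hence
`y ∉ W` and, by maximality, equality holds; so `h' = h' x • h` on `W` for `h' ∈ A y`, `h x = 1`.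
(ii) If `R y h`, `h x = 0`, `y ∉ W` then `h ∈ A x` (conjugate `(x, f)` by `(y, h)`).
(iii) If `R y h`, `R y2 h2`, `h x = h2 x = 1` then `h = h2` on `W`. If `y, y2` are independent modulo
`W` pick `f ∈ A x` with `f y2 = h y2` and `f y ≠ -h2 y`; `(y + f y • x, h - f)` is a pair `(y', h')`
with `h' y2 = 0`, `h2 y' ≠ 0`, so `h' ∈ A y2`. Otherwise use a third pair `(y3, h3)`, `h3 x = 1`,
`y3 ∉ W ⊔ span y`; it exists since otherwise `W ⊔ span y` is stable, nonzero and proper (`m ≥ 2`).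
(iv) Fix such `(y, h)` (the line through `x` is not stable). `W ⊓ ker h` is stable (for `R y' h'`,
`h' u ≠ 0`: `h' x = 0` by (iii), `y' ∈ W` by (ii), `h y' = 0` by (iii) for the conjugate of `(y, h)`),
so it is `⊥`, `W = span x`, and `all_of_full` applies. -/
theorem TS.all_of_axes {R : (n → F) → (n → F) → Prop} (h : TS R) {x f f' : n → F} (hx : x ≠ 0)
    (h1 : R x f) (h2 : R x f') (hf : f ≠ 0) (hf' : ∀ c : F, f' ≠ c • f) :
    ∀ y g, g ⬝ᵥ y = 0 → R y g := by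
  obtain ⟨x0, hx0, hmax⟩ : ∃ x0 : n → F, x0 ≠ 0 ∧
      ∀ y, y ≠ 0 → Module.finrank F (GT4_A h y) ≤ Module.finrank F (GT4_A h x0) := by
    classical
    have hP : ∃ y : n → F, y ≠ 0 ∧ Module.finrank F (GT4_A h y) =
        Nat.findGreatest (fun m => ∃ y : n → F, y ≠ 0 ∧ Module.finrank F (GT4_A h y) = m)
          (Module.finrank F (n → F)) :=
      Nat.findGreatest_spec (P := fun m => ∃ y : n → F, y ≠ 0 ∧ Module.finrank F (GT4_A h y) = m)
        (Submodule.finrank_le (GT4_A h x)) ⟨x, hx, rfl⟩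
    obtain ⟨x0, hx0, e⟩ := hP
    exact ⟨x0, hx0, fun y hy => e ▸ Nat.le_findGreatest (Submodule.finrank_le _) ⟨y, hy, rfl⟩⟩
  have hlt : Submodule.span F {f} < GT4_A h x := lt_of_le_of_ne
    ((Submodule.span_singleton_le_iff_mem _ _).2 h1) fun e => by
      have : f' ∈ Submodule.span F {f} := e ▸ h2
      obtain ⟨c, hc⟩ := Submodule.mem_span_singleton.1 this
      exact hf' c hc.symm
  have h3 := Submodule.finrank_lt_finrank_of_lt hlt
  rw [finrank_span_singleton hf] at h3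
  refine h.all_of_full hx0 (GT4_full h hx0 hmax fun y => ?_)
  let l : GT4_A h x0 →ₗ[F] F :=
    { toFun := fun g => g.1 ⬝ᵥ y
      map_add' := fun a b => add_dotProduct _ _ _
      map_smul' := fun c a => smul_dotProduct _ _ _ }
  have h4 : LinearMap.ker l ≠ ⊥ := LinearMap.ker_ne_bot_of_finrank_lt (by
    rw [Module.finrank_self]
    exact lt_of_lt_of_le h3 (hmax x hx))
  obtain ⟨g, hg, hg0⟩ := Submodule.exists_mem_ne_zero_of_ne_bot h4
  exact ⟨g.1, g.2, fun e => hg0 (Subtype.ext e), hg⟩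

end Pool.Agent.Lib.MP_6adaea_nt.W
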