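import Pool.Agent.Lib.MP_6adaea_nt.W.GT0

/-!
Unique axes and centres give an invariant form.
-/

set_option linter.unusedSectionVars false

namespace Pool.Agent.Lib.MP_6adaea_nt.W
open Matrix

variable {F n : Type} [Field F] [Fintype n] [DecidableEq n]

/-- the kernel of a covector -/
def GT5_ker (w : n → F) : Submodule F (n → F) where
  carrier := {u | w ⬝ᵥ u = 0}
  zero_mem' := dotProduct_zero _
  add_mem' := fun {a b} ha hb => by
    change w ⬝ᵥ (a + b) = 0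
    rw [dotProduct_add, ha, hb, add_zero]
  smul_mem' := fun c u hu => by
    change w ⬝ᵥ (c • u) = 0
    rw [dotProduct_smul, hu, smul_zero]

theorem GT5_ker_top {w : n → F} (h : GT5_ker w = ⊤) : w = 0 := funext fun i => by
  have : Pi.single i 1 ∈ GT5_ker w := h ▸ Submodule.mem_top
  simpa using (show w ⬝ᵥ Pi.single i 1 = 0 from this)

section

variable {R : (n → F) → (n → F) → Prop}

theorem GT5_pair [Nontrivial n] (h : TS R) : ∃ x f, x ≠ 0 ∧ f ≠ 0 ∧ R x f := by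
  by_contra h0
  push Not at h0
  obtain ⟨i, j, hij⟩ := exists_pair_ne n
  rcases h.irr (GT5_ker (Pi.single i 1)) fun x f hR u _ => by
      by_cases hx : x = 0
      · simp [hx]
      by_cases hf : f = 0
      · simp [hf]
      exact absurd hR (h0 x f hx hf) with h1 | h1
  · have h2 : Pi.single j 1 ∈ GT5_ker (Pi.single i (1 : F)) := by
      change Pi.single i (1 : F) ⬝ᵥ Pi.single j 1 = 0
      simp [hij.symm]
    rw [h1, Submodule.mem_bot] at h2
    simpa using congrFun h2 j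
  · simpa using congrFun (GT5_ker_top h1) i

theorem GT5_ne {x y k : n → F} (hx : x ≠ 0) (hk : k ⬝ᵥ y = 0) (c : F) :
    x + (c * k ⬝ᵥ x) • y ≠ 0 := fun h0 => by
  have h1 := congrArg (k ⬝ᵥ ·) h0
  simp only [dotProduct_add, dotProduct_smul, hk, smul_zero, add_zero, dotProduct_zero] at h1
  rw [h1, mul_zero, zero_smul, add_zero] at h0
  exact hx h0

theorem GT5_ne' {f y k : n → F} (hf : f ≠ 0) (hk : k ⬝ᵥ y = 0) (c : F) :
    f - (c * f ⬝ᵥ y) • k ≠ 0 := fun h0 => by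
  have h1 := congrArg (· ⬝ᵥ y) h0
  simp only [sub_dotProduct, smul_dotProduct, hk, smul_zero, sub_zero, zero_dotProduct] at h1
  rw [h1, mul_zero, zero_smul, sub_zero] at h0
  exact hf h0

theorem GT5_span (h : TS R) {x0 f0 : n → F} (hx : x0 ≠ 0) (hf : f0 ≠ 0) (h0 : R x0 f0)
    (U : Submodule F (n → F)) (hU : ∀ y k, k ≠ 0 → R y k → f0 ⬝ᵥ y ≠ 0 → y ∈ U) : U = ⊤ := by
  obtain ⟨y, k, hk, hR, hy⟩ : ∃ y k, k ≠ 0 ∧ R y k ∧ f0 ⬝ᵥ y ≠ 0 := by
    by_contra h1
    push Not at h1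
    rcases h.irr (GT5_ker f0) fun x f hR u _ => by
        by_cases hf : f = 0
        · simp [hf]
        exact Submodule.smul_mem _ _ (h1 x f hf hR) with h2 | h2
    · have h3 : x0 ∈ GT5_ker f0 := h.orth h0
      rw [h2, Submodule.mem_bot] at h3
      exact hx h3
    · exact hf (GT5_ker_top h2)
  rcases h.irr (Submodule.span F {y | ∃ k, k ≠ 0 ∧ R y k ∧ f0 ⬝ᵥ y ≠ 0}) fun x f hR u hu => by
      by_cases hf : f = 0
      · simp [hf]
      by_cases h1 : f0 ⬝ᵥ x = 0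
      swap
      · exact Submodule.smul_mem _ _ (Submodule.subset_span ⟨f, hf, hR, h1⟩)
      induction hu using Submodule.span_induction with
      | mem u hu =>
        obtain ⟨l, hl, hR', hu'⟩ := hu
        have h2 := h.conj hR' hR 1
        have h3 : u + (1 * f ⬝ᵥ u) • x ∈
            Submodule.span F {y | ∃ k, k ≠ 0 ∧ R y k ∧ f0 ⬝ᵥ y ≠ 0} :=
          Submodule.subset_span ⟨_, GT5_ne' hl (h.orth hR) 1, h2, by
            rwa [dotProduct_add, dotProduct_smul, h1, smul_zero, add_zero]⟩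
        have h4 := sub_mem h3 (Submodule.subset_span ⟨l, hl, hR', hu'⟩)
        rwa [one_mul, add_sub_cancel_left] at h4
      | zero => simp
      | add u v _ _ hu hv =>
        rw [dotProduct_add, add_smul]
        exact add_mem hu hv
      | smul c u _ hu =>
        rw [dotProduct_smul, smul_eq_mul, mul_smul]
        exact Submodule.smul_mem _ _ hu with h1 | h1
  · have h2 : y ∈ Submodule.span F {y | ∃ k, k ≠ 0 ∧ R y k ∧ f0 ⬝ᵥ y ≠ 0} :=
      Submodule.subset_span ⟨k, hk, hR, hy⟩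
    rw [h1, Submodule.mem_bot] at h2
    rw [h2, dotProduct_zero] at hy
    exact absurd rfl hy
  · rw [eq_top_iff, ← h1, Submodule.span_le]
    rintro z ⟨l, hl, hR', hz⟩
    exact hU z l hl hR' hz

theorem GT5_symm (h : TS R)
    (h1 : ∀ x f f', x ≠ 0 → f ≠ 0 → R x f → R x f' → ∃ c : F, f' = c • f) {x f y k : n → F}
    (hx : x ≠ 0) (hk : k ≠ 0) (hR : R x f) (hR' : R y k) (h0 : k ⬝ᵥ x = 0) : f ⬝ᵥ y = 0 := by
  by_contra h2
  have hf : f ≠ 0 := fun hf => h2 (by rw [hf, zero_dotProduct])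
  have h3 := h.conj hR hR' 1
  rw [h0, mul_zero, zero_smul, add_zero, one_mul] at h3
  obtain ⟨c, hc⟩ := h1 x f _ hx hf hR h3
  have h4 := congrArg (· ⬝ᵥ y) hc
  simp only [sub_dotProduct, smul_dotProduct, h.orth hR', smul_eq_mul, mul_zero, sub_zero] at h4
  rw [mul_right_cancel₀ h2 (h4.symm.trans (one_mul _).symm), one_smul, sub_eq_self,
    smul_eq_zero] at hc
  exact hc.elim h2 hk

theorem GT5_tri (h : TS R)
    (h1 : ∀ x f f', x ≠ 0 → f ≠ 0 → R x f → R x f' → ∃ c : F, f' = c • f) {x f y g z k : n → F}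
    (hf : f ≠ 0) (hy : y ≠ 0) (hg : g ≠ 0) (hz : z ≠ 0)
    (hR : R x f) (hR' : R y g) (hR'' : R z k) :
    f ⬝ᵥ y * g ⬝ᵥ z * k ⬝ᵥ x + f ⬝ᵥ z * k ⬝ᵥ y * g ⬝ᵥ x = 0 := by
  by_cases a1 : f ⬝ᵥ y = 0
  · rw [a1, GT5_symm h h1 hy hf hR' hR a1]
    ring
  by_cases a2 : g ⬝ᵥ z = 0
  · rw [a2, GT5_symm h h1 hz hg hR'' hR' a2]
    ring
  have h2 := GT5_symm h h1 hz (GT5_ne' hf (h.orth hR') _) hR''
    (h.conj hR hR' (f ⬝ᵥ z / (f ⬝ᵥ y * g ⬝ᵥ z))) (by
      rw [sub_dotProduct, smul_dotProduct, smul_eq_mul]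
      field_simp
      ring)
  rw [dotProduct_add, dotProduct_smul, smul_eq_mul] at h2
  field_simp at h2
  linear_combination h2

end

/-- (a) For pairs of nonzero vectors `f y ≠ 0 ↔ h x ≠ 0`: if `h x = 0`, `f y ≠ 0` then `h ∈ A x`.
(b) Triangle identity `f y * h z * k x + f z * k y * h x = 0` for `R x f`, `R y h`, `R z k`: apply (a)
to the conjugate of `(x, f)` by `(y, h)` with `c = f z / (f y * h z)` and `(z, k)` (conjugates of nonzero
vectors are nonzero since the conjugation with `-c` is inverse).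
(c) Fix a pair `(x0, f0)`. `Y` is the set of `y` with `f0 y ≠ 0` and `R y h` for some `h ≠ 0`; `B y` is
the unique such `h` with `h x0 = -f0 y`. By (b) `B y z = -B z y` on `Y`. The span of `Y` is stable and
nonzero (it contains `x0`, since `y + (f0 y) • x0 ∈ Y`), so a basis can be chosen in `Y`
(`exists_linearIndependent`); define `β` by the values on this basis; then `y ᵥ* β = B y` on `Y` by
antisymmetry. (d) For a pair `(z, k)` with `f0 z = 0` pick `y ∈ Y` with `k y ≠ 0` and conjugate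
`(y, B y)` by `(z, k)`. (e) The axes span (`Irr.flip`), so `vecMul` by `β` is onto. -/
theorem TS.exists_form [Nontrivial n] {R : (n → F) → (n → F) → Prop} (h : TS R)
    (h1 : ∀ x f f', x ≠ 0 → f ≠ 0 → R x f → R x f' → ∃ c : F, f' = c • f) :
    ∃ β : Matrix n n F, β.det ≠ 0 ∧ ∀ x f, x ≠ 0 → f ≠ 0 → R x f → ∃ c : F, x ᵥ* β = c • f := by
  obtain ⟨x0, f0, hx, hf, h0⟩ := GT5_pair h
  have hG : ∀ y k, k ≠ 0 → R y k → f0 ⬝ᵥ y ≠ 0 →
      ∃ t : F, t ≠ 0 ∧ (t • k) ⬝ᵥ x0 = -(f0 ⬝ᵥ y) := fun y k hk hR hy => by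
    have h2 : k ⬝ᵥ x0 ≠ 0 := fun h2 => hy (GT5_symm h h1 hx hk h0 hR h2)
    refine ⟨-(f0 ⬝ᵥ y) / k ⬝ᵥ x0, div_ne_zero (neg_ne_zero.2 hy) h2, ?_⟩
    rw [smul_dotProduct, smul_eq_mul, div_mul_cancel₀ _ h2]
  have hA : ∀ y k z l, R y k → f0 ⬝ᵥ y ≠ 0 → k ⬝ᵥ x0 = -(f0 ⬝ᵥ y) → R z l → f0 ⬝ᵥ z ≠ 0 →
      l ⬝ᵥ x0 = -(f0 ⬝ᵥ z) → k ⬝ᵥ z = -(l ⬝ᵥ y) := fun y k z l a1 a2 a3 b1 b2 b3 => by
    have h2 := GT5_tri h h1 hf (y := y) (g := k) (z := z)
      (fun e => a2 (by rw [e, dotProduct_zero]))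
      (fun e => a2 (by rwa [e, zero_dotProduct, zero_eq_neg] at a3))
      (fun e => b2 (by rw [e, dotProduct_zero])) h0 a1 b1
    rw [a3, b3] at h2
    exact mul_left_cancel₀ (mul_ne_zero a2 b2) (by linear_combination -h2)
  let U : Submodule F (n → F) :=
    { carrier := {u | ∃ w : n → F, ∀ z l, R z l → f0 ⬝ᵥ z ≠ 0 → l ⬝ᵥ x0 = -(f0 ⬝ᵥ z) →
        w ⬝ᵥ z = -(l ⬝ᵥ u)}
      zero_mem' := ⟨0, fun _ _ _ _ _ => by simp⟩
      add_mem' := fun ⟨v, hv⟩ ⟨w, hw⟩ => ⟨v + w, fun z l a b c => by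
        rw [add_dotProduct, dotProduct_add, hv z l a b c, hw z l a b c, neg_add]⟩
      smul_mem' := fun t _ ⟨w, hw⟩ => ⟨t • w, fun z l a b c => by
        rw [smul_dotProduct, dotProduct_smul, hw z l a b c, smul_neg]⟩ }
  have hU : U = ⊤ := GT5_span h hx hf h0 U fun y k hk hR hy => by
    obtain ⟨t, -, ht⟩ := hG y k hk hR hy
    exact ⟨t • k, fun z l => hA y _ z l (h.smulr t hR) hy ht⟩
  choose w hw using fun i : n => (show Pi.single i (1 : F) ∈ U from hU ▸ Submodule.mem_top)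
  have hβ : ∀ y k, R y k → f0 ⬝ᵥ y ≠ 0 → k ⬝ᵥ x0 = -(f0 ⬝ᵥ y) → y ᵥ* Matrix.of w = k :=
    fun y k a1 a2 a3 => sub_eq_zero.1 (GT5_ker_top (GT5_span h hx hf h0 _ fun z l hl hR hz => by
      obtain ⟨t, -, ht⟩ := hG z l hl hR hz
      change (y ᵥ* Matrix.of w - k) ⬝ᵥ z = 0
      rw [sub_dotProduct, hA y k z _ a1 a2 a3 (h.smulr t hR) hz ht, ← dotProduct_mulVec,
        sub_neg_eq_add, dotProduct_comm _ y, ← dotProduct_add]
      have h2 : Matrix.of w *ᵥ z + t • l = 0 := funext fun i => by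
        have h3 := hw i z _ (h.smulr t hR) hz ht
        rw [dotProduct_single, mul_one] at h3
        exact add_eq_zero_iff_eq_neg.2 h3
      rw [h2, dotProduct_zero]))
  refine ⟨Matrix.of w, fun hd => ?_, fun z k hz hk hR => ?_⟩
  · obtain ⟨v, hv, hv'⟩ := exists_mulVec_eq_zero_iff.2 hd
    refine hv (GT5_ker_top (GT5_span h.flip hf hx h0 _ fun k y hy hR hk => ?_))
    have h2 : f0 ⬝ᵥ y ≠ 0 := fun e => hk (by
      rw [dotProduct_comm]
      exact GT5_symm h h1 hy hf hR h0 e)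
    obtain ⟨t, ht0, ht⟩ := hG y k (fun e => hk (by rw [e, dotProduct_zero])) hR h2
    have h3 := congrArg (· ⬝ᵥ v) (hβ y _ (h.smulr t hR) h2 ht)
    simp only [← dotProduct_mulVec, hv', dotProduct_zero, smul_dotProduct, smul_eq_mul] at h3
    change v ⬝ᵥ k = 0
    rw [dotProduct_comm]
    exact (mul_eq_zero.1 h3.symm).resolve_left ht0
  · by_cases h2 : f0 ⬝ᵥ z = 0
    swap
    · obtain ⟨t, -, ht⟩ := hG z k hk hR h2
      exact ⟨t, hβ z _ (h.smulr t hR) h2 ht⟩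
    obtain ⟨y, l, hl, hR', hy, h3⟩ : ∃ y l, l ≠ 0 ∧ R y l ∧ f0 ⬝ᵥ y ≠ 0 ∧ k ⬝ᵥ y ≠ 0 := by
      by_contra h3
      push Not at h3
      exact hk (GT5_ker_top (GT5_span h hx hf h0 _ h3))
    obtain ⟨t, -, ht⟩ := hG y l hl hR' hy
    have h4 : f0 ⬝ᵥ (y + (1 * k ⬝ᵥ y) • z) = f0 ⬝ᵥ y := by
      rw [dotProduct_add, dotProduct_smul, h2, smul_zero, add_zero]
    have h5 := hβ _ _ (h.conj (h.smulr t hR') hR 1) (h4 ▸ hy) (by
      rw [h4, sub_dotProduct, ht, smul_dotProduct _ k, GT5_symm h h1 hz hf hR h0 h2, smul_zero,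
        sub_zero])
    rw [add_vecMul, hβ y _ (h.smulr t hR') hy ht, sub_eq_add_neg, add_right_inj, smul_vecMul,
      one_mul, one_mul] at h5
    refine ⟨(k ⬝ᵥ y)⁻¹ * -((t • l) ⬝ᵥ z), ?_⟩
    rw [mul_smul, neg_smul, ← h5, inv_smul_smul₀ h3]

/-- `M = β' * β⁻¹` has all centres as eigenvectors for `vecMul`. The span of the centres with the
eigenvalue of a fixed centre is stable: if `k u ≠ 0` for such a centre `u` then `u + (k u) • z` is a
centre and `u, z` are independent. -/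
theorem TS.form_unique [Nontrivial n] {R : (n → F) → (n → F) → Prop} (h : TS R)
    {β β' : Matrix n n F} (hβ : β.det ≠ 0)
    (h1 : ∀ x f, x ≠ 0 → f ≠ 0 → R x f → ∃ c : F, x ᵥ* β = c • f)
    (h2 : ∀ x f, x ≠ 0 → f ≠ 0 → R x f → ∃ c : F, x ᵥ* β' = c • f) : ∃ l : F, β' = l • β := by
  have hi : ∀ u : n → F, u ᵥ* β = 0 → u = 0 := fun u hu => by
    by_contra h0
    exact hβ (exists_vecMul_eq_zero_iff.1 ⟨u, h0, hu⟩)
  have he : ∀ x f, x ≠ 0 → f ≠ 0 → R x f → ∃ l : F, x ᵥ* β' = l • x ᵥ* β := fun x f hx hf hR => by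
    obtain ⟨c, hc⟩ := h1 x f hx hf hR
    obtain ⟨c', hc'⟩ := h2 x f hx hf hR
    have h0 : c ≠ 0 := fun e => hx (hi x (by rw [hc, e, zero_smul]))
    exact ⟨c' / c, by rw [hc, hc', smul_smul, div_mul_cancel₀ _ h0]⟩
  obtain ⟨x0, f0, hx, hf, h0⟩ := GT5_pair h
  obtain ⟨l, hl⟩ := he x0 f0 hx hf h0
  refine ⟨l, ?_⟩
  rcases h.irr (Submodule.span F {u | (∃ g, g ≠ 0 ∧ R u g) ∧ u ᵥ* β' = l • u ᵥ* β})
    fun z k hR u hu => by
      induction hu using Submodule.span_induction with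
      | mem u hu =>
        obtain ⟨⟨g, hg, hR'⟩, hu⟩ := hu
        by_cases h3 : k ⬝ᵥ u = 0
        · simp [h3]
        by_cases hz : z = 0
        · simp [hz]
        have hk : k ≠ 0 := fun e => h3 (by rw [e, zero_dotProduct])
        have hu0 : u ≠ 0 := fun e => h3 (by rw [e, dotProduct_zero])
        obtain ⟨m, hm⟩ := he z k hz hk hR
        obtain ⟨l', hl'⟩ := he _ _ (GT5_ne hu0 (h.orth hR) 1) (GT5_ne' hg (h.orth hR) 1)
          (h.conj hR' hR 1)
        have h4 : (l - l') • u + (k ⬝ᵥ u * (m - l')) • z = 0 := hi _ (by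
          simp only [add_vecMul, smul_vecMul, hu, hm, one_mul] at hl' ⊢
          linear_combination (norm := module) hl')
        have h5 := congrArg (k ⬝ᵥ ·) h4
        simp only [dotProduct_add, dotProduct_smul, h.orth hR, smul_eq_mul, mul_zero, add_zero,
          dotProduct_zero, mul_eq_zero, h3, or_false] at h5
        rw [h5, zero_smul, zero_add, smul_eq_zero, mul_eq_zero, ← sub_eq_zero.1 h5] at h4
        refine Submodule.smul_mem _ _ (Submodule.subset_span ⟨⟨k, hk, hR⟩, ?_⟩)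
        rw [hm, sub_eq_zero.1 ((h4.resolve_right hz).resolve_left h3)]
      | zero => simp
      | add u v _ _ hu hv =>
        rw [dotProduct_add, add_smul]
        exact add_mem hu hv
      | smul c u _ hu =>
        rw [dotProduct_smul, smul_eq_mul, mul_smul]
        exact Submodule.smul_mem _ _ hu with h3 | h3
  · have h4 : x0 ∈ Submodule.span F {u | (∃ g, g ≠ 0 ∧ R u g) ∧ u ᵥ* β' = l • u ᵥ* β} :=
      Submodule.subset_span ⟨⟨f0, hf, h0⟩, hl⟩
    rw [h3, Submodule.mem_bot] at h4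
    exact absurd h4 hx
  · have h4 : ∀ u : n → F, u ᵥ* β' = l • u ᵥ* β := fun u => by
      have hu : u ∈ Submodule.span F {u | (∃ g, g ≠ 0 ∧ R u g) ∧ u ᵥ* β' = l • u ᵥ* β} :=
        h3 ▸ Submodule.mem_top
      induction hu using Submodule.span_induction with
      | mem u hu => exact hu.2
      | zero => simp
      | add u v _ _ hu hv => rw [add_vecMul, add_vecMul, hu, hv, smul_add]
      | smul c u _ hu => rw [smul_vecMul, smul_vecMul, hu, smul_comm]
    ext i j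
    simpa using congrFun (h4 (Pi.single i 1)) j

end Pool.Agent.Lib.MP_6adaea_nt.W
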