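import Pool.Agent.Lib.MP_6adaea_nt.W.GT1
import Pool.Agent.Lib.MP_6adaea_nt.W.GT2
import Pool.Agent.Lib.MP_6adaea_nt.W.GT4
import Pool.Agent.Lib.MP_6adaea_nt.W.GT5

/-!
Closed groups that contain a rank one family (helper82).
-/

set_option linter.unusedSectionVars false

namespace Pool.Agent.Lib.MP_6adaea_nt.W
open Matrix Polynomial G U

/-- see `ul_BP.md`: irreducibility by minimal stable subspaces, homology gives transvection,
all transvections or an invariant form -/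
theorem gt {F n : Type} [Field F] [IsAlgClosed F] [Fintype n] [DecidableEq n] [Nontrivial n]
    (G : Subgroup (GL n F)) (hcl : Cl G) (σ : F ≃+* F) (P : GL n F)
    (hG : ∀ g : GL n F, g ∈ G ↔ P⁻¹ * red (σ : F →+* F) g * P ∈ G) (hS : Smp σ P.val)
    (h0 : ∃ x f, x ≠ 0 ∧ f ≠ 0 ∧ RK G x f) :
    HasSL G ∨ (3 ≤ Fintype.card n ∧ ∃ β : Matrix n n F, β.det ≠ 0 ∧
      ∃ l : F, P.valᵀ * β.map σ * P.val = l • β) := by
  have h1 := rk_iff σ P hG
  have hd : ∀ x f : n → F, rw σ P.val f ⬝ᵥ ((P⁻¹).val *ᵥ fun i => σ (x i)) = σ (f ⬝ᵥ x) :=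
    fun x f => by
      rw [rw, dotProduct_mulVec, vecMul_vecMul, Units.mul_inv, vecMul_one]
      simp [dotProduct, map_sum]
  have h2 : ∀ x f : n → F, f ⬝ᵥ x = 0 ∧ RK G x f ↔
      rw σ P.val f ⬝ᵥ ((P⁻¹).val *ᵥ fun i => σ (x i)) = 0 ∧
        RK G ((P⁻¹).val *ᵥ fun i => σ (x i)) (rw σ P.val f) := fun x f => by
    rw [hd, EmbeddingLike.map_eq_zero_iff, ← h1]
  have hT := ts_of_irr (irr_of_smp σ P hS _ h2
    (exists_transv hcl (irr_of_smp σ P hS _ h1 h0) h0))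
  by_cases hn : Fintype.card n = 2
  · exact Or.inl (hasSL_field fun x f h => (hT.all_of_two hn x f h).2)
  by_cases h3 : ∀ x f f' : n → F, x ≠ 0 → f ≠ 0 → f ⬝ᵥ x = 0 ∧ RK G x f →
      f' ⬝ᵥ x = 0 ∧ RK G x f' → ∃ c : F, f' = c • f
  · obtain ⟨β, hβ, h4⟩ := hT.exists_form h3
    have := Fintype.one_lt_card (α := n)
    refine Or.inr ⟨by omega, β, hβ, hT.form_unique hβ h4 fun x f hx hf hR => ?_⟩
    set x0 : n → F := fun i => σ.symm ((P.val *ᵥ x) i) with hx0
    set f0 : n → F := fun i => σ.symm ((f ᵥ* (P⁻¹).val) i) with hf0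
    have e0 : (fun i => σ (x0 i)) = P.val *ᵥ x := funext fun i => σ.apply_symm_apply _
    have e1 : ((P⁻¹).val *ᵥ fun i => σ (x0 i)) = x := by
      rw [e0, mulVec_mulVec, Units.inv_mul, one_mulVec]
    have e2 : (fun i => σ (f0 i)) ᵥ* P.val = f := by
      rw [show (fun i => σ (f0 i)) = f ᵥ* (P⁻¹).val from funext fun i => σ.apply_symm_apply _,
        vecMul_vecMul, Units.inv_mul, vecMul_one]
    obtain ⟨c, hc⟩ := h4 x0 f0 (fun h => hx (by rw [← e1, h]; simp [← Pi.zero_def]))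
      (fun h => hf (by rw [← e2, h]; simp [← Pi.zero_def]))
      ((h2 x0 f0).2 (by rw [rw, e1, e2]; exact hR))
    refine ⟨σ c, ?_⟩
    have e3 : (fun i => σ (x0 i)) ᵥ* β.map σ = σ c • fun i => σ (f0 i) := funext fun j => by
      have := congrArg σ (congrFun hc j)
      simpa [vecMul, dotProduct, map_sum] using this
    rw [← vecMul_vecMul, ← vecMul_vecMul, vecMul_transpose, ← e0, e3, smul_vecMul, e2]
  · push Not at h3
    obtain ⟨x, f, f', hx, hf, h4, h5, h6⟩ := h3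
    exact Or.inl (hasSL_field fun y g h => (hT.all_of_axes hx h4 h5 hf h6 y g h).2)

end Pool.Agent.Lib.MP_6adaea_nt.W
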