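import Pool.Agent.Lib.MP_6adaea_nt.W.Gen1

/-!
Transport of rank one families.
-/

set_option linter.unusedSectionVars false

namespace Pool.Agent.Lib.MP_6adaea_nt.W
open Matrix Polynomial G U
open scoped TensorProduct

variable {k C E : Type} [Field k] [Finite k] [Field C] [Field E] [Algebra k C] [Algebra k E]
  [Algebra C E] [IsScalarTower k C E] [IsAlgClosed C] [IsAlgClosed E] {θ : E} {r : ℕ} {g : ℕ → E}
  {n J : Type} [Fintype n] [DecidableEq n] [Fintype J] [DecidableEq J]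

variable (T : Tri k C θ)

/-- With reductions `Φ0, Φ0', Ψ0, Ψ0'` (`Uni.exists_red`) take `Ψ0' *ᵥ w`, `Φ0' *ᵥ x`, `f ᵥ* Φ0`.
Apply `hc` to the constant matrix `Φ0' * (s • x f)` and reduce. -/
theorem Tri.rk_step {V V' : QVal E} (h : T.Tr V V') (hV : V'.HasRes C)
    {β : Matrix J J (MvPolynomial (n × n) C)} {Φ : Matrix n n E} {Ψ : Matrix J J E}
    (hc : ∀ A : Matrix n n E, Ψ * ap β (A * Φ) = ap β (Φ * A) * Ψ) (hΦ : Uni V' Φ) (hΨ : Uni V' Ψ)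
    {y : J → E} {μ : E} (hy : (fun j => T.F (y j)) = μ • Ψ *ᵥ y) (h0 : RkAt V β y) :
    RkAt V' β y := by
  obtain ⟨w, x, f, hw, hx, hf, he⟩ := h0
  obtain ⟨Φ', Φ0, Φ0', -, -, a3, -, a5, a6⟩ := hΦ.exists_red hV
  obtain ⟨Ψ', Ψ0, Ψ0', b1, -, b3, b4, b5, b6⟩ := hΨ.exists_red hV
  have h1 := h.red hw
  rw [hy] at h1
  have hμ : μ ≠ 0 := fun e => h1.ne_zero hV (by rw [e, zero_smul])
  have h2 := h1.smul (inv_ne_zero hμ)
  rw [smul_smul, inv_mul_cancel₀ hμ, one_smul] at h2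
  have h3 := h2.mulVec hV b4 fun e => hw.1 (by
    rw [← one_mulVec w, ← b6, ← mulVec_mulVec, e, mulVec_zero])
  rw [mulVec_mulVec, b1, one_mulVec] at h3
  refine ⟨Ψ0' *ᵥ w, Φ0' *ᵥ x, f ᵥ* Φ0, h3, fun e => hx ?_, fun e => hf ?_, fun s => ?_⟩
  · rw [← one_mulVec x, ← a6, ← mulVec_mulVec, e, mulVec_zero]
  · rw [← vecMul_one f, ← a6, ← vecMul_vecMul, e, zero_vecMul]
  · obtain ⟨l, hl⟩ := he s
    have hA := mred_const (V := V') (E := E) (Φ0' * (s • vecMulVec x f))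
    have c1 := b3.mul hV ((hA.mul hV a3).ap hV β)
    have c2 := ((a3.mul hV hA).ap hV β).mul hV b3
    rw [hc] at c1
    have c3 := c1.uniq hV c2
    rw [← Matrix.mul_assoc Φ0, a6, Matrix.one_mul, Matrix.mul_smul, Matrix.smul_mul,
      mul_vecMulVec, vecMulVec_mul] at c3
    refine ⟨l, ?_⟩
    rw [← one_mulVec (ap β _ *ᵥ _), ← b5, ← mulVec_mulVec, mulVec_mulVec _ Ψ0, c3, mulVec_mulVec w,
      Matrix.mul_assoc, b6, Matrix.mul_one, hl, mulVec_smul]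

/-- `exists_chain`, `rk_step`, `spec_rk` -/
theorem Tri.generic {t : C} (ht : Transcendental k t) {β : Matrix J J (MvPolynomial (n × n) C)}
    {Φ : Matrix n n E} {Ψ : Matrix J J E}
    (hc : ∀ A : Matrix n n E, Ψ * ap β (A * Φ) = ap β (Φ * A) * Ψ)
    (hu : ∀ V a m, Cen C V θ a → a ^ T.Q ^ (m + 1) = t → Uni V Φ ∧ Uni V Ψ)
    {y : J → E} {μ : E} (hy : (fun j => T.F (y j)) = μ • Ψ *ᵥ y)
    (h0 : ∃ V, Cen C V θ t ∧ RkAt V β y) :
    ∃ x f : n → E, x ≠ 0 ∧ f ≠ 0 ∧ ∀ s : E, Eig (ap β (s • vecMulVec x f)) y := by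
  obtain ⟨V, hV, h0⟩ := h0
  obtain ⟨W, a, e0, h1, h2, h3, h4⟩ := T.exists_chain hV ht
  have h5 : ∀ m, RkAt (W m) β y := fun m => by
    induction m with
    | zero => rwa [e0]
    | succ m ih =>
      obtain ⟨u1, u2⟩ := hu _ _ m (h1 (m + 1)) (h2 (m + 1))
      exact T.rk_step (h4 m) (h1 (m + 1)).1 hc u1 u2 hy ih
  exact T.spec_rk β (Set.infinite_of_injective_forall_mem h3 fun m => ⟨W m, h1 m, h5 m⟩)

end Pool.Agent.Lib.MP_6adaea_nt.W
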