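import Mathlib

/-!
Semilinear operators: fixed vectors, commutants, simplicity.
-/

set_option linter.unusedSectionVars false

namespace Pool.Agent.Lib.MP_6adaea_nt.W
open Module

open Polynomial in
theorem S2A_root {C : Type} [Field C] [IsAlgClosed C] {Q : ℕ} (hQ : 2 ≤ Q) (a : ℕ → C) (m : ℕ)
    (ha : ¬ ∀ j ≤ m, a j = 0) : ∃ x : ℕ → C, x m ≠ 0 ∧ x 0 = a 0 * x m ^ Q ∧
      ∀ i, x (i + 1) = x i ^ Q + a (i + 1) * x m ^ Q := by
  obtain ⟨p, p0, ps⟩ : ∃ p : ℕ → C[X], p 0 = Polynomial.C (a 0) * X ^ Q ∧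
      ∀ i, p (i + 1) = p i ^ Q + Polynomial.C (a (i + 1)) * X ^ Q :=
    ⟨fun n => Nat.rec (Polynomial.C (a 0) * X ^ Q)
      (fun i q => q ^ Q + Polynomial.C (a (i + 1)) * X ^ Q) n, rfl, fun _ => rfl⟩
  have hd : ∀ i, X ^ Q ∣ p i := fun i => by
    induction i with
    | zero => rw [p0]; exact dvd_mul_left _ _
    | succ i ih => rw [ps]; exact dvd_add (dvd_pow ih (by omega)) (dvd_mul_left _ _)
  have hz : ∀ i, p i = 0 → ∀ j ≤ i, a j = 0 := fun i => by
    induction i with
    | zero =>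
      intro h j hj
      have h1 := congrArg (fun q => coeff q Q) (p0.symm.trans h)
      simp only [coeff_C_mul_X_pow, if_true, coeff_zero] at h1
      rw [Nat.le_zero.1 hj, h1]
    | succ i ih =>
      intro h j hj
      have h2 : X ^ (Q + 1) ∣ p i ^ Q := by
        refine (pow_dvd_pow X (show Q + 1 ≤ Q * Q by nlinarith)).trans ?_
        rw [pow_mul]
        exact pow_dvd_pow_of_dvd (hd i) Q
      have h1 := congrArg (fun q => coeff q Q) ((ps i).symm.trans h)
      simp only [coeff_add, coeff_C_mul_X_pow, if_true, coeff_zero,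
        X_pow_dvd_iff.1 h2 Q (Nat.lt_succ_self Q), zero_add] at h1
      rcases Nat.le_succ_iff.1 hj with hj | rfl
      · refine ih ?_ j hj
        rw [ps, h1, map_zero, zero_mul, add_zero] at h
        exact pow_eq_zero_iff (by omega) |>.1 h
      · exact h1
  obtain ⟨r, hr⟩ := (pow_dvd_pow X hQ).trans (hd m)
  obtain ⟨y, hy⟩ := IsAlgClosed.exists_root (X * r - 1) fun h => by
    have h1 := eq_C_of_degree_eq_zero h
    rw [coeff_sub, mul_coeff_zero, coeff_X_zero, zero_mul, coeff_one_zero, zero_sub, map_neg, map_one,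
      sub_eq_add_neg, add_eq_right] at h1
    exact ha (hz m (by rw [hr, pow_two, mul_assoc, h1, mul_zero]))
  rw [IsRoot.def, eval_sub, eval_mul, eval_X, eval_one, sub_eq_zero] at hy
  have h3 : (p m).eval y = y := by
    rw [hr, eval_mul, eval_pow, eval_X, pow_two, mul_assoc, hy, mul_one]
  refine ⟨fun i => (p i).eval y, ?_, ?_, fun i => ?_⟩
  · simp only [h3]
    exact left_ne_zero_of_mul_eq_one hy
  · simp only [h3]
    rw [p0, eval_mul, eval_C, eval_pow, eval_X]
  · simp only [h3]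
    rw [ps, eval_add, eval_mul, eval_C, eval_pow, eval_pow, eval_X]

theorem S2A_fix {C V : Type} [Field C] [IsAlgClosed C] [AddCommGroup V] [Module C V]
    [FiniteDimensional C V] {Q : ℕ} (hQ : 2 ≤ Q) (ψ : V →+ V)
    (hψ : ∀ (c : C) v, ψ (c • v) = c ^ Q • ψ v) (W : Submodule C V)
    (h2 : ∀ u, ψ u ∈ W → u ∈ W) {v : V} (hv : v ∉ W) : ∃ w, w ∉ W ∧ ψ w - w ∈ W := by
  classical
  have hex : ∃ n, ∃ a : ℕ → C, ψ^[n] v - ∑ i ∈ Finset.range n, a i • ψ^[i] v ∈ W := by
    obtain ⟨n, hn⟩ := monotone_stabilizes_iff_noetherian.2 (inferInstance : IsNoetherian C V)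
      ⟨fun n => Submodule.span C ((fun i => ψ^[i] v) '' (Finset.range n : Set ℕ)), fun m n h =>
        Submodule.span_mono (Set.image_mono (Finset.coe_subset.2 (Finset.range_mono h)))⟩
    have h3 : ψ^[n] v ∈ Submodule.span C ((fun i => ψ^[i] v) '' (Finset.range n : Set ℕ)) :=
      (hn (n + 1) (Nat.le_succ n)).ge (Submodule.subset_span
        ⟨n, Finset.mem_coe.2 (Finset.self_mem_range_succ n), rfl⟩)
    obtain ⟨a, ha⟩ := (Submodule.mem_span_image_finset_iff_exists_fun' C).1 h3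
    exact ⟨n, a, by rw [ha, sub_self]; exact W.zero_mem⟩
  obtain ⟨a, ha⟩ := Nat.find_spec hex
  have hmin := fun m => Nat.find_min hex (m := m)
  generalize Nat.find hex = n at ha hmin
  obtain _ | m := n
  · rw [Finset.sum_range_zero, sub_zero] at ha
    exact (hv ha).elim
  have h4 : ∀ n, ψ^[n] v ∉ W := fun n => by
    induction n with
    | zero => exact hv
    | succ n ih => rw [Function.iterate_succ_apply']; exact fun h => ih (h2 _ h)
  obtain ⟨x, hx, x0, xs⟩ := S2A_root hQ a m fun h => h4 (m + 1) (by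
    rwa [Finset.sum_eq_zero fun i hi => by
      rw [h i (Nat.lt_succ_iff.1 (Finset.mem_range.1 hi)), zero_smul], sub_zero] at ha)
  have h5 : ∀ k, ψ (∑ i ∈ Finset.range k, x i • ψ^[i] v) +
      x m ^ Q • ∑ i ∈ Finset.range (k + 1), a i • ψ^[i] v =
      ∑ i ∈ Finset.range (k + 1), x i • ψ^[i] v := fun k => by
    induction k with
    | zero => simp [x0, smul_smul, mul_comm]
    | succ k ih =>
      rw [Finset.sum_range_succ _ (k + 1), Finset.sum_range_succ _ (k + 1)]
      conv_rhs => rw [← ih]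
      rw [Finset.sum_range_succ (fun i => x i • ψ^[i] v) k, map_add, hψ, xs k,
        Function.iterate_succ_apply' ψ k]
      module
  refine ⟨∑ i ∈ Finset.range (m + 1), x i • ψ^[i] v, fun hw => ?_, ?_⟩
  · refine hmin m (Nat.lt_succ_self m) ⟨fun i => -((x m)⁻¹ * x i), ?_⟩
    convert W.smul_mem (x m)⁻¹ hw using 1
    rw [Finset.sum_range_succ, smul_add, smul_smul, inv_mul_cancel₀ hx, one_smul, Finset.smul_sum]
    simp only [neg_smul, Finset.sum_neg_distrib, smul_smul]
    abel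
  · convert W.smul_mem (x m ^ Q) ha using 1
    rw [Finset.sum_range_succ (fun i => x i • ψ^[i] v) m, map_add, hψ,
      ← Finset.sum_range_succ (fun i => x i • ψ^[i] v) m, ← h5 m,
      Function.iterate_succ_apply' ψ m]
    module

/-- Induction on the dimension. One fixed vector: let `v ≠ 0`, `n` least with
`ψ^n v = ∑_{i < n} a i • ψ^i v`; `a 0 ≠ 0` since `ψ` is injective and every `a i` is a `Q`-th power.
For `w = ∑ x i • ψ^i v` the equation `ψ w = w` reads `x 0 = a 0 * y ^ Q`,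
`x i = x (i - 1) ^ Q + a i * y ^ Q`, `y = x (n - 1)`; define polynomials `p i` in `y` by this recursion;
`p (n - 1) - X` is `X` times a polynomial of positive degree with constant term `-1`, so it has a
nonzero root. Then pass to the quotient by the line through `w` (the induced map is injective again);
if `ψ u = u + a • w` solve `a + c ^ Q = c` and take `u + c • w`. -/
theorem lang {C V : Type} [Field C] [IsAlgClosed C] [AddCommGroup V] [Module C V]
    [FiniteDimensional C V] {Q : ℕ} (hQ : 2 ≤ Q) (ψ : V →+ V) (hinj : Function.Injective ψ)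
    (hψ : ∀ (c : C) v, ψ (c • v) = c ^ Q • ψ v) : Submodule.span C {v | ψ v = v} = ⊤ := by
  by_contra hne
  obtain ⟨v, hv⟩ : ∃ v, v ∉ Submodule.span C {v | ψ v = v} := by
    by_contra h
    exact hne (eq_top_iff.2 fun v _ => by_contra fun hv => h ⟨v, hv⟩)
  have h2 : ∀ f : V →+ V, (∀ (a : C) w, ψ w = w → ∃ c : C, f (c • w) = a • w) →
      ∀ u ∈ Submodule.span C {v | ψ v = v}, ∀ a : C,
        ∃ u' ∈ Submodule.span C {v | ψ v = v}, f u' = a • u := fun f hf u hu => by
    induction hu using Submodule.span_induction with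
    | mem x hx =>
      intro a
      obtain ⟨c, hc⟩ := hf a x hx
      exact ⟨_, Submodule.smul_mem _ c (Submodule.subset_span hx), hc⟩
    | zero => exact fun a => ⟨0, Submodule.zero_mem _, by rw [map_zero, smul_zero]⟩
    | add x y _ _ hx hy =>
      intro a
      obtain ⟨x', h1, h2⟩ := hx a
      obtain ⟨y', h3, h4⟩ := hy a
      exact ⟨x' + y', Submodule.add_mem _ h1 h3, by rw [map_add, h2, h4, smul_add]⟩
    | smul c x _ hx =>
      intro a
      rw [smul_smul]
      exact hx _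
  obtain ⟨w, hw, hw'⟩ := S2A_fix hQ ψ hψ _ (fun u hu => by
    obtain ⟨u', h3, h4⟩ := h2 ψ (fun a w hw => by
      obtain ⟨c, hc⟩ := IsAlgClosed.exists_pow_nat_eq a (show 0 < Q by omega)
      exact ⟨c, by rw [hψ, hc, hw]⟩) _ hu 1
    rw [one_smul] at h4
    exact hinj h4 ▸ h3) hv
  obtain ⟨u, h3, h4⟩ := h2 (ψ - AddMonoidHom.id V) (fun a w hw => by
    obtain ⟨c, hc⟩ := IsAlgClosed.exists_root
      (Polynomial.X ^ Q - (Polynomial.X + Polynomial.C a)) (by
        rw [Polynomial.degree_sub_eq_left_of_degree_lt, Polynomial.degree_X_pow]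
        · exact_mod_cast (show Q ≠ 0 by omega)
        · rw [Polynomial.degree_X_pow, Polynomial.degree_X_add_C]
          exact_mod_cast (show 1 < Q by omega))
    simp only [Polynomial.IsRoot.def, Polynomial.eval_sub, Polynomial.eval_add, Polynomial.eval_pow,
      Polynomial.eval_X, Polynomial.eval_C, sub_eq_zero] at hc
    refine ⟨c, ?_⟩
    rw [AddMonoidHom.sub_apply, AddMonoidHom.id_apply, hψ, hw, hc, add_smul, add_sub_cancel_left])
    _ hw' 1
  rw [AddMonoidHom.sub_apply, AddMonoidHom.id_apply, one_smul] at h4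
  have h5 : w - u ∈ Submodule.span C {v | ψ v = v} := Submodule.subset_span (by
    show ψ (w - u) = w - u
    rw [map_sub, sub_eq_sub_iff_sub_eq_sub, h4])
  exact hw (by simpa using Submodule.add_mem _ h5 h3)

variable {F V : Type} [Field F] [AddCommGroup V] [Module F V]

theorem S2A_iter {σ : F → F} {τ : V → V} (hτ : ∀ (c : F) v, τ (c • v) = σ c • τ v) (i : ℕ)
    (c : F) (v : V) : τ^[i] (c • v) = σ^[i] c • τ^[i] v := by
  induction i with
  | zero => rfl
  | succ i ih => simp only [Function.iterate_succ_apply', ih, hτ]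

theorem S2A_symm (σ : F ≃+* F) (τ : V ≃+ V) (hτ : ∀ (c : F) v, τ (c • v) = σ c • τ v) (c : F)
    (v : V) : τ.symm (c • v) = σ.symm c • τ.symm v :=
  τ.injective (by rw [hτ, τ.apply_symm_apply, τ.apply_symm_apply, σ.apply_symm_apply])

/-- `κ A = τ ∘ A ∘ τ⁻¹` is linear, `κ (c • A) = σ c • κ A`, `κ^s A = A`. For each `j` the sum
`∑_{i < s} κ^i (ω ^ j • A) = ∑_{i < s} (σ^i ω) ^ j • κ^i A` commutes with `τ`, so it is a scalar. The
Vandermonde matrix of the `σ^i ω` is invertible, so `A = κ^0 A` is a combination of scalars. -/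
theorem comm_pow (σ : F ≃+* F) (τ : V ≃+ V) (hτ : ∀ (c : F) v, τ (c • v) = σ c • τ v)
    (h : ∀ A : V →ₗ[F] V, (∀ v, A (τ v) = τ (A v)) → ∃ a : F, A = a • LinearMap.id) {s : ℕ}
    (hs : 0 < s) {ω : F} (h1 : σ^[s] ω = ω) (h2 : ∀ i < s, ∀ j < s, σ^[i] ω = σ^[j] ω → i = j)
    (A : V →ₗ[F] V) (hA : ∀ v, A (τ^[s] v) = τ^[s] (A v)) : ∃ a : F, A = a • LinearMap.id := by
  classical
  have ht : ∀ i v, τ^[i] (τ.symm^[i] v) = v := fun i =>
    Function.LeftInverse.iterate τ.apply_symm_apply i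
  have hs' : ∀ i c, σ^[i] (σ.symm^[i] c) = c := fun i =>
    Function.LeftInverse.iterate σ.apply_symm_apply i
  obtain ⟨K, hK⟩ : ∃ K : ℕ → V →ₗ[F] V, ∀ i v, K i v = τ^[i] (A (τ.symm^[i] v)) :=
    ⟨fun i => ⟨⟨fun v => τ^[i] (A (τ.symm^[i] v)), fun u v => by
      rw [iterate_map_add, map_add, iterate_map_add]⟩, fun c v => by
        show τ^[i] (A (τ.symm^[i] (c • v))) = c • τ^[i] (A (τ.symm^[i] v))
        rw [S2A_iter (S2A_symm σ τ hτ), map_smul, S2A_iter hτ, hs']⟩, fun _ _ => rfl⟩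
  have K0 : K 0 = A := LinearMap.ext fun v => hK 0 v
  have Ks : K s = A := LinearMap.ext fun v => by rw [hK, ← hA, ht]
  have K1 : ∀ i v, K (i + 1) (τ v) = τ (K i v) := fun i v => by
    rw [hK, hK, Function.iterate_succ_apply' τ, Function.iterate_succ_apply τ.symm,
      τ.symm_apply_apply]
  have hm : ∀ j : ℕ, ∃ b : F, ∑ i ∈ Finset.range s, (σ^[i] ω) ^ j • K i = b • LinearMap.id :=
    fun j => h _ fun v => by
      have e1 := Finset.sum_range_succ (fun i => (σ^[i] ω) ^ j • K i (τ v)) s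
      rw [Finset.sum_range_succ', h1, Ks, K0, Function.iterate_zero_apply, add_left_inj] at e1
      simp only [LinearMap.sum_apply, LinearMap.smul_apply, map_sum, hτ, map_pow]
      rw [← e1]
      exact Finset.sum_congr rfl fun i _ => by rw [K1, Function.iterate_succ_apply']
  have hp : ∀ p : Polynomial F,
      ∃ b : F, ∑ i ∈ Finset.range s, p.eval (σ^[i] ω) • K i = b • LinearMap.id := fun p => by
    induction p using Polynomial.induction_on' with
    | add p q hp hq =>
      obtain ⟨b, hb⟩ := hp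
      obtain ⟨c, hc⟩ := hq
      exact ⟨b + c, by simp only [Polynomial.eval_add, add_smul, Finset.sum_add_distrib, hb, hc]⟩
    | monomial j a =>
      obtain ⟨b, hb⟩ := hm j
      exact ⟨a * b, by simp only [Polynomial.eval_monomial, mul_smul, ← Finset.smul_sum, hb]⟩
  obtain ⟨b, hb⟩ := hp (∏ i ∈ (Finset.range s).erase 0, (Polynomial.X - Polynomial.C (σ^[i] ω)))
  simp only [Polynomial.eval_prod, Polynomial.eval_sub, Polynomial.eval_X, Polynomial.eval_C] at hb
  rw [Finset.sum_eq_single_of_mem 0 (Finset.mem_range.2 hs) fun i hi hi0 => by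
    rw [Finset.prod_eq_zero (Finset.mem_erase.2 ⟨hi0, hi⟩) (sub_self _), zero_smul], K0] at hb
  have h0 : ∏ i ∈ (Finset.range s).erase 0, (σ^[0] ω - σ^[i] ω) ≠ 0 :=
    Finset.prod_ne_zero_iff.2 fun i hi e => (Finset.mem_erase.1 hi).1
      (h2 0 hs i (Finset.mem_range.1 (Finset.mem_erase.1 hi).2) (sub_eq_zero.1 e)).symm
  exact ⟨_ * b, by rw [mul_smul, ← hb, inv_smul_smul₀ h0]⟩

theorem S2A_compl {L : Type} [CompleteLattice L] [IsModularLattice L] [WellFoundedLT L]
    [WellFoundedGT L] (T : L ≃o L) (h : ∀ U, T U ≤ U → U = ⊥ ∨ U = ⊤) (S : L → Prop) (h0 : S ⊥)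
    (hsup : ∀ U U', S U → S U' → S (U ⊔ U')) (hinf : ∀ U U', S U → S U' → S (U ⊓ U'))
    (hT : ∀ U, S (T U) ↔ S U) {W : L} (hW : S W) (hne : W ≠ ⊥) : ∃ W2, S W2 ∧ IsCompl W W2 := by
  obtain ⟨W0, hW0⟩ := exists_minimal_of_wellFoundedLT (fun U => S U ∧ U ≠ ⊥) ⟨W, hW, hne⟩
  have h1 : ∀ i, Minimal (fun U => S U ∧ U ≠ ⊥) (T^[i] W0) := fun i => by
    induction i with
    | zero => exact hW0
    | succ i ih =>
      rw [Function.iterate_succ_apply']
      refine ⟨⟨(hT _).2 ih.1.1, fun e => ih.1.2 (T.injective (e.trans T.map_bot.symm))⟩,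
        fun U hU hle => ?_⟩
      obtain ⟨U, rfl⟩ := T.surjective U
      exact T.monotone (ih.2 ⟨(hT _).1 hU.1, fun e => hU.2 (by rw [e, T.map_bot])⟩
        (T.le_iff_le.1 hle))
  have h2 : ⨆ i, T^[i] W0 = ⊤ := by
    refine (h _ ?_).resolve_left fun e => hW0.1.2 (le_bot_iff.1 (e ▸ le_iSup (fun i => T^[i] W0) 0))
    rw [T.map_iSup]
    refine iSup_le fun i => ?_
    rw [← Function.iterate_succ_apply' T]
    exact le_iSup (fun i => T^[i] W0) _
  obtain ⟨W2, hW2⟩ := exists_maximal_of_wellFoundedGT (fun U => S U ∧ Disjoint W U)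
    ⟨⊥, h0, disjoint_bot_right⟩
  refine ⟨W2, hW2.1.1, hW2.1.2, codisjoint_iff.2 (eq_top_iff.2 (h2 ▸ iSup_le fun i => ?_))⟩
  by_cases e : (W ⊔ W2) ⊓ T^[i] W0 = ⊥
  · have h3 := hW2.2 ⟨hsup _ _ hW2.1.1 (h1 i).1.1,
      hW2.1.2.disjoint_sup_right_of_disjoint_sup_left (disjoint_iff.2 e)⟩ le_sup_left
    exact (le_sup_right.trans h3).trans le_sup_right
  · exact ((h1 i).2 ⟨hinf _ _ (hsup _ _ hW hW2.1.1) (h1 i).1.1, e⟩ inf_le_right).trans inf_le_left

/-- the preimage of a subspace under a semilinear map -/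
def S2A_pre (σ : F ≃+* F) (τ : V ≃+ V) (hτ : ∀ (c : F) v, τ (c • v) = σ c • τ v)
    (U : Submodule F V) : Submodule F V where
  carrier := {v | τ v ∈ U}
  zero_mem' := by
    show τ 0 ∈ U
    rw [map_zero]
    exact U.zero_mem
  add_mem' := fun {a b} ha hb => by
    show τ (a + b) ∈ U
    rw [map_add]
    exact U.add_mem ha hb
  smul_mem' := fun c v hv => by
    show τ (c • v) ∈ U
    rw [hτ]
    exact U.smul_mem _ hv

/-- Images of subspaces under `τ`, `τ⁻¹` are subspaces of the same dimension; a `τ^s`-stable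
subspace is mapped onto itself. Let `W0 ≠ ⊥` be `τ^s`-stable of least dimension, `W i = τ^i W0`
(again stable of least dimension); the sum of the `W i`, `i < s`, is `τ`-stable, so it is `⊤`. For a
stable `W` take a stable `W2` of largest dimension with `W ⊓ W2 = ⊥`. If `W i` is not in `W ⊔ W2`
then `W i ⊓ (W ⊔ W2) = ⊥` and `W2 ⊔ W i` is larger. So `W2` is a complement, and the projection
onto `W` commutes with `τ^s`; it is a scalar, `0` or `1`. -/
theorem simple_pow [FiniteDimensional F V] (σ : F ≃+* F) (τ : V ≃+ V)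
    (hτ : ∀ (c : F) v, τ (c • v) = σ c • τ v)
    (h : ∀ W : Submodule F V, (∀ v ∈ W, τ v ∈ W) → W = ⊥ ∨ W = ⊤) {s : ℕ} (hs : 0 < s)
    (hc : ∀ A : V →ₗ[F] V, (∀ v, A (τ^[s] v) = τ^[s] (A v)) → ∃ a : F, A = a • LinearMap.id)
    (W : Submodule F V) (hW : ∀ v ∈ W, τ^[s] v ∈ W) : W = ⊥ ∨ W = ⊤ := by
  rw [or_iff_not_imp_left]
  intro hne
  obtain ⟨T, hT⟩ : ∃ T : Submodule F V ≃o Submodule F V, ∀ U v, v ∈ T U ↔ τ.symm v ∈ U :=
    ⟨⟨⟨S2A_pre σ.symm τ.symm (S2A_symm σ τ hτ), S2A_pre σ τ hτ,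
      fun U => Submodule.ext fun v => by
        show τ.symm (τ v) ∈ U ↔ v ∈ U
        rw [τ.symm_apply_apply],
      fun U => Submodule.ext fun v => by
        show τ (τ.symm v) ∈ U ↔ v ∈ U
        rw [τ.apply_symm_apply]⟩, fun {U U'} => ⟨fun e v hv => by
          have e1 : τ.symm (τ v) ∈ U := by rwa [τ.symm_apply_apply]
          have e2 : τ.symm (τ v) ∈ U' := e (x := τ v) e1
          rwa [τ.symm_apply_apply] at e2, fun e v hv => e hv⟩⟩, fun _ _ => Iff.rfl⟩
  have hcm : ∀ v, τ^[s] (τ v) = τ (τ^[s] v) := fun v =>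
    (Function.iterate_succ_apply τ s v).symm.trans (Function.iterate_succ_apply' τ s v)
  obtain ⟨W2, h2, hcp⟩ := S2A_compl T
    (fun U hU => h U fun v hv => hU ((hT U _).2 (by rwa [τ.symm_apply_apply])))
    (fun U => ∀ v ∈ U, τ^[s] v ∈ U)
    (fun v hv => by rw [(Submodule.mem_bot F).1 hv, iterate_map_zero]; exact Submodule.zero_mem _)
    (fun U U' hU hU' v hv => by
      obtain ⟨a, ha, b, hb, rfl⟩ := Submodule.mem_sup.1 hv
      rw [iterate_map_add]
      exact Submodule.add_mem_sup (hU a ha) (hU' b hb))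
    (fun U U' hU hU' v hv => ⟨hU v hv.1, hU' v hv.2⟩)
    (fun U => ⟨fun hU v hv => by
      have e1 := (hT U _).1 (hU (τ v) ((hT U _).2 (by rwa [τ.symm_apply_apply])))
      rwa [hcm, τ.symm_apply_apply] at e1, fun hU v hv => by
      obtain ⟨v, rfl⟩ := τ.surjective v
      rw [hT, τ.symm_apply_apply] at hv
      rw [hT, hcm, τ.symm_apply_apply]
      exact hU v hv⟩) hW hne
  obtain ⟨a, ha⟩ := hc (W.projection W2 hcp) fun v => by
    obtain ⟨x, hx, y, hy, rfl⟩ := Submodule.mem_sup.1 (hcp.sup_eq_top ▸ Submodule.mem_top (x := v))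
    rw [iterate_map_add, map_add, map_add, Submodule.projection_apply_of_mem_left hcp hx,
      Submodule.projection_apply_of_mem_left hcp (hW x hx),
      Submodule.projection_apply_of_mem_right hcp hy,
      Submodule.projection_apply_of_mem_right hcp (h2 y hy), add_zero, add_zero]
  obtain ⟨w, hw, hw0⟩ := Submodule.exists_mem_ne_zero_of_ne_bot hne
  have ha0 : a ≠ 0 := fun e => hw0 (by
    rw [← Submodule.projection_apply_of_mem_left hcp hw, ha, e, zero_smul, LinearMap.zero_apply])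
  refine eq_top_iff.2 fun v _ => ?_
  have e1 := Submodule.projection_apply_mem hcp v
  rw [ha, LinearMap.smul_apply, LinearMap.id_apply] at e1
  exact (W.smul_mem_iff ha0).1 e1

end Pool.Agent.Lib.MP_6adaea_nt.W
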