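import Pool.Agent.Lib.MP_6adaea_nt.W.Defs
import Pool.Agent.Lib.MP_6adaea_nt.W.S2A

/-!
Function fields with a Frobenius structure on the constants.
-/

set_option linter.unusedSectionVars false

namespace Pool.Agent.Lib.MP_6adaea_nt.W
open Matrix Polynomial G U

variable {k C E : Type} [Field k] [Finite k] [Field C] [Field E] [Algebra k C] [Algebra k E]
  [Algebra C E] [IsScalarTower k C E] [IsAlgClosed C] [IsAlgClosed E] {θ : E} {r : ℕ} {g : ℕ → E}

theorem S2C_fin {C N : Type} [Field C] [IsAlgClosed C] [Field N] [Algebra C N] [IsFF C N]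
    (p : ℕ) [Fact p.Prime] [CharP C p] (m : Place C N →₀ ℕ) (Z : Submodule C N)
    (h : ∀ f ∈ Z, ∀ v : Place C N, v.Ge f (-(m v : ℤ))) : FiniteDimensional C Z := by
  have h1 : Module.rank C Z ≤ ((m.sum fun _ a => a) + 1 : ℕ) := by
    refine rank_le fun s hs => ?_
    have h2 : LinearIndependent C fun i : s => ((i : Z) : N) :=
      hs.map' Z.subtype (Submodule.ker_subtype Z)
    have h3 := finrank_span_eq_card h2
    have := FiniteDimensional.span_of_finite C (Set.finite_range fun i : s => ((i : Z) : N))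
    have h4 := IsFF.finrank_le p _ m le_rfl
      (Submodule.span C (Set.range fun i : s => ((i : Z) : N))) fun f hf =>
        h f (Submodule.span_le.mpr (by rintro _ ⟨i, rfl⟩; exact (i : Z).2) hf)
    rw [h3, Fintype.card_coe] at h4
    exact h4
  exact Module.rank_lt_aleph0_iff.mp (h1.trans_lt Cardinal.natCast_lt_aleph0)

theorem S2C_poly {C N : Type} [Field C] [IsAlgClosed C] [Field N] [Algebra C N] [IsFF C N]
    (p : ℕ) [Fact p.Prime] [CharP C p] (θ x : N) :
    ∃ b : C[X], b ≠ 0 ∧ ∀ v : Place C N, v.Ge θ 0 → v.Ge (aeval θ b * x) 0 := by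
  classical
  have h1 : ∀ v : Place C N, ∃ c : C, v.Ge θ 0 → v.Ge (θ - algebraMap C N c) 1 := fun v => by
    by_cases h : v.Ge θ 0
    · obtain ⟨c, hc⟩ := v.exists_res h
      exact ⟨c, fun _ => hc⟩
    · exact ⟨0, fun h' => absurd h' h⟩
  choose c hc using h1
  obtain ⟨m, hm, -⟩ := north_poles (k := C) p x
  refine ⟨∏ w ∈ m.support, (X - Polynomial.C (c w)) ^ m w,
    (monic_prod_of_monic _ _ fun w _ => (monic_X_sub_C _).pow _).ne_zero, fun v hv => ?_⟩
  have h2 : ∀ s : Finset (Place C N), v.Ge (∏ w ∈ s, (θ - algebraMap C N (c w)) ^ m w) 0 :=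
    fun s => Finset.prod_induction _ (fun y => v.Ge y 0) (fun a b ha hb => by simpa using ha.mul hb)
      v.ge_one fun w _ => by simpa using (hv.sub (v.ge_const (c w))).pow (m w)
  simp only [map_prod, map_pow, map_sub, aeval_X, aeval_C]
  by_cases hs : v ∈ m.support
  · rw [← Finset.mul_prod_erase _ _ hs]
    simpa using (((hc v hv).pow (m v)).mul (h2 _)).mul (hm v)
  · have h3 := hm v
    rw [Finsupp.notMem_support_iff.mp hs] at h3
    simpa using (h2 _).mul h3

theorem S2C_mem {C E : Type} [Field C] [Field E] [Algebra C E] (σ : E ≃+* E)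
    (hσ : ∀ c : C, ∃ d : C, σ (algebraMap C E c) = algebraMap C E d) (A : Set E) {x : E}
    (hx : x ∈ IntermediateField.adjoin C A) : σ x ∈ IntermediateField.adjoin C (σ '' A) := by
  induction hx using IntermediateField.adjoin_induction with
  | mem x hx => exact IntermediateField.subset_adjoin _ _ ⟨x, hx, rfl⟩
  | algebraMap x =>
    obtain ⟨d, hd⟩ := hσ x
    rw [hd]
    exact IntermediateField.algebraMap_mem _ _
  | add x y _ _ h1 h2 => rw [map_add]; exact add_mem h1 h2
  | inv x _ h1 => rw [map_inv₀]; exact inv_mem h1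
  | mul x y _ _ h1 h2 => rw [map_mul]; exact mul_mem h1 h2

theorem S2C_iff {C E : Type} [Field C] [Field E] [Algebra C E] (σ : E ≃+* E)
    (hσ : ∀ c : C, ∃ d : C, σ (algebraMap C E c) = algebraMap C E d)
    (hσ' : ∀ c : C, ∃ d : C, σ.symm (algebraMap C E c) = algebraMap C E d) (A : Set E) (x : E) :
    x ∈ IntermediateField.adjoin C A ↔ σ x ∈ IntermediateField.adjoin C (σ '' A) := by
  refine ⟨S2C_mem σ hσ A, fun h => ?_⟩
  have h1 := S2C_mem σ.symm hσ' _ h
  rwa [RingEquiv.symm_apply_apply, Set.image_image, show (fun x => σ.symm (σ x)) = id from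
    funext σ.symm_apply_apply, Set.image_id] at h1

theorem S2C_isFF {C E : Type} [Field C] [Field E] [Algebra C E] {θ : E}
    (h : Transcendental C θ) : IsFF C (IntermediateField.adjoin C {θ}) := by
  let t : IntermediateField.adjoin C {θ} := IntermediateField.AdjoinSimple.gen C θ
  have h1 : IntermediateField.adjoin C {t} = ⊤ := by
    apply IntermediateField.lift_injective
    rw [IntermediateField.lift_adjoin_simple, IntermediateField.lift_top]
    rfl
  refine ⟨t, (transcendental_algebraMap_iff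
    (algebraMap (IntermediateField.adjoin C {θ}) E).injective).mp h, ?_⟩
  rw [h1]
  exact Module.Finite.of_surjective (Algebra.linearMap _ _) fun y =>
    ⟨⟨y, IntermediateField.mem_top⟩, rfl⟩

/-- `Place.exists_perm` transports places along `γ` (on `C` the inverse of `γ` is the `Q`-th power
map, an automorphism), with `ord θ` preserved. Let `b` be a product of powers of `X - c v`, over the
finitely many poles `v` of `x` with `v.Ge θ 0`, `c v` the residue of `θ` (`Place.exists_res`,
`IsFF.fin`); then `y = b θ * x` has poles only at poles of `θ`. For `n` large `y` lies in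
`Z = {z | ∀ v, v.Ge z (-(n * max 0 (-v.ord θ)))}`, a subspace of finite dimension
(`IsFF.finrank_le`, `rank_le`) stable under `γ.symm`. Apply `lang`. -/
theorem ff_descent {C N : Type} [Field C] [IsAlgClosed C] [Field N] [Algebra C N] [IsFF C N]
    (p : ℕ) [Fact p.Prime] [CharP C p] (γ : N ≃+* N) {a : ℕ} (ha : 0 < a)
    (hγ : ∀ c : C, γ.symm (algebraMap C N c) = algebraMap C N (c ^ p ^ a)) {θ : N}
    (hθ : Transcendental C θ) (h1 : γ θ = θ) (x : N) :
    ∃ b : C[X], b ≠ 0 ∧ aeval θ b * x ∈ Submodule.span C {m : N | γ m = m} := by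
  have hp : 2 ≤ p := (Fact.out : p.Prime).two_le
  obtain ⟨b, hb, hy⟩ := S2C_poly (C := C) p θ x
  refine ⟨b, hb, ?_⟩
  obtain ⟨my, hmy, -⟩ := north_poles (k := C) p (aeval θ b * x)
  set n : ℕ := my.sum fun _ a => a with hn
  have hfin : (Function.support fun v : Place C N => n * (-v.ord θ).toNat).Finite :=
    (IsFF.fin p θ).subset fun v hv h => hv (by simp [h])
  let Z : Submodule C N := ⨅ v : Place C N, north_sub v (-((n * (-v.ord θ).toNat : ℕ) : ℤ))
  have hZ : ∀ z, z ∈ Z ↔ ∀ v : Place C N, v.Ge z (-((n * (-v.ord θ).toNat : ℕ) : ℤ)) :=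
    fun z => Submodule.mem_iInf _
  have hfd : FiniteDimensional C Z := S2C_fin p (Finsupp.ofSupportFinite _ hfin) Z fun f hf v => by
    rw [Finsupp.ofSupportFinite_coe]
    exact (hZ f).mp hf v
  have h2 : γ.symm θ = θ := by rw [RingEquiv.symm_apply_eq, h1]
  have hst : ∀ z ∈ Z, γ.symm z ∈ Z := fun z hz => (hZ _).mpr fun w => by
    have h3 := (hZ z).mp hz (under_pull γ.symm (iterateFrobeniusEquiv C p a)
      (fun c => by rw [hγ, iterateFrobeniusEquiv_def]) w)
    have h4 : ∀ y, (under_pull γ.symm (iterateFrobeniusEquiv C p a)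
      (fun c => by rw [hγ, iterateFrobeniusEquiv_def]) w).ord y = w.ord (γ.symm y) := fun _ => rfl
    rcases h3 with h3 | h3
    · exact Or.inl (by rw [h3, map_zero])
    · rw [h4, h4, h2] at h3
      exact Or.inr h3
  let ψ : Z →+ Z :=
    { toFun := fun z => ⟨γ.symm z, hst z z.2⟩
      map_zero' := Subtype.ext (map_zero γ.symm)
      map_add' := fun z z' => Subtype.ext (map_add γ.symm (z : N) z') }
  have h5 := lang (C := C) (Q := p ^ a) (hp.trans (Nat.le_self_pow ha.ne' p)) ψ
    (fun z z' h => Subtype.ext (γ.symm.injective (congrArg Subtype.val h))) fun c z =>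
      Subtype.ext (by
        change γ.symm (c • (z : N)) = c ^ p ^ a • γ.symm z
        rw [Algebra.smul_def, Algebra.smul_def, map_mul, hγ])
  have h6 : aeval θ b * x ∈ Z := (hZ _).mpr fun v => by
    by_cases hv : v.Ge θ 0
    · exact (hy v hv).mono (neg_nonpos.mpr (Int.natCast_nonneg _))
    · refine (hmy v).mono (neg_le_neg ?_)
      have h7 := (Place.not_ge_iff.mp hv).2
      have h8 : my v ≤ n := by
        by_cases h9 : v ∈ my.support
        · exact Finset.single_le_sum (f := fun w => my w) (fun _ _ => Nat.zero_le _) h9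
        · rw [Finsupp.notMem_support_iff.mp h9]
          exact Nat.zero_le _
      exact_mod_cast h8.trans (Nat.le_mul_of_pos_right _ (by omega))
  have h10 : (⟨_, h6⟩ : Z) ∈ Submodule.span C {v : Z | ψ v = v} := h5 ▸ Submodule.mem_top
  have h11 := Submodule.mem_map_of_mem (f := Z.subtype) h10
  rw [Submodule.map_span] at h11
  refine Submodule.span_mono ?_ h11
  rintro _ ⟨z, hz, rfl⟩
  have h12 : γ.symm z = z := congrArg Subtype.val hz
  exact ((RingEquiv.symm_apply_eq γ).mp h12).symm

/-- Let `K0 = C(θ)`, `N0 = C(θ, S)`, `N1 = C(θ, γ S)`. `γ` maps `C` onto `C`, `K0` onto `K0` and `N0`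
onto `N1`, so `finrank K0 N0 = finrank K0 N1` (`Algebra.finrank_eq_of_equiv_equiv`), finite since `E`
is algebraic over `K0`. From `N0 ≤ N1` get `N0 = N1`. Restrict `γ` to `N0` and use `ff_descent`
(`card k = p ^ f`). -/
theorem descent (T : Tri k C θ) (S : Set E) (hS : S.Finite)
    (h : ∀ z ∈ S, z ∈ IntermediateField.adjoin C ({θ} ∪ T.γ '' S)) :
    ∀ z ∈ S, ∃ b : C[X], b ≠ 0 ∧ aeval θ b * z ∈ Submodule.span C {m : E | T.γ m = m} := by
  obtain ⟨p, hp⟩ := CharP.exists k
  have := Fintype.ofFinite k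
  obtain ⟨f, hpp, hf⟩ := FiniteField.card k p
  have : Fact p.Prime := ⟨hpp⟩
  have : CharP C p := (Algebra.charP_iff k C p).mp hp
  have hQ : T.Q = p ^ (f * T.c) := by rw [Tri.Q, Nat.card_eq_fintype_card, hf, ← pow_mul]
  let σ : E ≃+* E := T.γ.toRingEquiv
  have hs' : ∀ c : C, ∃ d : C, σ.symm (algebraMap C E c) = algebraMap C E d :=
    fun c => ⟨_, T.symm_const c⟩
  have hs : ∀ c : C, ∃ d : C, σ (algebraMap C E c) = algebraMap C E d := fun c => by
    obtain ⟨d, hd⟩ := IsAlgClosed.exists_pow_nat_eq c (n := T.Q) (by have := T.two_le; omega)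
    refine ⟨d, ?_⟩
    rw [← hd, ← T.symm_const]
    exact T.γ.apply_symm_apply _
  have hθ : σ θ = θ := T.fix
  have := T.alg
  have := hS.to_subtype
  have := (hS.image σ).to_subtype
  let K0 := IntermediateField.adjoin C {θ}
  let N0 := IntermediateField.adjoin K0 S
  let N1 := IntermediateField.adjoin K0 (σ '' S)
  have m0 : ∀ (A : Set E) (x : E), x ∈ IntermediateField.adjoin K0 A ↔
      x ∈ IntermediateField.adjoin C ({θ} ∪ A) := fun A x => by
    rw [← IntermediateField.adjoin_adjoin_left, IntermediateField.mem_restrictScalars]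
  have f0 : FiniteDimensional K0 N0 := IntermediateField.finiteDimensional_adjoin fun x _ =>
    (Algebra.IsAlgebraic.isAlgebraic x).isIntegral
  have f1 : FiniteDimensional K0 N1 := IntermediateField.finiteDimensional_adjoin fun x _ =>
    (Algebra.IsAlgebraic.isAlgebraic x).isIntegral
  have e0 : ∀ x, x ∈ K0 ↔ σ x ∈ K0 := fun x => by
    have := S2C_iff σ hs hs' {θ} x
    rwa [Set.image_singleton, hθ] at this
  have e1 : ∀ x, x ∈ N0 ↔ σ x ∈ N1 := fun x => by
    have := S2C_iff σ hs hs' ({θ} ∪ S) x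
    rw [Set.image_union, Set.image_singleton, hθ] at this
    rw [m0, m0, this]
  have hle : N0 ≤ N1 := IntermediateField.adjoin_le_iff.mpr fun z hz => (m0 _ z).mpr (h z hz)
  have heq : N0 = N1 := IntermediateField.eq_of_le_of_finrank_eq hle
    (Algebra.finrank_eq_of_equiv_equiv (σ.restrict K0 K0 e0) (σ.restrict N0 N1 e1)
      (RingHom.ext fun _ => rfl))
  have e2 : ∀ x, x ∈ N0 ↔ σ x ∈ N0 := fun x => by rw [e1, ← heq]
  have := S2C_isFF T.tr
  have : IsFF C N0 := IsFF.of_finite K0 N0
  have hθ0 : θ ∈ N0 := (m0 _ _).mpr (IntermediateField.subset_adjoin _ _ (Or.inl rfl))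
  have : IsScalarTower C N0 E := IsScalarTower.of_algebraMap_eq fun _ => rfl
  intro z hz
  obtain ⟨b, hb, h1⟩ := ff_descent (C := C) p (σ.restrict N0 N0 e2) (a := f * T.c)
    (Nat.mul_pos f.2 T.c_pos) (fun c => Subtype.ext (by
      have h2 := T.symm_const c
      rw [hQ] at h2
      exact h2)) (θ := ⟨θ, hθ0⟩)
    ((transcendental_algebraMap_iff (algebraMap N0 E).injective).mp T.tr) (Subtype.ext hθ)
    ⟨z, IntermediateField.subset_adjoin _ _ hz⟩
  refine ⟨b, hb, ?_⟩
  let ι : N0 →ₐ[C] E := IsScalarTower.toAlgHom C N0 E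
  have h3 := Submodule.mem_map_of_mem (f := ι.toLinearMap) h1
  rw [Submodule.map_span, AlgHom.toLinearMap_apply, map_mul, ← aeval_algHom_apply] at h3
  refine Submodule.span_mono ?_ h3
  rintro _ ⟨y, hy, rfl⟩
  exact congrArg Subtype.val hy

/-- Strong induction on the degree, or take `f` monic of least degree with coefficients fixed by `γ`
(they form a subfield). `F` fixes `t` and raises the coefficients to the power `Q`; the difference
has smaller degree, so it vanishes. Then all coefficients satisfy `x ^ Q = x`, so they are algebraic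
over `k`, and so is `t` (`IsIntegral` over the algebraic closure of `k` in `E`). -/
theorem transc_fixed (T : Tri k C θ) {t : C} (ht : Transcendental k t) (f : Polynomial E)
    (hf : ∀ i, T.γ (f.coeff i) = f.coeff i) (h0 : f.eval (algebraMap C E t) = 0) : f = 0 := by
  have hQ := T.two_le
  induction hn : f.natDegree using Nat.strong_induction_on generalizing f with
  | _ n ih =>
  by_contra hne
  let g := f * Polynomial.C (f.leadingCoeff)⁻¹
  have hg : g.Monic := monic_mul_leadingCoeff_inv hne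
  have hd : g.natDegree = n := (natDegree_mul_leadingCoeff_self_inv f).trans hn
  have hc : ∀ i, T.γ (g.coeff i) = g.coeff i := fun i => by
    rw [coeff_mul_C, map_mul, map_inv₀, hf, leadingCoeff, hf]
  have hg0 : g.eval (algebraMap C E t) = 0 := by rw [eval_mul, h0, zero_mul]
  have hn0 : g.natDegree ≠ 0 := fun e => by
    rw [hg.natDegree_eq_zero.mp e] at hg0
    simp at hg0
  have hF : ∀ i, T.F (g.coeff i) = g.coeff i ^ T.Q := fun i => by rw [T.F_apply, hc]
  have h1 : g - g.map (T.F : E →+* E) = 0 := by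
    refine ih _ ?_ _ (fun i => ?_) ?_ rfl
    · by_cases h2 : g - g.map (T.F : E →+* E) = 0
      · rw [h2, natDegree_zero]
        omega
      · rw [← hd]
        refine natDegree_lt_natDegree h2 (degree_sub_lt_left (degree_map _ _).symm hg.ne_zero ?_)
        rw [hg.leadingCoeff, (hg.map _).leadingCoeff]
    · rw [coeff_sub, coeff_map, RingHom.coe_coe, hF, map_sub, map_pow, hc]
    · have h3 : algebraMap C E t = (T.F : E →+* E) (algebraMap C E t) := (T.F.commutes t).symm
      rw [eval_sub, hg0, h3, eval_map_apply, hg0, map_zero, sub_zero]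
  have h4 : ∀ i, IsIntegral k (g.coeff i) := fun i => by
    have h5 := congrArg (fun u => u.coeff i) h1
    simp only [coeff_sub, coeff_map, RingHom.coe_coe, hF, coeff_zero] at h5
    refine ⟨X ^ T.Q - X, (monic_X_pow _).sub_of_left ?_, ?_⟩
    · rw [degree_X_pow, degree_X]
      exact_mod_cast (by omega : 1 < T.Q)
    · rw [eval₂_sub, eval₂_X_pow, eval₂_X, ← neg_sub, h5, neg_zero]
  have h6 : IsIntegral k (algebraMap C E t) :=
    IsIntegral.of_aeval_monic_of_isIntegral_coeff hg hn0 (hg0 ▸ isIntegral_zero) h4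
  exact (transcendental_algebraMap_iff (algebraMap C E).injective).mpr ht h6.isAlgebraic

/-- an element of `C` of order `Q - 1` (`HasEnoughRootsOfUnity`, or a generator of the units of the
field of roots of `X ^ Q - X`); `γ ω ^ Q = ω = ω ^ Q` gives `γ ω = ω`. If
`ω ^ q ^ i = ω ^ q ^ j`, `i < j < c`, then `Q - 1 ∣ q ^ j - q ^ i`, which is positive and less than
`Q - 1`. -/
theorem exists_omega (T : Tri k C θ) : ∃ ω : E, T.γ ω = ω ∧ ω ^ Nat.card k ^ T.c = ω ∧
    ∀ i < T.c, ∀ j < T.c, ω ^ Nat.card k ^ i = ω ^ Nat.card k ^ j → i = j := by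
  have hQ := T.two_le
  have hq : 2 ≤ Nat.card k := two_le_card
  have hz : ((T.Q - 1 : ℕ) : C) ≠ 0 := by
    have := Fintype.ofFinite k
    have h1 : ((Nat.card k : ℕ) : C) = 0 := by
      rw [← map_natCast (algebraMap k C), Nat.card_eq_fintype_card, FiniteField.cast_card_eq_zero,
        map_zero]
    rw [Nat.cast_sub (by omega), Tri.Q, Nat.cast_pow, h1, zero_pow T.c_pos.ne']
    simp
  have : NeZero ((T.Q - 1 : ℕ) : C) := ⟨hz⟩
  obtain ⟨ζ, hζ⟩ := HasEnoughRootsOfUnity.exists_primitiveRoot C (T.Q - 1)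
  have hω := hζ.map_of_injective (algebraMap C E).injective
  have h1 : algebraMap C E ζ ^ Nat.card k ^ T.c = algebraMap C E ζ := by
    have h2 : Nat.card k ^ T.c = T.Q - 1 + 1 := by rw [Nat.sub_add_cancel (by omega)]; rfl
    rw [h2, pow_succ, hω.pow_eq_one, one_mul]
  refine ⟨algebraMap C E ζ, ?_, h1, fun i hi j hj h => ?_⟩
  · have h9 : (G.frob k E ^ T.c) (T.γ (algebraMap C E ζ)) =
        (G.frob k E ^ T.c) (algebraMap C E ζ) := by
      rw [frob_pow_apply, frob_pow_apply, T.frob, h1]
    exact (G.frob k E ^ T.c : E →ₐ[k] E).injective h9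
  · have h0 : algebraMap C E ζ ≠ 0 := hω.ne_zero (by omega)
    have h3 : ∀ u < T.c, Nat.card k ^ u - 1 < T.Q - 1 ∧ 0 < Nat.card k ^ u := fun u hu => by
      have h4 : Nat.card k ^ u < T.Q := Nat.pow_lt_pow_right (by omega) hu
      have h5 : 0 < Nat.card k ^ u := by positivity
      omega
    have h6 : Nat.card k ^ i - 1 = Nat.card k ^ j - 1 := by
      refine hω.pow_inj (h3 i hi).1 (h3 j hj).1 (mul_right_cancel₀ h0 ?_)
      rw [← pow_succ, ← pow_succ, Nat.sub_add_cancel (h3 i hi).2, Nat.sub_add_cancel (h3 j hj).2, h]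
    have h7 := (h3 i hi).2
    have h8 := (h3 j hj).2
    exact Nat.pow_right_injective hq (show Nat.card k ^ i = Nat.card k ^ j by omega)

end Pool.Agent.Lib.MP_6adaea_nt.W
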