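import Pool.Agent.Lib.MP_6adaea_nt.W.S2D

/-!
The commutant of the motive.
-/

set_option linter.unusedSectionVars false

namespace Pool.Agent.Lib.MP_6adaea_nt.W
open Matrix Polynomial G U

variable {k Λ L : Type} [Field k] [Finite k] [Field Λ] [Field L] [Algebra k Λ] [Algebra Λ[X] L]
  [IsFractionRing Λ[X] L] {θ : Λ} {r : ℕ} {g : ℕ → Λ}

section ev
variable {E : Type} [Field E] [Algebra k E] [Algebra Λ E] [IsScalarTower k Λ E]

/-- the map `p ↦ ∑ j, coeff p j * (φ^j z) ^ q ^ i` -/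
noncomputable def S2E_lin (Λ : Type) [Field Λ] [Algebra Λ E] (φ : E →ₗ[k] E) (i : ℕ) (z : E) :
    Λ[X] →ₗ[Λ] E :=
  Polynomial.lsum fun j => LinearMap.toSpanSingleton Λ E ((frob k E ^ i) ((φ ^ j) z))

theorem S2E_lin_monomial (φ : E →ₗ[k] E) (i : ℕ) (z : E) (j : ℕ) (c : Λ) :
    S2E_lin Λ φ i z (monomial j c) = algebraMap Λ E c * (frob k E ^ i) ((φ ^ j) z) := by
  rw [S2E_lin, Polynomial.lsum_apply, Polynomial.sum_monomial_index _ _ (by simp),
    LinearMap.toSpanSingleton_apply, Algebra.smul_def]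

theorem S2E_lin_C (φ : E →ₗ[k] E) (i : ℕ) (z : E) (c : Λ) (p : Λ[X]) :
    S2E_lin Λ φ i z (C c * p) = algebraMap Λ E c * S2E_lin Λ φ i z p := by
  rw [← smul_eq_C_mul, map_smul, Algebra.smul_def]

theorem S2E_lin_X (φ : E →ₗ[k] E) (i : ℕ) (z : E) (p : Λ[X]) :
    S2E_lin Λ φ i z (X * p) = S2E_lin Λ φ i (φ z) p := by
  induction p using Polynomial.induction_on' with
  | add p q hp hq => rw [mul_add, map_add, map_add, hp, hq]
  | monomial j c =>
    rw [X_mul_monomial, S2E_lin_monomial, S2E_lin_monomial, pow_succ, Module.End.mul_apply]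

theorem S2E_lin_add (φ : E →ₗ[k] E) (i : ℕ) (z z' : E) (p : Λ[X]) :
    S2E_lin Λ φ i (z + z') p = S2E_lin Λ φ i z p + S2E_lin Λ φ i z' p := by
  induction p using Polynomial.induction_on' with
  | add p q hp hq => simp only [map_add, hp, hq]; ring
  | monomial j c => simp only [S2E_lin_monomial, map_add, mul_add]

theorem S2E_lin_smul (φ : E →ₗ[k] E) (i : ℕ) (c : k) (z : E) (p : Λ[X]) :
    S2E_lin Λ φ i (c • z) p = algebraMap k E c * S2E_lin Λ φ i z p := by
  induction p using Polynomial.induction_on' with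
  | add p q hp hq => simp only [map_add, hp, hq]; ring
  | monomial j c =>
    rw [S2E_lin_monomial, S2E_lin_monomial, map_smul, map_smul, Algebra.smul_def]; ring

theorem S2E_lin_aeval (φ : E →ₗ[k] E) (i : ℕ) (a : k[X]) (p : Λ[X]) (z : E) :
    S2E_lin Λ φ i z (a.map (algebraMap k Λ) * p) = S2E_lin Λ φ i (aeval φ a z) p := by
  induction a using Polynomial.induction_on generalizing z with
  | C c =>
    rw [map_C, S2E_lin_C, aeval_C, Module.algebraMap_end_apply, S2E_lin_smul,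
      ← IsScalarTower.algebraMap_apply]
  | add a b ha hb =>
    rw [Polynomial.map_add, add_mul, map_add, ha, hb, map_add, LinearMap.add_apply, S2E_lin_add]
  | monomial n c ih =>
    rw [pow_succ, ← mul_assoc, Polynomial.map_mul _ (q := X), map_X, mul_right_comm, mul_comm _ X,
      S2E_lin_X, ih, map_mul _ _ X, aeval_X, Module.End.mul_apply]

theorem S2E_lin_frob (φ : E →ₗ[k] E) (i : ℕ) (z : E) (p : Λ[X]) :
    S2E_lin Λ φ (i + 1) z (p.map (frob k Λ : Λ →+* Λ)) = frob k E (S2E_lin Λ φ i z p) := by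
  have h1 : ∀ c : Λ, algebraMap Λ E (frob k Λ c) = frob k E (algebraMap Λ E c) := fun c => by
    have a1 := frob_pow_apply (k := k) 1 c
    have a2 := frob_pow_apply (k := k) 1 (algebraMap Λ E c)
    rw [pow_one] at a1 a2
    rw [a1, a2, map_pow]
  induction p using Polynomial.induction_on' with
  | add p q hp hq => simp only [Polynomial.map_add, map_add, hp, hq]
  | monomial j c =>
    rw [Polynomial.map_monomial, S2E_lin_monomial, S2E_lin_monomial, map_mul, pow_succ',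
      AlgHom.mul_apply, RingHom.coe_coe, h1]

theorem S2E_lin_top (hr : 0 < r) (hg : g r = 1) {φ : E →ₗ[k] E}
    (hφ : IsDr (algebraMap Λ E θ) r (fun i => algebraMap Λ E (g i)) φ) (z : E) (p : Λ[X]) :
    ∑ j : Fin r, S2E_lin Λ φ j z
      (p * (C (g r)⁻¹ * (if (j : ℕ) = 0 then X - C θ else -C (g j)))) = S2E_lin Λ φ r z p := by
  obtain ⟨s, rfl⟩ : ∃ s, r = s + 1 := ⟨r - 1, by omega⟩
  rw [hg, inv_one, C_1, Fin.sum_univ_succ]
  simp only [Fin.val_zero, if_true, Fin.val_succ, Nat.succ_ne_zero, if_false, one_mul]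
  induction p using Polynomial.induction_on' with
  | add p q hp hq =>
    simp only [add_mul, map_add, Finset.sum_add_distrib]
    rw [← hp, ← hq]; ring
  | monomial n c =>
    have h1 := hφ ((φ ^ n) z)
    rw [Finset.sum_Icc_succ_top (by omega)] at h1
    beta_reduce at h1
    rw [hg, map_one, one_mul] at h1
    have h2 : ∑ i ∈ Finset.Icc 1 s, algebraMap Λ E (g i) * (φ ^ n) z ^ Nat.card k ^ i =
        ∑ i : Fin s, algebraMap Λ E (g (i + 1)) * (φ ^ n) z ^ Nat.card k ^ ((i : ℕ) + 1) := by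
      rw [Fin.sum_univ_eq_sum_range
        (fun i => algebraMap Λ E (g (i + 1)) * (φ ^ n) z ^ Nat.card k ^ (i + 1)) s,
        ← Finset.Ico_add_one_right_eq_Icc, Finset.sum_Ico_eq_sum_range]
      simp only [Nat.add_sub_cancel, add_comm 1]
    rw [h2] at h1
    have h3 : ∀ i : Fin s, S2E_lin Λ φ (i + 1) z (monomial n c * -C (g (i + 1))) =
        -(algebraMap Λ E c *
          (algebraMap Λ E (g (i + 1)) * (φ ^ n) z ^ Nat.card k ^ ((i : ℕ) + 1))) := fun i => by
      rw [mul_neg, map_neg, mul_comm, S2E_lin_C, S2E_lin_monomial, frob_pow_apply]; ring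
    simp only [h3, Finset.sum_neg_distrib, ← Finset.mul_sum]
    rw [mul_sub, map_sub, mul_comm _ X, mul_comm _ (C θ), X_mul_monomial, S2E_lin_C,
      S2E_lin_monomial, S2E_lin_monomial, S2E_lin_monomial, pow_succ' φ, Module.End.mul_apply, h1,
      frob_pow_apply, frob_pow_apply, frob_pow_apply]
    simp only [pow_zero, pow_one]
    ring

/-- the pairing of row vectors with points -/
noncomputable def S2E_ev (φ : E →ₗ[k] E) (x : Fin r → Λ[X]) (z : E) : E :=
  ∑ i : Fin r, S2E_lin Λ φ i z (x i)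

theorem S2E_ev_tp (hr : 0 < r) (hg : g r = 1) {φ : E →ₗ[k] E}
    (hφ : IsDr (algebraMap Λ E θ) r (fun i => algebraMap Λ E (g i)) φ) (x : Fin r → Λ[X]) (z : E) :
    S2E_ev φ (tp k θ r g x) z = frob k E (S2E_ev φ x z) := by
  simp only [S2E_ev, tp, vecMul, dotProduct, map_sum]
  rw [Finset.sum_comm]
  refine Finset.sum_congr rfl fun i _ => ?_
  rw [← S2E_lin_frob]
  by_cases h : (i : ℕ) + 1 = r
  · simp only [Phi, of_apply, if_pos h]
    rw [S2E_lin_top hr hg hφ, h]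
  · simp only [Phi, of_apply, if_neg h]
    rw [Finset.sum_eq_single (⟨i + 1, by omega⟩ : Fin r)]
    · simp
    · intro j _ hj
      rw [if_neg fun e => hj (Fin.ext e.symm), mul_zero, map_zero]
    · intro hj; exact absurd (Finset.mem_univ _) hj

theorem S2E_ev_iter (hr : 0 < r) (hg : g r = 1) {φ : E →ₗ[k] E}
    (hφ : IsDr (algebraMap Λ E θ) r (fun i => algebraMap Λ E (g i)) φ) (x : Fin r → Λ[X]) (z : E)
    (n : ℕ) : S2E_ev φ ((tp k θ r g)^[n] x) z = S2E_ev φ x z ^ Nat.card k ^ n := by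
  induction n with
  | zero => simp
  | succ n ih =>
    have a2 := frob_pow_apply (k := k) 1 (S2E_ev φ x z ^ Nat.card k ^ n)
    rw [pow_one] at a2
    rw [Function.iterate_succ_apply', S2E_ev_tp hr hg hφ, ih, a2, ← pow_mul, ← pow_add]

theorem S2E_ev_sum (hr : 0 < r) (hg : g r = 1) {φ : E →ₗ[k] E}
    (hφ : IsDr (algebraMap Λ E θ) r (fun i => algebraMap Λ E (g i)) φ) (x : Fin r → Λ[X]) (z : E)
    (m : ℕ) (u : ℕ → Λ) : S2E_ev φ (∑ i ∈ Finset.range m, C (u i) • (tp k θ r g)^[i] x) z =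
      ∑ i ∈ Finset.range m, algebraMap Λ E (u i) * S2E_ev φ x z ^ Nat.card k ^ i := by
  simp only [← S2E_ev_iter hr hg hφ]
  simp only [S2E_ev, Finset.sum_apply, map_sum, Pi.smul_apply, smul_eq_mul, S2E_lin_C,
    Finset.mul_sum]
  exact Finset.sum_comm

theorem S2E_ev_e0 (hr : 0 < r) (φ : E →ₗ[k] E) (z : E) :
    S2E_ev φ (Pi.single ⟨0, hr⟩ 1 : Fin r → Λ[X]) z = z := by
  rw [S2E_ev, Finset.sum_eq_single (⟨0, hr⟩ : Fin r)]
  · rw [Pi.single_eq_same, ← C_1, ← monomial_zero_left, S2E_lin_monomial]; simp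
  · intro j _ hj
    rw [Pi.single_eq_of_ne hj, map_zero]
  · intro hj; exact absurd (Finset.mem_univ _) hj

theorem S2E_ev_X (φ : E →ₗ[k] E) (x : Fin r → Λ[X]) (z : E) :
    S2E_ev φ ((X : Λ[X]) • x) z = S2E_ev φ x (φ z) := by
  simp only [S2E_ev, Pi.smul_apply, smul_eq_mul, S2E_lin_X]

theorem S2E_ev_aeval (φ : E →ₗ[k] E) (a : k[X]) (x : Fin r → Λ[X]) (z : E) :
    S2E_ev φ (a.map (algebraMap k Λ) • x) z = S2E_ev φ x (aeval φ a z) := by
  simp only [S2E_ev, Pi.smul_apply, smul_eq_mul, S2E_lin_aeval]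

theorem S2E_ev_sub (φ : E →ₗ[k] E) (x y : Fin r → Λ[X]) (z : E) :
    S2E_ev φ (x - y) z = S2E_ev φ x z - S2E_ev φ y z := by
  simp only [S2E_ev, Pi.sub_apply, map_sub, Finset.sum_sub_distrib]

theorem S2E_ev_inj [Infinite E] (hr : 0 < r) (hg : g r = 1) {φ : E →ₗ[k] E}
    (hφ : IsDr (algebraMap Λ E θ) r (fun i => algebraMap Λ E (g i)) φ) {x : Fin r → Λ[X]}
    (h : ∀ z, S2E_ev φ x z = 0) : x = 0 := by
  obtain ⟨m, u, rfl⟩ := exists_tp_sum (k := k) (θ := θ) (g := g) hr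
    (by rw [hg]; exact one_ne_zero) x
  simp only [S2E_ev_sum hr hg hφ, S2E_ev_e0] at h
  have h1 : (∑ i ∈ Finset.range m, monomial (Nat.card k ^ i) (algebraMap Λ E (u i)) : E[X]) = 0 :=
    Polynomial.funext fun z => by
      simp only [eval_finsetSum, eval_monomial, eval_zero, h]
  refine Finset.sum_eq_zero fun i hi => ?_
  have h2 := congrArg (fun p : E[X] => p.coeff (Nat.card k ^ i)) h1
  simp only [finsetSum_coeff, coeff_monomial, coeff_zero,
    (Nat.pow_right_injective (two_le_card (K := k))).eq_iff, Finset.sum_ite_eq', if_pos hi] at h2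
  rw [(algebraMap Λ E).injective (h2.trans (map_zero _).symm), C_0, zero_smul]

end ev

theorem S2E_tp_vecMul (A : Matrix (Fin r) (Fin r) Λ[X])
    (hA : pmap (frob k Λ : Λ →+* Λ) A * Phi θ r g = Phi θ r g * A) (x : Fin r → Λ[X]) (n : ℕ) :
    (tp k θ r g)^[n] x ᵥ* A = (tp k θ r g)^[n] (x ᵥ* A) := by
  induction n with
  | zero => rfl
  | succ n ih =>
    rw [Function.iterate_succ_apply', Function.iterate_succ_apply', ← ih, tp, tp, vecMul_vecMul,
      ← hA, ← vecMul_vecMul]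
    congr 1
    funext i
    exact ((mapRingHom (frob k Λ : Λ →+* Λ)).map_vecMul A _ i).symm

/-- Put `ev x z = ∑ i, ∑ j, coeff (x i) j * (φ^j z) ^ q ^ i`, additive in `x`, with
`ev (C c • x) = c * ev x`, `ev (X • x) z = ev x (φ z)`, `ev (tp x) z = (ev x z) ^ q` (uses `IsDr`,
`g r = 1`), `ev e_0 = id`. By `exists_tp_sum` every `ev x` is an additive polynomial
`∑ u i * z ^ q ^ i`, and `ev x = 0` implies `x = 0` (`E` is infinite). Since `(tp x) ᵥ* A = tp (x ᵥ* A)`,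
`ev (x ᵥ* A) z = ev x (u z)` with `u = ev (e_0 ᵥ* A)`. For `x = X • e_0` this says `u ∘ φ = φ ∘ u`. So
`u = aeval φ a` and `ev (x ᵥ* A) = ev (a • x)`. -/
theorem comm_poly {E : Type} [Field E] [Infinite E] [Algebra k E] [Algebra Λ E]
    [IsScalarTower k Λ E] (hr : 0 < r) (hg : g r = 1) {φ : E →ₗ[k] E}
    (hφ : IsDr (algebraMap Λ E θ) r (fun i => algebraMap Λ E (g i)) φ) (hE : EndA φ)
    (A : Matrix (Fin r) (Fin r) Λ[X])
    (hA : pmap (frob k Λ : Λ →+* Λ) A * Phi θ r g = Phi θ r g * A) :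
    ∃ a : k[X], A = a.map (algebraMap k Λ) • (1 : Matrix (Fin r) (Fin r) Λ[X]) := by
  have hg' : g r ≠ 0 := by rw [hg]; exact one_ne_zero
  have key : ∀ (x : Fin r → Λ[X]) (z : E),
      S2E_ev φ (x ᵥ* A) z = S2E_ev φ x (S2E_ev φ (Pi.single ⟨0, hr⟩ 1 ᵥ* A) z) := fun x z => by
    obtain ⟨m, u, rfl⟩ := exists_tp_sum (k := k) (θ := θ) hr hg' x
    rw [sum_vecMul]
    simp only [smul_vecMul, S2E_tp_vecMul A hA]
    rw [S2E_ev_sum hr hg hφ, S2E_ev_sum hr hg hφ, S2E_ev_e0]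
  obtain ⟨m, u, hu⟩ := exists_tp_sum (k := k) (θ := θ) hr hg' (Pi.single ⟨0, hr⟩ 1 ᵥ* A)
  have hU : ∀ z : E, S2E_ev φ (Pi.single ⟨0, hr⟩ 1 ᵥ* A) z =
      ∑ i ∈ Finset.range m, algebraMap Λ E (u i) * z ^ Nat.card k ^ i := fun z => by
    rw [hu, S2E_ev_sum hr hg hφ, S2E_ev_e0]
  obtain ⟨a, ha⟩ := hE m (fun i => algebraMap Λ E (u i)) fun z => by
    have := key ((X : Λ[X]) • Pi.single ⟨0, hr⟩ 1) z
    rw [smul_vecMul, S2E_ev_X, S2E_ev_X, S2E_ev_e0, hU, hU] at this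
    exact this
  refine ⟨a, ?_⟩
  have h1 : ∀ x : Fin r → Λ[X], x ᵥ* A - a.map (algebraMap k Λ) • x = 0 := fun x =>
    S2E_ev_inj hr hg hφ fun z => by
      rw [S2E_ev_sub, key, S2E_ev_aeval, hU, ha, sub_self]
  refine Matrix.ext fun i j => ?_
  have h2 := congrFun (sub_eq_zero.1 (h1 (Pi.single i 1))) j
  rw [single_one_vecMul] at h2
  rw [Matrix.smul_apply, Matrix.one_apply]
  simpa [Pi.single_apply, eq_comm] using h2

/-- with monic cofactors of degree one `(X - θ) d = d' (X - a)`, `(X - θ) d' = d (X - b)`, so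
`(X - θ) ^ 2 = (X - a) (X - b)` and `a = θ` -/
theorem eq_of_dvd {d d' : Λ[X]} (hd : d.Monic) (hd' : d'.Monic) (h : d.natDegree = d'.natDegree)
    (h1 : d' ∣ (X - C θ) * d) (h2 : d ∣ (X - C θ) * d') : d' = d := by
  obtain ⟨e, he⟩ := h1
  obtain ⟨e', he'⟩ := h2
  have hm : e.Monic := hd'.of_mul_monic_left (he ▸ (monic_X_sub_C θ).mul hd)
  have hn : e.natDegree = 1 := by
    have := congrArg natDegree he
    rw [(monic_X_sub_C θ).natDegree_mul hd, hd'.natDegree_mul hm, natDegree_X_sub_C] at this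
    omega
  have h3 : (X - C θ) * (X - C θ) = e' * e := by
    apply mul_right_cancel₀ hd.ne_zero
    linear_combination (X - C θ) * he + e * he'
  have h4 := hm.eq_X_add_C hn
  have h5 := congrArg (eval (-e.coeff 0)) h3
  have h6 : e.eval (-e.coeff 0) = 0 := by
    conv_lhs => rw [h4]
    simp
  rw [eval_mul, eval_mul, h6, mul_zero, mul_self_eq_zero, eval_sub, eval_X, eval_C,
    sub_eq_zero] at h5
  have h7 : e = X - C θ := by rw [h4, ← h5, C_neg, sub_neg_eq_add]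
  rw [h7, mul_comm d'] at he
  exact (mul_left_cancel₀ (X_sub_C_ne_zero θ) he).symm

/-- the denominators of a matrix -/
def S2E_den (Λ : Type) [Field Λ] [Algebra Λ[X] L] (B : Matrix (Fin r) (Fin r) L) :
    Ideal Λ[X] where
  carrier := {d | ∃ M : Matrix (Fin r) (Fin r) Λ[X],
    M.map (algebraMap Λ[X] L) = algebraMap Λ[X] L d • B}
  zero_mem' := ⟨0, by simp⟩
  add_mem' := fun ⟨M, h⟩ ⟨M', h'⟩ => ⟨M + M', by
    rw [Matrix.map_add _ (map_add _), h, h', map_add, add_smul]⟩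
  smul_mem' := fun c _ ⟨M, h⟩ => ⟨c • M, by
    rw [smul_eq_mul, map_mul, mul_smul, ← h]
    ext i j
    simp⟩

theorem S2E_den_gen (B : Matrix (Fin r) (Fin r) L) :
    ∃ d : Λ[X], d.Monic ∧ ∀ e, e ∈ S2E_den Λ B ↔ d ∣ e := by
  classical
  obtain ⟨b, hb⟩ := IsLocalization.exist_integer_multiples_of_finite (nonZeroDivisors Λ[X])
    (fun ij : Fin r × Fin r => B ij.1 ij.2)
  choose M hM using hb
  have h1 : (b : Λ[X]) ∈ S2E_den Λ B := ⟨Matrix.of fun i j => M (i, j), by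
    ext i j
    simp [hM, Algebra.smul_def]⟩
  obtain ⟨d, hd⟩ := (IsPrincipalIdealRing.principal (S2E_den Λ B)).principal
  have h2 : ∀ e, e ∈ S2E_den Λ B ↔ d ∣ e := fun e => by
    rw [hd]; exact Ideal.mem_span_singleton
  have h3 : d ≠ 0 := fun e =>
    nonZeroDivisors.coe_ne_zero b (by simpa [e] using (h2 _).1 h1)
  exact ⟨normalize d, monic_normalize h3, fun e => by rw [h2, normalize_dvd_iff]⟩

theorem S2E_pmap (σ : L →+* L)
    (hσ : ∀ f : Λ[X], σ (algebraMap _ L f) = algebraMap _ L (f.map (frob k Λ : Λ →+* Λ)))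
    (M : Matrix (Fin r) (Fin r) Λ[X]) :
    (pmap (frob k Λ : Λ →+* Λ) M).map (algebraMap Λ[X] L) = (M.map (algebraMap Λ[X] L)).map σ := by
  ext i j
  simp only [pmap, Matrix.map_apply, hσ]

theorem S2E_rw (σ : L →+* L) (P Q : Matrix (Fin r) (Fin r) L) (y : Fin r → L) :
    rw σ Q (y ᵥ* P) = (fun j => σ (y j)) ᵥ* (P.map σ * Q) := by
  rw [← vecMul_vecMul, W.rw]
  congr 1
  funext i
  exact σ.map_vecMul P y i

/-- Let `A` be given by the matrix `B` (`x ↦ x ᵥ* B`), so `B.map σ * Φ = Φ * B`. The `d` with `d • B`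
polynomial form a nonzero ideal with monic generator `d`; for `B.map σ` the generator is the twist
`d'` (Frobenius is bijective on `Λ`). With `Φ' * Φ = (X - θ) • 1 = Φ * Φ'` (`Phit_inv` for `c = 1`)
one gets the hypotheses of `eq_of_dvd`. So `d' = d`, `B0 = d • B` satisfies the hypothesis of
`comm_poly`, and `B = (a / d) • 1`. -/
theorem comm_tau {E : Type} [Field E] [Infinite E] [Algebra k E] [Algebra Λ E]
    [IsScalarTower k Λ E] (hr : 0 < r) (hg : g r = 1) {φ : E →ₗ[k] E}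
    (hφ : IsDr (algebraMap Λ E θ) r (fun i => algebraMap Λ E (g i)) φ) (hE : EndA φ)
    (hΛ : Function.Surjective (frob k Λ)) (σ : L →+* L)
    (hσ : ∀ f : Λ[X], σ (algebraMap _ L f) = algebraMap _ L (f.map (frob k Λ : Λ →+* Λ)))
    (A : (Fin r → L) →ₗ[L] (Fin r → L))
    (hA : ∀ x, A (rw σ ((Phi θ r g).map (algebraMap Λ[X] L)) x) =
      rw σ ((Phi θ r g).map (algebraMap Λ[X] L)) (A x)) : ∃ a : L, A = a • LinearMap.id := by
  have hg' : g r ≠ 0 := by rw [hg]; exact one_ne_zero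
  have inj : Function.Injective (algebraMap Λ[X] L) := IsFractionRing.injective _ _
  obtain ⟨B, hB⟩ : ∃ B : Matrix (Fin r) (Fin r) L, ∀ x, A x = x ᵥ* B := by
    obtain ⟨B, rfl⟩ := (Matrix.toLinearMapRight' (R := L)).surjective A
    exact ⟨B, fun _ => rfl⟩
  set Φ := (Phi θ r g).map (algebraMap Λ[X] L) with hΦ
  have h1 : B.map σ * Φ = Φ * B := by
    refine Matrix.ext fun i j => ?_
    have := hA (Pi.single i 1)
    rw [hB, hB, S2E_rw, W.rw, vecMul_vecMul] at this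
    have e : (fun j => σ ((Pi.single i 1 : Fin r → L) j)) = Pi.single i 1 := by
      funext j
      simp [Pi.single_apply, apply_ite σ]
    rw [e, single_one_vecMul, single_one_vecMul] at this
    exact (congrFun this j).symm
  obtain ⟨P, -, hP⟩ := Phit_inv (k := k) (θ := θ) hg' 1
  have hP1 : P * Phi θ r g = (X - C θ : Λ[X]) • (1 : Matrix (Fin r) (Fin r) Λ[X]) := by
    have e : pmap (frob k Λ : Λ →+* Λ) (1 : Matrix (Fin r) (Fin r) Λ[X]) = 1 :=
      Matrix.map_one _ (Polynomial.map_zero _) (Polynomial.map_one _)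
    simpa [Phit, e] using hP
  set c := algebraMap Λ[X] L (X - C θ) with hc
  have hc0 : c ≠ 0 := (map_ne_zero_iff _ inj).2 (X_sub_C_ne_zero θ)
  have hP2 : P.map (algebraMap Λ[X] L) * Φ = c • 1 := by
    rw [hΦ, ← Matrix.map_mul, hP1]
    ext i j
    simp [Matrix.one_apply, apply_ite (algebraMap Λ[X] L), hc]
  have hP3 : Φ * P.map (algebraMap Λ[X] L) = c • 1 := by
    have e : (c⁻¹ • P.map (algebraMap Λ[X] L)) * Φ = 1 := by
      rw [Matrix.smul_mul, hP2, smul_smul, inv_mul_cancel₀ hc0, one_smul]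
    have e' := mul_eq_one_comm.1 e
    rw [← e', Matrix.mul_smul, smul_smul, mul_inv_cancel₀ hc0, one_smul]
  obtain ⟨d, hd, hd'⟩ := S2E_den_gen (Λ := Λ) B
  obtain ⟨M, hM⟩ := (hd' d).2 dvd_rfl
  have hs : ∀ e : Λ[X], (algebraMap Λ[X] L e • B).map σ =
      algebraMap Λ[X] L (e.map (frob k Λ : Λ →+* Λ)) • B.map σ := fun e => by
    ext i j
    simp only [Matrix.map_apply, Matrix.smul_apply, smul_eq_mul, map_mul, hσ]
  have hM' : (pmap (frob k Λ : Λ →+* Λ) M).map (algebraMap Λ[X] L) =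
      algebraMap Λ[X] L (d.map (frob k Λ : Λ →+* Λ)) • B.map σ := by
    rw [S2E_pmap σ hσ, hM, hs]
  have h2 : ∀ e, e ∈ S2E_den Λ (B.map σ) → d.map (frob k Λ : Λ →+* Λ) ∣ e := by
    rintro e ⟨N, hN⟩
    have sj : Function.Surjective (Polynomial.map (frob k Λ : Λ →+* Λ)) :=
      Polynomial.map_surjective _ hΛ
    obtain ⟨e, rfl⟩ := sj e
    choose f hf using sj
    refine Polynomial.map_dvd _ ((hd' e).1 ⟨N.map f, ?_⟩)
    apply Matrix.map_injective σ.injective
    beta_reduce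
    rw [hs, ← hN]
    ext i j
    simp only [Matrix.map_apply, hσ, hf]
  have h3 : d.map (frob k Λ : Λ →+* Λ) = d := by
    refine eq_of_dvd (θ := θ) hd (hd.map _) (natDegree_map _).symm (h2 _ ⟨Phi θ r g * M * P, ?_⟩)
      ((hd' _).1 ⟨P * pmap (frob k Λ : Λ →+* Λ) M * Phi θ r g, ?_⟩)
    · rw [Matrix.map_mul, Matrix.map_mul, hM, ← hΦ, Matrix.mul_smul, ← h1, Matrix.smul_mul,
        Matrix.mul_assoc, hP3, Matrix.mul_smul, Matrix.mul_one, smul_smul, map_mul, mul_comm]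
    · rw [Matrix.map_mul, Matrix.map_mul, hM', ← hΦ, Matrix.mul_smul, Matrix.smul_mul,
        Matrix.mul_assoc, h1, ← Matrix.mul_assoc, hP2, Matrix.smul_mul, Matrix.one_mul, smul_smul,
        map_mul, mul_comm]
  obtain ⟨a, ha⟩ := comm_poly hr hg hφ hE M (by
    apply Matrix.map_injective inj
    beta_reduce
    rw [Matrix.map_mul, Matrix.map_mul, hM', hM, h3, ← hΦ, Matrix.smul_mul, h1, Matrix.mul_smul])
  have hd0 : algebraMap Λ[X] L d ≠ 0 := (map_ne_zero_iff _ inj).2 hd.ne_zero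
  refine ⟨(algebraMap Λ[X] L d)⁻¹ * algebraMap Λ[X] L (a.map (algebraMap k Λ)),
    LinearMap.ext fun x => ?_⟩
  have h4 : B = ((algebraMap Λ[X] L d)⁻¹ * algebraMap Λ[X] L (a.map (algebraMap k Λ))) • 1 := by
    rw [mul_smul, eq_inv_smul_iff₀ hd0, ← hM, ha]
    ext i j
    simp [Matrix.one_apply, apply_ite (algebraMap Λ[X] L)]
  rw [hB, h4, vecMul_smul, vecMul_one, LinearMap.smul_apply, LinearMap.id_apply]

/-- induction on `c` -/
theorem rw_iterate (σ : L →+* L)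
    (hσ : ∀ f : Λ[X], σ (algebraMap _ L f) = algebraMap _ L (f.map (frob k Λ : Λ →+* Λ)))
    (c : ℕ) (x : Fin r → L) : (rw σ ((Phi θ r g).map (algebraMap Λ[X] L)))^[c] x =
      rw σ^[c] ((Phit k θ r g c).map (algebraMap Λ[X] L)) x := by
  induction c with
  | zero =>
    rw [Phit, Matrix.map_one _ (map_zero _) (map_one _), W.rw, vecMul_one]
    rfl
  | succ c ih =>
    rw [Function.iterate_succ_apply', ih]
    refine (S2E_rw σ _ _ _).trans ?_
    rw [Phit, Matrix.map_mul, S2E_pmap σ hσ, W.rw]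
    simp only [Function.iterate_succ_apply']

end Pool.Agent.Lib.MP_6adaea_nt.W
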