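import Pool.Agent.Lib.MP_6adaea_nt.W.Defs
import Pool.Agent.Lib.MP_6adaea_nt.U.Psi

/-!
The Frobenius matrix at a constant point.
-/

set_option linter.unusedSectionVars false

namespace Pool.Agent.Lib.MP_6adaea_nt.W
open Matrix Polynomial G U

variable {k C E : Type} [Field k] [Finite k] [Field C] [Field E] [Algebra k C] [Algebra k E]
  [Algebra C E] [IsScalarTower k C E] [IsAlgClosed C] [IsAlgClosed E] {θ : E} {r : ℕ} {g : ℕ → E}

theorem S2F_Phi_map {K K' : Type} [Field K] [Field K'] (f : K →+* K') (θ : K) (g : ℕ → K) :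
    pmap f (Phi θ r g) = Phi (f θ) r fun i => f (g i) := by
  ext1 i j
  simp only [pmap, Phi, Matrix.map_apply, of_apply]
  split_ifs <;> simp

theorem S2F_congr {K : Type} [Field K] [Algebra k K] (θ : K) {g g' : ℕ → K}
    (h : ∀ i ≤ r, g i = g' i) (c : ℕ) : Phit k θ r g c = Phit k θ r g' c := by
  have h1 : Phi θ r g = Phi θ r g' := by
    ext1 i j
    simp only [Phi, of_apply, h r le_rfl, h j j.2.le]
  induction c with
  | zero => rfl
  | succ c ih => rw [Phit, Phit, ih, h1]

theorem Phit_map {K K' : Type} [Field K] [Field K'] [Algebra k K] [Algebra k K'] (f : K →ₐ[k] K')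
    (θ : K) (g : ℕ → K) (c : ℕ) :
    pmap (f : K →+* K') (Phit k θ r g c) = Phit k (f θ) r (fun i => f (g i)) c := by
  induction c with
  | zero => exact pmap_one _
  | succ c ih =>
    have h1 : (f : K →+* K').comp (frob k K : K →+* K) =
        (frob k K' : K' →+* K').comp (f : K →+* K') := by
      ext x
      have h2 := frob_pow_apply (k := k) 1 x
      have h3 := frob_pow_apply (k := k) 1 (f x)
      rw [pow_one] at h2 h3
      change f (frob k K x) = frob k K' (f x)
      rw [h2, h3, map_pow]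
    rw [Phit, Phit, pmap_mul, pmap_pmap, h1, ← pmap_pmap, ih, S2F_Phi_map]
    rfl

theorem s2f_Phit_add {K : Type} [Field K] [Algebra k K] (θ : K) (g : ℕ → K) (a b : ℕ) :
    Phit k θ r g (a + b) =
      pmap ((frob k K ^ b : K →ₐ[k] K) : K →+* K) (Phit k θ r g a) * Phit k θ r g b := by
  induction b with
  | zero =>
    rw [add_zero, Phit, mul_one, pow_zero]
    exact (pmap_id _).symm
  | succ b ih =>
    rw [← add_assoc, Phit, Phit, ih, pmap_mul, pmap_pmap, mul_assoc, pow_succ']
    rfl

theorem S2F_step (T : Tri k C θ) (hg : ∀ i, T.γ (g i) = g i) (t : C) (n : ℕ) :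
    (Phit k θ r g (n + T.c)).map (eval (algebraMap C E t)) =
      ((Phit k θ r g n).map (eval (algebraMap C E t))).map (T.F : E →+* E) * T.Ph r g t := by
  have h1 : pmap ((T.γ : E →ₐ[k] E) : E →+* E) (Phit k θ r g n) = Phit k θ r g n := by
    rw [Phit_map]
    congr 1
    · exact T.fix
    · exact funext hg
  have h2 : pmap ((frob k E ^ T.c : E →ₐ[k] E) : E →+* E) (Phit k θ r g n) =
      pmap (T.F : E →+* E) (Phit k θ r g n) := by
    conv_lhs => rw [← h1, pmap_pmap]
    rfl
  rw [s2f_Phit_add, h2]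
  refine (Matrix.map_mul (f := evalRingHom (algebraMap C E t))).trans ?_
  congr 1
  ext i j
  have h3 : (T.F : E →+* E) (algebraMap C E t) = algebraMap C E t := T.F.commutes t
  have h4 := eval_map_apply (p := Phit k θ r g n i j) (T.F : E →+* E) (algebraMap C E t)
  rw [h3] at h4
  exact h4

/-- by `Phit_map` for `γ` the coefficients of `Phit` are fixed by `γ`, so `F` acts on the values at
`t` as the twist by `frob ^ c`; induction with `s2f_Phit_add` and `F_pow` -/
theorem rw_pow (T : Tri k C θ) (hg : ∀ i, T.γ (g i) = g i) (t : C) (j : ℕ) (x : Fin r → E) :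
    (rw T.F (T.Ph r g t))^[j + 1] x = rw (T.pow j).F ((T.pow j).Ph r g t) x := by
  induction j with
  | zero =>
    have h1 : (T.pow 0).Ph r g t = T.Ph r g t := by simp [Tri.Ph, Tri.pow]
    rw [h1]
    simp only [zero_add, Function.iterate_one, W.rw, T.F_pow]
  | succ j ih =>
    have h1 : (T.pow (j + 1)).Ph r g t =
        ((T.pow j).Ph r g t).map (T.F : E →+* E) * T.Ph r g t := S2F_step T hg t _
    rw [Function.iterate_succ_apply', ih, h1]
    simp only [W.rw]
    rw [← vecMul_vecMul]
    congr 1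
    funext i
    refine ((T.F : E →+* E).map_vecMul _ _ i).trans ?_
    congr 1
    funext l
    rw [T.F_pow, Function.iterate_succ_apply', ← T.F_pow]
    rfl

/-- `Phit_inv`; `t ≠ θ ^ q ^ i` because `θ` is transcendental over `C` -/
theorem Ph_det (T : Tri k C θ) (hg : g r ≠ 0) (t : C) : (T.Ph r g t).det ≠ 0 := by
  obtain ⟨A, -, h⟩ := Phit_inv (k := k) (θ := θ) hg T.c
  have h1 := congrArg (fun B => eval (algebraMap C E t) B.det) h
  simp only [det_mul, det_smul, det_one, mul_one, eval_mul, eval_pow, eval_prod, eval_sub, eval_X,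
    eval_C] at h1
  have h2 : eval (algebraMap C E t) (Phit k θ r g T.c).det = (T.Ph r g t).det :=
    (evalRingHom (algebraMap C E t)).map_det _
  intro h0
  rw [h2, h0, mul_zero] at h1
  obtain ⟨i, -, hi⟩ := Finset.prod_eq_zero_iff.1 (eq_zero_of_pow_eq_zero h1.symm)
  refine (T.tr.pow (n := Nat.card k ^ i) (pow_pos Nat.card_pos _)) ?_
  rw [← sub_eq_zero.1 hi]
  exact isAlgebraic_algebraMap t

/-- the coefficients of the entries of `Phit` lie in `M` (induction on `c`) -/
theorem Ph_mem (T : Tri k C θ) (t : C) (M : IntermediateField C E) (hθ : θ ∈ M)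
    (hg : ∀ i ≤ r, g i ∈ M) (i j : Fin r) : T.Ph r g t i j ∈ M := by
  have : IsScalarTower k M E := IsScalarTower.of_algebraMap_eq fun _ => rfl
  let g' : ℕ → M := fun i => if h : i ≤ r then ⟨g i, hg i h⟩ else 0
  have h1 := Phit_map (r := r) (IsScalarTower.toAlgHom k M E) ⟨θ, hθ⟩ g' T.c
  have h2 : Phit k θ r g T.c =
      Phit k θ r (fun i => IsScalarTower.toAlgHom k M E (g' i)) T.c :=
    S2F_congr θ (fun i hi => by simp only [g', dif_pos hi]; rfl) _
  have h3 := eval_map_apply (p := Phit k (⟨θ, hθ⟩ : M) r g' T.c i j) (algebraMap M E)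
    (algebraMap C M t)
  have h4 : T.Ph r g t i j = algebraMap M E
      (eval (algebraMap C M t) (Phit k (⟨θ, hθ⟩ : M) r g' T.c i j)) := by
    rw [← h3, Tri.Ph, h2]
    exact congrArg (eval _) (congrFun (congrFun h1 i) j).symm
  rw [h4]
  exact Subtype.property _

end Pool.Agent.Lib.MP_6adaea_nt.W
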