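import Pool.Agent.Lib.MP_6adaea_nt.W.S2B
import Pool.Agent.Lib.MP_6adaea_nt.W.S2C
import Pool.Agent.Lib.MP_6adaea_nt.W.S2E
import Pool.Agent.Lib.MP_6adaea_nt.W.S2F

/-!
Simplicity of the motive over the big field (helper82).
-/

set_option linter.unusedSectionVars false

namespace Pool.Agent.Lib.MP_6adaea_nt.W
open Matrix Polynomial G U

variable {k C E : Type} [Field k] [Finite k] [Field C] [Field E] [Algebra k C] [Algebra k E]
  [Algebra C E] [IsScalarTower k C E] [IsAlgClosed C] [IsAlgClosed E] {θ : E} {r : ℕ} {g : ℕ → E}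

/-- the elements fixed by `γ` -/
def Tri.fixF (T : Tri k C θ) : IntermediateField k E :=
  (AlgHom.equalizer (T.γ : E →ₐ[k] E) (AlgHom.id k E)).toIntermediateField fun x hx => by
    change T.γ x⁻¹ = x⁻¹
    rw [map_inv₀, show T.γ x = x from hx]

lemma exists_comb (T : Tri k C θ) (hD : T.Dr r g) (t : C) (W : Submodule E (Fin r → E))
    (hW : ∀ x ∈ W, rw T.F (T.Ph r g t) x ∈ W) (h0 : W ≠ ⊥) :
    ∃ w ∈ W, w ≠ 0 ∧ ∀ i, w i ∈ Submodule.span C {m : E | T.γ m = m} := by
  obtain ⟨S, hS, ⟨w, hw, h1, h2⟩, h3⟩ := echelon (T.F : E →+* E) _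
    (Ph_det T (hD.one ▸ one_ne_zero) t) W hW h0
  set M := IntermediateField.adjoin C ({θ} ∪ T.γ '' (S ∪ g '' Set.Iic r)) with hM
  have hg : ∀ i ≤ r, g i ∈ M := fun i hi =>
    IntermediateField.subset_adjoin _ _ (Or.inr ⟨g i, Or.inr ⟨i, hi, rfl⟩, hD.fix i⟩)
  have h4 := h3 M.toSubfield (fun z hz => by
    change T.F z ∈ M
    rw [T.F_apply]
    have : T.γ z ∈ M := IntermediateField.subset_adjoin _ _ (Or.inr ⟨z, Or.inl hz, rfl⟩)
    exact pow_mem this _)
    (Ph_mem T t M (IntermediateField.subset_adjoin _ _ (Or.inl rfl)) hg)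
  choose b hb hb' using fun i => descent T (S ∪ g '' Set.Iic r)
    (hS.union ((Set.finite_Iic r).image g)) (by
      rintro z (hz | ⟨i, hi, rfl⟩)
      exacts [h4 z hz, hg i hi]) (w i) (Or.inl (h2 i))
  have h5 : ∀ (a : C[X]) (y : E), y ∈ Submodule.span C {m : E | T.γ m = m} →
      aeval θ a * y ∈ Submodule.span C {m : E | T.γ m = m} := by
    intro a y hy
    induction hy using Submodule.span_induction with
    | mem y hy =>
      rw [aeval_eq_sum_range, Finset.sum_mul]
      refine Submodule.sum_mem _ fun i _ => ?_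
      rw [smul_mul_assoc]
      refine Submodule.smul_mem _ _ (Submodule.subset_span ?_)
      change T.γ _ = _
      rw [map_mul, map_pow, T.fix, show T.γ y = y from hy]
    | zero => simp
    | add y z _ _ hy hz => rw [mul_add]; exact add_mem hy hz
    | smul c y _ hy => rw [mul_smul_comm]; exact Submodule.smul_mem _ _ hy
  refine ⟨aeval θ (∏ i, b i) • w, W.smul_mem _ hw, smul_ne_zero (fun h => ?_) h1, fun i => ?_⟩
  · exact T.tr ⟨_, Finset.prod_ne_zero_iff.2 fun i _ => hb i, h⟩
  · rw [Pi.smul_apply, smul_eq_mul, ← Finset.prod_erase_mul _ _ (Finset.mem_univ i), map_mul,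
      mul_assoc]
    exact h5 _ _ (hb' i)

lemma s2_one (T : Tri k C θ) (hr : 0 < r) (hD : T.Dr r g) {t : C} (ht : Transcendental k t)
    (Λ L : Type) [Field Λ] [Field L] [Algebra k Λ] [Algebra Λ E] [IsScalarTower k Λ E]
    [Algebra (Polynomial Λ) L] [IsFractionRing (Polynomial Λ) L]
    (hΛ : ∀ x, T.γ x = x ↔ ∃ y, algebraMap Λ E y = x)
    (W : Submodule E (Fin r → E)) (hW : ∀ x ∈ W, rw T.F (T.Ph r g t) x ∈ W) : W = ⊥ ∨ W = ⊤ := by
  refine or_iff_not_imp_left.2 fun h0 => ?_
  obtain ⟨w, hw, h1, h2⟩ := exists_comb T hD t W hW h0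
  obtain ⟨φ, hφ, hE⟩ := hD.endA
  obtain ⟨θ', hθ'⟩ := (hΛ θ).1 T.fix
  choose g' hg' using fun i => (hΛ (g i)).1 (hD.fix i)
  have hi := (algebraMap Λ E).injective
  have hg : g' r = 1 := hi (by rw [hg', hD.one, map_one])
  have hfr : ∀ {A : Type} [Field A] [Algebra k A] (z : A), G.frob k A z = z ^ Nat.card k :=
    fun z => by simpa using frob_pow_apply (k := k) 1 z
  have hsur : Function.Surjective (G.frob k Λ) := fun x => by
    obtain ⟨y, hy⟩ := IsAlgClosed.exists_pow_nat_eq (algebraMap Λ E x) (n := Nat.card k)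
      Nat.card_pos
    obtain ⟨z, rfl⟩ := (hΛ y).1 ((G.frob k E).injective (by
      change G.frob k E _ = G.frob k E _
      rw [hfr, hfr, ← map_pow, hy]
      exact (hΛ _).2 ⟨x, rfl⟩))
    exact ⟨z, hi (by rw [hfr, map_pow, hy])⟩
  rw [← hθ', ← funext hg'] at hφ
  have hinj : Function.Injective (aeval (algebraMap C E t) : Polynomial Λ →ₐ[Λ] E).toRingHom := by
    refine (injective_iff_map_eq_zero _).2 fun f hf => ?_
    refine Polynomial.map_injective (algebraMap Λ E) hi ?_
    rw [Polynomial.map_zero]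
    refine transc_fixed T ht _ (fun i => ?_) (by rwa [eval_map_algebraMap])
    rw [coeff_map]
    exact (hΛ _).2 ⟨_, rfl⟩
  let j : L →+* E := IsFractionRing.lift hinj
  have hj : ∀ f, j (algebraMap _ L f) = aeval (algebraMap C E t) f :=
    IsFractionRing.lift_algebraMap hinj
  let _ : Algebra L E := j.toAlgebra
  let e : Λ ≃+* Λ := RingEquiv.ofBijective (G.frob k Λ) ⟨(G.frob k Λ).injective, hsur⟩
  let σ : L ≃+* L := IsFractionRing.ringEquivOfRingEquiv (mapEquiv e)
  have hσ : ∀ f : Polynomial Λ, σ (algebraMap _ L f) =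
      algebraMap _ L (f.map (G.frob k Λ : Λ →+* Λ)) := fun f =>
    IsFractionRing.ringEquivOfRingEquiv_algebraMap _ f
  have hσC : ∀ (i : ℕ) (x : Λ), σ^[i] (algebraMap _ L (Polynomial.C x)) =
      algebraMap _ L (Polynomial.C (x ^ Nat.card k ^ i)) := fun i x => by
    induction i with
    | zero => simp
    | succ i ih =>
      rw [Function.iterate_succ_apply', ih, hσ, map_C, pow_succ, pow_mul]
      congr 2
      exact hfr _
  have hσX : ∀ i : ℕ, σ^[i] (algebraMap _ L (X : Polynomial Λ)) = algebraMap _ L (X : Polynomial Λ) :=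
    fun i => Function.iterate_fixed (by rw [hσ, map_X]) i
  have hF : ∀ y : L, T.F (j y) = j (σ^[T.c] y) := by
    have : (T.F : E →+* E).comp j = j.comp ((σ : L →+* L) ^ T.c) :=
      IsFractionRing.ringHom_ext (A := Polynomial Λ) fun f => by
        refine DFunLike.congr_fun (Polynomial.ringHom_ext (f := ((T.F : E →+* E).comp j).comp
          (algebraMap _ L)) (g := (j.comp ((σ : L →+* L) ^ T.c)).comp (algebraMap _ L))
          (fun x => ?_) ?_) f
        · simp only [RingHom.comp_apply, RingHom.coe_pow, RingHom.coe_coe, hσC, hj, aeval_C]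
          rw [T.F_apply, show T.γ (algebraMap Λ E x) = algebraMap Λ E x from (hΛ _).2 ⟨x, rfl⟩, map_pow]
          rfl
        · simp only [RingHom.comp_apply, RingHom.coe_pow, RingHom.coe_coe, hσX, hj, aeval_X]
          exact T.F.commutes t
    intro y
    simpa only [RingHom.comp_apply, RingHom.coe_pow, RingHom.coe_coe] using
      DFunLike.congr_fun this y
  set Φ := (Phi θ' r g').map (algebraMap (Polynomial Λ) L) with hΦ
  have hdet : IsUnit Φ.det := by
    obtain ⟨A, -, hA⟩ := Phit_inv (k := k) (θ := θ') (hg ▸ one_ne_zero : g' r ≠ 0) 1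
    have e1 : Phit k θ' r g' 1 = Phi θ' r g' := by simp [Phit, pmap]
    have e2 := congrArg det hA
    rw [e1, det_mul, det_smul, det_one, mul_one, Finset.prod_range_one] at e2
    rw [hΦ, ← RingHom.mapMatrix_apply, ← RingHom.map_det]
    refine IsUnit.mk0 _ fun h => ?_
    rw [(map_eq_zero_iff _ (IsFractionRing.injective _ L)).1 h, mul_zero] at e2
    exact pow_ne_zero _ (X_sub_C_ne_zero _) e2.symm
  let τ : (Fin r → L) ≃+ (Fin r → L) :=
    { toFun := rw σ Φ
      invFun := fun y i => σ.symm ((y ᵥ* Φ⁻¹) i)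
      left_inv := fun x => funext fun i => by
        simp only [rw]
        rw [vecMul_vecMul, mul_nonsing_inv _ hdet, vecMul_one, σ.symm_apply_apply]
      right_inv := fun y => by
        simp only [rw, σ.apply_symm_apply]
        rw [vecMul_vecMul, nonsing_inv_mul _ hdet, vecMul_one]
      map_add' := fun x y => by
        simp only [rw, Pi.add_apply, map_add]
        exact add_vecMul _ _ _ }
  have hτ : ∀ (c : L) v, τ (c • v) = σ c • τ v := fun c v => by
    change rw σ Φ _ = σ c • rw σ Φ v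
    simp only [rw, Pi.smul_apply, smul_eq_mul, map_mul]
    exact smul_vecMul (σ c) (fun j => σ (v j)) Φ
  obtain ⟨ω, w1, w2, w3⟩ := exists_omega T
  obtain ⟨ω, rfl⟩ := (hΛ ω).1 w1
  have hc := comm_pow σ τ hτ (comm_tau hr hg hφ hE hsur (σ : L →+* L) hσ) T.c_pos
    (ω := algebraMap _ L (Polynomial.C ω)) (by
      rw [hσC, hi ((map_pow _ _ _).trans w2)])
      fun a ha b hb h => by
      rw [hσC, hσC] at h
      exact w3 a ha b hb (by
        rw [← map_pow, ← map_pow, C_injective (IsFractionRing.injective _ L h)])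
  refine top_of_comb (L := L) τ^[T.c] (T.F : E →+* E) _ (fun x => ?_)
    (simple_pow σ τ hτ (tau_simple hr (hg ▸ one_ne_zero) (σ : L →+* L) hσ) T.c_pos hc) hc W hW hw h1
    fun i => ?_
  · have e1 : T.Ph r g t = ((Phit k θ' r g' T.c).map (algebraMap _ L)).map j := by
      ext a b
      have := congrFun (congrFun (Phit_map (r := r) (IsScalarTower.toAlgHom k Λ E) θ' g' T.c) a) b
      simp only [IsScalarTower.toAlgHom_apply, hθ', hg'] at this
      rw [map_apply, map_apply, hj, Tri.Ph, map_apply, ← eval_map_algebraMap]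
      exact congrArg _ this.symm
    have e2 := rw_iterate (k := k) (θ := θ') (g := g') (σ : L →+* L) hσ T.c x
    change _ = fun i => j ((rw σ Φ)^[T.c] x i)
    rw [show (rw σ Φ)^[T.c] x = _ from e2, e1]
    funext i
    rw [rw, rw, RingHom.map_vecMul]
    congr 1
    exact funext fun a => hF (x a)
  · refine Submodule.span_induction (p := fun y _ => y ∈ Submodule.span L {c : E | T.F c = c})
      (fun m hm => ?_) (zero_mem _) (fun _ _ _ _ => add_mem) (fun c y _ hy => ?_) (h2 i)
    · obtain ⟨m, rfl⟩ := (hΛ m).1 hm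
      have := Submodule.smul_mem _ (algebraMap _ L (Polynomial.C m))
        (Submodule.subset_span (R := L) (s := {c : E | T.F c = c}) (map_one T.F))
      rwa [Algebra.smul_def, mul_one, show algebraMap L E = j from rfl, hj, aeval_C] at this
    · refine Submodule.span_induction
        (p := fun y _ => c • y ∈ Submodule.span L {c : E | T.F c = c})
        (fun z hz => Submodule.subset_span ?_) (by simp) (fun _ _ _ _ h3 h4 => ?_)
        (fun a z _ hz => ?_) hy
      · change T.F _ = _
        rw [map_smul, show T.F z = z from hz]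
      · rw [smul_add]
        exact add_mem h3 h4
      · rw [Algebra.smul_def c, mul_smul_comm, ← Algebra.smul_def c]
        exact Submodule.smul_mem _ _ hz

/-- see `ul_BP.md` -/
theorem s2 (T : Tri k C θ) (hr : 0 < r) (hD : T.Dr r g) {t : C} (ht : Transcendental k t) :
    Smp T.F (T.Ph r g t) := by
  intro N hN W hW
  obtain ⟨j, rfl⟩ := Nat.exists_eq_succ_of_ne_zero hN.ne'
  exact s2_one (T.pow j) hr ⟨hD.one, fun i => T.pow_fix (hD.fix i) _, hD.endA⟩ ht (T.pow j).fixF
    (FractionRing (Polynomial (T.pow j).fixF))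
    (fun x => ⟨fun h => ⟨⟨x, h⟩, rfl⟩, by rintro ⟨y, rfl⟩; exact y.2⟩) W fun x hx =>
    rw_pow T hD.fix t j x ▸ hW x hx

end Pool.Agent.Lib.MP_6adaea_nt.W
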