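import Pool.Agent.Lib.MP_6adaea_nt.W.Cen

/-!
There is no invariant form.
-/

set_option linter.unusedSectionVars false

namespace Pool.Agent.Lib.MP_6adaea_nt.W
open Matrix Polynomial G U
open scoped TensorProduct

variable {k C E : Type} [Field k] [Finite k] [Field C] [Field E] [Algebra k C] [Algebra k E]
  [Algebra C E] [IsScalarTower k C E] [IsAlgClosed C] [IsAlgClosed E] {θ : E} {r : ℕ} {g : ℕ → E}
  {n J : Type} [Fintype n] [DecidableEq n] [Fintype J] [DecidableEq J]

variable (T : Tri k C θ)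

/-- a multiple of `β` is unimodular -/
def Sim (V : QVal E) (β : Matrix n n E) : Prop := ∃ l : E, Uni V (l • β)

theorem spx_map (l : E) (β : Matrix n n E) : (l • β).map T.F = T.F l • β.map T.F := by
  ext i j
  simp

theorem Tri.sim_step {V V' : QVal E} (h : T.Tr V V') {Φ β : Matrix n n E} (hΦ : Uni V' Φ) {l : E}
    (hl : l ≠ 0) (hβ : Φᵀ * β.map T.F * Φ = l • β) : Sim V β ↔ Sim V' β := by
  constructor
  · rintro ⟨l0, h0⟩
    have h1 := (hΦ.transpose.mul (h.uni_iff.mpr h0)).mul hΦ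
    rw [spx_map, Matrix.mul_smul, Matrix.smul_mul, hβ, smul_smul] at h1
    exact ⟨_, h1⟩
  · rintro ⟨l1, h1⟩
    obtain ⟨B, hB, e1, e2⟩ := hΦ.exists_inv
    obtain ⟨l2, hl2⟩ := T.F_bijective.2 (l1 / l)
    refine ⟨l2, h.uni_iff.mp ?_⟩
    have h2 := (hB.transpose.mul h1).mul hB
    have e : Bᵀ * (l1 • β) * B = (l2 • β).map T.F := by
      have e3 : l1 • β = (l1 / l) • (Φᵀ * β.map T.F * Φ) := by
        rw [hβ, smul_smul, div_mul_cancel₀ _ hl]
      rw [spx_map, hl2, e3, Matrix.mul_smul, Matrix.smul_mul]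
      congr 1
      calc Bᵀ * (Φᵀ * β.map T.F * Φ) * B = (Φ * B)ᵀ * β.map T.F * (Φ * B) := by
            rw [transpose_mul]; simp only [Matrix.mul_assoc]
        _ = _ := by rw [e2, transpose_one, Matrix.one_mul, Matrix.mul_one]
    rwa [e] at h2

include T in
theorem Tri.sim_ae {β : Matrix n n E} (hβ : β.det ≠ 0) :
    {a : C | ∃ V, Cen C V θ a ∧ ¬Sim V β}.Finite := by
  refine ((T.finV β.det).union
    (Set.finite_iUnion fun ij : n × n => T.finV (β ij.1 ij.2))).subset ?_
  rintro a ⟨V, hV, hn⟩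
  by_contra hc
  simp only [Set.mem_union, Set.mem_iUnion, Set.mem_ofPred_eq, not_or, not_exists, not_and,
    not_not] at hc
  refine hn ⟨1, ?_⟩
  rw [one_smul]
  exact uni_of_det (fun i j => QVal.Ge.of_le (hc.2 (i, j) V hV).ge) hβ (hc.1 V hV)

/-- `P *ᵥ e0 = 0` gives `l = 0`; then `rank_add_rank_le_card_of_mul_eq_zero`, and the rank of `P`
is at least `r - 1` -/
theorem spx_lin (h3 : 3 ≤ r) {P b0 b1 : Matrix (Fin r) (Fin r) C} (h0 : IsUnit b0) (h1 : IsUnit b1)
    (hP : P *ᵥ e0 C r = 0) (hk : ∀ x, P *ᵥ x = 0 → ∃ c : C, x = c • e0 C r) {l : C}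
    (h : Pᵀ * b1 * P = l • b0) : False := by
  have he : e0 C r ≠ 0 := fun e => by simpa [e0] using congrFun e ⟨0, by omega⟩
  have hl : l = 0 := by
    have e := congrArg (· *ᵥ e0 C r) h
    simp only [← mulVec_mulVec, hP, mulVec_zero, smul_mulVec] at e
    refine (smul_eq_zero.mp e.symm).resolve_right fun e' => he ?_
    exact (Matrix.mulVec_injective_iff_isUnit.mpr h0) (by rw [e', mulVec_zero])
  rw [hl, zero_smul, Matrix.mul_assoc] at h
  have h2 := rank_add_rank_le_card_of_mul_eq_zero h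
  rw [rank_transpose, rank_mul_eq_right_of_isUnit_det _ _ ((isUnit_iff_isUnit_det _).mp h1),
    Fintype.card_fin] at h2
  have h4 := LinearMap.finrank_range_add_finrank_ker P.mulVecLin
  have h5 : Module.finrank C (LinearMap.ker P.mulVecLin) ≤ 1 := by
    refine (Submodule.finrank_mono (t := Submodule.span C {e0 C r}) fun x hx => ?_).trans
      (finrank_span_singleton he).le
    obtain ⟨c, rfl⟩ := hk x hx
    exact Submodule.smul_mem _ _ (Submodule.mem_span_singleton_self _)
  rw [Module.finrank_fin_fun] at h4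
  change P.rank + _ = r at h4
  omega

theorem spx_phi (hr : 0 < r) (hg : g r = 1) {t : C} {V : QVal E} (hV : Cen C V θ t)
    {P : Matrix (Fin r) (Fin r) C} (h : MRed V ((Phi θ r g).map (eval (algebraMap C E t))) P) :
    P *ᵥ e0 C r = 0 ∧ ∀ x, P *ᵥ x = 0 → ∃ c : C, x = c • e0 C r := by
  have h1 : ∀ i j : Fin r, (i : ℕ) + 1 ≠ r → P i j = if (i : ℕ) + 1 = j then 1 else 0 := by
    intro i j hi
    have := h i j
    simp only [Phi, map_apply, of_apply, if_neg hi] at this
    refine (hV.1.eq_of_gt ?_).symm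
    split_ifs at this ⊢ <;> simpa using this
  have h2 : ∀ i, P i ⟨0, hr⟩ = 0 := by
    intro i
    by_cases hi : (i : ℕ) + 1 = r
    · have := h i ⟨0, hr⟩
      simp only [Phi, map_apply, of_apply, if_pos hi, hg, inv_one, map_one, one_mul, if_true,
        eval_sub, eval_X, eval_C] at this
      refine (hV.1.eq_of_gt ?_).symm
      convert this.add hV.2 using 1
      rw [map_zero]
      ring
    · rw [h1 i _ hi, if_neg (by simp)]
  constructor
  · funext i
    rw [mulVec, dotProduct, Finset.sum_eq_single ⟨0, hr⟩, h2, zero_mul]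
    · rfl
    · intro j _ hj
      rw [e0, if_neg fun e => hj (Fin.ext e), mul_zero]
    · simp
  · intro x hx
    refine ⟨x ⟨0, hr⟩, funext fun j => ?_⟩
    by_cases hj : (j : ℕ) = 0
    · rw [show j = ⟨0, hr⟩ from Fin.ext hj]
      simp [e0]
    · have hj' := j.2
      have := congrFun hx ⟨j - 1, by omega⟩
      rw [mulVec, dotProduct, Finset.sum_eq_single j, h1 _ _ (by simp; omega),
        if_pos (by simp; omega), one_mul] at this
      · simp [e0, hj, this]
      · intro j' _ hj'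
        rw [h1 _ _ (by simp; omega), if_neg, zero_mul]
        intro e
        exact hj' (Fin.ext (by simp at e; omega))
      · simp

/-- `T.Ph = U * Phi t` with `U` unimodular (`Cen.det_frob_Phit`, `uni_eval`) -/
theorem Tri.red_Ph (hr : 0 < r) (hD : T.Dr r g) {t : C} (ht : Transcendental k t) {V : QVal E}
    (hV : Cen C V θ t) : ∃ P : Matrix (Fin r) (Fin r) C, MRed V (T.Ph r g t) P ∧
      P *ᵥ e0 C r = 0 ∧ ∀ x, P *ᵥ x = 0 → ∃ c : C, x = c • e0 C r := by
  obtain ⟨c, hc⟩ := Nat.exists_eq_succ_of_ne_zero T.c_pos.ne'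
  have hco := T.co_ge hD.fix hV ht (r := r)
  have hts : V.Ge (algebraMap C E t) 0 := hV.1.ge_const t
  have hU : Uni V ((pmap (G.frob k E : E →+* E) (Phit k θ r g c)).map
      (eval (algebraMap C E t))) := by
    obtain ⟨d1, d2⟩ := hV.det_frob_Phit ht hr hD.one c
    refine uni_eval (PIn.of_comap _ (Phit_mem hD.one _ (fun i => ?_) c)) hts d1 d2
    have := frob_pow_apply (k := k) 1 (co θ g r i)
    rw [pow_one] at this
    change V.Ge (G.frob k E (co θ g r i)) 0
    rw [this]
    exact (hco i).pow₀ _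
  obtain ⟨-, U, U', -, -, hU1, -, hU2, -⟩ := hU.exists_red hV.1
  obtain ⟨P, hP⟩ := exists_mred hV.1 (A := (Phi θ r g).map (eval (algebraMap C E t)))
    fun i j => (Phi_mem hD.one V.O hco).eval_mem hts i j
  obtain ⟨h1, h2⟩ := spx_phi hr hD.one hV hP
  refine ⟨U * P, ?_, by rw [← mulVec_mulVec, h1, mulVec_zero], fun x hx => h2 x ?_⟩
  · have e : T.Ph r g t = (pmap (G.frob k E : E →+* E) (Phit k θ r g c)).map
        (eval (algebraMap C E t)) * (Phi θ r g).map (eval (algebraMap C E t)) := by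
      rw [Tri.Ph, hc]
      exact Matrix.map_mul (f := evalRingHom (algebraMap C E t))
    rw [e]
    exact hU1.mul hV.1 hP
  · have := congrArg (U' *ᵥ ·) hx
    simpa only [mulVec_mulVec, ← Matrix.mul_assoc, hU2, Matrix.one_mul, mulVec_zero] using this

/-- Take `V` with centre `t` and both chains. `Sim` holds far out (`sim_ae`) and is transported
(`sim_step`, `uni_Ph`, `ne_of_root`) to `V` along the first chain and to `W 1` along the second,
so `β` and `β.map T.F` have unimodular multiples at `V`. `l ≠ 0` by the determinant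
(`Phit_det`, `T.tr`). Reduce and use `spx_lin`. -/
theorem Tri.spx (h3 : 3 ≤ r) (hD : T.Dr r g) {t : C} (ht : Transcendental k t)
    {β : Matrix (Fin r) (Fin r) E} (hβ : β.det ≠ 0) {l : E}
    (h : (T.Ph r g t)ᵀ * β.map T.F * T.Ph r g t = l • β) : False := by
  have hr : 0 < r := by omega
  have : Nonempty (Fin r) := ⟨⟨0, hr⟩⟩
  have hl : l ≠ 0 := by
    rintro rfl
    have e := congrArg det h
    rw [det_mul, det_mul, det_transpose, zero_smul, det_zero] at e
    have e2 : (β.map T.F).det = T.F β.det := ((T.F : E →+* E).map_det β).symm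
    exact mul_ne_zero (mul_ne_zero (T.Ph_det hr hD.one t)
      (e2 ▸ (_root_.map_ne_zero T.F).mpr hβ)) (T.Ph_det hr hD.one t) e
  obtain ⟨V, hV⟩ := T.exists_cen t
  have s0 : Sim V β := by
    obtain ⟨W, a, h0, hc, ha, hi, hT⟩ := T.exists_chain hV ht
    obtain ⟨m, hm⟩ : ∃ m, Sim (W m) β := by
      by_contra hn
      push Not at hn
      exact Set.infinite_range_of_injective hi
        ((T.sim_ae hβ).subset (by rintro _ ⟨m, rfl⟩; exact ⟨W m, hc m, hn m⟩))
    rw [← h0]
    induction m with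
    | zero => exact hm
    | succ m ih =>
      obtain ⟨e1, -, e3⟩ := T.ne_of_root ht (ha (m + 1))
      exact ih ((T.sim_step (hT m) (T.uni_Ph hr hD (hc _) e1 e3) hl h).mpr hm)
  have hQ := T.two_le
  have s1 : Sim V (β.map T.F) := by
    obtain ⟨W, h0, hc, hT⟩ := T.exists_chain' hV
    have hi : Function.Injective fun m : ℕ => t ^ T.Q ^ (m + 1) := fun m m' e => by
      have := Nat.pow_right_injective hQ (pow_inj ht e)
      omega
    obtain ⟨m, hm⟩ : ∃ m, Sim (W (m + 1)) β := by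
      by_contra hn
      push Not at hn
      exact Set.infinite_range_of_injective hi
        ((T.sim_ae hβ).subset (by rintro _ ⟨m, rfl⟩; exact ⟨W (m + 1), hc _, hn m⟩))
    have h1 : Sim (W 1) β := by
      induction m with
      | zero => exact hm
      | succ m ih =>
        have hp : 1 < T.Q ^ (m + 1) := Nat.one_lt_pow (by omega) hQ
        refine ih ((T.sim_step (hT (m + 1)) (T.uni_Ph hr hD (hc _)
          (ht.pow (by omega)) fun i _ e => ?_) hl h).mp hm)
        rw [← pow_mul] at e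
        have := pow_inj ht ((pow_one t).trans e)
        have := Nat.eq_one_of_mul_eq_one_right this.symm
        omega
    obtain ⟨l0, h2⟩ := h1
    have h4 := (hT 0).uni_iff.mpr h2
    rw [spx_map, h0] at h4
    exact ⟨_, h4⟩
  obtain ⟨l1, u1⟩ := s0
  obtain ⟨l2, u2⟩ := s1
  obtain ⟨P, hP, p1, p2⟩ := T.red_Ph hr hD ht hV
  obtain ⟨A1, b0, b0', a1, -, r1, r1', q1, q1'⟩ := u1.exists_red hV.1
  obtain ⟨-, b1, b1', -, -, r2, -, q2, q2'⟩ := u2.exists_red hV.1
  have hl1 : l1 ≠ 0 := by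
    rintro rfl
    rw [zero_smul, Matrix.mul_zero] at a1
    exact zero_ne_one a1
  have e : (T.Ph r g t)ᵀ * (l2 • β.map T.F) * T.Ph r g t = (l2 * l / l1) • (l1 • β) := by
    rw [Matrix.mul_smul, Matrix.smul_mul, h, smul_smul, smul_smul, div_mul_cancel₀ _ hl1]
  have m1 := (hP.transpose.mul hV.1 r2).mul hV.1 hP
  rw [e] at m1
  have hκ : V.Ge (l2 * l / l1) 0 := by
    have := ((r1'.mge hV.1).mul₀ (m1.mge hV.1)) ⟨0, hr⟩ ⟨0, hr⟩
    rwa [Matrix.mul_smul, a1, Matrix.smul_apply, one_apply_eq, smul_eq_mul, mul_one] at this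
  exact spx_lin h3 ⟨⟨b0, b0', q1', q1⟩, rfl⟩ ⟨⟨b1, b1', q2', q2⟩, rfl⟩ p1 p2
    (m1.uniq hV.1 (r1.smul hV.1 (hV.1.gt_res hκ)))

end Pool.Agent.Lib.MP_6adaea_nt.W
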