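import Pool.Agent.Lib.MP_6adaea_nt.W.Stab
import Pool.Agent.Lib.MP_6adaea_nt.W.DL
import Pool.Agent.Lib.MP_6adaea_nt.W.Gen
import Pool.Agent.Lib.MP_6adaea_nt.W.Spx
import Pool.Agent.Lib.MP_6adaea_nt.W.GT
import Pool.Agent.Lib.MP_6adaea_nt.W.S2

/-!
One point.
-/

set_option linter.unusedSectionVars false

namespace Pool.Agent.Lib.MP_6adaea_nt.W
open Matrix Polynomial G U
open scoped TensorProduct

variable {k C E : Type} [Field k] [Finite k] [Field C] [Field E] [Algebra k C] [Algebra k E]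
  [Algebra C E] [IsScalarTower k C E] [IsAlgClosed C] [IsAlgClosed E] {θ : E} {r : ℕ} {g : ℕ → E}
  {n J : Type} [Fintype n] [DecidableEq n] [Fintype J] [DecidableEq J]

/-- `exists_stab`, `gt` with `σ = T.Fe`, `s2`, `exists_shift`, `dl_plain`, `generic`, `spx`,
`stab_one` -/
theorem Tri.fin1 (T : Tri k C θ) (hr : 2 ≤ r) (hD : T.Dr r g) {t : C} (ht : Transcendental k t)
    (ρ : PRep C (Fin r) J) {Θ : Matrix J J E} (hΘ : Aux k θ g t ρ Θ) {y : J → E} {μ : E}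
    (hy : (fun j => T.F (y j)) = μ • (ap ρ.P (T.Ph r g t) * Θ) *ᵥ y)
    {s : Matrix (Fin r) (Fin r) E} (hs : s.det = 1) : ap ρ.P s *ᵥ y = y := by
  by_cases hy0 : y = 0
  · rw [hy0, mulVec_zero]
  have hr0 : 0 < r := by omega
  have : Nontrivial (Fin r) := Fin.nontrivial_iff_two_le.2 hr
  obtain ⟨G, hG⟩ := exists_stab ρ y
  obtain ⟨p, hp, -, hE, -⟩ := exists_char k E
  let P : GL (Fin r) E := GeneralLinearGroup.mkOfDetNeZero _ (T.Ph_det hr0 hD.one t)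
  have hP : P.val = T.Ph r g t := rfl
  obtain ⟨V0, hV0⟩ := T.exists_cen t
  obtain ⟨-, Θ', -, hΘ'⟩ := hΘ.uni V0 t hV0 ⟨0, 0, rfl⟩
  have hfr := stab_frob hG (AlgEquiv.ofBijective T.F T.F_bijective) P hΘ' hΘ.comm (μ := μ) hy
  obtain ⟨β, hβ⟩ := exists_shift ρ.P
  obtain ⟨x, f, hx, hf, he⟩ := T.generic ht (β := β) (Φ := T.Ph r g t)
    (Ψ := ap ρ.P (T.Ph r g t) * Θ) (fun A => by
      rw [hβ, hβ, Matrix.mul_assoc, hΘ.comm, ← Matrix.mul_assoc, ← Matrix.mul_assoc, ← ρ.mul,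
        ← ρ.mul, Matrix.mul_add, Matrix.add_mul, Matrix.mul_one, Matrix.one_mul, Matrix.mul_assoc])
    (fun V a m hV ha => by
      obtain ⟨h1, h2, h3⟩ := T.ne_of_root ht ha
      have h4 := T.uni_Ph hr0 hD hV h1 h3
      exact ⟨h4, (h4.ap hV.1 ρ).mul (hΘ.uni V a hV h2)⟩) hy
    (T.dl_plain hr0 hD ht ρ hΘ hy0 hy (hβ C))
  have hrk : RK G x f := fun c u hu => (hG u).2 (by rw [hu, ← hβ]; exact he c)
  rcases gt G (stab_cl hG) T.Fe P hfr (s2 T hr0 hD ht) ⟨x, f, hx, hf, hrk⟩ with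
    h | ⟨h3, b, hb, l, hl⟩
  · exact stab_one hG p h hs
  · exact (T.spx (by simpa using h3) hD ht hb hl).elim

end Pool.Agent.Lib.MP_6adaea_nt.W
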