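import Pool.Agent.Lib.MP_6adaea_nt.W.Fin1

/-!
Two points.
-/

set_option linter.unusedSectionVars false

namespace Pool.Agent.Lib.MP_6adaea_nt.W
open Matrix Polynomial G U
open scoped TensorProduct

variable {k C E : Type} [Field k] [Finite k] [Field C] [Field E] [Algebra k C] [Algebra k E]
  [Algebra C E] [IsScalarTower k C E] [IsAlgClosed C] [IsAlgClosed E] {θ : E} {r : ℕ} {g : ℕ → E}
  {n J : Type} [Fintype n] [DecidableEq n] [Fintype J] [DecidableEq J]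

theorem Orb.ne {t t' a : C} (h : Orb (Nat.card k) t a)
    (h' : ∀ u : ℕ, t' ≠ t ^ Nat.card k ^ u ∧ t ≠ t' ^ Nat.card k ^ u) (i : ℕ) :
    t' ≠ a ^ Nat.card k ^ i := by
  rintro rfl
  obtain ⟨l, j, e⟩ := h
  have inj : ∀ (u : ℕ) {x y : C}, x ^ Nat.card k ^ u = y ^ Nat.card k ^ u → x = y :=
    fun u x y hxy => (frob k C ^ u).injective
      ((frob_pow_apply u x).trans (hxy.trans (frob_pow_apply u y).symm))
  have e' : (a ^ Nat.card k ^ i) ^ Nat.card k ^ l = t ^ Nat.card k ^ (j + i) := by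
    rw [pow_right_comm, e, ← pow_mul, ← pow_add]
  rcases le_total l (j + i) with hl | hl
  · obtain ⟨u, hu⟩ := Nat.exists_eq_add_of_le' hl
    exact (h' u).1 (inj l (by rw [e', hu, pow_add, pow_mul]))
  · obtain ⟨u, hu⟩ := Nat.exists_eq_add_of_le' hl
    exact (h' u).2 (inj (j + i) (by rw [← e', hu, pow_add, pow_mul]))

theorem fina_aux (T : Tri k C θ) (hr : 2 ≤ r) (hD : T.Dr r g) {t t' : C} (ht : Transcendental k t)
    (h : ∀ u : ℕ, t' ≠ t ^ Nat.card k ^ u ∧ t ≠ t' ^ Nat.card k ^ u) (ρ ρ' : PRep C (Fin r) J)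
    (hc : ∀ A B : Matrix (Fin r) (Fin r) E, ap ρ.P A * ap ρ'.P B = ap ρ'.P B * ap ρ.P A) :
    Aux k θ g t ρ (ap ρ'.P (T.Ph r g t')) where
  comm A := (hc A _).symm
  mem := ap_mem _ _ fun i j =>
    (Phit_mem hD.one (Algebra.adjoin C (Set.range (co θ g r))).toSubring
      (fun i => Algebra.subset_adjoin ⟨i, rfl⟩) T.c).eval_mem (Subalgebra.algebraMap_mem _ t') i j
  uni _ _ hV ha := (T.uni_Ph (by omega) hD hV (ha.tr ht) fun i _ => ha.ne h i).ap hV.1 ρ'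

/-- `exists_pair`, `fin1` twice with `Θ` the other factor (`ap_mem`, `Phit_mem`, `Uni.ap`,
`uni_Ph`) -/
theorem Tri.finA (T : Tri k C θ) (hr : 2 ≤ r) (hD : T.Dr r g) {t : Fin 2 → C}
    (ht : ∀ i, Transcendental k (t i))
    (h : ∀ u : ℕ, t 1 ≠ t 0 ^ Nat.card k ^ u ∧ t 0 ≠ t 1 ^ Nat.card k ^ u)
    {M : ℕ} {y : JJ (Fin r) M → E} {μ : E}
    (hy : (fun j => T.F (y j)) = μ • rep M (fun i => algebraMap C E (t i)) (Phit k θ r g T.c) *ᵥ y)
    {s : Matrix (Fin r) (Fin r) E[X]} (hs : s.det = 1) :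
    rep M (fun i => algebraMap C E (t i)) s *ᵥ y = y := by
  obtain ⟨ρ0, ρ1, hc, hρ⟩ := exists_pair E (Fin r) M (t := t) (by simpa using (h 0).2)
  have hd : ∀ x : E, (s.map (eval x)).det = 1 := fun x => by
    have := (evalRingHom x).map_det s
    rw [hs, map_one] at this
    exact this.symm
  rw [hρ] at hy
  have h0 := T.fin1 hr hD (ht 0) ρ0 (fina_aux T hr hD (ht 0) h ρ0 ρ1 hc) hy
    (hd (algebraMap C E (t 0)))
  rw [hc] at hy
  have h1 := T.fin1 hr hD (ht 1) ρ1 (fina_aux T hr hD (ht 1) (fun u => (h u).symm) ρ1 ρ0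
    fun A B => (hc B A).symm) hy (hd (algebraMap C E (t 1)))
  rw [hρ, ← mulVec_mulVec, h1, h0]

end Pool.Agent.Lib.MP_6adaea_nt.W
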