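import Pool.Agent.Lib.MP_6adaea_nt.W.RedB
import Pool.Agent.Lib.MP_6adaea_nt.G.Inv

/-!
A commutative normal family.
-/

set_option linter.unusedSectionVars false

namespace Pool.Agent.Lib.MP_6adaea_nt.W
open Matrix Polynomial G U
open scoped TensorProduct

variable {C E : Type} [Field C] [Field E] [Algebra C E] {n J : Type} [Fintype n] [DecidableEq n]
  [Fintype J] [DecidableEq J] {V : QVal E}

theorem fine1_not_scal [Nontrivial n] {x f : n → E} (hx : x ≠ 0) (hf : f ≠ 0) :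
    ¬ Scal (vecMulVec x f) := by
  rintro ⟨d, hd⟩
  obtain ⟨i, hi⟩ := Function.ne_iff.mp hx
  obtain ⟨j, hj⟩ := Function.ne_iff.mp hf
  have hi : x i ≠ 0 := hi
  have hj : f j ≠ 0 := hj
  have e : ∀ u v, x u * f v = if u = v then d else 0 := fun u v => by
    simpa [vecMulVec_apply, one_apply] using congrFun (congrFun hd u) v
  by_cases hij : i = j
  · subst hij
    obtain ⟨l, hl⟩ := exists_ne i
    have h1 := e i i
    have h2 := e l l
    have h3 := e i l
    rw [if_pos rfl] at h1 h2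
    rw [if_neg hl.symm] at h3
    have h4 : f l = 0 := (mul_eq_zero.mp h3).resolve_left hi
    rw [h4, mul_zero, ← h1] at h2
    exact mul_ne_zero hi hj h2.symm
  · have h1 := e i j
    rw [if_neg hij] at h1
    exact mul_ne_zero hi hj h1

theorem fine1_fix (p : ℕ) [Fact p.Prime] [CharP E p] (U : Matrix n n E → Matrix J J E)
    (U0 : U 0 = 1) (Ua : ∀ A B, U (A + B) = U A * U B) {y : J → E} {B : Matrix n n E}
    (h : Eig (U B) y) : U B *ᵥ y = y := by
  obtain ⟨l, hl⟩ := h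
  have h1 : ∀ m : ℕ, U (m • B) *ᵥ y = l ^ m • y := fun m => by
    induction m with
    | zero => simp [U0]
    | succ m ih => rw [succ_nsmul, Ua, ← mulVec_mulVec, hl, mulVec_smul, ih, smul_smul, pow_succ']
  have h2 := h1 p
  rw [← Nat.cast_smul_eq_nsmul E, CharP.cast_eq_zero, zero_smul, U0, one_mulVec] at h2
  have h3 : (l - 1) ^ p • y = 0 := by
    rw [sub_pow_char, one_pow, sub_smul, ← h2, one_smul, sub_self]
  rcases smul_eq_zero.mp h3 with h4 | h4
  · rw [hl, sub_eq_zero.mp (pow_eq_zero_iff (Fact.out : p.Prime).ne_zero |>.mp h4), one_smul]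
  · rw [h4, mulVec_zero]

/-- Let `Y` be the span. `N = {B | ∀ c, ∀ x ∈ Y, U (c • B) *ᵥ x = x}` is a submodule, stable under
conjugation by `rt h c`, and contains `x f` (`U B ^ p = 1` forces the eigenvalue one, and the
`U B` commute), so it contains all matrices of trace zero (`inv_field`). Then `ρ s` commutes with
`U B` on `Y`, since `s * B * s⁻¹ - B ∈ N`. If `ρ s *ᵥ y = ∑ c i • U (B i) *ᵥ y` then
`ρ s' *ᵥ ρ s *ᵥ y = ∑ c i • U (B i) *ᵥ ρ s' *ᵥ y`, which is symmetric; so the `ρ s` commute on `y`,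
hence on `Y`, and `tor_conj_rt` shows that `ρ (rt h c)` fixes `y`. -/
theorem fin_alg [Infinite E] [Nontrivial n] (p : ℕ) [Fact p.Prime] [CharP E p]
    (ρ U : Matrix n n E → Matrix J J E) (ρ1 : ρ 1 = 1) (ρm : ∀ A B, ρ (A * B) = ρ A * ρ B)
    (U0 : U 0 = 1) (Ua : ∀ A B, U (A + B) = U A * U B) (hc : ∀ s A, ρ s * U (A * s) = U (s * A) * ρ s)
    (y : J → E)
    (hY : ∀ s : Matrix n n E, s.det = 1 → ∀ x ∈ Submodule.span E (Set.range fun B => U B *ᵥ y),
      ρ s *ᵥ x ∈ Submodule.span E (Set.range fun B => U B *ᵥ y))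
    (h0 : ∃ x f : n → E, x ≠ 0 ∧ f ≠ 0 ∧ ∀ c : E, Eig (U (c • vecMulVec x f)) y)
    {a b : n} (hab : a ≠ b) (c : E) :
    U (single a b c) *ᵥ y = y ∧ ρ (1 + single a b c) *ᵥ y = y := by
  classical
  obtain ⟨Y, hYe⟩ : ∃ Y, Y = Submodule.span E (Set.range fun B => U B *ᵥ y) := ⟨_, rfl⟩
  have hy : y ∈ Y := hYe ▸ Submodule.subset_span ⟨0, by simp [U0]⟩
  have hcomm : ∀ A B, U A * U B = U B * U A := fun A B => by rw [← Ua, ← Ua, add_comm]
  have hinv : ∀ g : GL n E, g.val.det = 1 → (g⁻¹).val.det = 1 := fun g hg => by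
    have := congrArg Matrix.det g.inv_mul
    rwa [det_mul, hg, mul_one, det_one] at this
  have hρ : ∀ (g : GL n E) (x : J → E), ρ g.val *ᵥ ρ (g⁻¹).val *ᵥ x = x := fun g x => by
    rw [mulVec_mulVec, ← ρm, g.mul_inv, ρ1, one_mulVec]
  have hK : ∀ (g : GL n E) (B : Matrix n n E), ρ g.val * U B = U (ad g B) * ρ g.val := fun g B => by
    have := hc g.val (B * (g⁻¹).val)
    rwa [Matrix.mul_assoc, g.inv_mul, Matrix.mul_one, ← Matrix.mul_assoc] at this
  rw [← hYe] at hY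
  let N : Submodule E (Matrix n n E) :=
    { carrier := {B | ∀ c : E, ∀ x ∈ Y, U (c • B) *ᵥ x = x}
      add_mem' := fun {A B} hA hB c x hx => by
        rw [smul_add, Ua, ← mulVec_mulVec, hB c x hx, hA c x hx]
      zero_mem' := fun c x _ => by rw [smul_zero, U0, one_mulVec]
      smul_mem' := fun d A hA c x hx => by
        rw [smul_smul]
        exact hA _ x hx }
  have hN : ∀ g : GL n E, g.val.det = 1 → ∀ B ∈ N, ad g B ∈ N := fun g hg B hB c x hx => by
    have h1 := hB c _ (hY _ (hinv g hg) x hx)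
    rw [← ad_smul]
    conv_lhs => rw [← hρ g x, mulVec_mulVec, ← hK, ← mulVec_mulVec, h1, hρ]
  obtain ⟨u, hu⟩ := Infinite.exists_notMem_finset ({0, 1, -1} : Finset E)
  simp only [Finset.mem_insert, Finset.mem_singleton, not_or] at hu
  obtain ⟨hu0, hu1, hu2⟩ := hu
  obtain ⟨x₀, f₀, hx₀, hf₀, he⟩ := h0
  have hxf : vecMulVec x₀ f₀ ∈ N := fun c x hx => by
    rw [hYe] at hx
    induction hx using Submodule.span_induction with
    | mem z hz =>
      obtain ⟨B, rfl⟩ := hz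
      rw [mulVec_mulVec, hcomm, ← mulVec_mulVec, fine1_fix p U U0 Ua (he c)]
    | zero => rw [mulVec_zero]
    | add z w _ _ h1 h2 => rw [mulVec_add, h1, h2]
    | smul d z _ h1 => rw [mulVec_smul, h1]
  have htr : ∀ B : Matrix n n E, B.trace = 0 → ∀ x ∈ Y, U B *ᵥ x = x := fun B hB x hx => by
    have h1 : B ∈ N := inv_field N hu0 one_ne_zero hu1
      (fun _ _ hh Z hZ => ⟨hN _ (rt_det hh u) Z hZ, hN _ (rt_det hh 1) Z hZ⟩) hxf
      (fine1_not_scal hx₀ hf₀) hB
    simpa using h1 1 x hx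
  refine ⟨htr _ (trace_single_eq_of_ne a b c hab) y hy, ?_⟩
  have hA : ∀ g : GL n E, g.val.det = 1 → ∀ M ∈ Submodule.span E (Set.range U),
      ρ g.val *ᵥ M *ᵥ y = M *ᵥ ρ g.val *ᵥ y := fun g hg M hM => by
    induction hM using Submodule.span_induction with
    | mem z hz =>
      obtain ⟨B, rfl⟩ := hz
      have h1 : ad g B = B + (ad g B - B) := by abel
      rw [mulVec_mulVec, hK, h1, Ua, ← mulVec_mulVec, ← mulVec_mulVec,
        htr _ (by rw [trace_sub, ad_trace, sub_self]) _ (hY _ hg y hy)]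
    | zero => simp
    | add z w _ _ h1 h2 => rw [add_mulVec, add_mulVec, mulVec_add, h1, h2]
    | smul d z _ h1 => rw [smul_mulVec, smul_mulVec, mulVec_smul, h1]
  have hB : ∀ x ∈ Y, ∃ M ∈ Submodule.span E (Set.range U), x = M *ᵥ y := fun x hx => by
    rw [hYe] at hx
    induction hx using Submodule.span_induction with
    | mem z hz =>
      obtain ⟨B, rfl⟩ := hz
      exact ⟨U B, Submodule.subset_span ⟨B, rfl⟩, rfl⟩
    | zero => exact ⟨0, zero_mem _, by simp⟩
    | add z w _ _ h1 h2 =>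
      obtain ⟨M, hM, rfl⟩ := h1
      obtain ⟨M', hM', rfl⟩ := h2
      exact ⟨M + M', add_mem hM hM', (add_mulVec _ _ _).symm⟩
    | smul d z _ h1 =>
      obtain ⟨M, hM, rfl⟩ := h1
      exact ⟨d • M, Submodule.smul_mem _ d hM, (smul_mulVec _ _ _).symm⟩
  have hC : ∀ M ∈ Submodule.span E (Set.range U), ∀ M' ∈ Submodule.span E (Set.range U),
      M * M' = M' * M := fun M hM M' hM' => by
    induction hM, hM' using Submodule.span_induction₂ with
    | mem_mem z w hz hw =>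
      obtain ⟨A, rfl⟩ := hz
      obtain ⟨B, rfl⟩ := hw
      exact hcomm A B
    | zero_left => simp
    | zero_right => simp
    | add_left _ _ _ _ _ _ h1 h2 => rw [Matrix.add_mul, Matrix.mul_add, h1, h2]
    | add_right _ _ _ _ _ _ h1 h2 => rw [Matrix.add_mul, Matrix.mul_add, h1, h2]
    | smul_left _ _ _ _ _ h1 => rw [Matrix.smul_mul, Matrix.mul_smul, h1]
    | smul_right _ _ _ _ _ h1 => rw [Matrix.smul_mul, Matrix.mul_smul, h1]
  have hD : ∀ g g' : GL n E, g.val.det = 1 → g'.val.det = 1 →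
      ρ g.val *ᵥ ρ g'.val *ᵥ y = ρ g'.val *ᵥ ρ g.val *ᵥ y := fun g g' hg hg' => by
    obtain ⟨M, hM, e⟩ := hB _ (hY _ hg y hy)
    obtain ⟨M', hM', e'⟩ := hB _ (hY _ hg' y hy)
    rw [e', hA g hg M' hM', e, hA g' hg' M hM, e', mulVec_mulVec, mulVec_mulVec, hC M hM M' hM']
  have hu3 : u ^ 2 - 1 ≠ 0 := fun h => by
    have h1 : (u - 1) * (u - -1) = 0 := by linear_combination h
    exact mul_ne_zero (sub_ne_zero.mpr hu1) (sub_ne_zero.mpr hu2) h1
  obtain ⟨w, hw⟩ : ∃ w : E, c = -w + u ^ 2 * w := ⟨c / (u ^ 2 - 1), by field_simp; ring⟩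
  have h1 := congrArg Units.val (tor_conj_rt hab (Units.mk0 u hu0) w)
  have h2 : ρ (rt hab (u ^ 2 * w)).val *ᵥ y = ρ (rt hab w).val *ᵥ y := by
    rw [Units.val_mk0] at h1
    rw [← h1, Units.val_mul, Units.val_mul, ρm, ρm, ← mulVec_mulVec, ← mulVec_mulVec,
      hD _ _ (rt_det hab w) (hinv _ (tor_det hab _)), hρ]
  have h3 := hρ (rt hab w)⁻¹ y
  rw [inv_inv, ← h2, ← rt_neg, mulVec_mulVec, ← ρm, ← Units.val_mul, ← rt_add, ← hw] at h3
  exact h3

end Pool.Agent.Lib.MP_6adaea_nt.W
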