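import Pool.Agent.Lib.MP_6adaea_nt.W.Defs2
import Pool.Agent.Lib.MP_6adaea_nt.U.PL

/-!
The Pluecker vector of a stable subspace.
-/

set_option linter.unusedSectionVars false

namespace Pool.Agent.Lib.MP_6adaea_nt.W
open Matrix Polynomial G U
open scoped TensorProduct

variable {C E : Type} [Field C] [Field E] [Algebra C E] {n J : Type} [Fintype n] [DecidableEq n]
  [Fintype J] [DecidableEq J] {V : QVal E}

private theorem plk_ten {d : ℕ} (A : Matrix J J E) (e : Fin d → J → E) (z : Fin d → J) :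
    (ten d A *ᵥ fun z' => (Matrix.of fun a b => e a (z' b)).det) z =
      (Matrix.of fun a b => (A *ᵥ e a) (z b)).det := by
  simp only [mulVec, dotProduct, ten, det_apply', of_apply, Finset.mul_sum]
  rw [Finset.sum_comm]
  refine Finset.sum_congr rfl fun τ _ => ?_
  rw [Finset.prod_univ_sum, Fintype.piFinset_univ, Finset.mul_sum]
  refine Finset.sum_congr rfl fun z' _ => ?_
  rw [Finset.prod_mul_distrib]
  ring

/-- `e a` a basis of `Y`, `w z = det (e a (z b))`. By multilinearity
`(ten d A *ᵥ w) z = det ((A *ᵥ e a) (z b))`; `mem_span_of_minors`. -/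
theorem plk (σ : E →+* E) (Ψ : Matrix J J E) (Y : Submodule E (J → E))
    (hY : ∀ x ∈ Y, ∃ x' ∈ Y, (fun j => σ (x j)) = Ψ *ᵥ x') :
    ∃ (d : ℕ) (w : (Fin d → J) → E) (μ : E), (fun z => σ (w z)) = μ • ten d Ψ *ᵥ w ∧
      ∀ A : Matrix J J E, ten d A *ᵥ w = w → ∀ x ∈ Y, A *ᵥ x ∈ Y := by
  let b := Module.finBasis E Y
  let e : Fin (Module.finrank E Y) → J → E := fun a => b a
  have he : LinearIndependent E e := b.linearIndependent.map' Y.subtype Y.ker_subtype
  have hsp : Submodule.span E (Set.range e) = Y := by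
    rw [show Set.range e = Y.subtype '' Set.range b from Set.range_comp _ _, ← Submodule.map_span,
      b.span_eq, Submodule.map_subtype_top]
  have h1 : ∀ a, ∃ c : Fin (Module.finrank E Y) → E,
      (fun j => σ (e a j)) = Ψ *ᵥ ∑ i, c i • e i := by
    intro a
    obtain ⟨x, hx, h⟩ := hY (e a) (b a).2
    obtain ⟨c, rfl⟩ := (Submodule.mem_span_range_iff_exists_fun E).1 (hsp.ge hx)
    exact ⟨c, h⟩
  choose N hN using h1
  refine ⟨_, fun z => (Matrix.of fun a b => e a (z b)).det, (Matrix.of N).det, ?_,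
    fun A hA x hx => ?_⟩
  · funext z
    rw [Pi.smul_apply, plk_ten, smul_eq_mul, ← det_mul, σ.map_det]
    congr 1
    ext a c
    have h := congrFun (hN a) (z c)
    rw [mulVec_sum] at h
    simpa [Matrix.mul_apply, mulVec_smul] using h
  · have h2 : Submodule.span E (Set.range e) ≤ Y.comap A.mulVecLin := by
      refine Submodule.span_le.2 ?_
      rintro _ ⟨a, rfl⟩
      refine hsp.le (mem_span_of_minors e (fun a => A *ᵥ e a) he (fun z => ?_) a)
      rw [← plk_ten, hA]
    exact h2 (hsp.ge hx)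

end Pool.Agent.Lib.MP_6adaea_nt.W
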