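import Pool.Agent.Lib.MP_6adaea_nt.W.Fin1
import Pool.Agent.Lib.MP_6adaea_nt.W.DLd
import Pool.Agent.Lib.MP_6adaea_nt.W.Plk
import Pool.Agent.Lib.MP_6adaea_nt.W.FinE1

/-!
A double point.
-/

set_option linter.unusedSectionVars false

namespace Pool.Agent.Lib.MP_6adaea_nt.W
open Matrix Polynomial G U
open scoped TensorProduct

variable {k C E : Type} [Field k] [Finite k] [Field C] [Field E] [Algebra k C] [Algebra k E]
  [Algebra C E] [IsScalarTower k C E] [IsAlgClosed C] [IsAlgClosed E] {θ : E} {r : ℕ} {g : ℕ → E}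
  {n J : Type} [Fintype n] [DecidableEq n] [Fintype J] [DecidableEq J]

section
variable {R : Type} [CommRing R] (M : ℕ) (z : R)

private theorem fine_cong {X' Y : Matrix n n R[X]} (Z : Matrix n n R[X])
    (h : X' = Y + ((X - Polynomial.C z) * (X - Polynomial.C z)) • Z) :
    rep M (fun _ => z) X' = rep M (fun _ => z) Y :=
  rep_congr M fun i j => ⟨Z i j, by
    rw [h, Matrix.add_apply, add_sub_cancel_left, Matrix.smul_apply, smul_eq_mul]
    rfl⟩

private theorem fine_tay (s : Matrix n n R[X]) : ∃ s1 : Matrix n n R[X],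
    s = (s.map (eval z)).map Polynomial.C + (X - Polynomial.C z) • s1 := by
  choose s1 h using fun i j => X_sub_C_dvd_sub_C_eval (a := z) (p := s i j)
  refine ⟨Matrix.of s1, Matrix.ext fun i j => ?_⟩
  rw [Matrix.add_apply, Matrix.smul_apply, smul_eq_mul, Matrix.of_apply, ← h]
  simp

private theorem fine_mul (A B : Matrix n n R) :
    (A * B).map Polynomial.C = A.map Polynomial.C * B.map (Polynomial.C : R → R[X]) :=
  Matrix.map_mul (f := (Polynomial.C : R →+* R[X]))

private theorem fine_add (A B : Matrix n n R) :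
    (A + B).map Polynomial.C = A.map Polynomial.C + B.map (Polynomial.C : R → R[X]) :=
  Matrix.map_add _ (map_add (Polynomial.C : R →+* R[X])) A B

theorem dual_add (A B : Matrix n n R) :
    rep M (fun _ => z) (1 + (X - Polynomial.C z) • (A + B).map Polynomial.C) =
      rep M (fun _ => z) (1 + (X - Polynomial.C z) • A.map Polynomial.C) *
        rep M (fun _ => z) (1 + (X - Polynomial.C z) • B.map Polynomial.C) := by
  rw [← rep_mul]
  refine (fine_cong M z (A.map Polynomial.C * B.map Polynomial.C) ?_).symm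
  simp only [fine_add, Matrix.add_mul, Matrix.mul_add, Matrix.one_mul, Matrix.mul_one,
    Matrix.smul_mul, Matrix.mul_smul]
  module

/-- `s ≡ s z` modulo `X - z` -/
theorem dual_comm (s : Matrix n n R[X]) (A : Matrix n n R) :
    rep M (fun _ => z) s *
        rep M (fun _ => z) (1 + (X - Polynomial.C z) • (A * s.map (eval z)).map Polynomial.C) =
      rep M (fun _ => z) (1 + (X - Polynomial.C z) • (s.map (eval z) * A).map Polynomial.C) *
        rep M (fun _ => z) s := by
  rw [← rep_mul, ← rep_mul]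
  obtain ⟨s1, h⟩ := fine_tay z s
  generalize s.map (eval z) = s0 at h ⊢
  subst h
  refine fine_cong M z (s1 * A.map Polynomial.C * s0.map Polynomial.C -
    s0.map Polynomial.C * A.map Polynomial.C * s1) ?_
  simp only [fine_mul, Matrix.add_mul, Matrix.mul_add, Matrix.one_mul, Matrix.mul_one,
    Matrix.smul_mul, Matrix.mul_smul, Matrix.mul_assoc]
  module

/-- first order Taylor expansion -/
theorem dual_split (s : Matrix n n R[X]) {P : Matrix n n R} (hP : s.map (eval z) * P = 1) :
    ∃ B : Matrix n n R, rep M (fun _ => z) s =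
      rep M (fun _ => z) ((s.map (eval z)).map Polynomial.C) *
        rep M (fun _ => z) (1 + (X - Polynomial.C z) • B.map Polynomial.C) := by
  obtain ⟨s1, h⟩ := fine_tay z s
  obtain ⟨s2, h2⟩ := fine_tay z s1
  refine ⟨P * s1.map (eval z), ?_⟩
  rw [← rep_mul]
  refine fine_cong M z s2 ?_
  rw [Matrix.mul_add, Matrix.mul_one, Matrix.mul_smul, ← fine_mul, ← Matrix.mul_assoc, hP,
    Matrix.one_mul]
  generalize s.map (eval z) = s0 at h ⊢
  generalize s1.map (eval z) = s10 at h2 ⊢
  rw [h, h2]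
  module

end

/-- `exists_dual`; `Y` the span of the `U B *ᵥ y` satisfies the hypothesis of `plk` for
`Ψ = ρ (T.Ph)` (`dual_split`, `dual_comm`, `dual_add`); `fin1` for `PRep.exists_ten` with `Θ = 1`;
`dl_dual`, `generic` (`uni_Ph`, `uni_rep`); `fin_alg`;
`elc a b c0 c1 = C (1 + single (c0 + c1 * t)) * (1 + (X - t) • C (single c1))`; `stab_fix`. -/
theorem Tri.finE (T : Tri k C θ) (hr : 2 ≤ r) (hD : T.Dr r g) {t : C} (ht : Transcendental k t)
    {M : ℕ} {y : JJ (Fin r) M → E} {μ : E}
    (hy : (fun j => T.F (y j)) = μ • rep M (fun _ => algebraMap C E t) (Phit k θ r g T.c) *ᵥ y)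
    {s : Matrix (Fin r) (Fin r) E[X]} (hs : s.det = 1) :
    rep M (fun _ => algebraMap C E t) s *ᵥ y = y := by
  by_cases hy0 : y = 0
  · rw [hy0, Matrix.mulVec_zero]
  have hr0 : 0 < r := by omega
  obtain ⟨ρ, β, hρ, hβ⟩ := exists_dual (Fin r) M t
  have Ua : ∀ A B : Matrix (Fin r) (Fin r) E, ap β (A + B) = ap β A * ap β B := fun A B => by
    rw [hβ, hβ, hβ, dual_add]
  have U0 : ap β (0 : Matrix (Fin r) (Fin r) E) = 1 := by
    rw [hβ, Matrix.map_zero _ (map_zero _), smul_zero, add_zero, rep_one]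
  have hc : ∀ s A : Matrix (Fin r) (Fin r) E,
      ap ρ.P s * ap β (A * s) = ap β (s * A) * ap ρ.P s := fun s A => by
    have e : (s.map Polynomial.C).map (eval (algebraMap C E t)) = s := by
      ext i j
      simp
    have := dual_comm M (algebraMap C E t) (s.map Polynomial.C) A
    rw [e] at this
    rw [hβ, hβ, hρ, this]
  have hP : T.Ph r g t * (T.Ph r g t)⁻¹ = 1 :=
    Matrix.mul_nonsing_inv _ (T.Ph_det hr0 hD.one t).isUnit
  obtain ⟨B0, hB0⟩ := dual_split M (algebraMap C E t) (Phit k θ r g T.c) hP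
  rw [← hρ, ← hβ] at hB0
  change _ = ap ρ.P (T.Ph r g t) * _ at hB0
  obtain ⟨d, w, μ', hw, hst⟩ := plk (T.F : E →+* E) (ap ρ.P (T.Ph r g t))
    (Submodule.span E (Set.range fun B : Matrix (Fin r) (Fin r) E => ap β B *ᵥ y)) fun x hx => by
      induction hx using Submodule.span_induction with
      | mem x hx =>
        obtain ⟨B, rfl⟩ := hx
        refine ⟨μ • ap β ((T.Ph r g t)⁻¹ * B.map T.F * T.Ph r g t + B0) *ᵥ y,
          Submodule.smul_mem _ _ (Submodule.subset_span ⟨_, rfl⟩), ?_⟩
        have e1 : (fun j => (T.F : E →+* E) ((ap β B *ᵥ y) j)) =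
            (ap β B).map T.F *ᵥ fun j => T.F (y j) :=
          funext fun j => RingHom.map_mulVec (T.F : E →+* E) _ _ j
        rw [e1, ap_map, hy, hB0, Ua, Matrix.mulVec_smul, Matrix.mulVec_smul,
          Matrix.mulVec_mulVec, Matrix.mulVec_mulVec, ← Matrix.mul_assoc, ← Matrix.mul_assoc, hc,
          ← Matrix.mul_assoc, hP, Matrix.one_mul]
      | zero => exact ⟨0, zero_mem _, funext fun j => by simp⟩
      | add x x' _ _ h h' =>
        obtain ⟨u, hu, e⟩ := h
        obtain ⟨u', hu', e'⟩ := h'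
        refine ⟨u + u', add_mem hu hu', ?_⟩
        rw [Matrix.mulVec_add, ← e, ← e']
        exact funext fun j => map_add _ _ _
      | smul c x _ h =>
        obtain ⟨u, hu, e⟩ := h
        refine ⟨T.F c • u, Submodule.smul_mem _ _ hu, ?_⟩
        rw [Matrix.mulVec_smul, ← e]
        exact funext fun j => map_mul _ _ _
  obtain ⟨ρ', hρ'⟩ := ρ.exists_ten d
  have hΘ : Aux k θ g t ρ' 1 :=
    ⟨fun A => by rw [Matrix.one_mul, Matrix.mul_one], fun i j => by
      rw [Matrix.one_apply]
      split_ifs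
      exacts [one_mem _, zero_mem _], fun V a _ _ => uni_one⟩
  have hgen := T.generic ht (β := β) (Φ := T.Ph r g t)
    (Ψ := rep M (fun _ => algebraMap C E t) (Phit k θ r g T.c))
    (fun A => by rw [hβ, hβ]; exact dual_comm M _ _ A)
    (fun V a m hV ha => by
      obtain ⟨k1, -, k3⟩ := T.ne_of_root ht ha
      exact ⟨T.uni_Ph hr0 hD hV k1 k3, uni_rep (Phit_mem hD.one V.O (T.co_ge hD.fix hV k1) _)
        (fun _ => hV.1.ge_const t) (fun _ => hV.det_Phit hr0 hD.one k3) M⟩)
    hy (T.dl_dual hr0 hD ht hy0 hy fun B => hβ C B)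
  obtain ⟨p, hp⟩ := CharP.exists k
  have : Fact p.Prime := ⟨CharP.char_is_prime k p⟩
  have : CharP E p := charP_of_injective_algebraMap (algebraMap k E).injective p
  have : Nontrivial (Fin r) := Fin.nontrivial_iff_two_le.2 hr
  refine stab_fix (F := E) E (fun a b hab c0 c1 => ?_) (by rw [hs, sub_self]; exact dvd_zero _)
  have key := fun c => fin_alg p (fun A : Matrix (Fin r) (Fin r) E => ap ρ.P A) (fun B => ap β B)
    (ρ.one E) (ρ.mul E) U0 Ua hc y (fun s hs => hst _ (by
      rw [← hρ']
      exact T.fin1 hr hD ht ρ' hΘ (by rw [Matrix.mul_one, hρ']; exact hw) hs)) hgen hab c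
  have e1 : (1 + single a b (c0 + c1 * algebraMap C E t)).map Polynomial.C =
      el a b (Polynomial.C (c0 + c1 * algebraMap C E t)) := by
    rw [fine_add, Matrix.map_one _ (map_zero _) (map_one _), el, Matrix.map_single _ _ _ _]
  have e2 : 1 + (X - Polynomial.C (algebraMap C E t)) • (single a b c1).map Polynomial.C =
      el a b ((X - Polynomial.C (algebraMap C E t)) * Polynomial.C c1) := by
    rw [el, Matrix.map_single _ _ _ _, smul_single, smul_eq_mul]
  have e3 : elc E a b c0 c1 = el a b (Polynomial.C (c0 + c1 * algebraMap C E t)) *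
      el a b ((X - Polynomial.C (algebraMap C E t)) * Polynomial.C c1) := by
    rw [el_mul hab, elc]
    congr 1
    simp only [Algebra.algebraMap_self, RingHom.id_apply, map_add, map_mul]
    ring
  rw [e3, rep_mul, ← e1, ← e2, ← hρ, ← hβ, ← Matrix.mulVec_mulVec, (key c1).1, (key _).2]

end Pool.Agent.Lib.MP_6adaea_nt.W
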