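import Pool.Agent.Lib.MP_6adaea_nt.W.PhiA

/-!
Twisting by a scalar.
-/

set_option linter.unusedSectionVars false

namespace Pool.Agent.Lib.MP_6adaea_nt.W
open Matrix Polynomial G U
open scoped TensorProduct

variable {k C E : Type} [Field k] [Finite k] [Field C] [Field E] [Algebra k C] [Algebra k E]
  [Algebra C E] [IsScalarTower k C E] [IsAlgClosed C] [IsAlgClosed E] {θ : E} {r : ℕ} {g : ℕ → E}
  {n J : Type} [Fintype n] [DecidableEq n] [Fintype J] [DecidableEq J]

section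
variable {K : Type} [Field K] [Algebra k K] {θ : K} {g : ℕ → K} {u : K}

theorem twist_pow (u : K) (i : ℕ) : u * u ^ (Nat.card k ^ i - 1) = u ^ Nat.card k ^ i := by
  have : 0 < Nat.card k ^ i := pow_pos Nat.card_pos i
  rw [← pow_succ', Nat.sub_add_cancel this]

theorem twist_Phi (hu : u ≠ 0) :
    (diagonal fun i : Fin r => Polynomial.C (u ^ Nat.card k ^ ((i : ℕ) + 1))) *
        Phi θ r (fun i => g i * u ^ (Nat.card k ^ i - 1)) =
      Phi θ r g * diagonal fun i : Fin r => Polynomial.C (u ^ Nat.card k ^ (i : ℕ)) := by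
  ext1 i j
  rw [diagonal_mul, mul_diagonal, Phi, Phi, of_apply, of_apply]
  have e : u ^ Nat.card k ^ r * (g r * u ^ (Nat.card k ^ r - 1))⁻¹ = (g r)⁻¹ * u := by
    rw [← twist_pow (k := k) u r]
    have := pow_ne_zero (Nat.card k ^ r - 1) hu
    field_simp
  split_ifs with h1 h2 h3
  · rw [h1, ← mul_assoc, ← C_mul, e, h2, pow_zero, pow_one, C_mul]
    ring
  · rw [h1, ← mul_assoc, ← C_mul, e, ← twist_pow (k := k) u j]
    simp only [C_mul]
    ring
  · rw [h3, mul_comm]
  · simp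

theorem Phit_twist (hu : u ≠ 0) (c : ℕ) :
    (diagonal fun i : Fin r => Polynomial.C (u ^ Nat.card k ^ (i + c))) *
        Phit k θ r (fun i => g i * u ^ (Nat.card k ^ i - 1)) c =
      Phit k θ r g c * diagonal fun i : Fin r => Polynomial.C (u ^ Nat.card k ^ (i : ℕ)) := by
  have hd : ∀ c : ℕ, pmap (frob k K : K →+* K)
      (diagonal fun i : Fin r => Polynomial.C (u ^ Nat.card k ^ (i + c))) =
      diagonal fun i : Fin r => Polynomial.C (u ^ Nat.card k ^ (i + (c + 1))) := by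
    intro c
    rw [pmap, diagonal_map (Polynomial.map_zero _)]
    congr 1
    funext i
    have := frob_pow_apply (k := k) 1 (u ^ Nat.card k ^ (i + c))
    rw [pow_one, pow_one] at this
    rw [map_C, RingHom.coe_coe, this, ← pow_mul, ← pow_succ, add_assoc]
  induction c with
  | zero => simp [Phit]
  | succ c ih =>
    have h0 := hd 0
    rw [Phit, Phit, ← Matrix.mul_assoc, ← hd, ← pmap_mul, ih, pmap_mul, Matrix.mul_assoc,
      Matrix.mul_assoc]
    congr 1
    simp only [add_zero, zero_add] at h0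
    rw [h0]
    exact twist_Phi (k := k) (θ := θ) (g := g) (r := r) hu

/-- `φ' x = u⁻¹ * φ (u * x)` -/
theorem endA_twist (hu : u ≠ 0) {φ : K →ₗ[k] K} (hφ : IsDr θ r g φ) (h : EndA φ) :
    ∃ φ' : K →ₗ[k] K, IsDr θ r (fun i => g i * u ^ (Nat.card k ^ i - 1)) φ' ∧ EndA φ' := by
  let φ' : K →ₗ[k] K := LinearMap.mulLeft k u⁻¹ ∘ₗ φ ∘ₗ LinearMap.mulLeft k u
  have e : ∀ x, φ' x = u⁻¹ * φ (u * x) := fun x => rfl
  have e' : ∀ x, u * φ' x = φ (u * x) := fun x => by rw [e, mul_inv_cancel_left₀ hu]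
  have hp : ∀ (m : ℕ) x, u * (φ' ^ m) x = (φ ^ m) (u * x) := by
    intro m
    induction m with
    | zero => simp
    | succ m ih =>
      intro x
      rw [pow_succ', pow_succ', Module.End.mul_apply, Module.End.mul_apply, e', ih]
  have ha : ∀ (a : k[X]) x, u * aeval φ' a x = aeval φ a (u * x) := by
    intro a x
    induction a using Polynomial.induction_on' with
    | add p q hp hq => rw [map_add, map_add, LinearMap.add_apply, LinearMap.add_apply, mul_add, hp, hq]
    | monomial m c =>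
      rw [aeval_monomial, aeval_monomial, Module.End.mul_apply, Module.End.mul_apply,
        Module.algebraMap_end_apply, Module.algebraMap_end_apply, mul_smul_comm, hp]
  refine ⟨φ', fun x => ?_, fun m w hw => ?_⟩
  · apply mul_left_cancel₀ hu
    rw [e', hφ, mul_add, Finset.mul_sum, mul_left_comm]
    congr 1
    refine Finset.sum_congr rfl fun i _ => ?_
    rw [mul_pow, ← twist_pow (k := k) u i]
    ring
  · have hs : ∀ y, ∑ i ∈ Finset.range m, u * w i * u⁻¹ ^ Nat.card k ^ i * y ^ Nat.card k ^ i =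
        u * ∑ i ∈ Finset.range m, w i * (u⁻¹ * y) ^ Nat.card k ^ i := by
      intro y
      rw [Finset.mul_sum]
      refine Finset.sum_congr rfl fun i _ => ?_
      rw [mul_pow]
      ring
    obtain ⟨a, h1⟩ := h m (fun i => u * w i * u⁻¹ ^ Nat.card k ^ i) fun y => by
      rw [hs, hs, ← e', ← hw, e, mul_inv_cancel_left₀ hu]
    refine ⟨a, fun x => mul_left_cancel₀ hu ?_⟩
    rw [ha, ← h1, hs, inv_mul_cancel_left₀ hu]

end

/-- `γ` permutes the finitely many roots of `g r * X ^ (q ^ r - 1) - 1` -/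
theorem Tri.exists_norm (T : Tri k C θ) (hr : 0 < r) (hg : g r ≠ 0) (hfix : ∀ i, T.γ (g i) = g i)
    (hE : ∃ φ : E →ₗ[k] E, IsDr θ r g φ ∧ EndA φ) : ∃ (u : E) (j : ℕ), u ≠ 0 ∧
      (T.pow j).γ u = u ∧ (T.pow j).Dr r fun i => g i * u ^ (Nat.card k ^ i - 1) := by
  classical
  have hq : 0 < Nat.card k ^ r - 1 :=
    Nat.sub_pos_of_lt (Nat.one_lt_pow hr.ne' (two_le_card (K := k)))
  obtain ⟨u, hu⟩ := IsAlgClosed.exists_pow_nat_eq (g r)⁻¹ hq
  have hu0 : u ≠ 0 := by
    rintro rfl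
    rw [zero_pow hq.ne'] at hu
    exact inv_ne_zero hg hu.symm
  have hm : ∀ m : ℕ, (T.γ ^ m) u ∈ (nthRoots (Nat.card k ^ r - 1) (g r)⁻¹).toFinset := by
    intro m
    rw [Multiset.mem_toFinset, mem_nthRoots hq, ← map_pow, hu, map_inv₀, T.pow_fix (hfix r)]
  obtain ⟨a, b, hab, h⟩ := Set.Finite.exists_lt_map_eq_of_forall_mem
    (f := fun m : ℕ => (T.γ ^ m) u) hm (Finset.finite_toSet _)
  obtain ⟨j, rfl⟩ := Nat.exists_eq_add_of_lt hab
  have hj : (T.γ ^ (j + 1)) u = u := by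
    apply (T.γ ^ a).injective
    rw [← AlgEquiv.mul_apply, ← pow_add, ← add_assoc]
    exact h.symm
  obtain ⟨φ, hφ, hE⟩ := hE
  refine ⟨u, j, hu0, hj, ?_, fun i => ?_, endA_twist hu0 hφ hE⟩
  · rw [hu, mul_inv_cancel₀ hg]
  · change (T.γ ^ (j + 1)) _ = _
    rw [map_mul, map_pow, hj, T.pow_fix (hfix i)]

end Pool.Agent.Lib.MP_6adaea_nt.W
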