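import Pool.Agent.Lib.MP_6adaea_nt.W.FinE
import Pool.Agent.Lib.MP_6adaea_nt.W.FinA
import Pool.Agent.Lib.MP_6adaea_nt.W.Twist

/-!
The theorem over the big field.
-/

set_option linter.unusedSectionVars false

namespace Pool.Agent.Lib.MP_6adaea_nt.W
open Matrix Polynomial G U
open scoped TensorProduct

variable {k C E : Type} [Field k] [Finite k] [Field C] [Field E] [Algebra k C] [Algebra k E]
  [Algebra C E] [IsScalarTower k C E] [IsAlgClosed C] [IsAlgClosed E] {θ : E} {r : ℕ} {g : ℕ → E}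
  {n J : Type} [Fintype n] [DecidableEq n] [Fintype J] [DecidableEq J]

/-- `exists_norm`, `tw_eq`, `tw_rep`. With `D = diagonal (u ^ q ^ i)` and its inverse `D'` the vector
`rep D' *ᵥ y` satisfies the equation for the twisted module (`Phit_twist`, `rep_map`); apply
`finE` or `finA` to `D' * s * D`. -/
theorem Tri.fin (T : Tri k C θ) (hr : 2 ≤ r) (hg : g r ≠ 0) (hfix : ∀ i, T.γ (g i) = g i)
    (hE : ∃ φ : E →ₗ[k] E, IsDr θ r g φ ∧ EndA φ) {t : Fin 2 → C}
    (ht : ∀ i, Transcendental k (t i))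
    (h : t 0 = t 1 ∨ ∀ u : ℕ, t 1 ≠ t 0 ^ Nat.card k ^ u ∧ t 0 ≠ t 1 ^ Nat.card k ^ u)
    {M : ℕ} {y : JJ (Fin r) M → E} {μ : E}
    (hy : (fun j => T.F (y j)) = μ • rep M (fun i => algebraMap C E (t i)) (Phit k θ r g T.c) *ᵥ y)
    {s : Matrix (Fin r) (Fin r) E[X]} (hs : s.det = 1) :
    rep M (fun i => algebraMap C E (t i)) s *ᵥ y = y := by
  obtain ⟨u, j, hu, hγ, hD⟩ := T.exists_norm (by omega) hg hfix hE
  obtain ⟨μ', h1⟩ := T.tw_eq hy j
  rw [T.tw_rep hfix] at h1
  generalize T.pow j = T' at hγ hD h1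
  let d : E → ℕ → Matrix (Fin r) (Fin r) E[X] := fun x c =>
    diagonal fun i : Fin r => Polynomial.C (x ^ Nat.card k ^ (i + c))
  have hd : ∀ x x' c, x * x' = 1 → d x c * d x' c = 1 := fun x x' c h => by
    simp only [d, diagonal_mul_diagonal, ← map_mul, ← mul_pow, h, one_pow, map_one, diagonal_one]
  have h2 := hd _ _ 0 (mul_inv_cancel₀ hu)
  have h3 := hd _ _ 0 (inv_mul_cancel₀ hu)
  have h4 : pmap (T'.F : E →+* E) (d u⁻¹ 0) = d u⁻¹ T'.c := by
    ext1 a b
    by_cases h : a = b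
    · subst h
      simp only [d, pmap, map_apply, diagonal_apply_eq, map_C, add_zero, RingHom.coe_coe,
        Tri.F_apply, Tri.Q, map_pow T'.γ, map_inv₀, hγ, ← pow_mul, ← pow_add]
    · simp [d, pmap, h]
  have h5 : d u⁻¹ T'.c * Phit k θ r g T'.c =
      Phit k θ r (fun i => g i * u ^ (Nat.card k ^ i - 1)) T'.c * d u⁻¹ 0 := by
    have := Phit_twist (k := k) (θ := θ) (r := r) (g := g) hu T'.c
    change d u T'.c * _ = _ * d u 0 at this
    calc _ = d u⁻¹ T'.c * (Phit k θ r g T'.c * d u 0) * d u⁻¹ 0 := by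
          rw [Matrix.mul_assoc, Matrix.mul_assoc, h2, Matrix.mul_one]
      _ = _ := by
          rw [← this, ← Matrix.mul_assoc, hd _ _ _ (inv_mul_cancel₀ hu), Matrix.one_mul]
  have h6 : (fun l => T'.F ((rep M (fun i => algebraMap C E (t i)) (d u⁻¹ 0) *ᵥ y) l)) =
      μ' • rep M (fun i => algebraMap C E (t i))
        (Phit k θ r (fun i => g i * u ^ (Nat.card k ^ i - 1)) T'.c) *ᵥ
          (rep M (fun i => algebraMap C E (t i)) (d u⁻¹ 0) *ᵥ y) := by
    rw [mulVec_mulVec, ← rep_mul, ← h5, rep_mul, ← mulVec_mulVec, ← mulVec_smul, ← h1, ← h4]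
    ext l
    have := RingHom.map_mulVec (T'.F : E →+* E)
      (rep M (fun i => algebraMap C E (t i)) (d u⁻¹ 0)) y l
    rw [rep_map] at this
    simpa [Function.comp_def] using this
  have h7 : (d u⁻¹ 0 * s * d u 0).det = 1 := by
    rw [det_mul, det_mul, hs, mul_one, ← det_mul, h3, det_one]
  have h8 : rep M (fun i => algebraMap C E (t i)) (d u⁻¹ 0 * s * d u 0) *ᵥ
      (rep M (fun i => algebraMap C E (t i)) (d u⁻¹ 0) *ᵥ y) =
      rep M (fun i => algebraMap C E (t i)) (d u⁻¹ 0) *ᵥ y := by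
    rcases h with h | h
    · have e : (fun i => algebraMap C E (t i)) = fun _ => algebraMap C E (t 0) := by
        ext i
        fin_cases i
        · rfl
        · exact congrArg _ h.symm
      rw [e] at h6 ⊢
      exact T'.finE hr hD (ht 0) h6 h7
    · exact T'.finA hr hD ht h h6 h7
  have h9 := congrArg (rep M (fun i => algebraMap C E (t i)) (d u 0) *ᵥ ·) h8
  simp only [mulVec_mulVec, ← rep_mul, ← Matrix.mul_assoc, h2, Matrix.one_mul, rep_one,
    one_mulVec] at h9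
  rwa [Matrix.mul_assoc, h2, Matrix.mul_one] at h9

end Pool.Agent.Lib.MP_6adaea_nt.W
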