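import Pool.Agent.Lib.MP_6adaea_nt.W.Step
import Pool.Agent.Lib.MP_6adaea_nt.W.Lim

/-!
Thick windows.
-/

set_option linter.unusedSectionVars false

namespace Pool.Agent.Lib.MP_6adaea_nt.W
open Matrix Polynomial G U
open scoped TensorProduct

variable {k kb K Ω : Type} [Field k] [Finite k] [Field kb] [Field K] [Field Ω] [Algebra k kb]
  [Algebra k K] [Algebra k Ω] [Algebra kb K] [Algebra kb Ω] [Algebra K Ω]
  [IsScalarTower k kb K] [IsScalarTower k kb Ω] [IsScalarTower k K Ω] [IsScalarTower kb K Ω]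
  [IsAlgClosed kb] [Algebra.IsAlgebraic k kb] [IsSepClosed Ω] [IsGalois K Ω] {θ : K} {r : ℕ}

/-- `f` splits over `kb`, and `τ` is not constant -/
theorem aeval_ne_zero {τ : PowerSeries kb} (h : ∀ c, τ ≠ PowerSeries.C c) {f : k[X]} (hf : f ≠ 0) :
    aeval τ f ≠ 0 := by
  intro h0
  have hi : IsIntegral kb τ := IsAlgebraic.isIntegral
    ⟨f.map (algebraMap k kb), Polynomial.map_ne_zero hf, by rwa [aeval_map_algebraMap]⟩
  obtain ⟨c, hc⟩ := minpoly.mem_range_of_degree_eq_one kb τ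
    (IsAlgClosed.degree_eq_one_of_irreducible kb (minpoly.irreducible hi))
  exact h c hc.symm

theorem exists_not_dvd {f : PowerSeries kb} (hf : f ≠ 0) :
    ∃ m : ℕ, ¬(PowerSeries.X : PowerSeries kb) ^ m ∣ f := by
  by_contra hc
  push Not at hc
  exact hf (PowerSeries.ext fun n => by
    rw [PowerSeries.X_pow_dvd_iff.mp (hc (n + 1)) n n.lt_succ_self, map_zero])

/-- Let `X ^ m0` not divide an entry of `rep e *ᵥ w - w`. If the claim fails apply `exists_step` with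
`m = n + m0` and `b` from `exists_level`, then `lim` for `Fr.pow 0`. -/
theorem thick (hB : Base kb θ) (hr : 2 ≤ r) (Fr : Frb k kb K Ω) (D : DM k Ω θ r)
    (hD : D.Fix Fr) (hE : U.EndA D.φ) {τ : Fin 2 → PowerSeries kb} (hτ : Adm k τ) {M : ℕ}
    {w : JJ (Fin r) M → PowerSeries kb} (hw : Moved τ w) :
    ∃ (m : ℕ) (b : k[X]), b.Monic ∧ D.NoThick Fr τ w m b := by
  by_contra hc
  push Not at hc
  obtain ⟨a, b, hab, c0, c1, hne⟩ := hw.2
  obtain ⟨j, hj⟩ := Function.ne_iff.mp (sub_ne_zero.mpr hne)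
  obtain ⟨m0, hm0⟩ := exists_not_dvd hj
  obtain ⟨W, hW, hstep⟩ := exists_step hB (by omega) hD M
  choose lv hlv hlv' using fun n : ℕ => exists_level (k := k) τ (2 * (n + m0) + 1)
  choose y hy1 hy2 hy3 using fun n : ℕ =>
    hstep τ w (n + m0) (lv n) hw.1 (hlv n) (hlv' n) (hc _ _ (hlv n))
  obtain ⟨n, hn⟩ := lim hB hr (Fr.pow 0) D
    ⟨by simpa [Frb.pow] using hD.1, fun i => by simpa [Frb.pow] using hD.2 i⟩ hE W (fun _ => τ) y hy1
    (fun n l l' => (pow_dvd_pow _ (by omega)).trans (hy2 n l l'))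
    (fun f hf i => (exists_not_dvd (aeval_ne_zero (hτ.1 i) hf)).imp fun _ h =>
      Filter.Eventually.of_forall fun _ => h)
    (hτ.2.imp (fun h _ => h) fun h u => by
      obtain ⟨m1, h1⟩ := exists_not_dvd (sub_ne_zero.mpr (h u).1)
      obtain ⟨m2, h2⟩ := exists_not_dvd (sub_ne_zero.mpr (h u).2)
      exact ⟨m1 + m2, fun _ => ⟨fun h => h1 ((pow_dvd_pow _ (by omega)).trans h),
        fun h => h2 ((pow_dvd_pow _ (by omega)).trans h)⟩⟩) m0
  exact hm0 (hy3 n m0 (by omega) hn a b hab c0 c1 j)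

end Pool.Agent.Lib.MP_6adaea_nt.W
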