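import Pool.Agent.Lib.MP_6adaea_nt.W.Defs
import Pool.Agent.Lib.MP_6adaea_nt.W.GT0

/-!
Irreducibility of invariant rank one families.
-/

set_option linter.unusedSectionVars false

namespace Pool.Agent.Lib.MP_6adaea_nt.W
open Matrix Polynomial G U

variable {F n : Type} [Field F] [Fintype n] [DecidableEq n]

/-- the semilinear operator as a bundled map -/
def GT1_t (σ : F ≃+* F) (P : Matrix n n F) : (n → F) →ₛₗ[(σ : F →+* F)] (n → F) where
  toFun := rw σ P
  map_add' x y := by
    simp only [rw, ← add_vecMul, Pi.add_apply, map_add]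
    rfl
  map_smul' c x := by
    simp only [rw, ← smul_vecMul, Pi.smul_apply, smul_eq_mul, map_mul]
    rfl

lemma GT1_dot (σ : F ≃+* F) (P : GL n F) (x w : n → F) :
    ((P⁻¹).val *ᵥ fun i => σ (x i)) ⬝ᵥ rw σ P.val w = σ (x ⬝ᵥ w) := by
  rw [rw, dotProduct_comm, dotProduct_mulVec, vecMul_vecMul, Units.mul_inv, vecMul_one]
  simp [dotProduct, mul_comm]

lemma GT1_surj (σ : F ≃+* F) (P : GL n F) : Function.Surjective (rw σ P.val) := fun y =>
  ⟨fun j => σ.symm ((y ᵥ* (P⁻¹).val) j), by simp [rw]⟩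

lemma GT1_surj' (σ : F ≃+* F) (P : GL n F) (y : n → F) :
    ∃ x : n → F, ((P⁻¹).val *ᵥ fun i => σ (x i)) = y :=
  ⟨fun j => σ.symm ((P.val *ᵥ y) j), by simp⟩

lemma GT1_inj (σ : F ≃+* F) (P : GL n F) : Function.Injective (rw σ P.val) := fun x y h => by
  have := congrArg (· ᵥ* (P⁻¹).val) h
  simp only [rw, vecMul_vecMul, Units.mul_inv, vecMul_one] at this
  exact funext fun j => σ.injective (congrFun this j)

/-- Work with covectors (`Irr.flip`): `τ = rw σ P` is a semilinear bijection of the row vectors,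
`τ' x = P⁻¹ *ᵥ σ x` one of the column vectors, `τ f ⬝ᵥ τ' x = σ (f ⬝ᵥ x)`. Call a subspace `W` of
row vectors stable if `(x ⬝ᵥ w) • f ∈ W` for `R x f`, `w ∈ W`; images of stable subspaces under `τ`
and `τ⁻¹` are stable subspaces. The set `K0` of `w` with `x ⬝ᵥ w = 0` for all `R x f`, `f ≠ 0`, is
mapped into itself by `τ`, and is not everything, so `K0 = ⊥` (`hS` with `N = 1`). Let `W ≠ ⊥` be stable and
`W0 ≤ W` a stable subspace of least positive dimension, `W j = τ^j W0` (same dimension, so again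
minimal: compare with the least positive dimension of all stable subspaces after replacing `W0`; or use
that `τ⁻¹` preserves stability). Choose `w j ∈ W j` and `R (x j) (f j)`, `f j ≠ 0`, `x j ⬝ᵥ w j ≠ 0`, so `f j ∈ W j`. If all
`W j` were different then `x j ⬝ᵥ w i = 0` for `i ≠ j` (else `f j ∈ W i ⊓ W j`), so the `w j` are
linearly independent, which is absurd. So `W i = W j` for some `i < j`, `τ^(j - i) W0 = W0`, `W0 = ⊤`. -/
theorem irr_of_smp (σ : F ≃+* F) (P : GL n F) (hS : Smp σ P.val)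
    (R : (n → F) → (n → F) → Prop)
    (hR : ∀ x f, R x f ↔ R ((P⁻¹).val *ᵥ fun i => σ (x i)) (rw σ P.val f))
    (h0 : ∃ x f, x ≠ 0 ∧ f ≠ 0 ∧ R x f) : Irr R := by
  refine Irr.flip (R := fun f x => R x f) fun U hU => ?_
  by_contra hc
  rw [not_or] at hc
  let τ := GT1_t σ P.val
  have τi : Function.Injective τ := GT1_inj σ P
  have τs : Function.Surjective τ := GT1_surj σ P
  let St : Submodule F (n → F) → Prop := fun W =>
    (∀ f x, R x f → ∀ w ∈ W, (x ⬝ᵥ w) • f ∈ W) ∧ W ≠ ⊥
  have h1 : ∀ W, St W → St (W.map τ) := by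
    refine fun W hW => ⟨fun f x hx => ?_, fun h => hW.2 ?_⟩
    · rintro _ ⟨w, hw, rfl⟩
      obtain ⟨f, rfl⟩ := GT1_surj σ P f
      obtain ⟨x, rfl⟩ := GT1_surj' σ P x
      refine ⟨_, hW.1 f x ((hR x f).2 hx) w hw, ?_⟩
      rw [LinearMap.map_smulₛₗ]
      exact congrArg (· • _) (GT1_dot σ P x w).symm
    · rw [← Submodule.comap_map_eq_of_injective τi W, h]
      exact LinearMap.ker_eq_bot.2 τi
  have h2 : ∀ W, St W → St (W.comap τ) := by
    refine fun W hW => ⟨fun f x hx w hw => ?_, fun h => hW.2 ?_⟩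
    · have := hW.1 _ _ ((hR x f).1 hx) _ hw
      rw [Submodule.mem_comap, LinearMap.map_smulₛₗ]
      exact (congrArg (fun c => c • τ f ∈ W) (GT1_dot σ P x w)).mp this
    · rw [← Submodule.map_comap_eq_of_surjective τs W, h, Submodule.map_bot]
  have h3 : ∀ W, Minimal St W → Minimal St (W.map τ) := by
    refine fun W hW => ⟨h1 W hW.1, fun W' hW' hle => ?_⟩
    refine Submodule.map_le_iff_le_comap.2 (hW.2 (h2 W' hW') ?_)
    rw [← Submodule.comap_map_eq_of_injective τi W]
    exact Submodule.comap_mono hle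
  let K : Submodule F (n → F) :=
    { carrier := {w | ∀ x f, R x f → f ≠ 0 → x ⬝ᵥ w = 0}
      zero_mem' := fun _ _ _ _ => dotProduct_zero _
      add_mem' := fun ha hb x f h h' => by
        rw [dotProduct_add, ha x f h h', hb x f h h', add_zero]
      smul_mem' := fun c w hw x f h h' => by rw [dotProduct_smul, hw x f h h', smul_zero] }
  have hK : K = ⊥ := by
    refine (hS 1 one_pos K fun w hw x f h h' => ?_).resolve_right fun h => ?_
    · obtain ⟨f, rfl⟩ := GT1_surj σ P f
      obtain ⟨x, rfl⟩ := GT1_surj' σ P x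
      rw [Function.iterate_one, GT1_dot, hw x f ((hR x f).2 h) ?_, map_zero]
      rintro rfl
      exact h' (map_zero τ)
    · obtain ⟨x, f, hx, hf, h'⟩ := h0
      refine hx (funext fun i => ?_)
      have : Pi.single i 1 ∈ K := h ▸ Submodule.mem_top
      simpa using this x f h' hf
  have h4 : ∀ W, St W → ∃ w ∈ W, ∃ x f, R x f ∧ f ≠ 0 ∧ x ⬝ᵥ w ≠ 0 := fun W hW => by
    by_contra h
    push Not at h
    exact hW.2 (eq_bot_iff.2 fun w hw => hK ▸ fun x f a b => h w hw x f a b)
  obtain ⟨W0, hle, hW0⟩ := exists_minimal_le_of_wellFoundedLT St U ⟨hU, hc.1⟩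
  have h5 : ∀ j, Minimal St ((Submodule.map τ)^[j] W0) := fun j => by
    induction j with
    | zero => exact hW0
    | succ j ih => rw [Function.iterate_succ_apply']; exact h3 _ ih
  have h6 : ∀ N, 0 < N → (Submodule.map τ)^[N] W0 ≠ W0 := fun N hN h => by
    have h7 : ∀ j, ∀ x ∈ W0, (rw σ P.val)^[j] x ∈ (Submodule.map τ)^[j] W0 := fun j x hx => by
      induction j with
      | zero => exact hx
      | succ j ih =>
        rw [Function.iterate_succ_apply', Function.iterate_succ_apply']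
        exact Submodule.mem_map_of_mem (f := τ) ih
    rcases hS N hN W0 fun x hx => h ▸ h7 N x hx with h8 | h8
    · exact hW0.1.2 h8
    · exact hc.2 (eq_top_iff.2 (h8 ▸ hle))
  have h7 : ∀ i j, i < j → (Submodule.map τ)^[i] W0 ≠ (Submodule.map τ)^[j] W0 := by
    intro i j hij h
    obtain ⟨N, rfl⟩ := Nat.exists_eq_add_of_lt hij
    rw [add_assoc, Function.iterate_add_apply] at h
    exact h6 (N + 1) N.succ_pos (((Submodule.map_injective_of_injective τi).iterate i) h).symm
  choose w hw x f hxf hf hx using fun j => h4 _ (h5 j).1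
  have h8 : ∀ j W, St W → ∀ v ∈ W, x j ⬝ᵥ v ≠ 0 → f j ∈ W := fun j W hW v hv h =>
    (W.smul_mem_iff h).1 (hW.1 _ _ (hxf j) v hv)
  have h9 : ∀ i j, i ≠ j → x j ⬝ᵥ w i = 0 := fun i j hij => by
    by_contra h
    have h10 : St ((Submodule.map τ)^[i] W0 ⊓ (Submodule.map τ)^[j] W0) :=
      ⟨fun f x h v hv => ⟨(h5 i).1.1 f x h v hv.1, (h5 j).1.1 f x h v hv.2⟩, fun h' => hf j
        ((Submodule.eq_bot_iff _).1 h' _
          ⟨h8 j _ (h5 i).1 _ (hw i) h, h8 j _ (h5 j).1 _ (hw j) (hx j)⟩)⟩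
    have h11 : (Submodule.map τ)^[i] W0 = (Submodule.map τ)^[j] W0 :=
      le_antisymm (((h5 i).2 h10 inf_le_left).trans inf_le_right)
        (((h5 j).2 h10 inf_le_right).trans inf_le_left)
    rcases lt_or_gt_of_ne hij with h' | h'
    · exact h7 i j h' h11
    · exact h7 j i h' h11.symm
  refine Module.Finite.not_linearIndependent_of_infinite (R := F) w
    (linearIndependent_iff'.2 fun s c h j hj => ?_)
  have h10 := congrArg (x j ⬝ᵥ ·) h
  simp only [dotProduct_sum, dotProduct_smul, dotProduct_zero] at h10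
  rw [Finset.sum_eq_single_of_mem j hj fun i _ hi => by rw [h9 i j hi, smul_zero]] at h10
  exact (smul_eq_zero.1 h10).resolve_right (hx j)

end Pool.Agent.Lib.MP_6adaea_nt.W
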