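import Pool.Agent.Lib.MP_6adaea_nt.W.GT0

/-!
A full centre gives all transvections.
-/

set_option linter.unusedSectionVars false

namespace Pool.Agent.Lib.MP_6adaea_nt.W
open Matrix

variable {F n : Type} [Field F] [Fintype n] [DecidableEq n]

theorem GT3_move {R : (n → F) → (n → F) → Prop} (h : TS R) {z y k : n → F}
    (hz : ∀ f, f ⬝ᵥ z = 0 → R z f) (hy : R y k) :
    ∀ f, f ⬝ᵥ (z + (k ⬝ᵥ z) • y) = 0 → R (z + (k ⬝ᵥ z) • y) f := by
  intro f hf
  rw [dotProduct_add, dotProduct_smul, smul_eq_mul] at hf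
  have h1 : R z (f + (f ⬝ᵥ y) • k) := hz _ (by
    rw [add_dotProduct, smul_dotProduct, smul_eq_mul, mul_comm, hf])
  have h2 := h.conj h1 hy 1
  rwa [one_mul, one_mul, add_dotProduct, smul_dotProduct, h.orth hy, smul_zero, add_zero,
    add_sub_cancel_right] at h2

theorem GT3_smul {R : (n → F) → (n → F) → Prop} (h : TS R) {z : n → F} (c : F)
    (hz : ∀ f, f ⬝ᵥ z = 0 → R z f) : ∀ f, f ⬝ᵥ (c • z) = 0 → R (c • z) f := by
  intro f hf
  by_cases hc : c = 0
  · rw [hc, zero_smul]
    exact h.zl f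
  · rw [dotProduct_smul, smul_eq_mul, mul_eq_zero] at hf
    exact h.smull c (hz f (hf.resolve_left hc))

theorem GT3_sep {z z' : n → F} (hz : z ∉ Submodule.span F {z'}) :
    ∃ f : n → F, f ⬝ᵥ z' = 0 ∧ f ⬝ᵥ z = 1 := by
  obtain ⟨l, hl, hl'⟩ := Submodule.exists_dual_map_eq_bot_of_notMem hz inferInstance
  have e : ∀ w, l w = (fun i => l (Pi.single i 1)) ⬝ᵥ w := fun w => by
    conv_lhs => rw [pi_eq_sum_univ' w]
    simp only [map_sum, map_smul, smul_eq_mul, dotProduct, mul_comm]
  refine ⟨(l z)⁻¹ • fun i => l (Pi.single i 1), ?_, ?_⟩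
  · rw [smul_dotProduct, ← e, (Submodule.eq_bot_iff _).1 hl' _
      (Submodule.mem_map_of_mem (Submodule.mem_span_singleton_self z')), smul_zero]
  · rw [smul_dotProduct, ← e, smul_eq_mul, inv_mul_cancel₀ hl]

theorem GT3_two {a b : n} (hab : a ≠ b) (hu : (Finset.univ : Finset n) = {a, b}) {x f g : n → F}
    (hx : x a ≠ 0) (hf : f ≠ 0) (h1 : f ⬝ᵥ x = 0) (h2 : g ⬝ᵥ x = 0) : ∃ c : F, g = c • f := by
  have hm : ∀ i, i = a ∨ i = b := fun i => by
    have := Finset.mem_univ i
    rwa [hu, Finset.mem_insert, Finset.mem_singleton] at this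
  rw [dotProduct, hu, Finset.sum_pair hab] at h1 h2
  have hb : f b ≠ 0 := fun h0 => hf (funext fun i => by
    rcases hm i with rfl | rfl
    · rw [h0, zero_mul, add_zero] at h1
      exact (mul_eq_zero.1 h1).resolve_right hx
    · exact h0)
  refine ⟨g b / f b, funext fun i => ?_⟩
  rw [Pi.smul_apply, smul_eq_mul]
  rcases hm i with rfl | rfl
  · rw [div_mul_eq_mul_div, eq_div_iff hb]
    apply mul_right_cancel₀ hx
    linear_combination f b * h2 - g b * h1
  · field_simp

/-- Let `Z` be the set of `z` with `R z f` for all `f ⬝ᵥ z = 0`. If `z ∈ Z` and `R y h` then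
`z' = z + (c * h z) • y ∈ Z`: for `f' z' = 0` apply `conj` to `f = f' + (c * f' y) • h`. `Z` is a
subspace: for `z, z' ∈ Z` either `z ∈ span z'` or some `f` has `f z' = 0`, `f z = 1`. It is stable:
if `h u ≠ 0` then `u + (h u) • y ∈ Z`. -/
theorem TS.all_of_full {R : (n → F) → (n → F) → Prop} (h : TS R) {x : n → F} (hx : x ≠ 0)
    (hf : ∀ f, f ⬝ᵥ x = 0 → R x f) : ∀ y f, f ⬝ᵥ y = 0 → R y f := by
  let Z : Submodule F (n → F) :=
    { carrier := {z | ∀ f, f ⬝ᵥ z = 0 → R z f}
      zero_mem' := fun f _ => h.zl f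
      smul_mem' := fun c _ hz => GT3_smul h c hz
      add_mem' := fun {z z'} hz hz' => by
        by_cases hs : z ∈ Submodule.span F {z'}
        · obtain ⟨c, rfl⟩ := Submodule.mem_span_singleton.1 hs
          have := GT3_smul h (c + 1) hz'
          rwa [add_smul, one_smul] at this
        · obtain ⟨f, h1, h2⟩ := GT3_sep hs
          have := GT3_move h hz (hz' f h1)
          rwa [h2, one_smul] at this }
  rcases h.irr Z fun y k hR u hu => (Z.add_mem_iff_right hu).1 (GT3_move h hu hR) with h1 | h1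
  · exact absurd ((Submodule.eq_bot_iff _).1 h1 x hf) hx
  · exact fun y => (h1 ▸ Submodule.mem_top : y ∈ Z)

/-- if `card n = 2` and `R x f` with `x, f ≠ 0` then every covector that kills `x` is a multiple of
`f`; such a pair exists by irreducibility -/
theorem TS.all_of_two {R : (n → F) → (n → F) → Prop} (h : TS R) (hn : Fintype.card n = 2) :
    ∀ y f, f ⬝ᵥ y = 0 → R y f := by
  obtain ⟨a, b, hab, hu⟩ := Finset.card_eq_two.1 (Finset.card_univ.trans hn)
  by_cases he : ∃ x f, R x f ∧ x ≠ 0 ∧ f ≠ 0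
  · obtain ⟨x, f, hR, hx, hf⟩ := he
    refine h.all_of_full hx fun g hg => ?_
    have : ∃ c : F, g = c • f := by
      by_cases ha : x a = 0
      · refine GT3_two hab.symm (hu.trans (Finset.pair_comm a b)) (fun hb => hx (funext fun i => ?_))
          hf (h.orth hR) hg
        have : i = a ∨ i = b := by simpa [hu] using Finset.mem_univ i
        rcases this with rfl | rfl
        exacts [ha, hb]
      · exact GT3_two hab hu ha hf (h.orth hR) hg
    obtain ⟨c, rfl⟩ := this
    exact h.smulr c hR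
  · exfalso
    rcases h.irr (LinearMap.ker (LinearMap.proj (R := F) (φ := fun _ : n => F) a))
      fun x f hR u _ => (by
        by_cases hx : x = 0
        · rw [hx, smul_zero]
          exact zero_mem _
        · have hf : f = 0 := by_contra fun hf => he ⟨x, f, hR, hx, hf⟩
          rw [hf, zero_dotProduct, zero_smul]
          exact zero_mem _) with h1 | h1
    · have := (Submodule.eq_bot_iff _).1 h1 (Pi.single b 1) (by simp [hab])
      simpa using congrFun this b
    · have : Pi.single a (1 : F) ∈ LinearMap.ker (LinearMap.proj (R := F) (φ := fun _ : n => F) a) :=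
        h1 ▸ Submodule.mem_top
      simp at this

end Pool.Agent.Lib.MP_6adaea_nt.W
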