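import Pool.Agent.Lib.MP_6adaea_nt.W.Cen

/-!
Solutions at infinitely many places give a solution.
-/

set_option linter.unusedSectionVars false

namespace Pool.Agent.Lib.MP_6adaea_nt.W
open Matrix Polynomial G U
open scoped TensorProduct

variable {k C E : Type} [Field k] [Finite k] [Field C] [Field E] [Algebra k C] [Algebra k E]
  [Algebra C E] [IsScalarTower k C E] [IsAlgClosed C] [IsAlgClosed E] {θ : E} {r : ℕ} {g : ℕ → E}
  {n J : Type} [Fintype n] [DecidableEq n] [Fintype J] [DecidableEq J]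

theorem gen1_ge {σ : Type} {V : QVal E} (hV : V.HasRes C) {p : MvPolynomial σ E}
    (h : ∀ m ∈ p.support, V.ord (p.coeff m) = 0) (x : σ → C) :
    V.Ge (MvPolynomial.eval (fun s => algebraMap C E (x s)) p) 0 := by
  rw [MvPolynomial.eval_eq]
  refine QVal.Ge.sum fun m hm => (QVal.Ge.of_le (h m hm).ge).mul₀ ?_
  simpa only [map_prod, map_pow] using hV.ge_const (∏ i ∈ m.support, x i ^ m i)

theorem gen1_mul {V : QVal E} (hV : V.HasRes C) {a b : E} {a' b' : C}
    (ha : V.Gt (a - algebraMap C E a') 0) (hb : V.Gt (b - algebraMap C E b') 0) :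
    V.Gt (a * b - algebraMap C E (a' * b')) 0 := by
  have h1 : V.Ge b 0 := by simpa using hb.ge.add (hV.ge_const b')
  have := (h1.mul_gt₀ ha).add ((hV.ge_const a').mul_gt₀ hb)
  convert this using 1
  rw [map_mul]
  ring

theorem gen1_mulVec {V : QVal E} (hV : V.HasRes C) (B : Matrix J J C) {y : J → E} {w : J → C}
    (h : ∀ j, V.Gt (y j - algebraMap C E (w j)) 0) (j : J) :
    V.Gt ((B.map (algebraMap C E) *ᵥ y) j - algebraMap C E ((B *ᵥ w) j)) 0 := by
  simp only [mulVec, dotProduct, map_sum, ← Finset.sum_sub_distrib, Matrix.map_apply]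
  exact QVal.Gt.sum fun l _ => gen1_mul hV (by simp) (h l)

/-- the minors as polynomials in the two vectors -/
noncomputable def gen1_minor (β : Matrix J J (MvPolynomial (n × n) C)) (y : J → E) (s : C)
    (j j' : J) : MvPolynomial (Fin 4 × n) E :=
  (ap β (s • vecMulVec (fun i => MvPolynomial.X (0, i)) fun i => MvPolynomial.X (1, i)) *ᵥ
      fun l => MvPolynomial.C (y l)) j * MvPolynomial.C (y j') -
    (ap β (s • vecMulVec (fun i => MvPolynomial.X (0, i)) fun i => MvPolynomial.X (1, i)) *ᵥ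
      fun l => MvPolynomial.C (y l)) j' * MvPolynomial.C (y j)

theorem gen1_eval (β : Matrix J J (MvPolynomial (n × n) C)) (y : J → E) (s : C) (j j' : J)
    (z : Fin 4 × n → E) : MvPolynomial.eval z (gen1_minor β y s j j') =
      (ap β (algebraMap C E s • vecMulVec (fun i => z (0, i)) fun i => z (1, i)) *ᵥ y) j * y j' -
      (ap β (algebraMap C E s • vecMulVec (fun i => z (0, i)) fun i => z (1, i)) *ᵥ y) j' * y j := by
  have h := ap_map ((MvPolynomial.aeval z : MvPolynomial (Fin 4 × n) E →ₐ[E] E).restrictScalars C) β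
    (s • vecMulVec (fun i => MvPolynomial.X (0, i)) fun i => MvPolynomial.X (1, i))
  have e : (s • vecMulVec (fun i => MvPolynomial.X (0, i)) fun i => MvPolynomial.X (1, i) :
      Matrix n n (MvPolynomial (Fin 4 × n) E)).map
      ((MvPolynomial.aeval z : MvPolynomial (Fin 4 × n) E →ₐ[E] E).restrictScalars C) =
      algebraMap C E s • vecMulVec (fun i => z (0, i)) fun i => z (1, i) := by
    ext a b
    rw [Matrix.map_apply, Matrix.smul_apply, map_smul]
    simp [vecMulVec_apply, Algebra.smul_def]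
  rw [e] at h
  rw [← h]
  simp [gen1_minor, mulVec, dotProduct, MvPolynomial.aeval_eq_eval]

variable (T : Tri k C θ)

include T in
/-- Otherwise `1 = ∑ h i * f i` (Nullstellensatz over `E`). Take `a` outside the finite sets
`finV` of the coefficients of the `h i`. -/
theorem Tri.spec {σ I : Type} [Finite σ] (f : I → MvPolynomial σ E)
    (h : {a : C | ∃ V, Cen C V θ a ∧ ∃ x : σ → C,
      ∀ i, V.Gt (MvPolynomial.eval (fun s => algebraMap C E (x s)) (f i)) 0}.Infinite) :
    ∃ x : σ → E, ∀ i, MvPolynomial.eval x (f i) = 0 := by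
  by_cases htop : Ideal.span (Set.range f) = ⊤
  · exfalso
    obtain ⟨c, hc⟩ := Finsupp.mem_ideal_span_range_iff_exists_finsupp.mp
      ((Ideal.eq_top_iff_one _).mp htop)
    have hfin : (⋃ i ∈ c.support, ⋃ m ∈ (c i).support,
        {a : C | ∃ V, Cen C V θ a ∧ V.ord ((c i).coeff m) ≠ 0}).Finite :=
      c.support.finite_toSet.biUnion fun i _ =>
        (c i).support.finite_toSet.biUnion fun m _ => T.finV _
    obtain ⟨a, ⟨V, hV, x, hx⟩, ha⟩ := (h.sdiff hfin).nonempty
    simp only [Set.mem_iUnion, Set.mem_ofPred_eq, not_exists, not_and, not_not] at ha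
    have h1 : V.Gt (MvPolynomial.eval (fun s => algebraMap C E (x s))
        (c.sum fun i a => a * f i)) 0 := by
      rw [Finsupp.sum, map_sum]
      refine QVal.Gt.sum fun i hi => ?_
      rw [map_mul]
      exact (gen1_ge hV.1 (fun m hm => ha i hi m hm V hV) x).mul_gt₀ (hx i)
    rw [hc, map_one] at h1
    simpa using h1.lt one_ne_zero
  · obtain ⟨M, hM, hle⟩ := Ideal.exists_le_maximal _ htop
    obtain ⟨x, rfl⟩ := MvPolynomial.isMaximal_iff_eq_vanishingIdeal_singleton.mp hM
    refine ⟨x, fun i => ?_⟩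
    have := hle (Ideal.subset_span ⟨i, rfl⟩)
    rw [MvPolynomial.mem_vanishingIdeal_singleton_iff] at this
    simpa [MvPolynomial.aeval_eq_eval] using this

include T in
/-- Unknowns `x, f, u, v` (index type `Fin 4 × n`), equations `u ⬝ᵥ x = 1`, `v ⬝ᵥ f = 1` and the
minors of `eig_iff_minor` for all `s : C`. Outside the sets `finV (y j)` the vector `y` itself
reduces to a multiple of `w` (`Red.uniq`). At the end use `eig_line`. -/
theorem Tri.spec_rk (β : Matrix J J (MvPolynomial (n × n) C)) {y : J → E}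
    (h : {a : C | ∃ V, Cen C V θ a ∧ RkAt V β y}.Infinite) :
    ∃ x f : n → E, x ≠ 0 ∧ f ≠ 0 ∧ ∀ s : E, Eig (ap β (s • vecMulVec x f)) y := by
  have hfin : (⋃ j, {a : C | ∃ V, Cen C V θ a ∧ V.ord (y j) ≠ 0}).Finite :=
    Set.finite_iUnion fun j => T.finV _
  obtain ⟨z, hz⟩ := T.spec (σ := Fin 4 × n) (I := Bool ⊕ C × J × J)
    (Sum.elim (fun b => ∑ i, MvPolynomial.X (if b then 2 else 3, i) *
      MvPolynomial.X (if b then 0 else 1, i) - 1) fun p => gen1_minor β y p.1 p.2.1 p.2.2)
    ((h.sdiff hfin).mono (by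
      rintro a ⟨⟨V, hV, w, x, f, hw, hx, hf, he⟩, ha⟩
      simp only [Set.mem_iUnion, Set.mem_ofPred_eq, not_exists, not_and, not_not] at ha
      have h1 : ∀ j, V.Gt (y j - algebraMap C E (V.res C (y j))) 0 := fun j =>
        hV.1.gt_res (.of_le (ha j V hV).ge)
      obtain ⟨j₀, hj⟩ := Function.ne_iff.mp (hw.ne_zero hV.1)
      obtain ⟨c, -, hc⟩ := hw.uniq hV.1 (w' := fun j => V.res C (y j))
        ⟨fun h0 => hV.1.res_ne_zero hj (ha j₀ V hV) (congrFun h0 j₀), 1, by simpa using h1⟩
      obtain ⟨i, hi⟩ := Function.ne_iff.mp hx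
      obtain ⟨i', hi'⟩ := Function.ne_iff.mp hf
      have hi : x i ≠ 0 := hi
      have hi' : f i' ≠ 0 := hi'
      refine ⟨V, hV, fun p => ![x, f, Pi.single i (x i)⁻¹, Pi.single i' (f i')⁻¹] p.1 p.2, ?_⟩
      rintro (b | ⟨s, j, j'⟩)
      · refine Or.inl ?_
        cases b <;> simp [Pi.single_apply, apply_ite (algebraMap C E), hi, hi']
      · have h2 := eig_iff_minor.mp ((he s).smul c) j j'
        rw [← hc] at h2
        have h3 := ap_map (Algebra.ofId C E) β (s • vecMulVec x f)
        have e : (s • vecMulVec x f).map (Algebra.ofId C E) = algebraMap C E s •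
            vecMulVec (fun i => algebraMap C E (x i)) fun i => algebraMap C E (f i) := by
          ext a b
          simp [vecMulVec_apply, Algebra.ofId_apply]
        rw [e] at h3
        have h4 := (gen1_mul hV.1 (gen1_mulVec hV.1 (ap β (s • vecMulVec x f)) h1 j) (h1 j')).sub
          (gen1_mul hV.1 (gen1_mulVec hV.1 (ap β (s • vecMulVec x f)) h1 j') (h1 j))
        rw [h2, sub_sub_sub_cancel_right] at h4
        rw [Sum.elim_inr, gen1_eval]
        simp only [Matrix.cons_val_zero, Matrix.cons_val_one, ← h3]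
        exact h4))
  have hne : ∀ (b : Bool), (fun i => z (if b then 0 else 1, i)) ≠ 0 := fun b h0 => by
    have h1 := hz (Sum.inl b)
    have h2 : ∀ i, z (if b then 0 else 1, i) = 0 := congrFun h0
    simp [h2] at h1
  have := IsAlgClosed.instInfinite (K := C)
  refine ⟨fun i => z (0, i), fun i => z (1, i), hne true, hne false, eig_line β _ y
    ((Set.infinite_range_of_injective (algebraMap C E).injective).mono ?_)⟩
  rintro _ ⟨s, rfl⟩
  refine eig_iff_minor.mpr fun j j' => sub_eq_zero.mp ?_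
  rw [← gen1_eval]
  exact hz (Sum.inr (s, j, j'))

end Pool.Agent.Lib.MP_6adaea_nt.W
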