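import Pool.Agent.Lib.MP_6adaea_nt.W.Defs2
import Pool.Agent.Lib.MP_6adaea_nt.U.Tens

/-!
Limits along an ultrafilter.
-/

set_option linter.unusedSectionVars false

namespace Pool.Agent.Lib.MP_6adaea_nt.W
open Matrix Polynomial G U
open scoped TensorProduct

variable {kb K : Type} [Field kb] [Field K] [Algebra kb K]

variable (kb) in
/-- sequences that tend to zero along `U` -/
def nul (U : Ultrafilter ℕ) : Ideal (ℕ → PowerSeries kb) where
  carrier := {f | ∀ m : ℕ, ∀ᶠ n in U, (PowerSeries.X : PowerSeries kb) ^ m ∣ f n}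
  zero_mem' m := Filter.Eventually.of_forall fun _ => dvd_zero _
  add_mem' ha hb m := ((ha m).and (hb m)).mono fun _ h => dvd_add h.1 h.2
  smul_mem' c _ h m := (h m).mono fun n hn => hn.mul_left (c n)

/-- if `X ^ m ∤ f` and `X ^ m' ∤ g` then `X ^ (m + m') ∤ f * g` -/
theorem nul_prime (U : Ultrafilter ℕ) : (nul kb U).IsPrime := by
  refine ⟨(Ideal.ne_top_iff_one _).2 fun h => ?_, fun {f g} h => ?_⟩
  · obtain ⟨n, hn⟩ := (h 1).exists
    rw [pow_one] at hn
    exact PowerSeries.X_prime.not_dvd_one hn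
  · by_contra hc
    obtain ⟨h1, h2⟩ := not_or.1 hc
    obtain ⟨m, hm⟩ := not_forall.1 h1
    obtain ⟨m', hm'⟩ := not_forall.1 h2
    obtain ⟨n, h3, h4, h5⟩ := ((h (m + m')).and ((Ultrafilter.eventually_not.2 hm).and
      (Ultrafilter.eventually_not.2 hm'))).exists
    rw [pow_dvd_iff_le_emultiplicity] at h3 h4 h5
    rw [Pi.mul_apply, emultiplicity_mul PowerSeries.X_prime, Nat.cast_add] at h3
    exact (ENat.add_lt_add (not_le.1 h4) (not_le.1 h5)).not_ge h3

theorem evn_tmul (n : ℕ) (x : K) (f : ℕ → PowerSeries kb) :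
    evn K n (x ⊗ₜ f) = PowerSeries.C x * PowerSeries.map (algebraMap kb K) (f n) := by
  rw [evn, Algebra.TensorProduct.lift_tmul]
  rfl

theorem evn_act (F : K →ₐ[kb] K) (n : ℕ) (z : K ⊗[kb] (ℕ → PowerSeries kb)) :
    evn K n (act _ F z) = PowerSeries.map (F : K →+* K) (evn K n z) := by
  induction z with
  | zero => simp
  | add a b ha hb => simp only [map_add, ha, hb]
  | tmul x f =>
    rw [act_tmul, evn_tmul, evn_tmul, map_mul, PowerSeries.map_C]
    congr 1
    ext i
    simp

theorem evn_evS (τ : ℕ → Fin 2 → PowerSeries kb) (n : ℕ) (f : R2 K) :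
    evn K n (evS kb K (fun i n => τ n i) f) = gp K (τ n) f := by
  induction f using MvPolynomial.induction_on with
  | C a =>
    rw [evS, gp, MvPolynomial.aeval_C, MvPolynomial.aeval_C, Algebra.TensorProduct.algebraMap_apply,
      evn_tmul, Pi.one_apply, map_one, mul_one]
    rfl
  | add a b ha hb => simp only [map_add, ha, hb]
  | mul_X a i ha =>
    rw [map_mul, map_mul, map_mul, ha, evS, gp, MvPolynomial.aeval_X, MvPolynomial.aeval_X,
      evn_tmul, map_one, one_mul]

theorem lim0_coeff {ι : Type} (s : Finset ι) (b : ι → K) (c : ι → ℕ → PowerSeries kb) (n i : ℕ) :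
    PowerSeries.coeff i (evn K n (∑ l ∈ s, b l ⊗ₜ c l)) =
      ∑ l ∈ s, PowerSeries.coeff i (c l n) • b l := by
  rw [map_sum, map_sum]
  refine Finset.sum_congr rfl fun l _ => ?_
  rw [evn_tmul, PowerSeries.coeff_C_mul, PowerSeries.coeff_map, Algebra.smul_def, mul_comm]

/-- write `z = ∑ b l ⊗ f l` with `b` part of a basis of `K` over `kb` -/
theorem map_eq_zero_iff (U : Ultrafilter ℕ) (z : K ⊗[kb] (ℕ → PowerSeries kb)) :
    Algebra.TensorProduct.map (AlgHom.id kb K) (Ideal.Quotient.mkₐ kb (nul kb U)) z = 0 ↔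
      ∀ m : ℕ, ∀ᶠ n in U, (PowerSeries.X : PowerSeries K) ^ m ∣ evn K n z := by
  let b := Module.Basis.ofVectorSpace kb K
  obtain ⟨c, rfl⟩ := TensorProduct.eq_repr_basis_left b z
  have h1 : Algebra.TensorProduct.map (AlgHom.id kb K) (Ideal.Quotient.mkₐ kb (nul kb U))
      (c.sum fun i f => b i ⊗ₜ f) =
      (c.mapRange (Ideal.Quotient.mk (nul kb U)) (map_zero _)).sum fun i f => b i ⊗ₜ f := by
    rw [Finsupp.sum_mapRange_index fun _ => TensorProduct.tmul_zero _ _, map_finsuppSum]
    rfl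
  have h2 : ∀ m n : ℕ, (PowerSeries.X : PowerSeries K) ^ m ∣ evn K n (c.sum fun i f => b i ⊗ₜ f) ↔
      ∀ l ∈ c.support, (PowerSeries.X : PowerSeries kb) ^ m ∣ c l n := by
    intro m n
    simp only [PowerSeries.X_pow_dvd_iff, Finsupp.sum, lim0_coeff]
    refine ⟨fun h l hl i hi => ?_, fun h i hi => Finset.sum_eq_zero fun l hl => ?_⟩
    · exact linearIndependent_iff'.1 b.linearIndependent _ _ (h i hi) l hl
    · rw [h l hl i hi, zero_smul]
  simp only [h1, h2, Filter.eventually_all_finset]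
  constructor
  · intro h m l _
    have h3 := DFunLike.congr_fun (TensorProduct.sum_tmul_basis_left_eq_zero b _ h) l
    exact Ideal.Quotient.eq_zero_iff_mem.1 h3 m
  · intro h
    refine Finset.sum_eq_zero fun l hl => ?_
    have h3 : Ideal.Quotient.mk (nul kb U) (c l) = 0 := Ideal.Quotient.eq_zero_iff_mem.2
      fun m => h m l (Finsupp.support_mapRange hl)
    rw [Finsupp.mapRange_apply, h3]
    exact TensorProduct.tmul_zero _ _

/-- take the coordinates of the coefficients in a basis of `W` -/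
theorem exists_evn (W : Submodule kb K) [FiniteDimensional kb W] (y : ℕ → PowerSeries K)
    (h : ∀ n i, PowerSeries.coeff i (y n) ∈ W) :
    ∃ z : K ⊗[kb] (ℕ → PowerSeries kb), ∀ n, evn K n z = y n := by
  let b := Module.finBasis kb W
  refine ⟨∑ l, (b l : K) ⊗ₜ fun n => PowerSeries.mk fun i => b.repr ⟨_, h n i⟩ l, fun n => ?_⟩
  ext i
  simp only [lim0_coeff, PowerSeries.coeff_mk]
  have e := congrArg Subtype.val (b.sum_repr ⟨_, h n i⟩)
  simpa only [Submodule.coe_sum, Submodule.coe_smul] using e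

end Pool.Agent.Lib.MP_6adaea_nt.W
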