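import Pool.Agent.Lib.MP_6adaea_nt.W.RedB

/-!
Membership of entries and coefficients in subrings.
-/

set_option linter.unusedSectionVars false

namespace Pool.Agent.Lib.MP_6adaea_nt.W
open Matrix Polynomial G U
open scoped TensorProduct

variable {C E : Type} [Field C] [Field E] [Algebra C E] {n J : Type} [Fintype n] [DecidableEq n]
  [Fintype J] [DecidableEq J] {V : QVal E}

section ring
variable {R : Type} [CommRing R] {S : Subring R}

theorem PIn.exists_pmap {A : Matrix n n R[X]} (h : PIn S A) :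
    ∃ B : Matrix n n S[X], pmap S.subtype B = A := by
  have : ∀ i j, ∃ b : S[X], b.map S.subtype = A i j := fun i j =>
    (mem_lifts _).1 ((lifts_iff_coeff_lifts _).2 fun m => ⟨⟨_, h i j m⟩, rfl⟩)
  choose B hB using this
  exact ⟨Matrix.of B, Matrix.ext hB⟩

theorem mem_pmap (B : Matrix n n S[X]) : PIn S (pmap S.subtype B) := fun i j m => by
  rw [pmap, Matrix.map_apply, coeff_map]
  exact ((B i j).coeff m).2

theorem PIn.mul {A B : Matrix n n R[X]} (hA : PIn S A) (hB : PIn S B) : PIn S (A * B) := by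
  obtain ⟨A, rfl⟩ := hA.exists_pmap
  obtain ⟨B, rfl⟩ := hB.exists_pmap
  rw [← pmap_mul]
  exact mem_pmap _

theorem PIn.of_comap {R' : Type} [CommRing R'] (f : R →+* R') {S' : Subring R'} {A : Matrix n n R[X]}
    (h : PIn (S'.comap f) A) : PIn S' (pmap f A) := by
  intro i j m
  rw [pmap, Matrix.map_apply, coeff_map]
  exact h i j m

theorem PIn.eval_mem {A : Matrix n n R[X]} (h : PIn S A) {s : R} (hs : s ∈ S) (i j : n) :
    A.map (eval s) i j ∈ S := by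
  rw [Matrix.map_apply, eval_eq_sum_range]
  exact sum_mem fun m _ => mul_mem (h i j m) (pow_mem hs m)

theorem PIn.hat_mem {A : Matrix n n R[X]} (h : PIn S A) {t : Fin 2 → R} (ht : ∀ l, t l ∈ S)
    (x y : n × Fin 2) : hat t A x y ∈ S := by
  obtain ⟨A, rfl⟩ := h.exists_pmap
  have e := hat_map S.subtype (fun l => ⟨t l, ht l⟩) A
  change _ = hat t _ at e
  rw [← e]
  exact (hat _ A x y).2

theorem PIn.rep_mem {A : Matrix n n R[X]} (h : PIn S A) {t : Fin 2 → R} (ht : ∀ l, t l ∈ S) (M : ℕ)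
    (x y : JJ n M) : rep M t A x y ∈ S := by
  rw [rep, ten, Matrix.of_apply]
  exact prod_mem fun a _ => h.hat_mem ht _ _

/-- `det A ≡ c0 + c1 * X` (`exists_lin`), and
`(c0 + c1 * X) * (c0 + c1 * (t 0 + t 1 - X)) ≡ (c0 + c1 * t 0) * (c0 + c1 * t 1)`; adjugate -/
theorem exists_cong_inv (t : Fin 2 → R) {A : Matrix n n R[X]}
    (h : ∀ l, IsUnit (A.det.eval (t l))) :
    ∃ A', Cong (qd t) (A' * A) 1 ∧ Cong (qd t) (A * A') 1 := by
  obtain ⟨c0, c1, hc⟩ := exists_lin t A.det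
  have e : ∀ l, A.det.eval (t l) = c0 + c1 * t l := fun l => by
    have h1 : (qd t).eval (t l) = 0 := by
      fin_cases l <;> simp [qd]
    obtain ⟨w, hw⟩ := hc
    have h2 := congrArg (eval (t l)) hw
    rw [eval_mul, h1, zero_mul, eval_sub, sub_eq_zero] at h2
    simpa using h2
  obtain ⟨v, hv⟩ := ((h 0).mul (h 1)).exists_left_inv
  rw [e, e] at hv
  have hv' := congrArg (Polynomial.C : R →+* R[X]) hv
  simp only [map_mul, map_add, map_one] at hv'
  obtain ⟨w, hw⟩ : ∃ w : R[X], qd t ∣ w * A.det - 1 := by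
    obtain ⟨z, hz⟩ := hc
    refine ⟨Polynomial.C v * (Polynomial.C c0 + Polynomial.C c1 *
      (Polynomial.C (t 0) + Polynomial.C (t 1) - X)), Polynomial.C v * ((Polynomial.C c0 +
      Polynomial.C c1 * (Polynomial.C (t 0) + Polynomial.C (t 1) - X)) * z -
      Polynomial.C c1 ^ 2), ?_⟩
    rw [sub_eq_iff_eq_add.1 hz, ← hv', qd]
    ring
  have key : Cong (qd t) ((w * A.det) • (1 : Matrix n n R[X])) 1 := fun i j => by
    rw [Matrix.smul_apply, smul_eq_mul, ← sub_one_mul]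
    exact hw.mul_right _
  refine ⟨w • A.adjugate, ?_, ?_⟩
  · rwa [Matrix.smul_mul, adjugate_mul, smul_smul]
  · rwa [Matrix.mul_smul, mul_adjugate, smul_smul]

end ring

/-- the inverse is the adjugate divided by the determinant -/
theorem inv_mem (S : Subfield E) {A B : Matrix n n E} (h : ∀ i j, A i j ∈ S) (hB : B * A = 1)
    (i j : n) : B i j ∈ S := by
  obtain ⟨A, rfl⟩ : ∃ A' : Matrix n n S, S.subtype.mapMatrix A' = A :=
    ⟨Matrix.of fun i j => ⟨A i j, h i j⟩, rfl⟩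
  rw [← Matrix.inv_eq_left_inv hB, Matrix.inv_def, ← RingHom.map_det, ← RingHom.map_adjugate,
    Ring.inverse_eq_inv', Matrix.smul_apply, smul_eq_mul]
  exact mul_mem (S.inv_mem A.det.2) (A.adjugate i j).2

theorem mem_inv {A : Matrix n n E[X]} (h : PIn V.O A) {t : Fin 2 → E} (ht : ∀ l, V.Ge (t l) 0)
    (h0 : ∀ l, A.det.eval (t l) ≠ 0 ∧ V.ord (A.det.eval (t l)) = 0) :
    ∃ A', PIn V.O A' ∧ Cong (qd t) (A' * A) 1 := by
  obtain ⟨A, rfl⟩ := h.exists_pmap
  obtain ⟨A', h1, -⟩ := exists_cong_inv (fun l => (⟨t l, ht l⟩ : V.O)) (A := A) fun l => by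
    have e : (pmap V.O.subtype A).det.eval (t l) = V.O.subtype (A.det.eval ⟨t l, ht l⟩) := by
      rw [pmap_det]
      exact eval_map_apply V.O.subtype (⟨t l, ht l⟩ : V.O)
    obtain ⟨h2, h3⟩ := h0 l
    rw [e] at h2 h3
    exact IsUnit.of_mul_eq_one ⟨(V.O.subtype (A.det.eval ⟨t l, ht l⟩))⁻¹,
      QVal.Ge.of_le (by rw [QVal.ord_inv, h3, neg_zero])⟩ (Subtype.ext (mul_inv_cancel₀ h2))
  have h2 := h1.pmap V.O.subtype
  rw [qd_map, pmap_mul, pmap_one] at h2
  exact ⟨_, mem_pmap A', h2⟩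

/-- lift to the ring `V.O` and use `exists_cong_inv` there -/
theorem uni_hat {A : Matrix n n E[X]} (h : PIn V.O A) {t : Fin 2 → E} (ht : ∀ l, V.Ge (t l) 0)
    (h0 : ∀ l, A.det.eval (t l) ≠ 0 ∧ V.ord (A.det.eval (t l)) = 0) : Uni V (hat t A) := by
  obtain ⟨A', h1, h2⟩ := mem_inv h ht h0
  exact ⟨h.hat_mem ht, hat t A', h1.hat_mem ht, by rw [← hat_mul, hat_congr h2, hat_one]⟩

theorem uni_rep {A : Matrix n n E[X]} (h : PIn V.O A) {t : Fin 2 → E} (ht : ∀ l, V.Ge (t l) 0)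
    (h0 : ∀ l, A.det.eval (t l) ≠ 0 ∧ V.ord (A.det.eval (t l)) = 0) (M : ℕ) :
    Uni V (rep M t A) := by
  obtain ⟨A', h1, h2⟩ := mem_inv h ht h0
  exact ⟨h.rep_mem ht M, rep M t A', h1.rep_mem ht M, by
    rw [← rep_mul, rep_congr M h2, rep_one]⟩

theorem uni_eval {A : Matrix n n E[X]} (h : PIn V.O A) {s : E} (hs : V.Ge s 0)
    (h0 : A.det.eval s ≠ 0) (h1 : V.ord (A.det.eval s) = 0) : Uni V (A.map (eval s)) := by
  have e : (A.map (eval s)).det = A.det.eval s := (RingHom.map_det (evalRingHom s) A).symm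
  exact uni_of_det (h.eval_mem hs) (e ▸ h0) (e ▸ h1)

/-- `ι (x ^ q) - x ^ q = (ι x - x) ^ q` -/
theorem pow_mem_dev (hV : V.HasRes C) (ι : E ≃ₐ[C] E) (hι : ∀ x, V.ord (ι x) = V.ord x)
    (fr : E →+* E) {q : ℕ} (hq : 2 ≤ q) (hfr : ∀ x, fr x = x ^ q) {δ : ℚ} (hδ : 0 < δ) {x : E}
    (h0 : V.Ge x 0) (h1 : V.Ge (ι x - x) δ) : fr x ∈ dev hV ι hι δ := by
  refine ⟨by rw [hfr]; exact h0.pow₀ q, ?_⟩
  have e : ι (fr x) - fr x = (ι x - x) ^ q := by
    rw [← hfr, map_sub, hfr (ι x), hfr x, map_pow]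
  have h2 : (2 : ℚ) ≤ q := by exact_mod_cast hq
  rw [e]
  exact (h1.pow q).gt (by nlinarith)

end Pool.Agent.Lib.MP_6adaea_nt.W
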