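import Pool.Agent.Lib.MP_6adaea_nt.W.Defs2
import Pool.Agent.Lib.MP_6adaea_nt.U.Win1

/-!
From the rational vector back to the eigenvector.
-/

set_option linter.unusedSectionVars false

namespace Pool.Agent.Lib.MP_6adaea_nt.W
open Matrix Polynomial G U
open scoped TensorProduct

variable {k kb K Ω : Type} [Field k] [Finite k] [Field kb] [Field K] [Field Ω] [Algebra k kb]
  [Algebra k K] [Algebra k Ω] [Algebra kb K] [Algebra kb Ω] [Algebra K Ω]
  [IsScalarTower k kb K] [IsScalarTower k kb Ω] [IsScalarTower k K Ω] [IsScalarTower kb K Ω]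
  [IsAlgClosed kb] [Algebra.IsAlgebraic k kb] [IsSepClosed Ω] [IsGalois K Ω] {θ : K} {r : ℕ}
  {D : DM k Ω θ r} {Fr : Frb k kb K Ω} {M : ℕ} {S S' : Type} [CommRing S] [Algebra k S]
  [Algebra kb S] [IsScalarTower k kb S] [CommRing S'] [Algebra kb S'] [Module.Finite kb S']

private theorem pwl_comp (k kb Ω : Type) [Field k] [Field kb] [Field Ω] [Algebra k kb]
    [Algebra k Ω] [Algebra kb Ω] [IsScalarTower k kb Ω] (S : Type) [CommRing S] [Algebra k S]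
    [Algebra kb S] [IsScalarTower k kb S] :
    (Algebra.TensorProduct.includeRight (R := kb) (A := Ω) (B := S) : S →+* Ω ⊗[kb] S).comp
      (algebraMap k S) =
    (Algebra.TensorProduct.includeLeftRingHom : Ω →+* Ω ⊗[kb] S).comp (algebraMap k Ω) := by
  ext c
  change (1 : Ω) ⊗ₜ[kb] algebraMap k S c = algebraMap k Ω c ⊗ₜ[kb] (1 : S)
  rw [IsScalarTower.algebraMap_apply k kb S, IsScalarTower.algebraMap_apply k kb Ω,
    Algebra.algebraMap_eq_smul_one (A := S), Algebra.algebraMap_eq_smul_one (A := Ω),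
    TensorProduct.smul_tmul]

private theorem pwl_dvd (P : PW D Fr M S) :
    qd (fun i => ((1 : Ω) ⊗ₜ[kb] P.t i : Ω ⊗[kb] S)) ∣
      P.a.map ((Algebra.TensorProduct.includeLeftRingHom : Ω →+* Ω ⊗[kb] S).comp
        (algebraMap k Ω)) := by
  have h := Polynomial.map_dvd
    (Algebra.TensorProduct.includeRight (R := kb) (A := Ω) (B := S) : S →+* Ω ⊗[kb] S) P.dvd
  rw [qd_map, Polynomial.map_map, pwl_comp] at h
  exact h

private theorem pwl_mv {R R' J : Type} [CommRing R] [CommRing R'] [Fintype J] (f : R →+* R')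
    (A : Matrix J J R) (w : J → R) (j : J) :
    f ((A *ᵥ w) j) = (A.map f *ᵥ fun l => f (w l)) j := RingHom.map_mulVec f A w j

private theorem pwl_inv (hr : 0 < r) (P : PW D Fr M S) :
    ∃ A : Matrix (Fin r) (Fin r) (Polynomial Ω), ∀ {T : Type} [CommRing T] (i : Ω →+* T)
      (t : Fin 2 → T), qd t ∣ P.a.map (i.comp (algebraMap k Ω)) →
      Cong (qd t) (pmap i (frame P.E) * pmap i A) 1 ∧
        Cong (qd t) (pmap i A * pmap i (frame P.E)) 1 := by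
  obtain ⟨A, h1, h2⟩ := frame_inv D P.E hr P.monic.ne_zero
  refine ⟨A, fun i t ht => ?_⟩
  have h3 := h1.pmap i
  have h4 := h2.pmap i
  rw [Polynomial.map_map, pmap_mul, pmap_one] at h3 h4
  exact ⟨h3.of_dvd ht, h4.of_dvd ht⟩

/-- base change of `π` -/
private noncomputable def pwlB (Ω : Type) [Field Ω] [Algebra kb Ω] (π : S →ₐ[kb] S') :
    Ω ⊗[kb] S →+* Ω ⊗[kb] S' :=
  (Algebra.TensorProduct.map (AlgHom.id kb Ω) π : Ω ⊗[kb] S →ₐ[kb] Ω ⊗[kb] S')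

private theorem pwl_sq (π : S →ₐ[kb] S') (x : K ⊗[kb] S) :
    pwlB Ω π (inc S K Ω x) = inc S' K Ω (Algebra.TensorProduct.map (AlgHom.id kb K) π x) := by
  induction x using TensorProduct.induction_on with
  | zero => simp only [map_zero]
  | tmul a s => rfl
  | add x y hx hy => simp only [map_add, hx, hy]

private theorem pwl_alg (π : S →ₐ[kb] S') (c : kb) :
    pwlB Ω π (algebraMap kb _ c) = algebraMap kb _ c :=
  (Algebra.TensorProduct.map (AlgHom.id kb Ω) π).commutes c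

private theorem pwl_setup (hr : 0 < r) (P : PW D Fr M S) (π : S →ₐ[kb] S') :
    ∃ A A' : Matrix (Fin r) (Fin r) (Polynomial (Ω ⊗[kb] S')),
      Cong (qd fun i => pwlB Ω π ((1 : Ω) ⊗ₜ[kb] P.t i)) (A * A') 1 ∧
      Cong (qd fun i => pwlB Ω π ((1 : Ω) ⊗ₜ[kb] P.t i)) (A' * A) 1 ∧
      rep M (fun i => pwlB Ω π ((1 : Ω) ⊗ₜ[kb] P.t i)) A *ᵥ
        (fun l => pwlB Ω π ((1 : Ω) ⊗ₜ[kb] P.w l)) = fun l => pwlB Ω π (P.Y l) := by
  have hd : qd (fun i => pwlB Ω π ((1 : Ω) ⊗ₜ[kb] P.t i)) ∣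
      P.a.map (((pwlB Ω π).comp Algebra.TensorProduct.includeLeftRingHom).comp
        (algebraMap k Ω)) := by
    have h := Polynomial.map_dvd (pwlB Ω π) (pwl_dvd P)
    rw [qd_map, Polynomial.map_map] at h
    exact h
  obtain ⟨A, hA⟩ := pwl_inv hr P
  obtain ⟨hA1, hA2⟩ := hA _ _ hd
  refine ⟨_, _, hA1, hA2, ?_⟩
  ext l
  rw [PW.Y, pwl_mv (pwlB Ω π), rep_map, pmap_pmap]

/-- as `win_nondeg` in the team-store file `uq_Win1.lean` (copy the private lemmas): `frame_inv`,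
`one_tmul_injective` -/
theorem pw_ne (hr : 0 < r) (P : PW D Fr M S) {z : Ω ⊗[kb] S} {y : JJ (Fin r) M → K ⊗[kb] S}
    (hy : ∀ j, z * inc S K Ω (y j) = P.Y j) (π : S →ₐ[kb] S')
    (h : ∀ j, Algebra.TensorProduct.map (AlgHom.id kb K) π (y j) = 0) (j : JJ (Fin r) M) :
    π (P.w j) = 0 := by
  obtain ⟨A, A', -, hA2, hY⟩ := pwl_setup (M := M) hr P π
  have h0 : (fun l => pwlB Ω π (P.Y l)) = 0 := by
    ext l
    rw [← hy, map_mul, pwl_sq, h, map_zero, mul_zero, Pi.zero_apply]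
  have h1 := rep_congr M hA2
  rw [rep_mul, rep_one] at h1
  have h2 : (fun l => pwlB Ω π ((1 : Ω) ⊗ₜ[kb] P.w l)) = 0 := by
    rw [← one_mulVec (fun l => pwlB Ω π ((1 : Ω) ⊗ₜ[kb] P.w l)), ← h1, ← mulVec_mulVec, hY, h0,
      mulVec_zero]
  apply one_tmul_injective (kb := kb) Ω
  change _ = (1 : Ω) ⊗ₜ[kb] (0 : S')
  rw [TensorProduct.tmul_zero]
  exact congrFun h2 j

/-- `stab_conj` over `Ω ⊗ S'` -/
theorem pw_fix (hr : 0 < r) (P : PW D Fr M S) {z : Ω ⊗[kb] S} {y : JJ (Fin r) M → K ⊗[kb] S}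
    (hy : ∀ j, z * inc S K Ω (y j) = P.Y j) (π : S →ₐ[kb] S')
    (h : ∀ a b : Fin r, a ≠ b → ∀ (c0 c1 : kb) (j : JJ (Fin r) M),
      Algebra.TensorProduct.map (AlgHom.id kb K) π
        ((rep M (fun i => 1 ⊗ₜ P.t i) (elc (K ⊗[kb] S) a b c0 c1) *ᵥ y - y) j) = 0)
    {a b : Fin r} (hab : a ≠ b) (c0 c1 : kb) (j : JJ (Fin r) M) :
    π ((rep M P.t (elc S a b c0 c1) *ᵥ P.w - P.w) j) = 0 := by
  obtain ⟨A, A', hA1, hA2, hY⟩ := pwl_setup (M := M) hr P π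
  have hfix : ∀ a b : Fin r, a ≠ b → ∀ c0 c1 : kb,
      rep M (fun i => pwlB Ω π ((1 : Ω) ⊗ₜ[kb] P.t i)) (elc (Ω ⊗[kb] S') a b c0 c1) *ᵥ
        (rep M (fun i => pwlB Ω π ((1 : Ω) ⊗ₜ[kb] P.t i)) A *ᵥ
          fun l => pwlB Ω π ((1 : Ω) ⊗ₜ[kb] P.w l)) =
        rep M (fun i => pwlB Ω π ((1 : Ω) ⊗ₜ[kb] P.t i)) A *ᵥ
          fun l => pwlB Ω π ((1 : Ω) ⊗ₜ[kb] P.w l) := by
    intro a b hab c0 c1
    rw [hY]
    ext l
    let e : K ⊗[kb] S →+* Ω ⊗[kb] S' :=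
      (pwlB Ω π).comp (inc (kb := kb) S K Ω : K ⊗[kb] S →+* Ω ⊗[kb] S)
    have he : ∀ x, e x = pwlB Ω π (inc S K Ω x) := fun x => rfl
    have h4 : ∀ c : kb, e (algebraMap kb _ c) = algebraMap kb _ c := fun c => by
      rw [he, AlgHom.commutes, pwl_alg]
    have h5 : (fun i => e ((1 : K) ⊗ₜ[kb] P.t i)) = fun i => pwlB Ω π ((1 : Ω) ⊗ₜ[kb] P.t i) := by
      ext i
      rw [he, inc_tmul, map_one]
    have h1 : e ((rep M (fun i => 1 ⊗ₜ P.t i) (elc (K ⊗[kb] S) a b c0 c1) *ᵥ y - y) l) = 0 := by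
      rw [he, pwl_sq, h a b hab c0 c1 l, map_zero]
    rw [Pi.sub_apply, map_sub, sub_eq_zero, pwl_mv e, rep_map, pmap_elc e h4, h5] at h1
    have h6 : (fun l => pwlB Ω π (P.Y l)) = pwlB Ω π z • fun l => e (y l) := by
      ext l'
      rw [← hy, map_mul]
      rfl
    rw [h6, mulVec_smul, Pi.smul_apply, h1]
    exact (congrFun h6 l).symm
  have h6 := stab_conj (F := kb) Ω hA1 hA2 hfix (s := elc (Ω ⊗[kb] S') a b c0 c1)
    (by rw [elc, el_det hab, sub_self]; exact dvd_zero _)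
  let ρ : S →+* Ω ⊗[kb] S' :=
    (pwlB Ω π).comp
      (Algebra.TensorProduct.includeRight (R := kb) (A := Ω) (B := S) : S →+* Ω ⊗[kb] S)
  have hρ : ∀ c : kb, ρ (algebraMap kb _ c) = algebraMap kb _ c := fun c => by
    change pwlB Ω π ((Algebra.TensorProduct.includeRight (R := kb) (A := Ω) (B := S)) _) = _
    rw [AlgHom.commutes, pwl_alg]
  have h7 : ρ ((rep M P.t (elc S a b c0 c1) *ᵥ P.w - P.w) j) = 0 := by
    rw [Pi.sub_apply, map_sub, pwl_mv ρ, rep_map, pmap_elc ρ hρ, sub_eq_zero]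
    exact congrFun h6 j
  apply one_tmul_injective (kb := kb) Ω
  change _ = (1 : Ω) ⊗ₜ[kb] (0 : S')
  rw [TensorProduct.tmul_zero]
  exact h7

end Pool.Agent.Lib.MP_6adaea_nt.W
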