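import Pool.Agent.Lib.MP_6adaea_nt.W.Mem
import Pool.Agent.Lib.MP_6adaea_nt.U.Psi

/-!
Products of twists of the companion matrix.
-/

set_option linter.unusedSectionVars false

namespace Pool.Agent.Lib.MP_6adaea_nt.W
open Matrix Polynomial G U
open scoped TensorProduct

variable {k C E : Type} [Field k] [Finite k] [Field C] [Field E] [Algebra k C] [Algebra k E]
  [Algebra C E] [IsScalarTower k C E] [IsAlgClosed C] [IsAlgClosed E] {θ : E} {r : ℕ} {g : ℕ → E}
  {n J : Type} [Fintype n] [DecidableEq n] [Fintype J] [DecidableEq J]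

section basic
variable {K K' : Type} [Field K] [Field K'] [Algebra k K] [Algebra k K'] {θ : K} {g : ℕ → K}

theorem pmap_Phit (σ : K →ₐ[k] K') (c : ℕ) :
    pmap (σ : K →+* K') (Phit k θ r g c) = Phit k (σ θ) r (fun i => σ (g i)) c := by
  have h : pmap (σ : K →+* K') (Phi θ r g) = Phi (σ θ) r fun i => σ (g i) := by
    refine Matrix.ext fun i j => ?_
    simp only [pmap, Phi, map_apply, of_apply]
    split_ifs <;> simp
  have e : (σ : K →+* K').comp (frob k K : K →+* K) =
      (frob k K' : K' →+* K').comp (σ : K →+* K') := RingHom.ext fun x => by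
    have h1 := frob_pow_apply (k := k) 1 x
    have h2 := frob_pow_apply (k := k) 1 (σ x)
    rw [pow_one] at h1 h2
    simp only [RingHom.comp_apply, RingHom.coe_coe, h1, h2, map_pow]
  induction c with
  | zero => exact pmap_one _
  | succ c ih => rw [Phit, Phit, pmap_mul, h, pmap_pmap, e, ← pmap_pmap, ih]

theorem Phit_add (a b : ℕ) : Phit k θ r g (a + b) =
    pmap ((frob k K ^ b : K →ₐ[k] K) : K →+* K) (Phit k θ r g a) * Phit k θ r g b := by
  induction b with
  | zero =>
    rw [add_zero, Phit, mul_one, pow_zero]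
    exact (pmap_id _).symm
  | succ b ih =>
    rw [← add_assoc, Phit, Phit, ih, pmap_mul, pmap_pmap, mul_assoc, pow_succ']
    rfl

theorem Phi_det (hr : 0 < r) (hg : g r = 1) :
    (Phi θ r g).det = (-1) ^ (r - 1) * (X - Polynomial.C θ) := by
  obtain ⟨s, rfl⟩ : ∃ s, r = s + 1 := ⟨r - 1, by omega⟩
  have h : (Phi θ (s + 1) g).submatrix (Fin.last s).succAbove Fin.succ = 1 := by
    refine Matrix.ext fun i j => ?_
    simp only [Phi, submatrix_apply, of_apply, Fin.succAbove_last, Fin.val_castSucc, Fin.val_succ,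
      one_apply, Fin.ext_iff]
    rw [if_neg (by have := i.2; omega)]
    simp
  rw [det_succ_column_zero, Finset.sum_eq_single (Fin.last s) (fun i _ hi => ?_) (by simp), h]
  · simp [Phi, hg]
  · have : (i : ℕ) + 1 ≠ s + 1 := by simpa [Fin.ext_iff] using hi
    have h0 : Phi θ (s + 1) g i 0 = 0 := by
      rw [Phi, of_apply, if_neg this, if_neg (by simp)]
    rw [h0, mul_zero, zero_mul]

theorem Phit_det (hr : 0 < r) (hg : g r = 1) (c : ℕ) : (Phit k θ r g c).det =
    ∏ i ∈ Finset.range c, ((-1) ^ (r - 1) * (X - Polynomial.C (θ ^ Nat.card k ^ i))) := by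
  induction c with
  | zero => simp [Phit]
  | succ c ih =>
    rw [Phit, det_mul, pmap_det, ih, Phi_det hr hg, Finset.prod_range_succ', Polynomial.map_prod,
      pow_zero, pow_one]
    congr 1
    refine Finset.prod_congr rfl fun i _ => ?_
    have h1 := frob_pow_apply (k := k) 1 (θ ^ Nat.card k ^ i)
    rw [pow_one, pow_one, ← pow_mul, ← pow_succ] at h1
    simp only [Polynomial.map_mul, Polynomial.map_pow, Polynomial.map_neg, Polynomial.map_one,
      Polynomial.map_sub, map_X, map_C, RingHom.coe_coe, h1]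

theorem Phi_mem (hg : g r = 1) (S : Subring K) (h : ∀ i, co θ g r i ∈ S) : PIn S (Phi θ r g) := by
  intro i j m
  have hj := h j
  simp only [Phi, of_apply, hg, inv_one, C_1, one_mul, co] at hj ⊢
  have hC : ∀ a ∈ S, (Polynomial.C a).coeff m ∈ S := fun a ha => by
    rw [coeff_C]
    split_ifs
    exacts [ha, zero_mem _]
  split_ifs at hj ⊢
  · rw [coeff_sub, coeff_X]
    refine sub_mem ?_ (hC _ hj)
    split_ifs
    exacts [one_mem _, zero_mem _]
  · rw [coeff_neg]
    exact neg_mem (hC _ hj)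
  · exact hC 1 (one_mem _)
  · exact hC 1 (one_mem _)
  · exact zero_mem _
  · exact zero_mem _

theorem Phit_mem (hg : g r = 1) (S : Subring K) (h : ∀ i, co θ g r i ∈ S) (c : ℕ) :
    PIn S (Phit k θ r g c) := by
  induction c with
  | zero =>
    intro i j m
    rw [Phit, one_apply]
    split_ifs
    · rw [coeff_one]
      split_ifs
      exacts [one_mem _, zero_mem _]
    · exact zero_mem _
  | succ c ih =>
    refine PIn.mul (PIn.of_comap _ fun i j m => ?_) (Phi_mem hg S h)
    have h1 := frob_pow_apply (k := k) 1 ((Phit k θ r g c i j).coeff m)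
    rw [pow_one] at h1
    rw [Subring.mem_comap, RingHom.coe_coe, h1]
    exact pow_mem (ih i j m) _

theorem Psi_map {R : Type} [CommRing R] (f : R2 K →+* R) (c M : ℕ) :
    (Psi k θ r g c M).map f =
      rep M (fun i => f (MvPolynomial.X i)) (pmap (f.comp MvPolynomial.C) (Phit k θ r g c)) := by
  rw [Psi, rep_map, pmap_pmap]

end basic

variable (T : Tri k C θ)

theorem Tri.pow_c_succ (j : ℕ) : (T.pow (j + 1)).c = (T.pow j).c + T.c := by
  exact Nat.mul_succ _ _

theorem Tri.lt_pow_Q (B : ℚ) : ∃ j, B < (T.pow j).Q := by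
  obtain ⟨j, hj⟩ := exists_nat_gt B
  refine ⟨j, hj.trans ?_⟩
  have h1 : j < 2 ^ (j + 1) := (Nat.lt_succ_self j).trans Nat.lt_two_pow_self
  have h2 : 2 ^ (j + 1) ≤ (T.pow j).Q := by
    rw [show (T.pow j).Q = T.Q ^ (j + 1) from pow_mul _ _ _]
    exact Nat.pow_le_pow_left T.two_le _
  exact_mod_cast h1.trans_le h2

/-- `T.F = frob ^ c ∘ γ` and `γ` fixes the coefficients (`pmap_Phit`), then `Phit_add` -/
theorem Tri.Phit_succ (hg : ∀ i, T.γ (g i) = g i) (a : ℕ) :
    Phit k θ r g (a + T.c) = pmap (T.F : E →+* E) (Phit k θ r g a) * Phit k θ r g T.c := by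
  have h := pmap_Phit (r := r) (θ := θ) (g := g) (T.γ : E →ₐ[k] E) a
  rw [show (T.γ : E →ₐ[k] E) θ = θ from T.fix,
    show (fun i => (T.γ : E →ₐ[k] E) (g i)) = g from funext hg] at h
  rw [Phit_add]
  congr 1
  conv_lhs => rw [← h, pmap_pmap]
  rfl

/-- `Phit_det` and `T.tr` -/
theorem Tri.Ph_det (hr : 0 < r) (hg : g r = 1) (t : C) : (T.Ph r g t).det ≠ 0 := by
  have h : (T.Ph r g t).det = (Phit k θ r g T.c).det.eval (algebraMap C E t) :=
    ((evalRingHom (algebraMap C E t)).map_det _).symm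
  rw [h, Phit_det hr hg, eval_prod]
  refine Finset.prod_ne_zero_iff.2 fun i _ => ?_
  simp only [eval_mul, eval_pow, eval_neg, eval_one, eval_sub, eval_X, eval_C]
  refine mul_ne_zero (pow_ne_zero _ (neg_ne_zero.2 one_ne_zero)) fun h0 => ?_
  refine T.tr.pow (pow_pos (Nat.card_pos (α := k)) i) ?_
  rw [← sub_eq_zero.1 h0]
  exact isAlgebraic_algebraMap t

theorem Tri.tw_Ph (hg : ∀ i, T.γ (g i) = g i) (t : C) (j : ℕ) :
    tw T.F (T.Ph r g t) j = (T.pow j).Ph r g t := by
  induction j with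
  | zero => simp only [tw, Tri.Ph, Tri.pow, zero_add, mul_one]
  | succ j ih =>
    rw [tw, ih, Tri.Ph, Tri.Ph, Tri.Ph, T.pow_c_succ, T.Phit_succ hg, ← coe_evalRingHom,
      Matrix.map_mul]
    congr 1
    refine Matrix.ext fun a b => ?_
    simp only [map_apply, pmap, coe_evalRingHom]
    conv_rhs => rw [← T.F.commutes t]
    exact (eval_map_apply (T.F : E →+* E) _).symm

theorem Tri.tw_rep (hg : ∀ i, T.γ (g i) = g i) (t : Fin 2 → C) (M j : ℕ) :
    tw T.F (rep M (fun i => algebraMap C E (t i)) (Phit k θ r g T.c)) j =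
      rep M (fun i => algebraMap C E (t i)) (Phit k θ r g (T.pow j).c) := by
  induction j with
  | zero => simp only [tw, Tri.pow, zero_add, mul_one]
  | succ j ih =>
    rw [tw, ih, T.pow_c_succ, T.Phit_succ hg, rep_mul]
    congr 1
    have := rep_map (T.F : E →+* E) M (fun i => algebraMap C E (t i)) (Phit k θ r g (T.pow j).c)
    simpa only [RingHom.coe_coe, AlgHom.commutes] using this

theorem Tri.tw_eq {Ψ : Matrix J J E} {y : J → E} {μ : E}
    (h : (fun l => T.F (y l)) = μ • Ψ *ᵥ y) (j : ℕ) :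
    ∃ μ' : E, (fun l => (T.pow j).F (y l)) = μ' • tw T.F Ψ j *ᵥ y := by
  induction j with
  | zero => exact ⟨μ, by simpa only [T.F_pow, zero_add, Function.iterate_one, tw] using h⟩
  | succ j ih =>
    obtain ⟨μ', h'⟩ := ih
    refine ⟨T.F μ' * μ, funext fun l => ?_⟩
    have h1 := congrArg T.F (congrFun h' l)
    have h2 := RingHom.map_mulVec (T.F : E →+* E) (tw T.F Ψ j) y l
    have h3 : (T.F : E →+* E) ∘ y = μ • Ψ *ᵥ y := h
    rw [h3, RingHom.coe_coe, mulVec_smul, mulVec_mulVec] at h2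
    rw [T.F_pow, Pi.smul_apply, smul_eq_mul, map_mul, h2] at h1
    rw [T.F_pow, Function.iterate_succ_apply', h1, tw]
    simp only [Pi.smul_apply, smul_eq_mul, mul_assoc]

/-- `T.F` is bijective, so `Θ.map T.F` commutes with the representation as well (`ap_map`) -/
theorem Tri.tw_mul (ρ : PRep C n J) (Φ : Matrix n n E) {Θ : Matrix J J E}
    (h : ∀ A : Matrix n n E, Θ * ap ρ.P A = ap ρ.P A * Θ) (j : ℕ) :
    (∀ A : Matrix n n E, tw T.F Θ j * ap ρ.P A = ap ρ.P A * tw T.F Θ j) ∧
      tw T.F (ap ρ.P Φ * Θ) j = ap ρ.P (tw T.F Φ j) * tw T.F Θ j := by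
  have hm : ∀ A B : Matrix J J E, (A * B).map T.F = A.map T.F * B.map T.F := fun A B =>
    Matrix.map_mul (f := (T.F : E →+* E))
  have key : ∀ B : Matrix J J E, (∀ A : Matrix n n E, B * ap ρ.P A = ap ρ.P A * B) →
      ∀ A : Matrix n n E, B.map T.F * ap ρ.P A = ap ρ.P A * B.map T.F := fun B hB A => by
    obtain ⟨A, rfl⟩ : ∃ A' : Matrix n n E, A'.map T.F = A :=
      ⟨A.map T.Fe.symm, Matrix.ext fun a b => T.Fe.apply_symm_apply _⟩
    rw [← ap_map, ← hm, ← hm, hB]
  induction j with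
  | zero => exact ⟨h, rfl⟩
  | succ j ih =>
    refine ⟨fun A => ?_, ?_⟩
    · rw [tw, mul_assoc, h, ← mul_assoc, key _ ih.1, mul_assoc]
    · rw [tw, tw, tw, ih.2, hm, ap_map, ρ.mul, mul_assoc, ← mul_assoc (Matrix.map _ _), key _ ih.1,
        mul_assoc, mul_assoc]

end Pool.Agent.Lib.MP_6adaea_nt.W
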