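import Pool.Agent.Lib.MP_6adaea_nt.W.RI1

/-!
The Riemann inequality for a cofinal family of divisors.
-/

set_option linter.unusedSectionVars false

namespace Pool.Agent.Lib.MP_6adaea_nt.W
open Matrix Polynomial G U
open scoped TensorProduct

variable {kb K : Type} [Field kb] [Field K] [Algebra kb K] [IsAlgClosed kb] [IsFF kb K]
  (p : ℕ) [Fact p.Prime] [CharP kb p]

include p in
/-- apply `IsFF.finrank_le` to the spans of finite independent families (`rank_le`) -/
theorem LL_fin (D : Place kb K →₀ ℕ) :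
    FiniteDimensional kb (LL D) ∧ Module.finrank kb (LL D) ≤ tot D + 1 := by
  classical
  have h1 : Module.rank kb (LL D) ≤ (tot D + 1 : ℕ) := by
    refine rank_le fun s hs => ?_
    have h2 := hs.map' (LL D).subtype (Submodule.ker_subtype _)
    have h3 := finrank_span_eq_card h2
    have h4 : FiniteDimensional kb
        (Submodule.span kb (Set.range ((LL D).subtype ∘ fun i : s => (i : LL D)))) :=
      FiniteDimensional.span_of_finite kb (Set.finite_range _)
    have h5 := IsFF.finrank_le p (tot D) D le_rfl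
      (Submodule.span kb (Set.range ((LL D).subtype ∘ fun i : s => (i : LL D)))) fun f hf => by
        have h6 : f ∈ LL D := by
          refine Submodule.span_le.mpr ?_ hf
          rintro _ ⟨i, rfl⟩
          exact i.1.2
        exact h6
    rw [h3, Fintype.card_coe] at h5
    exact h5
  have h7 : FiniteDimensional kb (LL D) :=
    Module.rank_lt_aleph0_iff.mp (h1.trans_lt (Cardinal.natCast_lt_aleph0))
  exact ⟨h7, IsFF.finrank_le p (tot D) D le_rfl (LL D) fun f hf => hf⟩

theorem ri_tot_add {α : Type} (a b : α →₀ ℕ) : tot (a + b) = tot a + tot b :=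
  Finsupp.sum_add_index' (fun _ => rfl) fun _ _ _ => rfl

theorem ri_tot_smul {α : Type} (d : ℕ) (a : α →₀ ℕ) : tot (d • a) = d * tot a := by
  induction d with
  | zero => simp [tot]
  | succ d ih => rw [succ_nsmul, ri_tot_add, ih, Nat.succ_mul]

theorem ri_tot_mono {α : Type} {a b : α →₀ ℕ} (h : a ≤ b) : tot a ≤ tot b := by
  obtain ⟨c, rfl⟩ := exists_add_of_le h
  rw [ri_tot_add]
  exact Nat.le_add_right _ _

theorem ri_le_tot {α : Type} (a : α →₀ ℕ) (v : α) : a v ≤ tot a := by
  by_cases hv : v ∈ a.support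
  · exact Finset.single_le_sum (f := fun v => a v) (fun _ _ => Nat.zero_le _) hv
  · rw [Finsupp.notMem_support_iff.mp hv]
    exact Nat.zero_le _

include p in
/-- the divisor of poles -/
theorem ri_pol (x : K) : ∃ m : Place kb K →₀ ℕ, ∀ v : Place kb K, m v = (-v.ord x).toNat := by
  have hfin : (Function.support fun v : Place kb K => (-v.ord x).toNat).Finite :=
    (IsFF.fin p x).subset fun v hv h => hv (by simp [h])
  exact ⟨Finsupp.ofSupportFinite _ hfin, fun v => by rw [Finsupp.ofSupportFinite_coe]⟩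

include p in
/-- zeros and poles have the same degree -/
theorem ri_prod (x : K) (m m' : Place kb K →₀ ℕ) (hm : ∀ v : Place kb K, m v = (-v.ord x).toNat)
    (hm' : ∀ v : Place kb K, m' v = (v.ord x).toNat) : tot m' = tot m := by
  classical
  have hfin := IsFF.fin (k := kb) p x
  have h0 := IsFF.prod p x hfin.toFinset fun v hv => hfin.mem_toFinset.mpr hv
  have h1 : tot m = ∑ v ∈ hfin.toFinset, m v :=
    Finsupp.sum_of_support_subset m (fun v hv => hfin.mem_toFinset.mpr fun h => by
      rw [Finsupp.mem_support_iff, hm v, h] at hv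
      exact hv rfl) _ fun _ _ => rfl
  have h2 : tot m' = ∑ v ∈ hfin.toFinset, m' v :=
    Finsupp.sum_of_support_subset m' (fun v hv => hfin.mem_toFinset.mpr fun h => by
      rw [Finsupp.mem_support_iff, hm' v, h] at hv
      exact hv rfl) _ fun _ _ => rfl
  have h3 : ((∑ v ∈ hfin.toFinset, m' v : ℕ) : ℤ) - (∑ v ∈ hfin.toFinset, m v : ℕ) = 0 := by
    rw [Nat.cast_sum, Nat.cast_sum, ← Finset.sum_sub_distrib]
    refine Eq.trans (Finset.sum_congr rfl fun v _ => ?_) h0
    rw [hm v, hm' v]
    omega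
  omega

/-- the powers of the variable are independent -/
theorem ri_li (e : ℕ) :
    LinearIndependent kb fun i : Fin e => (RatFunc.X : RatFunc kb) ^ (i : ℕ) := by
  have h1 := (basisMonomials kb).linearIndependent.map'
    (IsScalarTower.toAlgHom kb kb[X] (RatFunc kb)).toLinearMap
    (LinearMap.ker_eq_bot.mpr (IsFractionRing.injective kb[X] (RatFunc kb)))
  have h2 := h1.comp (fun i : Fin e => (i : ℕ)) Fin.val_injective
  have h3 : (fun i : Fin e => (RatFunc.X : RatFunc kb) ^ (i : ℕ)) =
      ((IsScalarTower.toAlgHom kb kb[X] (RatFunc kb)).toLinearMap ∘ basisMonomials kb) ∘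
        fun i : Fin e => (i : ℕ) := by
    funext i
    simp [← X_pow_eq_monomial]
  rw [h3]
  exact h2

/-- a product of linear factors that vanishes along the finite part of `D` -/
theorem ri_den {t : K} (ht : Transcendental kb t) (D : Place kb K →₀ ℕ) : ∃ s : K, s ≠ 0 ∧
    (∀ v : Place kb K, 0 ≤ v.ord t → (D v : ℤ) ≤ v.ord s) ∧
    ∀ v : Place kb K, v.ord t < 0 → v.ord s = tot D * v.ord t := by
  classical
  have h0 : ∀ v : Place kb K, ∃ c : kb, 0 ≤ v.ord t → v.Ge (t - algebraMap kb K c) 1 := fun v => by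
    by_cases hv : 0 ≤ v.ord t
    · obtain ⟨c, hc⟩ := v.exists_res (Place.Ge.of_le hv)
      exact ⟨c, fun _ => hc⟩
    · exact ⟨0, fun h => absurd h hv⟩
  choose c hc using h0
  have h1 : ∀ a : kb, t - algebraMap kb K a ≠ 0 := fun a h => by
    rw [sub_eq_zero] at h
    exact ht (h ▸ isAlgebraic_algebraMap a)
  have ht0 : t ≠ 0 := by simpa using h1 0
  have h2 : ∀ w ∈ D.support, (t - algebraMap kb K (c w)) ^ D w ≠ 0 :=
    fun w _ => pow_ne_zero _ (h1 _)
  refine ⟨∏ w ∈ D.support, (t - algebraMap kb K (c w)) ^ D w, Finset.prod_ne_zero_iff.mpr h2,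
    fun v hv => ?_, fun v hv => ?_⟩
  · rw [v.ord_prod _ _ h2]
    have h3 : ∀ w ∈ D.support, 0 ≤ v.ord ((t - algebraMap kb K (c w)) ^ D w) := fun w _ => by
      rw [v.ord_pow]
      exact mul_nonneg (Nat.cast_nonneg _)
        (((Place.Ge.of_le hv).sub (v.ge_const _)).le (h1 _))
    by_cases hD : v ∈ D.support
    · refine le_trans ?_ (Finset.single_le_sum h3 hD)
      rw [v.ord_pow]
      exact le_mul_of_one_le_right (Nat.cast_nonneg _) ((hc v hv).le (h1 _))
    · rw [Finsupp.notMem_support_iff.mp hD]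
      exact Finset.sum_nonneg h3
  · rw [v.ord_prod _ _ h2, tot, Finsupp.sum, Nat.cast_sum, Finset.sum_mul]
    refine Finset.sum_congr rfl fun w _ => ?_
    rw [v.ord_pow, sub_eq_add_neg,
      (Place.ord_add_of_ge ht0 ((v.ge_const (c w)).neg.mono (by omega))).2]

include p in
/-- `t` separating (`IsFF.exists_gen`, `sep_adjoin`, `ff2_alg`), `b` a basis of `K` over `kb(t)` with
poles bounded by `β` (`north_poles`), `s = ∏ (t - c v) ^ D v` over the places of the support at
which `t` is integral with value `c v`, `e = deg s + tot D`. The `t ^ i * b l / s`, `i < e`, are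
independent and lie in `LL D'` for `D' = β + poles (1 / s) + tot D • poles t`. By the product formula
`tot (poles (1 / s)) = tot (poles s) ≤ deg s * h`, where `h ≤ n` is the degree of the poles of `t`
(`pole_deg`). So `C0 = tot β`. -/
theorem riemann : ∃ C0 : ℕ, ∀ D : Place kb K →₀ ℕ, ∃ D' : Place kb K →₀ ℕ, D ≤ D' ∧
    tot D' ≤ Module.finrank kb (LL D') + C0 := by
  classical
  obtain ⟨t, ht, -⟩ := IsFF.exists_gen kb K p
  have htr : Transcendental kb t := IsFF.transcendental p ht
  obtain ⟨_, h1, h2, hX, h3⟩ := ff2_alg htr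
  have h4 := h3 (IsFF.sep_adjoin p ht)
  let b := Module.finBasis (RatFunc kb) K
  choose pol hpol using ri_pol (kb := kb) (K := K) p
  have hh : tot (pol t) ≤ Module.finrank (RatFunc kb) K := by
    have h5 := pole_deg p (pol t).support
    have h6 : ((tot (pol t) : ℕ) : ℤ) = ∑ v ∈ (pol t).support, -v.ord t := by
      rw [tot, Finsupp.sum, Nat.cast_sum]
      refine Finset.sum_congr rfl fun v hv => ?_
      rw [Finsupp.mem_support_iff] at hv
      rw [hpol] at hv ⊢
      omega
    rw [hX, ← h6] at h5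
    exact_mod_cast h5
  obtain ⟨β, hβ⟩ : ∃ β : Place kb K →₀ ℕ, ∀ l v, pol (b l) v ≤ β v :=
    ⟨∑ l, pol (b l), fun l v => by
      rw [Finsupp.finsetSum_apply]
      exact Finset.single_le_sum (f := fun l => pol (b l) v) (fun _ _ => Nat.zero_le _)
        (Finset.mem_univ l)⟩
  refine ⟨tot β, fun D => ?_⟩
  obtain ⟨s, hs0, hs1, hs2⟩ := ri_den htr D
  have ht0 : t ≠ 0 := fun h => htr (h ▸ isAlgebraic_zero)
  refine ⟨β + (pol s⁻¹ + tot D • pol t), fun v => ?_, ?_⟩
  · have h5 := ri_le_tot D v
    simp only [Finsupp.add_apply, Finsupp.smul_apply, smul_eq_mul, hpol, Place.ord_inv, neg_neg]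
    by_cases hv : 0 ≤ v.ord t
    · have := hs1 v hv
      omega
    · have h6 : tot D * 1 ≤ tot D * (-v.ord t).toNat := Nat.mul_le_mul_left _ (by omega)
      omega
  · set D' := β + (pol s⁻¹ + tot D • pol t) with hD'
    have h5 : tot (pol s⁻¹) = tot (pol s) :=
      ri_prod p s _ _ (hpol s) fun v => by rw [hpol, Place.ord_inv, neg_neg]
    have h6 : tot (pol s) ≤ tot D * tot (pol t) := by
      rw [← ri_tot_smul]
      refine ri_tot_mono fun v => ?_
      rw [Finsupp.smul_apply, smul_eq_mul, hpol, hpol]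
      by_cases hv : 0 ≤ v.ord t
      · have := hs1 v hv
        omega
      · rw [hs2 v (not_le.mp hv)]
        have h7 : (((-v.ord t).toNat : ℕ) : ℤ) = -v.ord t := by omega
        have h8 : -(tot D * v.ord t) = ((tot D * (-v.ord t).toNat : ℕ) : ℤ) := by
          rw [Nat.cast_mul, h7]
          ring
        rw [h8, Int.toNat_natCast]
    have hmem : ∀ x : Fin (2 * tot D) × Fin (Module.finrank (RatFunc kb) K),
        t ^ (x.1 : ℕ) * b x.2 * s⁻¹ ∈ LL D' := by
      rintro ⟨i, l⟩ v
      have h7 := hβ l v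
      refine Place.Ge.of_le ?_
      rw [v.ord_mul (mul_ne_zero (pow_ne_zero _ ht0) (b.ne_zero l)) (inv_ne_zero hs0),
        v.ord_mul (pow_ne_zero _ ht0) (b.ne_zero l), v.ord_pow, hD', Finsupp.add_apply,
        Finsupp.add_apply, Finsupp.smul_apply, smul_eq_mul, hpol, hpol t]
      rw [hpol] at h7
      simp only [Place.ord_inv, neg_neg]
      push_cast
      by_cases hv : 0 ≤ v.ord t
      · have h8 : 0 ≤ ((i : ℕ) : ℤ) * v.ord t := mul_nonneg (Nat.cast_nonneg _) hv
        have h9 : (0 : ℤ) ≤ (tot D : ℕ) * ((-v.ord t).toNat : ℤ) := by positivity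
        omega
      · have h8 : (((-v.ord t).toNat : ℕ) : ℤ) = -v.ord t := by omega
        have h9 := hs2 v (not_le.mp hv)
        have h10 : ((i : ℕ) : ℤ) ≤ 2 * (tot D : ℕ) := by exact_mod_cast i.2.le
        have h11 : (2 * (tot D : ℕ) : ℤ) * v.ord t ≤ ((i : ℕ) : ℤ) * v.ord t :=
          mul_le_mul_of_nonpos_right h10 (not_le.mp hv).le
        rw [h8]
        have h12 : ((tot D : ℕ) : ℤ) * -v.ord t = -((tot D : ℕ) * v.ord t) := by ring
        have h13 : (2 * (tot D : ℕ) : ℤ) * v.ord t = 2 * ((tot D : ℕ) * v.ord t) := by ring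
        omega
    have hli : LinearIndependent kb
        fun x : Fin (2 * tot D) × Fin (Module.finrank (RatFunc kb) K) =>
          (⟨_, hmem x⟩ : LL D') := by
      refine LinearIndependent.of_comp (LL D').subtype ?_
      have h7 := (linearIndependent_smul (ri_li (kb := kb) (2 * tot D)) b.linearIndependent).map'
        (LinearMap.mulRight kb s⁻¹)
        (LinearMap.ker_eq_bot.mpr (mul_left_injective₀ (inv_ne_zero hs0)))
      have h8 : ((LL D').subtype ∘ fun x => (⟨_, hmem x⟩ : LL D')) =
          LinearMap.mulRight kb s⁻¹ ∘ fun x : Fin (2 * tot D) × Fin (Module.finrank (RatFunc kb) K) =>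
            (RatFunc.X : RatFunc kb) ^ (x.1 : ℕ) • b x.2 := by
        funext x
        simp [Algebra.smul_def, hX]
      rw [h8]
      exact h7
    have h7 := (LL_fin p D').1
    have h8 := hli.fintype_card_le_finrank
    rw [Fintype.card_prod, Fintype.card_fin, Fintype.card_fin] at h8
    have h9 : tot D' = tot β + (tot (pol s⁻¹) + tot D * tot (pol t)) := by
      rw [hD', ri_tot_add, ri_tot_add, ri_tot_smul]
    have h10 := Nat.mul_le_mul_left (tot D) hh
    have h11 : 2 * tot D * Module.finrank (RatFunc kb) K =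
      2 * (tot D * Module.finrank (RatFunc kb) K) := by ring
    omega

end Pool.Agent.Lib.MP_6adaea_nt.W
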