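import Pool.Agent.Lib.MP_6adaea_nt.W.Defs2

/-!
The degree of the pole divisor.
-/

set_option linter.unusedSectionVars false

namespace Pool.Agent.Lib.MP_6adaea_nt.W
open Matrix Polynomial G U
open scoped TensorProduct

variable {kb K : Type} [Field kb] [Field K] [Algebra kb K] [IsAlgClosed kb] [IsFF kb K]
  (p : ℕ) [Fact p.Prime] [CharP kb p]

include p in
/-- Let `N` be a Galois closure (`ff2_closure`). The places of `N` over the poles of `t` in `K` are
the places over the infinite place of `kb(t)` (`rat_place_inf`, `Place.exists_under`). Apply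
`ff2_sum` to `N / K` and to `N / kb(t)`; the norm of `t` is a power of `t`. -/
theorem pole_deg [Algebra (RatFunc kb) K] [IsScalarTower kb (RatFunc kb) K]
    [FiniteDimensional (RatFunc kb) K] [Algebra.IsSeparable (RatFunc kb) K]
    (T : Finset (Place kb K)) :
    ∑ v ∈ T, -v.ord (algebraMap (RatFunc kb) K RatFunc.X) ≤ Module.finrank (RatFunc kb) K := by
  classical
  obtain ⟨N, _, _, _, _, h5, h6, h7, h8, h9⟩ := ff2_closure kb (RatFunc kb) K
  have h10 : IsFF kb (RatFunc kb) := (IsFF.of_sub (k := kb) (K := K) (RatFunc kb)).1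
  have h11 : FiniteDimensional K N := Module.Finite.of_restrictScalars_finite (RatFunc kb) K N
  have h12 : IsGalois K N := IsGalois.tower_top_of_isGalois (RatFunc kb) K N
  obtain ⟨u, hu, hu'⟩ := rat_place_inf (k := kb)
  have hu0 : u.ord RatFunc.X = -1 := by simpa using hu 0
  obtain ⟨S₁, a1, a2⟩ := ff2_sum N p
    (T.filter fun v => v.ord (algebraMap (RatFunc kb) K RatFunc.X) < 0)
  obtain ⟨S₂, b1, b2⟩ := ff2_sum N p ({u} : Finset (Place kb (RatFunc kb)))
  have c1 : S₁ ⊆ S₂ := fun w hw => by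
    obtain ⟨v, hv, e, he⟩ := (a1 w).mp hw
    obtain ⟨v', e', he'⟩ := Place.exists_under (L := RatFunc kb) w
    refine (b1 w).mpr ⟨v', Finset.mem_singleton.mpr (hu' v' ?_), e', he'⟩
    have k1 := he.2 (algebraMap (RatFunc kb) K RatFunc.X)
    rw [← IsScalarTower.algebraMap_apply, he'.2] at k1
    have k2 := mul_neg_of_pos_of_neg (Int.natCast_pos.mpr he.1) (Finset.mem_filter.mp hv).2
    rw [← k1] at k2
    exact neg_of_mul_neg_right k2 (Int.natCast_nonneg _)
  have c2 : ∑ w ∈ S₁, -w.ord (algebraMap (RatFunc kb) N RatFunc.X) ≤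
      ∑ w ∈ S₂, -w.ord (algebraMap (RatFunc kb) N RatFunc.X) :=
    Finset.sum_le_sum_of_subset_of_nonneg c1 fun w hw _ => by
      obtain ⟨v, hv, e, he⟩ := (b1 w).mp hw
      rw [he.2, Finset.mem_singleton.mp hv, hu0]
      omega
  rw [Finset.sum_neg_distrib, Finset.sum_neg_distrib, b2, Finset.sum_singleton,
    Algebra.norm_algebraMap, Place.ord_pow, hu0, IsScalarTower.algebraMap_apply (RatFunc kb) K N,
    a2, Algebra.norm_algebraMap, ← Module.finrank_mul_finrank (RatFunc kb) K N] at c2
  simp only [Place.ord_pow, ← Finset.mul_sum] at c2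
  have c3 : (0 : ℤ) < Module.finrank K N := by exact_mod_cast Module.finrank_pos
  have c4 : ∑ v ∈ T, -v.ord (algebraMap (RatFunc kb) K RatFunc.X) ≤
      -∑ v ∈ T.filter fun v => v.ord (algebraMap (RatFunc kb) K RatFunc.X) < 0,
        v.ord (algebraMap (RatFunc kb) K RatFunc.X) := by
    rw [← Finset.sum_neg_distrib, Finset.sum_filter]
    refine Finset.sum_le_sum fun v _ => ?_
    split_ifs <;> omega
  refine c4.trans (le_of_mul_le_mul_left ?_ c3)
  push_cast at c2
  linarith

end Pool.Agent.Lib.MP_6adaea_nt.W
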