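import Pool.Agent.Lib.MP_6adaea_nt.W.Defs2

/-!
Reduction of matrices.
-/

set_option linter.unusedSectionVars false

namespace Pool.Agent.Lib.MP_6adaea_nt.W
open Matrix Polynomial G U
open scoped TensorProduct

variable {C E : Type} [Field C] [Field E] [Algebra C E] {n J : Type} [Fintype n] [DecidableEq n]
  [Fintype J] [DecidableEq J] {V : QVal E}

theorem ap_map {R R' : Type} [CommRing R] [CommRing R'] [Algebra C R] [Algebra C R']
    (f : R →ₐ[C] R') (P : Matrix J J (MvPolynomial (n × n) C)) (A : Matrix n n R) :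
    (ap P A).map f = ap P (A.map f) := by
  ext x y
  simp only [ap, Matrix.map_apply]
  induction P x y using MvPolynomial.induction_on with
  | C c => simp
  | add p q hp hq => simp only [map_add, hp, hq]
  | mul_X p i hp => simp only [map_mul, hp, MvPolynomial.aeval_X]

/-- induction on the polynomial -/
theorem ap_mem {R : Type} [CommRing R] [Algebra C R] (S : Subalgebra C R)
    (P : Matrix J J (MvPolynomial (n × n) C)) {A : Matrix n n R} (h : ∀ i j, A i j ∈ S) (x y : J) :
    ap P A x y ∈ S := by
  simp only [ap, Matrix.map_apply]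
  induction P x y using MvPolynomial.induction_on with
  | C c => rw [MvPolynomial.aeval_C]; exact S.algebraMap_mem c
  | add p q hp hq => rw [map_add]; exact S.add_mem hp hq
  | mul_X p i hp => rw [map_mul, MvPolynomial.aeval_X]; exact S.mul_mem hp (h _ _)

variable {a b : Type} [Fintype a] [Fintype b]

theorem exists_mge (V : QVal E) (A : Matrix a b E) : ∃ B : ℚ, 0 ≤ B ∧ MGe V A (-B) := by
  obtain ⟨B, hB⟩ := (Set.finite_range fun p : a × b => -V.ord (A p.1 p.2)).bddAbove
  refine ⟨max B 0, le_max_right _ _, fun i j => QVal.Ge.of_le ?_⟩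
  have h1 : -V.ord (A i j) ≤ B := hB ⟨(i, j), rfl⟩
  have h2 := le_max_left B 0
  linarith

theorem MGe.mul {A : Matrix a n E} {B : Matrix n b E} {s t : ℚ} (hA : MGe V A s) (hB : MGe V B t) :
    MGe V (A * B) (s + t) := by
  intro i j
  rw [Matrix.mul_apply]
  exact QVal.Ge.sum fun l _ => (hA i l).mul (hB l j)

theorem MGe.mul₀ {A : Matrix a n E} {B : Matrix n b E} (hA : MGe V A 0) (hB : MGe V B 0) :
    MGe V (A * B) 0 := by
  simpa using hA.mul hB

theorem mge_one : MGe V (1 : Matrix n n E) 0 := by
  intro i j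
  rw [Matrix.one_apply]
  split_ifs
  · exact V.ge_one
  · exact Or.inl rfl

theorem MGe.det {A : Matrix n n E} (hA : MGe V A 0) : V.Ge A.det 0 := by
  rw [Matrix.det_apply']
  refine QVal.Ge.sum fun σ _ => (QVal.ge_intCast V _).mul₀ ?_
  simpa using QVal.Ge.prod (V := V) (s := Finset.univ) (f := fun i => A (σ i) i) (m := fun _ => 0)
    fun i _ => hA _ _

theorem MGe.adjugate {A : Matrix n n E} (hA : MGe V A 0) : MGe V A.adjugate 0 := by
  intro i j
  rw [Matrix.adjugate_apply]
  refine MGe.det fun x y => ?_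
  rw [Matrix.updateRow_apply]
  split_ifs
  · rw [Pi.single_apply]
    split_ifs
    · exact V.ge_one
    · exact Or.inl rfl
  · exact hA _ _

theorem MGe.map {A : Matrix a b E} {s : ℚ} (hA : MGe V A s) {ι : E → E} (h0 : ι 0 = 0)
    (hι : ∀ x, V.ord (ι x) = V.ord x) : MGe V (A.map ι) s := by
  intro i j
  rw [Matrix.map_apply]
  rcases hA i j with h | h
  · exact Or.inl (by rw [h, h0])
  · exact Or.inr (by rw [hι]; exact h)

theorem mred_one : MRed V (1 : Matrix n n E) (1 : Matrix n n C) := by
  intro i j
  refine Or.inl ?_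
  rw [Matrix.one_apply, Matrix.one_apply]
  split_ifs <;> simp

theorem mred_const (B : Matrix a b C) : MRed V (B.map (algebraMap C E)) B := by
  intro i j
  exact Or.inl (by simp)

theorem MRed.add {A A' : Matrix a b E} {B B' : Matrix a b C} (h : MRed V A B) (h' : MRed V A' B') :
    MRed V (A + A') (B + B') := by
  intro i j
  have h1 := (h i j).add (h' i j)
  rw [Matrix.add_apply, Matrix.add_apply, map_add, ← sub_add_sub_comm]
  exact h1

theorem MRed.transpose {A : Matrix a b E} {B : Matrix a b C} (h : MRed V A B) : MRed V Aᵀ Bᵀ := by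
  intro i j
  exact h j i

theorem MRed.congr {A A' : Matrix a b E} {B : Matrix a b C} (h : MRed V A B)
    (h' : ∀ i j, V.Gt (A' i j - A i j) 0) : MRed V A' B := by
  intro i j
  have h1 := (h' i j).add (h i j)
  rwa [sub_add_sub_cancel] at h1

variable (hV : V.HasRes C)
include hV

private theorem reda_ge {x : E} {c : C} (h : V.Gt (x - algebraMap C E c) 0) : V.Ge x 0 := by
  have h1 := h.ge.add (hV.ge_const c)
  rwa [sub_add_cancel] at h1

private theorem reda_mul {x y : E} {c d : C} (h : V.Gt (x - algebraMap C E c) 0)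
    (h' : V.Gt (y - algebraMap C E d) 0) : V.Gt (x * y - algebraMap C E (c * d)) 0 := by
  have h1 := ((reda_ge hV h).mul_gt₀ h').add ((hV.ge_const d).mul_gt₀ h)
  have h2 : x * y - algebraMap C E (c * d) =
      x * (y - algebraMap C E d) + algebraMap C E d * (x - algebraMap C E c) := by
    rw [map_mul]; ring
  rwa [h2]

private theorem reda_prod {ι : Type} (s : Finset ι) (f : ι → E) (g : ι → C)
    (h : ∀ i ∈ s, V.Gt (f i - algebraMap C E (g i)) 0) :
    V.Gt (∏ i ∈ s, f i - algebraMap C E (∏ i ∈ s, g i)) 0 := by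
  classical
  induction s using Finset.induction_on with
  | empty => exact Or.inl (by simp)
  | insert i s hi ih =>
    rw [Finset.prod_insert hi, Finset.prod_insert hi]
    exact reda_mul hV (h i (Finset.mem_insert_self _ _))
      (ih fun j hj => h j (Finset.mem_insert_of_mem hj))

theorem MGe.ap (P : Matrix J J (MvPolynomial (n × n) C)) {A : Matrix n n E} (hA : MGe V A 0) :
    MGe V (ap P A) 0 := by
  intro x y
  simp only [W.ap, Matrix.map_apply]
  induction P x y using MvPolynomial.induction_on with
  | C c => simpa using hV.ge_const c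
  | add p q hp hq => rw [map_add]; exact hp.add hq
  | mul_X p i hp => rw [map_mul, MvPolynomial.aeval_X]; exact hp.mul₀ (hA _ _)

theorem MRed.mge {A : Matrix a b E} {B : Matrix a b C} (h : MRed V A B) : MGe V A 0 := by
  intro i j
  exact reda_ge hV (h i j)

theorem exists_mred {A : Matrix a b E} (hA : MGe V A 0) : ∃ B : Matrix a b C, MRed V A B := by
  exact ⟨Matrix.of fun i j => V.res C (A i j), fun i j => hV.gt_res (hA i j)⟩

theorem MRed.uniq {A : Matrix a b E} {B B' : Matrix a b C} (h : MRed V A B) (h' : MRed V A B') :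
    B = B' := by
  ext i j
  exact (hV.res_eq (h i j)).symm.trans (hV.res_eq (h' i j))

theorem MRed.mul {A : Matrix a n E} {A' : Matrix n b E} {B : Matrix a n C} {B' : Matrix n b C}
    (h : MRed V A B) (h' : MRed V A' B') : MRed V (A * A') (B * B') := by
  intro i j
  rw [Matrix.mul_apply, Matrix.mul_apply, map_sum, ← Finset.sum_sub_distrib]
  exact QVal.Gt.sum fun l _ => reda_mul hV (h i l) (h' l j)

theorem MRed.smul {A : Matrix a b E} {B : Matrix a b C} (h : MRed V A B) {l : E} {c : C}
    (hl : V.Gt (l - algebraMap C E c) 0) : MRed V (l • A) (c • B) := by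
  intro i j
  rw [Matrix.smul_apply, Matrix.smul_apply, smul_eq_mul, smul_eq_mul]
  exact reda_mul hV hl (h i j)

theorem MRed.ap (P : Matrix J J (MvPolynomial (n × n) C)) {A : Matrix n n E} {B : Matrix n n C}
    (h : MRed V A B) : MRed V (ap P A) (ap P B) := by
  intro x y
  simp only [W.ap, Matrix.map_apply]
  induction P x y using MvPolynomial.induction_on with
  | C c => exact Or.inl (by simp)
  | add p q hp hq =>
    rw [map_add, map_add, map_add, ← sub_add_sub_comm]
    exact hp.add hq
  | mul_X p i hp =>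
    rw [map_mul, map_mul, MvPolynomial.aeval_X, MvPolynomial.aeval_X]
    exact reda_mul hV hp (h _ _)

theorem MRed.det {A : Matrix n n E} {B : Matrix n n C} (h : MRed V A B) :
    V.Gt (A.det - algebraMap C E B.det) 0 := by
  rw [Matrix.det_apply', Matrix.det_apply', map_sum, ← Finset.sum_sub_distrib]
  refine QVal.Gt.sum fun σ _ => reda_mul hV (Or.inl (by simp)) ?_
  exact reda_prod hV Finset.univ (fun i => A (σ i) i) (fun i => B (σ i) i) fun i _ => h _ _

/-- `HasRes.gt_sub` -/
theorem MRed.map {A : Matrix a b E} {B : Matrix a b C} (h : MRed V A B) (ι : E ≃ₐ[C] E)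
    (hι : ∀ x, V.ord (ι x) = V.ord x) : MRed V (A.map ι) B := by
  refine h.congr fun i j => ?_
  rw [Matrix.map_apply]
  exact hV.gt_sub ι hι (fun c => ι.commutes c) (h.mge hV i j)

end Pool.Agent.Lib.MP_6adaea_nt.W
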