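import Pool.Agent.Lib.MP_6adaea_nt.W.RedA

/-!
Unimodular matrices, reduction of lines, eigenvectors.
-/

set_option linter.unusedSectionVars false

namespace Pool.Agent.Lib.MP_6adaea_nt.W
open Matrix Polynomial G U
open scoped TensorProduct

variable {C E : Type} [Field C] [Field E] [Algebra C E] {n J : Type} [Fintype n] [DecidableEq n]
  [Fintype J] [DecidableEq J] {V : QVal E}

theorem uni_of_det {A : Matrix n n E} (hA : MGe V A 0) (h0 : A.det ≠ 0) (h1 : V.ord A.det = 0) :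
    Uni V A := by
  refine ⟨hA, A.det⁻¹ • A.adjugate, fun i j => ?_, ?_⟩
  · exact (QVal.Ge.of_le (by rw [V.ord_inv, h1, neg_zero])).mul₀ (hA.adjugate i j)
  · rw [Matrix.smul_mul, adjugate_mul, smul_smul, inv_mul_cancel₀ h0, one_smul]

theorem uni_one : Uni V (1 : Matrix n n E) := ⟨mge_one, 1, mge_one, one_mul _⟩

theorem Uni.mul {A B : Matrix n n E} (hA : Uni V A) (hB : Uni V B) : Uni V (A * B) := by
  obtain ⟨h1, A', h2, h3⟩ := hA
  obtain ⟨h4, B', h5, h6⟩ := hB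
  exact ⟨h1.mul₀ h4, B' * A', h5.mul₀ h2, by rw [mul_assoc, ← mul_assoc A', h3, one_mul, h6]⟩

theorem Uni.transpose {A : Matrix n n E} (hA : Uni V A) : Uni V Aᵀ := by
  obtain ⟨h1, B, h2, h3⟩ := hA
  exact ⟨fun i j => h1 j i, Bᵀ, fun i j => h2 j i, by
    rw [← transpose_mul, mul_eq_one_comm.1 h3, transpose_one]⟩

theorem Uni.exists_inv {A : Matrix n n E} (hA : Uni V A) :
    ∃ B, Uni V B ∧ B * A = 1 ∧ A * B = 1 := by
  obtain ⟨h1, B, h2, h3⟩ := hA
  exact ⟨B, ⟨h2, A, h1, mul_eq_one_comm.1 h3⟩, h3, mul_eq_one_comm.1 h3⟩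

theorem Uni.exists_red (hV : V.HasRes C) {A : Matrix n n E} (hA : Uni V A) :
    ∃ (A' : Matrix n n E) (B B' : Matrix n n C), A' * A = 1 ∧ A * A' = 1 ∧ MRed V A B ∧
      MRed V A' B' ∧ B' * B = 1 ∧ B * B' = 1 := by
  obtain ⟨h1, A', h2, h3⟩ := hA
  obtain ⟨B, hB⟩ := exists_mred hV h1
  obtain ⟨B', hB'⟩ := exists_mred hV h2
  have h4 : B' * B = 1 := MRed.uniq hV (MRed.mul hV hB' hB) (h3 ▸ mred_one)
  exact ⟨A', B, B', h3, mul_eq_one_comm.1 h3, hB, hB', h4, mul_eq_one_comm.1 h4⟩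

theorem Uni.ap (hV : V.HasRes C) (ρ : PRep C n J) {A : Matrix n n E} (hA : Uni V A) :
    Uni V (ap ρ.P A) := by
  obtain ⟨h1, B, h2, h3⟩ := hA
  exact ⟨MGe.ap hV ρ.P h1, W.ap ρ.P B, MGe.ap hV ρ.P h2, by rw [← ρ.mul, h3, ρ.one]⟩

/-- divide by an entry of least order -/
theorem exists_red (hV : V.HasRes C) {y : J → E} (hy : y ≠ 0) : ∃ w : J → C, Red V y w := by
  classical
  obtain ⟨a, ha⟩ := Function.ne_iff.1 hy
  obtain ⟨i, hi, hmin⟩ := Finset.exists_min_image (Finset.univ.filter fun j => y j ≠ 0)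
    (fun j => V.ord (y j)) ⟨a, Finset.mem_filter.2 ⟨Finset.mem_univ a, ha⟩⟩
  have h0 : y i ≠ 0 := (Finset.mem_filter.1 hi).2
  refine ⟨fun j => V.res C ((y i)⁻¹ * y j), fun e => ?_, (y i)⁻¹, fun j => hV.gt_res ?_⟩
  · have h1 := congrFun e i
    simp only [inv_mul_cancel₀ h0, hV.res_one] at h1
    exact one_ne_zero h1
  · rw [← div_eq_inv_mul, QVal.ge_div_iff h0, zero_add]
    exact (em (y j = 0)).imp_right fun h => hmin j (Finset.mem_filter.2 ⟨Finset.mem_univ j, h⟩)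

theorem Red.ne_zero (hV : V.HasRes C) {y : J → E} {w : J → C} (h : Red V y w) : y ≠ 0 := by
  rintro rfl
  obtain ⟨h0, l, hl⟩ := h
  refine h0 (funext fun j => (hV.eq_of_gt (c := 0) ?_).symm)
  simpa using hl j

theorem Red.uniq (hV : V.HasRes C) {y : J → E} {w w' : J → C} (h : Red V y w) (h' : Red V y w') :
    ∃ c : C, c ≠ 0 ∧ w' = c • w := by
  obtain ⟨h0, l, hl⟩ := h
  obtain ⟨h0', l', hl'⟩ := h'
  have h1 : ∀ {x : E} {c : C}, V.Gt (x - algebraMap C E c) 0 → V.Ge x 0 := fun {x c} e => by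
    simpa using e.ge.add (hV.ge_const c)
  obtain ⟨i, hi⟩ := Function.ne_iff.1 h0
  have h2 : ¬V.Gt (l * y i) 0 := fun e =>
    hi ((hV.res_eq (hl i)).symm.trans ((hV.res_eq_zero e.ge).2 e))
  obtain ⟨h3, h4⟩ := QVal.not_gt_iff.1 h2
  have h5 : l ≠ 0 := left_ne_zero_of_mul h3
  have h6 : V.Ge (l' / l) 0 := by
    rw [← mul_div_mul_right l' l (right_ne_zero_of_mul h3), QVal.ge_div_iff h3, zero_add]
    exact (h1 (hl' i)).mono h4
  have h7 : w' = V.res C (l' / l) • w := funext fun j => by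
    rw [Pi.smul_apply, smul_eq_mul, ← hV.res_eq (hl j), ← hV.res_eq (hl' j),
      ← hV.res_mul h6 (h1 (hl j)), ← mul_assoc, div_mul_cancel₀ _ h5]
  exact ⟨_, fun e => h0' (by rw [h7, e, zero_smul]), h7⟩

theorem Red.smul {y : J → E} {w : J → C} (h : Red V y w) {c : E} (hc : c ≠ 0) :
    Red V (c • y) w := by
  obtain ⟨h0, l, hl⟩ := h
  refine ⟨h0, l / c, fun j => ?_⟩
  rw [Pi.smul_apply, smul_eq_mul, ← mul_assoc, div_mul_cancel₀ _ hc]
  exact hl j

theorem Red.mulVec (hV : V.HasRes C) {y : J → E} {w : J → C} (h : Red V y w) {A : Matrix J J E}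
    {B : Matrix J J C} (hA : MRed V A B) (h0 : B *ᵥ w ≠ 0) : Red V (A *ᵥ y) (B *ᵥ w) := by
  obtain ⟨-, l, hl⟩ := h
  refine ⟨h0, l, fun j => ?_⟩
  simp only [Matrix.mulVec, dotProduct, map_sum, map_mul, Finset.mul_sum, ← Finset.sum_sub_distrib]
  refine QVal.Gt.sum fun i _ => ?_
  convert ((MRed.mge hV hA j i).mul_gt₀ (hl i)).add ((hV.ge_const (w i)).mul_gt₀ (hA j i)) using 1
  ring

theorem Eig.smul {R : Type} [CommRing R] {A : Matrix J J R} {w : J → R} (h : Eig A w) (c : R) :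
    Eig A (c • w) := by
  obtain ⟨l, hl⟩ := h
  exact ⟨l, by rw [mulVec_smul, hl, smul_comm]⟩

theorem eig_iff_minor {F : Type} [Field F] {A : Matrix J J F} {w : J → F} :
    Eig A w ↔ ∀ j j', (A *ᵥ w) j * w j' = (A *ᵥ w) j' * w j := by
  constructor
  · rintro ⟨l, hl⟩ j j'
    simp only [hl, Pi.smul_apply, smul_eq_mul]
    ring
  · intro h
    by_cases h0 : w = 0
    · exact ⟨0, by simp [h0]⟩
    obtain ⟨i, hi⟩ := Function.ne_iff.1 h0
    have hi : w i ≠ 0 := hi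
    refine ⟨(A *ᵥ w) i / w i, funext fun j => ?_⟩
    rw [Pi.smul_apply, smul_eq_mul, div_mul_eq_mul_div, eq_div_iff hi, h]

/-- the minors are polynomials in `s` with infinitely many roots (`ap_map` for `aeval s`) -/
theorem eig_curve {F : Type} [Field F] [Algebra C F] (P : Matrix J J (MvPolynomial (n × n) C))
    (A : Matrix n n F[X]) (w : J → F) (h : {s : F | Eig (ap P (A.map (eval s))) w}.Infinite)
    (s : F) : Eig (ap P (A.map (eval s))) w := by
  have h1 : ∀ (s : F) (j : J), (ap P (A.map (eval s)) *ᵥ w) j =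
      ((ap P A *ᵥ fun i => Polynomial.C (w i)) j).eval s := fun s j => by
    have h2 : ap P (A.map (eval s)) = (ap P A).map (eval s) :=
      (ap_map ((aeval s : F[X] →ₐ[F] F).restrictScalars C) P A).symm
    simp only [h2, Matrix.mulVec, dotProduct, Matrix.map_apply, eval_finsetSum, eval_mul, eval_C]
  refine eig_iff_minor.2 fun j j' => ?_
  have h2 : (ap P A *ᵥ fun i => Polynomial.C (w i)) j * Polynomial.C (w j') =
      (ap P A *ᵥ fun i => Polynomial.C (w i)) j' * Polynomial.C (w j) :=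
    eq_of_infinite_eval_eq _ _ (h.mono fun s hs => by
      simpa only [h1, Set.mem_ofPred_eq, eval_mul, eval_C] using eig_iff_minor.1 hs j j')
  simpa only [h1, eval_mul, eval_C] using congrArg (eval s) h2

theorem eig_line {F : Type} [Field F] [Algebra C F] (P : Matrix J J (MvPolynomial (n × n) C))
    (B : Matrix n n F) (w : J → F) (h : {s : F | Eig (ap P (s • B)) w}.Infinite) (s : F) :
    Eig (ap P (s • B)) w := by
  have h1 : ∀ s : F, s • B = ((X : F[X]) • B.map Polynomial.C).map (eval s) := fun s => by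
    ext i j
    simp only [Matrix.smul_apply, Matrix.map_apply, smul_eq_mul, eval_mul, eval_X, eval_C]
  simp only [h1] at h ⊢
  exact eig_curve P _ w h s

end Pool.Agent.Lib.MP_6adaea_nt.W
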