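import Pool.Agent.Lib.MP_6adaea_nt.W.Defs

/-!
Descent of stable subspaces to a subfield.
-/

set_option linter.unusedSectionVars false

namespace Pool.Agent.Lib.MP_6adaea_nt.W
open Matrix Polynomial G U

variable {n : Type} [Fintype n] [DecidableEq n]

theorem S2B_rw_sum {E ι : Type} [Field E] (F : E →+* E) (P : Matrix n n E) (s : Finset ι)
    (c : ι → E) (v : ι → n → E) :
    rw F P (∑ i ∈ s, c i • v i) = ∑ i ∈ s, F (c i) • rw F P (v i) := by
  unfold rw
  simp only [← smul_vecMul, ← sum_vecMul]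
  congr 1
  funext j
  simp [Finset.sum_apply]

/-- induction on the number of terms -/
theorem S2B_core {L E : Type} [Field L] [Field E] [Algebra L E] (τ0 : (n → L) → (n → L))
    (F : E →+* E) (P : Matrix n n E)
    (hτ : ∀ x, rw F P (fun i => algebraMap L E (x i)) = fun i => algebraMap L E (τ0 x i))
    (hs : ∀ W : Submodule L (n → L), (∀ x ∈ W, τ0 x ∈ W) → W = ⊥ ∨ W = ⊤)
    (hc : ∀ A : (n → L) →ₗ[L] (n → L), (∀ x, A (τ0 x) = τ0 (A x)) →
      ∃ a : L, A = a • LinearMap.id)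
    (W : Submodule E (n → E)) (hW : ∀ x ∈ W, rw F P x ∈ W) {b : Set E} (hb : ∀ c ∈ b, F c = c)
    (hli : LinearIndepOn L id b) (s : Finset E) : ↑s ⊆ b → ∀ m : E → n → L,
      (∑ c ∈ s, c • fun i => algebraMap L E (m c i)) ∈ W → (∃ c ∈ s, m c ≠ 0) → W = ⊤ := by
  classical
  induction s using Finset.strongInduction with
  | H s ih =>
  rintro hsb m hm ⟨c0, hc0, hm0⟩
  by_cases h : ∃ m' : E → n → L, (∑ c ∈ s, c • fun i => algebraMap L E (m' c i)) ∈ W ∧
      m' c0 = 0 ∧ ∃ c ∈ s, m' c ≠ 0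
  · obtain ⟨m', h1, h2, c, h3, h4⟩ := h
    refine ih (s.erase c0) (Finset.erase_ssubset hc0)
      ((Finset.coe_subset.2 (Finset.erase_subset _ _)).trans hsb) m' ?_
      ⟨c, Finset.mem_erase.2 ⟨fun e => h4 (e ▸ h2), h3⟩, h4⟩
    rw [Finset.sum_erase _ (by funext i; simp [h2])]
    exact h1
  push Not at h
  let Lc : (E → n → L) →ₗ[L] (n → E) :=
    { toFun := fun m => ∑ c ∈ s, c • fun i => algebraMap L E (m c i)
      map_add' := fun x y => by
        funext i
        simp [Finset.sum_apply, mul_add, Finset.sum_add_distrib]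
      map_smul' := fun a x => by
        funext i
        simp [Finset.sum_apply, Algebra.smul_def, Finset.mul_sum, mul_left_comm] }
  let N : Submodule L (E → n → L) := (W.restrictScalars L).comap Lc
  have hN : ∀ x, x ∈ N ↔ (∑ c ∈ s, c • fun i => algebraMap L E (x c i)) ∈ W := fun _ => Iff.rfl
  have hst : ∀ x ∈ N, (fun c => τ0 (x c)) ∈ N := fun x hx => by
    have h1 := hW _ ((hN x).1 hx)
    rw [S2B_rw_sum] at h1
    rw [hN]
    convert h1 using 1
    exact Finset.sum_congr rfl fun c hc => by rw [hb c (hsb hc), hτ]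
  have hun : ∀ x ∈ N, ∀ y ∈ N, x c0 = y c0 → ∀ c ∈ s, x c = y c := fun x hx y hy e c hc =>
    sub_eq_zero.1 (h (x - y) ((hN _).1 (N.sub_mem hx hy)) (sub_eq_zero.2 e) c hc)
  let p : E → N →ₗ[L] (n → L) := fun c => (LinearMap.proj c).comp N.subtype
  have hp : LinearMap.range (p c0) = ⊤ := by
    refine (hs _ ?_).resolve_left fun e => hm0 ?_
    · rintro _ ⟨x, rfl⟩
      exact ⟨⟨_, hst x.1 x.2⟩, rfl⟩
    · exact (Submodule.eq_bot_iff _).1 e _ ⟨⟨m, hm⟩, rfl⟩
  obtain ⟨g, hg⟩ := LinearMap.exists_rightInverse_of_surjective _ hp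
  have hg0 : ∀ x, (g x).1 c0 = x := fun x => LinearMap.congr_fun hg x
  have ha : ∀ c, ∃ a : L, c ∈ s → ∀ x, (g x).1 c = a • x := fun c => by
    by_cases hcs : c ∈ s
    · obtain ⟨a, ha⟩ := hc ((p c).comp g) fun x =>
        hun _ (g (τ0 x)).2 _ (hst _ (g x).2) (by rw [hg0, hg0]) c hcs
      exact ⟨a, fun _ x => LinearMap.congr_fun ha x⟩
    · exact ⟨0, fun h1 => absurd h1 hcs⟩
  choose a ha using ha
  have hμ : ∑ c ∈ s, a c • c ≠ 0 := fun e => by
    have h1 : a c0 = 0 := linearIndepOn_iff'.1 hli s a hsb e c0 hc0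
    have h2 := ha c0 hc0 (m c0)
    rw [hg0, h1, zero_smul] at h2
    exact hm0 h2
  have hj : ∀ x : n → L, (fun i => algebraMap L E (x i)) ∈ W := fun x => by
    rw [← W.smul_mem_iff hμ]
    convert (hN _).1 (g x).2 using 1
    rw [Finset.sum_smul]
    refine Finset.sum_congr rfl fun c hcs => ?_
    funext i
    simp [ha c hcs x, Algebra.smul_def, mul_left_comm, mul_assoc]
  rw [eq_top_iff]
  intro y _
  rw [pi_eq_sum_univ' y]
  refine W.sum_mem fun i _ => W.smul_mem _ ?_
  convert hj (Pi.single i 1) using 1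
  funext j
  simp [Pi.single_apply]

/-- Write `w = ∑_{i < l} c i • j (m i)` with `F (c i) = c i`, `m i : n → L`, and take `l` least among
nonzero vectors of `W` of this form. Then the `c i` are linearly independent over `L` (else one term
can be removed). `N = {(m i) | ∑ c i • j (m i) ∈ W}` is an `L`-subspace stable under `τ0` in all
places; the projection `p 0` is injective on `N` (minimality and independence) with nonzero stable
image, hence bijective; `p i ∘ (p 0)⁻¹` commutes with `τ0`, so it is a scalar `a i`, `a 0 = 1`. Then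
`μ = ∑ c i * a i ≠ 0` and `μ • j m ∈ W` for all `m`. -/
theorem top_of_comb {L E : Type} [Field L] [Field E] [Algebra L E] (τ0 : (n → L) → (n → L))
    (F : E →+* E) (P : Matrix n n E)
    (hτ : ∀ x, rw F P (fun i => algebraMap L E (x i)) = fun i => algebraMap L E (τ0 x i))
    (hs : ∀ W : Submodule L (n → L), (∀ x ∈ W, τ0 x ∈ W) → W = ⊥ ∨ W = ⊤)
    (hc : ∀ A : (n → L) →ₗ[L] (n → L), (∀ x, A (τ0 x) = τ0 (A x)) →
      ∃ a : L, A = a • LinearMap.id)
    (W : Submodule E (n → E)) (hW : ∀ x ∈ W, rw F P x ∈ W) {w : n → E} (hw : w ∈ W) (h0 : w ≠ 0)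
    (h1 : ∀ i, w i ∈ Submodule.span L {c : E | F c = c}) : W = ⊤ := by
  classical
  obtain ⟨b, hb, -, hsp, hli⟩ := exists_linearIndepOn_id_extension
    (linearIndepOn_empty L (id : E → E)) (Set.empty_subset {c : E | F c = c})
  have h2 : ∀ i, w i ∈ Submodule.span L b := fun i => Submodule.span_le.2 hsp (h1 i)
  choose f hf1 hf2 using fun i => Submodule.mem_span_set.1 (h2 i)
  have h3 : (∑ c ∈ Finset.univ.biUnion fun i => (f i).support,
      c • fun i => algebraMap L E (f i c)) = w := by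
    funext i
    rw [← hf2 i, Finsupp.sum_of_support_subset (f i)
      (Finset.subset_biUnion_of_mem (fun i => (f i).support) (Finset.mem_univ i)) _
      fun c _ => zero_smul L c, Finset.sum_apply]
    exact Finset.sum_congr rfl fun c _ => by simp [Algebra.smul_def, mul_comm]
  refine S2B_core τ0 F P hτ hs hc W hW hb hli (Finset.univ.biUnion fun i => (f i).support)
    (fun c hc => ?_) (fun c i => f i c) (h3.symm ▸ hw) ?_
  · obtain ⟨i, -, hi⟩ := Finset.mem_biUnion.1 hc
    exact hf1 i hi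
  · by_contra h4
    push Not at h4
    refine h0 (h3.symm.trans (Finset.sum_eq_zero fun c hc => ?_))
    funext i
    simp [congrFun (h4 c hc) i]

/-- pivot columns -/
theorem S2B_piv {E : Type} [Field E] (W : Submodule E (n → E)) :
    ∃ T : Finset n, (∀ y : n → E, ∃ x ∈ W, ∀ t ∈ T, x t = y t) ∧
      ∀ x ∈ W, (∀ t ∈ T, x t = 0) → x = 0 := by
  classical
  obtain ⟨T, hT, hmax⟩ := Finset.exists_max_image
    (Finset.univ.filter fun T : Finset n => ∀ y : n → E, ∃ x ∈ W, ∀ t ∈ T, x t = y t)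
    Finset.card ⟨∅, Finset.mem_filter.2 ⟨Finset.mem_univ _, fun _ => ⟨0, W.zero_mem, by simp⟩⟩⟩
  have h1 := (Finset.mem_filter.1 hT).2
  refine ⟨T, h1, fun x hx h0 => funext fun i => ?_⟩
  by_contra hi
  have hi0 : x i ≠ 0 := hi
  have h2 := hmax (insert i T) (Finset.mem_filter.2 ⟨Finset.mem_univ _, fun y => by
    obtain ⟨z, hz, h3⟩ := h1 y
    refine ⟨z + ((y i - z i) / x i) • x, W.add_mem hz (W.smul_mem _ hx), fun t ht => ?_⟩
    rcases Finset.mem_insert.1 ht with rfl | ht
    · simp [hi0]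
    · simp [h0 t ht, h3 t ht]⟩)
  rw [Finset.card_insert_of_notMem fun h => hi0 (h0 i h)] at h2
  omega

/-- Choose a basis of `W` in echelon form: a matrix `B` with `d` rows and columns `e : Fin d → n`
with `B.submatrix id e = 1` (the coordinate functionals span the dual of `W`; choose a basis among
them and take the dual basis). Every `x ∈ W` is `(x ∘ e) ᵥ* B`. So `B.map F * P = S * B` with
`S = (B.map F * P).submatrix id e`. `S` is invertible: if `y ᵥ* S = 0` then `y ᵥ* B.map F = 0`, so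
`y = 0`. Hence `B = S⁻¹ * (B.map F * P)` has entries in the subfield
(`S⁻¹ = (det S)⁻¹ • adjugate S`). -/
theorem echelon {E : Type} [Field E] (F : E →+* E) (P : Matrix n n E) (hP : P.det ≠ 0)
    (W : Submodule E (n → E)) (hW : ∀ x ∈ W, rw F P x ∈ W) (h0 : W ≠ ⊥) :
    ∃ S : Set E, S.Finite ∧ (∃ w ∈ W, w ≠ 0 ∧ ∀ i, w i ∈ S) ∧
      ∀ M : Subfield E, (∀ z ∈ S, F z ∈ M) → (∀ i j, P i j ∈ M) → ∀ z ∈ S, z ∈ M := by
  classical
  obtain ⟨T, h1, h2⟩ := S2B_piv W
  choose B hB1 hB2 using fun t : T => h1 (Pi.single t.1 1)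
  have hB : ∀ t t' : T, B t t' = (1 : Matrix T T E) t t' := fun t t' => by
    rw [hB2 t t' t'.2, Pi.single_apply, one_apply]
    exact if_congr (Subtype.ext_iff.symm.trans eq_comm) rfl rfl
  have hx : ∀ x ∈ W, (fun t : T => x t) ᵥ* of B = x := fun x hx => by
    refine (sub_eq_zero.1 (h2 _ (W.sub_mem hx ?_) fun t ht => ?_)).symm
    · rw [vecMul_eq_sum]
      exact W.sum_mem fun t _ => W.smul_mem _ (hB1 t)
    · have h3 : ∀ t', B t' t = (1 : Matrix T T E) t' ⟨t, ht⟩ := fun t' => hB t' ⟨t, ht⟩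
      simp [vecMul, dotProduct, h3, one_apply]
  refine ⟨Set.range fun p : T × n => B p.1 p.2, Set.finite_range _, ?_, ?_⟩
  · obtain ⟨x, hxW, hx0⟩ := (Submodule.ne_bot_iff W).1 h0
    obtain ⟨t, ht, -⟩ : ∃ t ∈ T, x t ≠ 0 := by
      by_contra h3
      push Not at h3
      exact hx0 (h2 x hxW h3)
    refine ⟨B ⟨t, ht⟩, hB1 _, fun e => ?_, fun i => ⟨(⟨t, ht⟩, i), rfl⟩⟩
    have h4 := hB ⟨t, ht⟩ ⟨t, ht⟩
    rw [e, one_apply_eq] at h4
    exact zero_ne_one h4
  rintro M hF hPM _ ⟨⟨t, i⟩, rfl⟩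
  have hC : ∀ t j, ((of B).map F * P) t j ∈ M := fun t j =>
    M.sum_mem fun l _ => M.mul_mem (hF _ ⟨(t, l), rfl⟩) (hPM l j)
  let S : Matrix T T M := of fun t t' => ⟨_, hC t t'⟩
  have hS : S.map M.subtype * of B = (of B).map F * P := by
    ext t j
    exact congrFun (hx _ (hW _ (hB1 t))) j
  have hd : (S.map M.subtype).det ≠ 0 := fun e => by
    obtain ⟨y, hy0, hy⟩ := exists_vecMul_eq_zero_iff.2 e
    have h3 : (y ᵥ* (of B).map F) ᵥ* P = 0 := by
      rw [vecMul_vecMul, ← hS, ← vecMul_vecMul, hy, zero_vecMul]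
    refine hy0 (funext fun t' => ?_)
    have h4 := congrFun (eq_zero_of_vecMul_eq_zero hP h3) t'
    simpa [vecMul, dotProduct, hB, one_apply, apply_ite F] using h4
  have h5 : (S.map M.subtype).det • of B = S.adjugate.map M.subtype * ((of B).map F * P) := by
    have h6 : S.adjugate.map M.subtype = (S.map M.subtype).adjugate := M.subtype.map_adjugate S
    rw [← hS, ← Matrix.mul_assoc, h6, adjugate_mul, Matrix.smul_mul, Matrix.one_mul]
  have h7 : (S.map M.subtype).det * B t i ∈ M := by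
    have h8 : (S.map M.subtype).det * B t i = _ := congrFun (congrFun h5 t) i
    rw [h8]
    exact M.sum_mem fun l _ => M.mul_mem (S.adjugate t l).2 (hC l i)
  have h9 : (S.map M.subtype).det ∈ M := by
    have h10 : M.subtype S.det = (S.map M.subtype).det := M.subtype.map_det S
    rw [← h10]
    exact S.det.2
  have h11 := M.mul_mem (M.inv_mem h9) h7
  rwa [inv_mul_cancel_left₀ hd] at h11

end Pool.Agent.Lib.MP_6adaea_nt.W
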