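import Pool.Agent.Lib.MP_6adaea_nt.W.Defs
import Pool.Agent.Lib.MP_6adaea_nt.U.Psi

/-!
The motive over the rational function field.
-/

set_option linter.unusedSectionVars false

namespace Pool.Agent.Lib.MP_6adaea_nt.W
open Matrix Polynomial G U

variable {k Λ L : Type} [Field k] [Finite k] [Field Λ] [Field L] [Algebra k Λ] [Algebra Λ[X] L]
  [IsFractionRing Λ[X] L] {θ : Λ} {r : ℕ} {g : ℕ → Λ}

variable (k) in
/-- the operator on polynomial row vectors -/
noncomputable def tp (θ : Λ) (r : ℕ) (g : ℕ → Λ) (x : Fin r → Λ[X]) : Fin r → Λ[X] :=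
  (fun i => (x i).map (frob k Λ : Λ →+* Λ)) ᵥ* Phi θ r g

/-- the encoding of a row vector as one polynomial -/
noncomputable def enc (x : Fin r → Λ[X]) : Λ[X] := ∑ i : Fin r, X ^ (i : ℕ) * expand Λ r (x i)

theorem S2D_term {i j : ℕ} (hi : i < r) (hj : j < r) (f : Λ[X]) (a : ℕ) :
    (X ^ j * expand Λ r f).coeff (r * a + i) = if i = j then f.coeff a else 0 := by
  have hr : 0 < r := by omega
  rw [coeff_X_pow_mul']
  split_ifs with h1 h2 h2
  · rw [h2, Nat.add_sub_cancel, coeff_expand_mul' hr]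
  · rw [coeff_expand hr, if_neg]
    rintro ⟨b, hb⟩
    have h3 : (r * a + i) % r = (r * b + j) % r := by congr 1; omega
    rw [Nat.mul_add_mod, Nat.mul_add_mod, Nat.mod_eq_of_lt hi, Nat.mod_eq_of_lt hj] at h3
    exact h2 h3
  · omega
  · rfl

theorem S2D_coeff (x : Fin r → Λ[X]) (a : ℕ) (i : Fin r) :
    (enc x).coeff (r * a + i) = (x i).coeff a := by
  rw [enc, finsetSum_coeff, Finset.sum_eq_single i]
  · rw [S2D_term i.2 i.2, if_pos rfl]
  · intro j _ hj
    rw [S2D_term i.2 j.2, if_neg fun e => hj (Fin.ext e).symm]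
  · simp

theorem S2D_add (x y : Fin r → Λ[X]) : enc (x + y) = enc x + enc y := by
  simp only [enc, Pi.add_apply, map_add, mul_add, Finset.sum_add_distrib]

theorem S2D_zero : enc (0 : Fin r → Λ[X]) = 0 := by simp [enc]

theorem S2D_sum {ι : Type} (s : Finset ι) (x : ι → Fin r → Λ[X]) :
    enc (∑ i ∈ s, x i) = ∑ i ∈ s, enc (x i) := by
  classical
  induction s using Finset.induction_on with
  | empty => simp [S2D_zero]
  | insert a s ha ih => rw [Finset.sum_insert ha, Finset.sum_insert ha, S2D_add, ih]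

theorem S2D_map (f : Λ →+* Λ) (x : Fin r → Λ[X]) : enc (fun i => (x i).map f) = (enc x).map f := by
  simp [enc, Polynomial.map_sum, map_expand]

/-- the terms of `enc x` have degrees in different classes modulo `r` -/
theorem enc_eq_zero {x : Fin r → Λ[X]} (h : enc x = 0) : x = 0 := by
  funext i
  ext a
  rw [← S2D_coeff, h, coeff_zero, Pi.zero_apply, coeff_zero]

theorem enc_smul (a : Λ[X]) (x : Fin r → Λ[X]) : enc (a • x) = expand Λ r a * enc x := by
  simp only [enc, Pi.smul_apply, smul_eq_mul, map_mul, Finset.mul_sum]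
  exact Finset.sum_congr rfl fun i _ => by ring

theorem S2D_deg {A B B' : Λ[X]} (h : B.degree = B'.degree) (hA : A ≠ 0 → A.degree ≠ B.degree) :
    (A + B).degree = (A + B').degree := by
  by_cases h0 : A = 0
  · rw [h0, zero_add, zero_add, h]
  rcases lt_or_gt_of_ne (hA h0) with h1 | h1
  · rw [degree_add_eq_right_of_degree_lt h1, degree_add_eq_right_of_degree_lt (h ▸ h1), h]
  · rw [degree_add_eq_left_of_degree_lt h1, degree_add_eq_left_of_degree_lt (h ▸ h1)]

theorem S2D_last {m : ℕ} (hg : g (m + 1) ≠ 0) :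
    (enc (Phi θ (m + 1) g (Fin.last m))).degree = (m + 1 : ℕ) := by
  refine degree_eq_of_le_of_coeff_ne_zero ((degree_le_iff_coeff_zero _ _).2 fun n hn => ?_) ?_
  · have hn' : m + 1 < n := by exact_mod_cast hn
    have h1 := S2D_coeff (Phi θ (m + 1) g (Fin.last m)) (n / (m + 1))
      ⟨n % (m + 1), Nat.mod_lt _ m.succ_pos⟩
    rw [Nat.div_add_mod] at h1
    have h2 := Nat.div_add_mod n (m + 1)
    have h3 : 0 < n / (m + 1) := Nat.div_pos hn'.le m.succ_pos
    rw [h1]
    simp only [Phi, of_apply, Fin.val_last, if_true, coeff_C_mul]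
    split_ifs with h4
    · have h5 : n / (m + 1) ≠ 1 := fun e => by rw [e, h4] at h2; omega
      rw [coeff_sub, coeff_X, if_neg h5.symm, coeff_C, if_neg h3.ne', sub_zero, mul_zero]
    · rw [coeff_neg, coeff_C, if_neg h3.ne', neg_zero, mul_zero]
  · have h1 := S2D_coeff (Phi θ (m + 1) g (Fin.last m)) 1 0
    rw [mul_one, Fin.val_zero, add_zero] at h1
    rw [h1]
    simp [Phi, hg, coeff_C_mul]

theorem S2D_vecMul {m : ℕ} (y : Fin (m + 1) → Λ[X]) : y ᵥ* Phi θ (m + 1) g =
    Fin.cons 0 (Fin.init y) + y (Fin.last m) • Phi θ (m + 1) g (Fin.last m) := by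
  funext j
  rw [vecMul, dotProduct, Fin.sum_univ_castSucc, Pi.add_apply, Pi.smul_apply, smul_eq_mul]
  congr 1
  have h : ∀ i : Fin m, Phi θ (m + 1) g i.castSucc j = if (i : ℕ) + 1 = j then 1 else 0 := by
    intro i
    have := i.2
    simp only [Phi, of_apply, Fin.val_castSucc]
    rw [if_neg (by omega)]
  simp only [h]
  refine Fin.cases ?_ (fun l => ?_) j
  · simp
  · rw [Finset.sum_eq_single l]
    · simp [Fin.init]
    · intro b _ hb
      rw [if_neg, mul_zero]
      intro e
      exact hb (Fin.ext (by simpa using e))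
    · simp

theorem S2D_shift {m : ℕ} (y : Fin (m + 1) → Λ[X]) : X * enc y =
    enc (Fin.cons 0 (Fin.init y) : Fin (m + 1) → Λ[X]) +
      expand Λ (m + 1) (y (Fin.last m)) * X ^ (m + 1) := by
  rw [enc, enc, Fin.sum_univ_castSucc, Fin.sum_univ_succ, mul_add, Finset.mul_sum]
  simp only [Fin.cons_zero, map_zero, mul_zero, zero_add, Fin.cons_succ, Fin.val_succ,
    Fin.val_castSucc, Fin.val_last, Fin.init]
  congr 1
  · exact Finset.sum_congr rfl fun i _ => by ring
  · ring

theorem S2D_step {m : ℕ} (hg : g (m + 1) ≠ 0) (y : Fin (m + 1) → Λ[X]) :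
    (enc (y ᵥ* Phi θ (m + 1) g)).degree = (X * enc y).degree := by
  rw [S2D_vecMul, S2D_add, enc_smul, S2D_shift]
  symm
  refine S2D_deg (by rw [degree_mul, degree_mul, S2D_last hg, degree_X_pow]) fun h0 h => ?_
  have h1 := natDegree_eq_of_degree_eq h
  have h2 : expand Λ (m + 1) (y (Fin.last m)) ≠ 0 := by
    intro e
    rw [e, zero_mul, degree_zero, degree_eq_bot] at h
    exact h0 h
  rw [natDegree_mul h2 (pow_ne_zero _ X_ne_zero), natDegree_expand, natDegree_X_pow] at h1
  have h3 := S2D_coeff (Fin.cons 0 (Fin.init y) : Fin (m + 1) → Λ[X])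
    ((y (Fin.last m)).natDegree + 1) 0
  rw [Fin.val_zero, add_zero, Fin.cons_zero, coeff_zero, mul_add, mul_one, mul_comm, ← h1] at h3
  exact h0 (leadingCoeff_eq_zero.1 h3)

/-- `enc (tp x) = X * (enc x)^(q) + (terms) `: with `y = x (r - 1)` twisted,
`enc (tp x) = ∑_{i < r - 1} X ^ (i + 1) * expand (x i)^(q) + expand y * ((g r)⁻¹ * (X ^ r - θ - ∑ g j X ^ j))`,
which is `X * (enc x)^(q)` if the last factor is replaced by `X ^ r`. Compare degrees: if the top term
of `enc x` comes from `i < r - 1` the last summand has smaller degree than the top term (classes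
modulo `r`), if it comes from `i = r - 1` the last summand dominates. -/
theorem enc_tp (hr : 0 < r) (hg : g r ≠ 0) {x : Fin r → Λ[X]} (hx : x ≠ 0) :
    tp k θ r g x ≠ 0 ∧ (enc (tp k θ r g x)).natDegree = (enc x).natDegree + 1 := by
  obtain ⟨m, rfl⟩ : ∃ m, r = m + 1 := ⟨r - 1, by omega⟩
  have h0 : enc x ≠ 0 := fun e => hx (enc_eq_zero e)
  have h1 := S2D_step (θ := θ) hg fun i => (x i).map (frob k Λ : Λ →+* Λ)
  have h2 : (enc x).map (frob k Λ : Λ →+* Λ) ≠ 0 := Polynomial.map_ne_zero h0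
  rw [S2D_map] at h1
  refine ⟨fun e => ?_, ?_⟩
  · rw [tp] at e
    rw [e, S2D_zero, degree_zero, eq_comm, degree_eq_bot] at h1
    exact mul_ne_zero X_ne_zero h2 h1
  · rw [tp, natDegree_eq_of_degree_eq h1, natDegree_X_mul h2, natDegree_map]

theorem S2D_iter (hr : 0 < r) (hg : g r ≠ 0) {x : Fin r → Λ[X]} (hx : x ≠ 0) (i : ℕ) :
    (tp k θ r g)^[i] x ≠ 0 ∧ (enc ((tp k θ r g)^[i] x)).natDegree = (enc x).natDegree + i := by
  induction i with
  | zero => exact ⟨hx, rfl⟩
  | succ i ih =>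
    rw [Function.iterate_succ_apply']
    obtain ⟨h1, h2⟩ := enc_tp (k := k) (θ := θ) hr hg ih.1
    exact ⟨h1, by rw [h2, ih.2, add_assoc]⟩

theorem S2D_indep (hr : 0 < r) (hg : g r ≠ 0) {x : Fin r → Λ[X]} (hx : x ≠ 0) :
    LinearIndependent Λ[X] fun i : Fin r => (tp k θ r g)^[i] x := by
  rw [Fintype.linearIndependent_iff]
  intro a ha i
  have h1 := congrArg enc ha
  rw [S2D_sum, S2D_zero] at h1
  have hne : ∀ j : Fin r, enc ((tp k θ r g)^[j] x) ≠ 0 := fun j e =>
    (S2D_iter (k := k) (θ := θ) hr hg hx j).1 (enc_eq_zero e)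
  have hd : ∀ j : Fin r, enc (a j • (tp k θ r g)^[j] x) ≠ 0 →
      (enc (a j • (tp k θ r g)^[j] x)).natDegree =
        r * (a j).natDegree + j + (enc x).natDegree := by
    intro j hj
    rw [enc_smul] at hj ⊢
    rw [natDegree_mul (left_ne_zero_of_mul hj) (hne j), natDegree_expand,
      (S2D_iter hr hg hx j).2]
    ring
  have h2 := degree_sum_eq_of_disjoint (fun j : Fin r => enc (a j • (tp k θ r g)^[j] x))
    Finset.univ (by
      intro j hj l hl hjl e
      have e1 := natDegree_eq_of_degree_eq e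
      rw [hd j hj.2, hd l hl.2] at e1
      have h3 : (r * (a j).natDegree + j) % r = (r * (a l).natDegree + l) % r := by
        congr 1; omega
      rw [Nat.mul_add_mod, Nat.mul_add_mod, Nat.mod_eq_of_lt j.2, Nat.mod_eq_of_lt l.2] at h3
      exact hjl (Fin.ext h3))
  rw [h1, degree_zero, eq_comm, Finset.sup_eq_bot_iff] at h2
  have h3 := degree_eq_bot.1 (h2 i (Finset.mem_univ i))
  rw [enc_smul] at h3
  exact (expand_eq_zero hr).1 ((mul_eq_zero.1 h3).resolve_right (hne i))

/-- Clear denominators to get `x ≠ 0` with polynomial entries in `W`. The vectors `tp^i x`, `i < r`,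
are linearly independent over `Λ[X]` (`enc_smul`, `enc_tp`: the degrees `r * deg (a i) + d + i` are
different), hence over `L` (`LinearIndependent.iff_fractionRing`, `LinearIndependent.localization`). -/
theorem tau_simple (hr : 0 < r) (hg : g r ≠ 0) (σ : L →+* L)
    (hσ : ∀ f : Λ[X], σ (algebraMap _ L f) = algebraMap _ L (f.map (frob k Λ : Λ →+* Λ)))
    (W : Submodule L (Fin r → L))
    (hW : ∀ x ∈ W, rw σ ((Phi θ r g).map (algebraMap Λ[X] L)) x ∈ W) : W = ⊥ ∨ W = ⊤ := by
  rw [or_iff_not_imp_left]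
  intro h0
  obtain ⟨w, hw, hw0⟩ := Submodule.exists_mem_ne_zero_of_ne_bot h0
  obtain ⟨b, hb⟩ := IsLocalization.exist_integer_multiples_of_finite (nonZeroDivisors Λ[X]) w
  choose x hx using hb
  let j : (Fin r → Λ[X]) →ₗ[Λ[X]] (Fin r → L) := (Algebra.linearMap Λ[X] L).compLeft (Fin r)
  have hj : ∀ y i, j y i = algebraMap Λ[X] L (y i) := fun y i => rfl
  have hinj : LinearMap.ker j = ⊥ := by
    rw [LinearMap.ker_eq_bot']
    intro y hy
    funext i
    exact IsFractionRing.injective Λ[X] L ((congrFun hy i).trans (map_zero _).symm)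
  have hx1 : j x = algebraMap Λ[X] L b • w := by
    funext i
    rw [hj, hx, Pi.smul_apply, Algebra.smul_def, smul_eq_mul]
  have hx0 : x ≠ 0 := by
    intro e
    rw [e, map_zero, eq_comm, smul_eq_zero] at hx1
    exact hx1.elim (IsFractionRing.to_map_ne_zero_of_mem_nonZeroDivisors b.2) hw0
  have htp : ∀ y, j (tp k θ r g y) = rw σ ((Phi θ r g).map (algebraMap Λ[X] L)) (j y) := by
    intro y
    funext i
    simp only [hj, tp, rw, vecMul, dotProduct, map_sum, map_mul, map_apply, hσ]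
  have hmem : ∀ i : ℕ, j ((tp k θ r g)^[i] x) ∈ W := by
    intro i
    induction i with
    | zero => exact hx1 ▸ W.smul_mem _ hw
    | succ i ih => rw [Function.iterate_succ_apply', htp]; exact hW _ ih
  have h1 := (LinearIndependent.iff_fractionRing Λ[X] L).1
    ((S2D_indep (k := k) (θ := θ) hr hg hx0).map' j hinj)
  rw [eq_top_iff, ← h1.span_eq_top_of_card_eq_finrank' (by simp), Submodule.span_le]
  rintro _ ⟨i, rfl⟩
  exact hmem i

/-- the vectors `tp^i e_0` have encodings of degree `i`; induct on the degree of `enc x` -/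
theorem exists_tp_sum (hr : 0 < r) (hg : g r ≠ 0) (x : Fin r → Λ[X]) :
    ∃ (m : ℕ) (u : ℕ → Λ), x = ∑ i ∈ Finset.range m,
      C (u i) • (tp k θ r g)^[i] (Pi.single ⟨0, hr⟩ 1) := by
  have he : enc (Pi.single ⟨0, hr⟩ 1 : Fin r → Λ[X]) = 1 := by
    rw [enc, Finset.sum_eq_single ⟨0, hr⟩]
    · simp
    · intro b _ hb
      simp [hb]
    · simp
  have he0 : (Pi.single ⟨0, hr⟩ 1 : Fin r → Λ[X]) ≠ 0 := by
    intro e
    rw [e, S2D_zero] at he
    exact zero_ne_one he
  have key : ∀ (m : ℕ) (x : Fin r → Λ[X]), (enc x).degree < m → ∃ u : ℕ → Λ,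
      x = ∑ i ∈ Finset.range m, C (u i) • (tp k θ r g)^[i] (Pi.single ⟨0, hr⟩ 1) := by
    intro m
    induction m with
    | zero =>
      intro x hx
      refine ⟨0, ?_⟩
      rw [Finset.sum_range_zero]
      exact enc_eq_zero (degree_eq_bot.1 (Nat.WithBot.lt_zero_iff.1 hx))
    | succ m ih =>
      intro x hx
      obtain ⟨h1, h2⟩ := S2D_iter (k := k) (θ := θ) hr hg he0 m
      rw [he, natDegree_one, zero_add] at h2
      generalize hv : (tp k θ r g)^[m] (Pi.single ⟨0, hr⟩ 1) = v at h1 h2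
      have h3 : (enc v).coeff m ≠ 0 := by
        rw [← h2]
        exact leadingCoeff_ne_zero.2 fun e => h1 (enc_eq_zero e)
      obtain ⟨u, hu⟩ := ih (x + C (-((enc x).coeff m / (enc v).coeff m)) • v) (by
        rw [degree_lt_iff_coeff_zero] at hx ⊢
        intro n hn
        rw [S2D_add, enc_smul, expand_C, coeff_add, coeff_C_mul]
        rcases hn.eq_or_lt with rfl | h4
        · rw [neg_mul, div_mul_cancel₀ _ h3, add_neg_cancel]
        · rw [hx n h4, coeff_eq_zero_of_natDegree_lt (h2.trans_lt h4), mul_zero, add_zero])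
      refine ⟨Function.update u m ((enc x).coeff m / (enc v).coeff m), ?_⟩
      rw [Finset.sum_range_succ, Function.update_self, hv, Finset.sum_congr rfl fun i hi => by
        rw [Function.update_of_ne (Finset.mem_range.1 hi).ne], ← hu, C_neg, neg_smul,
        neg_add_cancel_right]
  obtain ⟨u, hu⟩ := key ((enc x).natDegree + 1) x
    (degree_le_natDegree.trans_lt (by exact_mod_cast Nat.lt_succ_self _))
  exact ⟨_, u, hu⟩

end Pool.Agent.Lib.MP_6adaea_nt.W
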