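import Pool.Agent.Lib.MP_6adaea_nt.W.RI
import Pool.Agent.Lib.MP_6adaea_nt.W.Cut

/-!
Global sections of filtered lattices.
-/

set_option linter.unusedSectionVars false

namespace Pool.Agent.Lib.MP_6adaea_nt.W
open Matrix Polynomial G U
open scoped TensorProduct

variable {kb K : Type} [Field kb] [Field K] [Algebra kb K] [IsAlgClosed kb] [IsFF kb K]
  (p : ℕ) [Fact p.Prime] [CharP kb p]

/-- cutting at finitely many places -/
theorem sec_cut {m : ℕ} (U0 : Submodule kb (Fin m → K)) [FiniteDimensional kb U0]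
    (β : Place kb K → Fin m → Fin m → K) (h0 : ∀ v i j, j < i → β v i j = 0)
    (h1 : ∀ v i, β v i i ≠ 0) (s d : Place kb K → ℤ)
    (hβ : ∀ v : Place kb K, ∀ i j, v.Ge (β v i j) (-d v - s v))
    (h : ∀ v : Place kb K, ∀ a ∈ U0, ∀ i, v.Ge (a i) (-d v)) (S : Finset (Place kb K)) :
    ∃ U' ≤ U0, (∀ a ∈ U', ∀ v ∈ S, ∃ c : Fin m → K, (∀ i, v.Ge (c i) (s v)) ∧
        a = ∑ i, c i • β v i) ∧
      (Module.finrank kb U0 : ℤ) ≤ Module.finrank kb U' +
        ∑ v ∈ S, ∑ i, (s v + d v + v.ord (β v i i)) := by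
  classical
  induction S using Finset.induction_on with
  | empty => exact ⟨U0, le_rfl, by simp, by simp⟩
  | insert w S hw ih =>
    obtain ⟨U1, hle, hc, hr⟩ := ih
    have : FiniteDimensional kb U1 := Submodule.finiteDimensional_of_le hle
    obtain ⟨U2, hle2, hc2, hr2⟩ := cut_tri U1 w (β w) (h0 w) (h1 w) (s w) (d w) (hβ w)
      fun a ha i => h w a (hle ha) i
    refine ⟨U2, hle2.trans hle, fun a ha v hv => ?_, ?_⟩
    · rcases Finset.mem_insert.1 hv with rfl | hv
      · exact hc2 a ha
      · exact hc a (hle2 ha) v hv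
    · rw [Finset.sum_insert hw]
      linarith

theorem sec_tot (D : Place kb K →₀ ℕ) (S : Finset (Place kb K)) (h : D.support ⊆ S) :
    ((tot D : ℕ) : ℤ) = ∑ v ∈ S, (D v : ℤ) := by
  rw [tot, Finsupp.sum_of_support_subset D h _ (fun _ _ => rfl)]
  push_cast
  rfl

include p in
/-- Choose `D1 ≥ D` so large on `T` that `cut_tri` applies, `D'` from `riemann`, start with
`Submodule.pi univ (LL D')` and apply `cut_tri` at all places of `T ∪ support D'` (with the standard
basis outside `T`), by induction on the finite set. -/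
theorem exists_sec : ∃ C0 : ℕ, ∀ (m : ℕ) (D : Place kb K →₀ ℕ) (T : Finset (Place kb K))
    (α : Place kb K → Fin m → Fin m → K), (∀ v i j, j < i → α v i j = 0) → (∀ v i, α v i i ≠ 0) →
    ∃ U : Submodule kb (Fin m → K), FiniteDimensional kb U ∧
      (m * tot D : ℤ) ≤ Module.finrank kb U + m * C0 + ∑ v ∈ T, ∑ i, v.ord (α v i i) ∧
      ∀ a ∈ U, (∀ v ∈ T, ∃ c : Fin m → K, (∀ i, v.Ge (c i) (-(D v : ℤ))) ∧ a = ∑ i, c i • α v i) ∧
        ∀ v ∉ T, ∀ i, v.Ge (a i) (-(D v : ℤ)) := by
  classical
  obtain ⟨C0, hC⟩ := riemann (kb := kb) (K := K) p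
  refine ⟨C0, fun m D T α h0 h1 => ?_⟩
  let N : Place kb K → ℕ := fun v => ∑ i, ∑ j, (-(v.ord (α v i j))).toNat
  obtain ⟨D', hD', hr⟩ := hC (D + ∑ v ∈ T, Finsupp.single v (N v))
  have hDD : ∀ v, D v ≤ D' v := fun v => le_trans (by simp) (hD' v)
  have hDT : ∀ v ∈ T, D v + N v ≤ D' v := fun v hv => by
    refine le_trans ?_ (hD' v)
    rw [Finsupp.add_apply, Finsupp.finsetSum_apply]
    refine Nat.add_le_add_left ?_ _
    refine le_trans ?_ (Finset.single_le_sum (f := fun w => (Finsupp.single w (N w)) v)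
      (fun _ _ => Nat.zero_le _) hv)
    simp
  have := (LL_fin p D').1
  let f : (Fin m → LL D') →ₗ[kb] (Fin m → K) := LinearMap.compLeft (LL D').subtype (Fin m)
  have hf : Function.Injective f := fun x y hxy => funext fun i =>
    Subtype.ext (congrFun hxy i)
  have hrk : Module.finrank kb (LinearMap.range f) = m * Module.finrank kb (LL D') := by
    rw [LinearMap.finrank_range_of_inj hf, Module.finrank_pi_fintype]
    simp
  have hU0 : ∀ v : Place kb K, ∀ a ∈ LinearMap.range f, ∀ i, v.Ge (a i) (-(D' v : ℤ)) := by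
    rintro v _ ⟨x, rfl⟩ i
    exact (x i).2 v
  let β : Place kb K → Fin m → Fin m → K := fun v =>
    if v ∈ T then α v else fun i j => if i = j then 1 else 0
  have hβT : ∀ v ∈ T, β v = α v := fun v hv => if_pos hv
  have hβN : ∀ v ∉ T, β v = fun i j => if i = j then 1 else 0 := fun v hv => if_neg hv
  obtain ⟨U, hle, hc, hrU⟩ := sec_cut (LinearMap.range f) β
    (fun v i j hij => by
      by_cases hv : v ∈ T
      · rw [hβT v hv]; exact h0 v i j hij
      · rw [hβN v hv]; exact if_neg hij.ne')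
    (fun v i => by
      by_cases hv : v ∈ T
      · rw [hβT v hv]; exact h1 v i
      · rw [hβN v hv]; simp)
    (fun v => -(D v : ℤ)) (fun v => (D' v : ℤ))
    (fun v i j => by
      by_cases hv : v ∈ T
      · rw [hβT v hv]
        refine Place.Ge.of_le ?_
        have e1 : (-(v.ord (α v i j))).toNat ≤ N v := by
          refine le_trans ?_ (Finset.single_le_sum
            (f := fun i => ∑ j, (-(v.ord (α v i j))).toNat) (fun _ _ => Nat.zero_le _)
            (Finset.mem_univ i))
          exact Finset.single_le_sum (f := fun j => (-(v.ord (α v i j))).toNat)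
            (fun _ _ => Nat.zero_le _) (Finset.mem_univ j)
        have e2 := hDT v hv
        omega
      · rw [hβN v hv]
        have e2 := hDD v
        by_cases hij : i = j
        · simp only [if_pos hij]
          exact v.ge_one.mono (by omega)
        · simp only [if_neg hij]
          exact v.ge_zero _)
    hU0 (T ∪ D'.support)
  refine ⟨U, Submodule.finiteDimensional_of_le hle, ?_, fun a ha => ⟨fun v hv => ?_, fun v hv i => ?_⟩⟩
  · have e1 := sec_tot D' (T ∪ D'.support) Finset.subset_union_right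
    have e2 := sec_tot D (T ∪ D'.support) fun v hv => Finset.mem_union_right _ (by
      rw [Finsupp.mem_support_iff] at hv ⊢
      have := hDD v
      omega)
    have e3 : ∑ v ∈ T ∪ D'.support, ∑ i, v.ord (β v i i) = ∑ v ∈ T, ∑ i, v.ord (α v i i) := by
      rw [← Finset.sum_subset (Finset.subset_union_left (s₁ := T) (s₂ := D'.support))]
      · exact Finset.sum_congr rfl fun v hv => by rw [hβT v hv]
      · intro v _ hv
        rw [hβN v hv]
        simp
    have e4 : ∑ v ∈ T ∪ D'.support, ∑ i : Fin m, (-(D v : ℤ) + (D' v : ℤ) + v.ord (β v i i)) =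
        m * (((tot D' : ℕ) : ℤ) - ((tot D : ℕ) : ℤ)) + ∑ v ∈ T, ∑ i, v.ord (α v i i) := by
      rw [← e3, e1, e2, ← Finset.sum_sub_distrib, Finset.mul_sum, ← Finset.sum_add_distrib]
      refine Finset.sum_congr rfl fun v _ => ?_
      rw [Finset.sum_add_distrib]
      simp only [Finset.sum_const, Finset.card_univ, Fintype.card_fin, nsmul_eq_mul]
      ring
    rw [e4, hrk] at hrU
    have e5 : (m : ℤ) * ((tot D' : ℕ) : ℤ) ≤ m * (Module.finrank kb (LL D') + C0) :=
      mul_le_mul_of_nonneg_left (by exact_mod_cast hr) (Int.natCast_nonneg m)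
    push_cast at hrU
    linarith
  · obtain ⟨c, hc1, hc2⟩ := hc a ha v (Finset.mem_union_left _ hv)
    exact ⟨c, hc1, by rw [← hβT v hv]; exact hc2⟩
  · by_cases hs : v ∈ D'.support
    · obtain ⟨c, hc1, hc2⟩ := hc a ha v (Finset.mem_union_right _ hs)
      rw [hβN v hv] at hc2
      have : a i = c i := by
        rw [hc2]
        simp [Finset.sum_apply]
      rw [this]
      exact hc1 i
    · have e1 : D' v = 0 := Finsupp.notMem_support_iff.1 hs
      have e2 := hDD v
      exact (hU0 v a (hle ha) i).mono (by omega)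

end Pool.Agent.Lib.MP_6adaea_nt.W
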