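import Pool.Agent.Lib.MP_6adaea_nt.W.RedB
import Pool.Agent.Lib.MP_6adaea_nt.U.GenS

/-!
The stabiliser of a line.
-/

set_option linter.unusedSectionVars false

namespace Pool.Agent.Lib.MP_6adaea_nt.W
open Matrix Polynomial G U
open scoped TensorProduct

variable {C E : Type} [Field C] [Field E] [Algebra C E] {n J : Type} [Fintype n] [DecidableEq n]
  [Fintype J] [DecidableEq J] {V : QVal E}

private lemma stab_zero {R : Type} [CommRing R] (A : Matrix J J R) : Eig A (0 : J → R) :=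
  ⟨0, by simp⟩

private lemma stab_mul (ρ : PRep C n J) (g h : GL n E) :
    ap ρ.P (g * h).val = ap ρ.P g.val * ap ρ.P h.val := by
  rw [Units.val_mul, ρ.mul]

private lemma stab_inv (ρ : PRep C n J) (g : GL n E) :
    ap ρ.P (g⁻¹).val * ap ρ.P g.val = 1 := by
  rw [← stab_mul, inv_mul_cancel, Units.val_one, ρ.one]

private lemma stab_conj_iff {A B B' : Matrix J J E} (hB : B' * B = 1) (y : J → E) :
    Eig A (B *ᵥ y) ↔ Eig (B' * A * B) y := by
  constructor
  · rintro ⟨l, hl⟩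
    refine ⟨l, ?_⟩
    rw [← mulVec_mulVec, ← mulVec_mulVec, hl, mulVec_smul, mulVec_mulVec, hB, one_mulVec]
  · rintro ⟨l, hl⟩
    refine ⟨l, ?_⟩
    have h2 : B * B' = 1 := mul_eq_one_comm.mp hB
    have h3 := congrArg (fun v => B *ᵥ v) hl
    simp only [mulVec_mulVec, mulVec_smul] at h3
    rw [← Matrix.mul_assoc, ← Matrix.mul_assoc, h2, Matrix.one_mul] at h3
    rw [mulVec_mulVec, h3]

private lemma stab_smul_iff {A : Matrix J J E} {μ : E} (hμ : μ ≠ 0) (y : J → E) :
    Eig A (μ • y) ↔ Eig A y := by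
  constructor
  · rintro ⟨l, hl⟩
    refine ⟨l, ?_⟩
    rw [mulVec_smul, smul_comm] at hl
    exact smul_right_injective _ hμ hl
  · rintro ⟨l, hl⟩
    exact ⟨l, by rw [mulVec_smul, hl, smul_comm]⟩

private lemma stab_map_iff (σ : E ≃ₐ[C] E) (A : Matrix J J E) (y : J → E) :
    Eig (A.map σ) (fun j => σ (y j)) ↔ Eig A y := by
  have key : ∀ j, (A.map σ *ᵥ fun j => σ (y j)) j = σ ((A *ᵥ y) j) := by
    intro j
    simp [mulVec, dotProduct, map_sum, map_mul]
  constructor
  · rintro ⟨l, hl⟩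
    refine ⟨σ.symm l, funext fun j => σ.injective ?_⟩
    rw [← key, hl]
    simp
  · rintro ⟨l, hl⟩
    refine ⟨σ l, funext fun j => ?_⟩
    rw [key, hl]
    simp

theorem exists_stab (ρ : PRep C n J) (y : J → E) :
    ∃ G : Subgroup (GL n E), ∀ g, g ∈ G ↔ Eig (ap ρ.P g.val) y := by
  refine ⟨{ carrier := {g | Eig (ap ρ.P g.val) y}
            one_mem' := ⟨1, ?_⟩
            mul_mem' := ?_
            inv_mem' := ?_ }, fun g => Iff.rfl⟩
  · rintro g h ⟨l, hl⟩ ⟨m, hm⟩
    refine ⟨m * l, ?_⟩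
    rw [stab_mul, ← mulVec_mulVec, hm, mulVec_smul, hl, smul_smul]
  · rw [Units.val_one, ρ.one, one_mulVec, one_smul]
  · rintro g ⟨l, hl⟩
    have h1 := congrArg (fun v => ap ρ.P (g⁻¹).val *ᵥ v) hl
    simp only [mulVec_mulVec, stab_inv, one_mulVec, mulVec_smul] at h1
    by_cases h0 : l = 0
    · rw [h0, zero_smul] at h1
      show Eig _ y
      rw [h1]
      exact stab_zero _
    · refine ⟨l⁻¹, ?_⟩
      conv_rhs => rw [h1]
      rw [smul_smul, inv_mul_cancel₀ h0, one_smul]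

variable {ρ : PRep C n J} {y : J → E} {G : Subgroup (GL n E)}
  (hG : ∀ g, g ∈ G ↔ Eig (ap ρ.P g.val) y)
include hG

/-- `eig_curve` -/
theorem stab_cl : Cl G := by
  intro A hA g hg
  rw [hG, hg]
  refine eig_curve ρ.P A y (hA.mono ?_) 0
  rintro s ⟨g', hg', e⟩
  have := (hG g').mp hg'
  rw [e] at this
  exact this

/-- apply `σ` to the eigenvector equation (`ap_map`); `μ ≠ 0` or `y = 0` -/
theorem stab_frob (σ : E ≃ₐ[C] E) (P : GL n E) {Θ Θ' : Matrix J J E} (hΘ : Θ' * Θ = 1)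
    (hc : ∀ A : Matrix n n E, Θ * ap ρ.P A = ap ρ.P A * Θ) {μ : E}
    (hy : (fun j => σ (y j)) = μ • (ap ρ.P P.val * Θ) *ᵥ y) (g : GL n E) :
    g ∈ G ↔ P⁻¹ * red (σ : E →+* E) g * P ∈ G := by
  rw [hG, hG]
  by_cases hμ : μ = 0
  · have h0 : y = 0 := by
      funext j
      have := congrFun hy j
      rw [hμ, zero_smul] at this
      exact σ.injective (by rw [this]; simp)
    rw [h0]
    exact ⟨fun _ => stab_zero _, fun _ => stab_zero _⟩
  · have hB : (Θ' * ap ρ.P (P⁻¹).val) * (ap ρ.P P.val * Θ) = 1 := by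
      rw [Matrix.mul_assoc, ← Matrix.mul_assoc _ _ Θ, stab_inv, Matrix.one_mul, hΘ]
    have e1 : (ap ρ.P g.val).map σ = ap ρ.P (red (σ : E →+* E) g).val :=
      ap_map (σ : E →ₐ[C] E) ρ.P g.val
    rw [← stab_map_iff σ, hy, stab_smul_iff hμ, stab_conj_iff hB, e1, stab_mul, stab_mul]
    have e2 : Θ' * ap ρ.P (P⁻¹).val * ap ρ.P (red (σ : E →+* E) g).val * (ap ρ.P P.val * Θ) =
        ap ρ.P (P⁻¹).val * ap ρ.P (red (σ : E →+* E) g).val * ap ρ.P P.val := by
      rw [← stab_mul, ← stab_mul]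
      conv_rhs => rw [← Matrix.one_mul (ap ρ.P _), ← hΘ, Matrix.mul_assoc, hc]
      rw [stab_mul, stab_mul]
      simp only [Matrix.mul_assoc]
    rw [e2]

/-- `rt h x ^ p = 1`, so the eigenvalue is one; the stabiliser of the vector `y` is a subgroup,
`hasSL_of_roots_art` -/
theorem stab_one (p : ℕ) [Fact p.Prime] [CharP E p] (h : HasSL G) {s : Matrix n n E}
    (hs : s.det = 1) : ap ρ.P s *ᵥ y = y := by
  let H : Subgroup (GL n E) :=
    { carrier := {g | ap ρ.P g.val *ᵥ y = y}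
      one_mem' := by
        show ap ρ.P (1 : GL n E).val *ᵥ y = y
        rw [Units.val_one, ρ.one, one_mulVec]
      mul_mem' := fun {a b} ha hb => by
        have ha' : ap ρ.P a.val *ᵥ y = y := ha
        have hb' : ap ρ.P b.val *ᵥ y = y := hb
        show ap ρ.P (a * b).val *ᵥ y = y
        rw [stab_mul, ← mulVec_mulVec, hb', ha']
      inv_mem' := fun {a} ha => by
        have ha' : ap ρ.P a.val *ᵥ y = y := ha
        show ap ρ.P (a⁻¹).val *ᵥ y = y
        conv_lhs => rw [← ha']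
        rw [mulVec_mulVec, stab_inv, one_mulVec] }
  have hH : Roots H Set.univ := by
    intro i j hij x _
    obtain ⟨l, hl⟩ := (hG _).mp (h (rt hij x) (rt_det hij x))
    have hm : ∀ m : ℕ, ap ρ.P (rt hij ((m : E) * x)).val *ᵥ y = l ^ m • y := by
      intro m
      induction m with
      | zero => rw [Nat.cast_zero, zero_mul, rt_zero, Units.val_one, ρ.one, one_mulVec, pow_zero,
          one_smul]
      | succ m ih =>
        rw [Nat.cast_succ, add_mul, one_mul, rt_add, stab_mul, ← mulVec_mulVec, hl, mulVec_smul,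
          ih, smul_smul, pow_succ']
    have hp := hm p
    rw [CharP.cast_eq_zero E p, zero_mul, rt_zero, Units.val_one, ρ.one, one_mulVec] at hp
    show ap ρ.P (rt hij x).val *ᵥ y = y
    have h1 : (l - 1) ^ p • y = 0 := by
      rw [sub_pow_char, one_pow, sub_smul, ← hp, one_smul, sub_self]
    rcases smul_eq_zero.mp h1 with h2 | h2
    · rw [hl, sub_eq_zero.mp (pow_eq_zero_iff (Fact.out : p.Prime).ne_zero |>.mp h2), one_smul]
    · rw [h2, mulVec_zero]
  have hu : IsUnit s := (Matrix.isUnit_iff_isUnit_det s).mpr (hs ▸ isUnit_one)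
  have := hasSL_of_roots_art hH hu.unit (by rw [IsUnit.unit_spec, hs])
  exact this

end Pool.Agent.Lib.MP_6adaea_nt.W
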