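import Pool.Agent.Lib.MP_6adaea_nt.W.WinL
import Pool.Agent.Lib.MP_6adaea_nt.W.Bnd
import Pool.Agent.Lib.MP_6adaea_nt.W.Adp

/-!
One step of the limit construction.
-/

set_option linter.unusedSectionVars false

namespace Pool.Agent.Lib.MP_6adaea_nt.W
open Matrix Polynomial G U
open scoped TensorProduct

variable {k kb K Ω : Type} [Field k] [Finite k] [Field kb] [Field K] [Field Ω] [Algebra k kb]
  [Algebra k K] [Algebra k Ω] [Algebra kb K] [Algebra kb Ω] [Algebra K Ω]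
  [IsScalarTower k kb K] [IsScalarTower k kb Ω] [IsScalarTower k K Ω] [IsScalarTower kb K Ω]
  [IsAlgClosed kb] [Algebra.IsAlgebraic k kb] [IsSepClosed Ω] [IsGalois K Ω] {θ : K} {r : ℕ}

theorem step_iff {R : Type} [CommRing R] (d a b : R) :
    d ∣ a - b ↔ Ideal.Quotient.mk (Ideal.span {d}) a = Ideal.Quotient.mk (Ideal.span {d}) b := by
  rw [Ideal.Quotient.eq, Ideal.mem_span_singleton]

theorem step_mulVec {R I J : Type} [CommRing R] [Fintype J] {d l : R} (A : Matrix I J R)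
    {y y' : J → R} (h : ∀ j, d ∣ l * y j - y' j) (i : I) : d ∣ l * (A *ᵥ y) i - (A *ᵥ y') i := by
  simp only [mulVec, dotProduct, Finset.mul_sum, ← Finset.sum_sub_distrib]
  refine Finset.dvd_sum fun j _ => ?_
  rw [mul_left_comm, ← mul_sub]
  exact (h j).mul_left _

theorem mnr_of_mul {J : Type} [Fintype J] (F : K →+* K) {Ψ : Matrix J J (PowerSeries K)} {m : ℕ}
    {y y' : J → PowerSeries K} {μ l : PowerSeries K} (hμ : IsUnit μ)
    (h : ∀ j, (PowerSeries.X : PowerSeries K) ^ m ∣ μ * PowerSeries.map F (y j) - (Ψ *ᵥ y) j)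
    (h' : ∀ j, (PowerSeries.X : PowerSeries K) ^ m ∣ l * y j - y' j) : Mnr F Ψ m y' := by
  have _ := hμ
  have h1 : ∀ j, (PowerSeries.X : PowerSeries K) ^ m ∣
      PowerSeries.map F l * PowerSeries.map F (y j) - PowerSeries.map F (y' j) := fun j => by
    have := map_dvd (PowerSeries.map F) (h' j)
    rwa [map_pow, PowerSeries.map_X, map_sub, map_mul] at this
  have h2 := step_mulVec Ψ h'
  intro a b
  simp only [step_iff, map_mul] at h h1 h2 ⊢
  rw [← h1, ← h1, ← h2, ← h2, ← h, ← h]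
  ring

theorem fxd_of_mul {M : ℕ} {τ : Fin 2 → PowerSeries kb} {m : ℕ}
    {y y' : JJ (Fin r) M → PowerSeries K} {l : PowerSeries K} (hl : IsUnit l)
    (h' : ∀ j, (PowerSeries.X : PowerSeries K) ^ m ∣ l * y j - y' j) (h : Fxd τ m y') :
    Fxd τ m y := by
  intro a b hab c0 c1 j
  have h1 := h a b hab c0 c1 j
  have h2 := step_mulVec (rep M (fun i => PowerSeries.map (algebraMap kb K) (τ i))
    (elc (PowerSeries K) a b c0 c1)) h' j
  rw [← hl.dvd_mul_left]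
  have h3 := dvd_sub (dvd_add h2 h1) (h' j)
  rw [Pi.sub_apply] at h3 ⊢
  convert h3 using 1
  ring

/-- `exists_gp_bound`, `bnd_count`, `win_lift`, `adp_bound` -/
theorem exists_step (hB : Base kb θ) (hr : 0 < r) {D : DM k Ω θ r} {Fr : Frb k kb K Ω}
    (hD : D.Fix Fr) (M : ℕ) : ∃ W : Submodule kb K, FiniteDimensional kb W ∧
    ∀ (τ : Fin 2 → PowerSeries kb) (w : JJ (Fin r) M → PowerSeries kb) (m : ℕ) (b : k[X]),
      (∃ j, IsUnit (w j)) → b.Monic →
      qd (fun i => (Ideal.Quotient.mk _ (τ i) : Sm kb (2 * m + 1))) ∣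
        b.map (algebraMap k (Sm kb (2 * m + 1))) → ¬D.NoThick Fr τ w (2 * m + 1) b →
      ∃ y : JJ (Fin r) M → PowerSeries K, (∀ j i, PowerSeries.coeff i (y j) ∈ W) ∧
        Mnr ((Fr.pow 0).FK : K →+* K) ((Psi k θ r D.g (Fr.pow 0).c M).map (gp K τ)) (m + 1) y ∧
        ∀ m' ≤ m + 1, Fxd τ m' y → ∀ a b : Fin r, a ≠ b → ∀ (c0 c1 : kb) (j : JJ (Fin r) M),
          (PowerSeries.X : PowerSeries kb) ^ m' ∣
            (rep M τ (elc (PowerSeries kb) a b c0 c1) *ᵥ w - w) j := by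
  obtain ⟨p, _, _, _, -⟩ := exists_char k kb
  have := hB.isFF
  obtain ⟨κ, hκ⟩ := exists_gp_bound (kb := kb) p (Psi k θ r D.g (Fr.pow 0).c M)
  obtain ⟨W, hW, h⟩ := bnd_count (kb := kb) (K := K) (J := JJ (Fin r) M) p (tot κ)
  refine ⟨W, hW, fun τ w m b hw hb hq hn => ?_⟩
  obtain ⟨y, μ, hy, hμ, h1, h2⟩ := win_lift hr hD hw (Nat.succ_pos _) hb hq hn
  obtain ⟨l, y', hl, h3, h4⟩ := h m y hy fun i hi him =>
    adp_bound hB (Fr.pow 0) hy hi (hκ τ) hμ fun j => (pow_dvd_pow _ him).trans (h1 j)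
  exact ⟨y', h3, mnr_of_mul _ hμ (fun j => (pow_dvd_pow _ (by omega)).trans (h1 j)) h4,
    fun m' hm' hf => h2 m' (by omega)
      (fxd_of_mul hl (fun j => (pow_dvd_pow _ hm').trans (h4 j)) hf)⟩

end Pool.Agent.Lib.MP_6adaea_nt.W
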