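import Pool.Agent.Lib.MP_6adaea_nt.W.Defs2

/-!
First order expansion of a local automorphism.
-/

set_option linter.unusedSectionVars false

namespace Pool.Agent.Lib.MP_6adaea_nt.W
open Matrix Polynomial G U
open scoped TensorProduct

variable {kb K : Type} [Field kb] [Field K] [Algebra kb K] [IsAlgClosed kb] [IsFF kb K]
  (p : ℕ) [Fact p.Prime] [CharP kb p]

theorem tay1_poly {E : Type} [Field E] [Algebra kb E] {V : QVal E} {a h : E}
    (ha : ∀ f : kb[X], V.Ge (aeval a f) 0) {μ : ℚ} (hμ : 0 ≤ μ) (hh : V.Ge h μ) (f : kb[X]) :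
    V.Ge (aeval (a + h) f - aeval a f - aeval a (derivative f) * h) (2 * μ) := by
  have h0 : V.Ge (a + h) 0 := (by simpa using ha X : V.Ge a 0).add (hh.mono hμ)
  induction f using Polynomial.induction_on with
  | C c => simp
  | add f g hf hg =>
    convert hf.add hg using 1
    simp only [map_add]
    ring
  | monomial n c ih =>
    rw [pow_succ, ← mul_assoc]
    generalize C c * X ^ n = f at ih ⊢
    have h1 := (ha (derivative f)).mul₀ (hh.mul hh)
    rw [← two_mul] at h1
    convert (h0.mul₀ ih).add h1 using 1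
    simp only [map_add, map_mul, aeval_X, derivative_mul, derivative_X, mul_one]
    ring

include p in
/-- Write `x = f π + ρ` with `ρ` of large order (`Place.exists_poly`); `D ρ` has large order
(`IsFF.der_cont`), `D (f π) = f' π` (`ffd_aeval`), and `f (π + h) = f π + f' π * h + h ^ 2 * c`
with `c` integral (`Polynomial.binomExpansion` over the ring `V.O`, or induction on `f`). -/
theorem taylor_aut {E : Type} [Field E] [Algebra kb E] [Algebra K E] [IsScalarTower kb K E]
    {V : QVal E} {v : Place kb K} (hV : V.Over v) {π : K} (hπ : v.ord π = 1) (D : Derivation ℤ K K)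
    (hD : D π = 1) (τ : E ≃ₐ[kb] E) (hτ : ∀ x, V.ord (τ x) = V.ord x) {μ : ℚ} (hμ : 0 ≤ μ)
    (h : V.Ge (τ (algebraMap K E π) - algebraMap K E π) μ) {x : K} (hx : v.Ge x 0) :
    v.Ge (D x) 0 ∧ V.Ge (τ (algebraMap K E x) - algebraMap K E x -
      algebraMap K E (D x) * (τ (algebraMap K E π) - algebraMap K E π)) (2 * μ) := by
  obtain ⟨c, hc⟩ := IsFF.der_cont p D v
  obtain ⟨n, hn⟩ := exists_nat_ge (max (2 * μ) (μ + c))
  obtain ⟨f, -, hf⟩ := v.exists_poly hπ hx n
  have hn1 := (le_max_left _ _).trans hn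
  have hn2 := (le_max_right _ _).trans hn
  have hπ0 : v.Ge π 0 := Place.Ge.of_le (by omega)
  have h1 := hc _ _ hf
  have e1 : D x = D (x - aeval π f) + aeval π (derivative f) := by
    rw [map_sub, ffd_aeval p D π f, hD, mul_one, sub_add_cancel]
  have h2 : V.Ge (algebraMap K E (D (x - aeval π f))) μ :=
    (hV.ge_iff.mpr h1).mono (by push_cast; linarith)
  have h3 : V.Ge (algebraMap K E (x - aeval π f)) (2 * μ) :=
    (hV.ge_iff.mpr hf).mono (by push_cast; linarith)
  have h4 : V.Ge (τ (algebraMap K E (x - aeval π f))) (2 * μ) :=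
    h3.imp (fun e => by rw [e, map_zero]) fun e => by rwa [hτ]
  refine ⟨?_, ?_⟩
  · rw [e1]
    exact (hV.ge_zero.mp (h2.mono hμ)).add (ffd_ge_aeval v hπ0 _)
  · have h5 := tay1_poly (a := algebraMap K E π) (fun g => by
      rw [aeval_algebraMap_apply]
      exact hV.ge_zero.mpr (ffd_ge_aeval v hπ0 g)) hμ h f
    have h6 := h2.mul h
    rw [← two_mul] at h6
    convert ((h4.sub h3).sub h6).add h5 using 1
    rw [e1, add_sub_cancel, aeval_algHom_apply τ, aeval_algebraMap_apply, aeval_algebraMap_apply]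
    simp only [map_sub, map_add]
    ring

end Pool.Agent.Lib.MP_6adaea_nt.W
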