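import Pool.Agent.Lib.MP_6adaea_nt.W.Defs2
import Pool.Agent.Lib.MP_6adaea_nt.U.ThickA
import Pool.Agent.Lib.MP_6adaea_nt.U.Tens

/-!
Truncated power series.
-/

set_option linter.unusedSectionVars false

namespace Pool.Agent.Lib.MP_6adaea_nt.W
open Matrix Polynomial G U
open scoped TensorProduct

variable {kb K : Type} [Field kb] [Field K] [Algebra kb K]

theorem trc_ext0 {R : Type} [CommRing R] {m : ℕ} {f g : PowerSeries K →+* R}
    (hf : f (PowerSeries.X ^ m) = 0) (h1 : ∀ x, f (PowerSeries.C x) = g (PowerSeries.C x))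
    (h2 : f PowerSeries.X = g PowerSeries.X) : f = g := by
  have hg : g (PowerSeries.X ^ m) = 0 := by rw [map_pow, ← h2, ← map_pow, hf]
  have h3 : f.comp coeToPowerSeries.ringHom = g.comp coeToPowerSeries.ringHom :=
    Polynomial.ringHom_ext (fun x => by simpa using h1 x) (by simpa using h2)
  refine RingHom.ext fun p => ?_
  rw [PowerSeries.eq_X_pow_mul_shift_add_trunc m p, map_add, map_add, map_mul, map_mul, hf, hg,
    zero_mul, zero_mul, zero_add, zero_add]
  exact RingHom.congr_fun h3 _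

/-- evaluation of a series at a nilpotent element -/
theorem trc_eval {R : Type} [CommRing R] (m : ℕ) (ι : K →+* R) {ξ : R} (h : ξ ^ m = 0) :
    ∃ κ : PowerSeries K →+* R, (∀ x, κ (PowerSeries.C x) = ι x) ∧ κ PowerSeries.X = ξ := by
  have key : ∀ p : K[X], eval₂RingHom ι ξ (PowerSeries.trunc m (p : PowerSeries K)) =
      eval₂RingHom ι ξ p := fun p => by
    obtain ⟨q, hq⟩ : (X : K[X]) ^ m ∣ PowerSeries.trunc m (p : PowerSeries K) - p :=
      Polynomial.X_pow_dvd_iff.mpr fun d hd => by simp [PowerSeries.coeff_trunc, hd]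
    rw [← sub_eq_zero, ← map_sub, hq, map_mul, map_pow, coe_eval₂RingHom, eval₂_X, h, zero_mul]
  refine ⟨{ toFun := fun f => eval₂RingHom ι ξ (PowerSeries.trunc m f)
            map_one' := by rw [← Polynomial.coe_one, key, map_one]
            map_mul' := fun f g => by
              rw [← PowerSeries.trunc_trunc_mul_trunc, ← Polynomial.coe_mul, key, map_mul]
            map_zero' := by rw [map_zero, map_zero]
            map_add' := fun f g => by rw [map_add, map_add] }, fun x => ?_, ?_⟩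
  · change eval₂RingHom ι ξ (PowerSeries.trunc m _) = _
    rw [← Polynomial.coe_C, key, coe_eval₂RingHom, eval₂_C]
  · change eval₂RingHom ι ξ (PowerSeries.trunc m _) = _
    rw [← Polynomial.coe_X, key, coe_eval₂RingHom, eval₂_X]

theorem trc_mk {m : ℕ} {f : PowerSeries K} :
    (Ideal.Quotient.mk _ f : Sm K m) = 0 ↔ (PowerSeries.X : PowerSeries K) ^ m ∣ f := by
  rw [Ideal.Quotient.eq_zero_iff_mem, Ideal.mem_span_singleton]

variable (kb K) in
/-- The algebra map `K ⊗ Sm kb m → K⟦X⟧ / X ^ m` is bijective (it sends the basis `1 ⊗ X ^ i` to a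
basis); compose its inverse with the quotient map. -/
theorem exists_trc (m : ℕ) : ∃ κ : PowerSeries K →+* K ⊗[kb] Sm kb m, Function.Surjective κ ∧
    (∀ f, κ f = 0 ↔ (PowerSeries.X : PowerSeries K) ^ m ∣ f) ∧
    (∀ x : K, κ (PowerSeries.C x) = x ⊗ₜ 1) ∧
    ∀ f : PowerSeries kb, κ (PowerSeries.map (algebraMap kb K) f) = 1 ⊗ₜ Ideal.Quotient.mk _ f := by
  have hX : ((1 : K) ⊗ₜ[kb] (Ideal.Quotient.mk _ PowerSeries.X : Sm kb m)) ^ m = 0 := by
    rw [Algebra.TensorProduct.tmul_pow, ← map_pow, trc_mk.mpr dvd_rfl, TensorProduct.tmul_zero]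
  obtain ⟨κ, h1, h2⟩ := trc_eval (R := K ⊗[kb] Sm kb m) m
    (Algebra.TensorProduct.includeLeftRingHom : K →+* K ⊗[kb] Sm kb m) hX
  have h3 : ∀ x : K, κ (PowerSeries.C x) = x ⊗ₜ 1 := h1
  have h4 : ∀ f : PowerSeries kb, κ (PowerSeries.map (algebraMap kb K) f) =
      1 ⊗ₜ Ideal.Quotient.mk _ f := fun f => RingHom.congr_fun (trc_ext0 (m := m)
    (f := κ.comp (PowerSeries.map (algebraMap kb K)))
    (g := (Algebra.TensorProduct.includeRight (R := kb) (A := K) (B := Sm kb m)).toRingHom.comp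
      (Ideal.Quotient.mk _))
    (by rw [RingHom.comp_apply, map_pow, PowerSeries.map_X, map_pow, h2, hX])
    (fun x => by
      rw [RingHom.comp_apply, PowerSeries.map_C, h3, Algebra.algebraMap_eq_smul_one,
        TensorProduct.smul_tmul, ← Algebra.algebraMap_eq_smul_one]
      rfl)
    (by rw [RingHom.comp_apply, PowerSeries.map_X, h2]; rfl)) f
  refine ⟨κ, fun z => ?_, fun f => ⟨fun h => ?_, ?_⟩, h3, h4⟩
  · induction z using TensorProduct.induction_on with
    | zero => exact ⟨0, map_zero _⟩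
    | tmul x s =>
      obtain ⟨f, rfl⟩ := Ideal.Quotient.mk_surjective s
      exact ⟨PowerSeries.C x * PowerSeries.map (algebraMap kb K) f, by
        rw [map_mul, h3, h4, Algebra.TensorProduct.tmul_mul_tmul, mul_one, one_mul]⟩
    | add a b ha hb =>
      obtain ⟨f, rfl⟩ := ha
      obtain ⟨f', rfl⟩ := hb
      exact ⟨f + f', map_add _ _ _⟩
  · let φ : Sm kb m →ₐ[kb] Sm K m := Ideal.Quotient.liftₐ _
      ((Ideal.Quotient.mkₐ kb _).comp (PowerSeries.mapAlgHom (Algebra.ofId kb K))) fun a ha => by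
        obtain ⟨b, rfl⟩ := Ideal.mem_span_singleton.mp ha
        refine trc_mk.mpr ?_
        change _ ∣ PowerSeries.map (algebraMap kb K) (PowerSeries.X ^ m * b)
        rw [map_mul, map_pow, PowerSeries.map_X]
        exact dvd_mul_right _ _
    let ψ : K ⊗[kb] Sm kb m →ₐ[kb] Sm K m := Algebra.TensorProduct.lift
      (IsScalarTower.toAlgHom kb K (Sm K m)) φ fun _ _ => Commute.all _ _
    have h5 : Ideal.Quotient.mk _ = ψ.toRingHom.comp κ :=
      trc_ext0 (m := m) (trc_mk.mpr dvd_rfl)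
        (fun x => by
          rw [RingHom.comp_apply, h3, AlgHom.toRingHom_eq_coe, RingHom.coe_coe,
            Algebra.TensorProduct.lift_tmul, map_one, mul_one]
          rfl)
        (by
          rw [RingHom.comp_apply, h2, AlgHom.toRingHom_eq_coe, RingHom.coe_coe,
            Algebra.TensorProduct.lift_tmul, map_one, one_mul]
          exact congrArg _ (PowerSeries.map_X (algebraMap kb K)).symm)
    rw [← trc_mk, h5, RingHom.comp_apply, h, map_zero]
  · rintro ⟨g, rfl⟩
    rw [map_mul, map_pow, h2, hX]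
    exact MulZeroClass.zero_mul (κ g)

/-- a series is congruent to a polynomial -/
theorem trc_ext {R : Type} [CommRing R] {m : ℕ} {f g : PowerSeries K →+* R}
    (hf : f (PowerSeries.X ^ m) = 0) (h1 : ∀ x, f (PowerSeries.C x) = g (PowerSeries.C x))
    (h2 : f PowerSeries.X = g PowerSeries.X) : f = g := by
  exact trc_ext0 hf h1 h2

variable (kb) in
theorem exists_down {m m' : ℕ} (h : m' ≤ m) : ∃ π : Sm kb m →ₐ[kb] Sm kb m',
    ∀ f, π (Ideal.Quotient.mk _ f) = Ideal.Quotient.mk _ f := by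
  exact ⟨Ideal.Quotient.liftₐ _ (Ideal.Quotient.mkₐ kb _) fun a ha =>
    trc_mk.mpr ((pow_dvd_pow _ h).trans (Ideal.mem_span_singleton.mp ha)), fun _ => rfl⟩

end Pool.Agent.Lib.MP_6adaea_nt.W
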