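import Pool.Agent.Lib.MP_6adaea_nt.W.Trc
import Pool.Agent.Lib.MP_6adaea_nt.W.PWL

/-!
The rational vector of a window of power series.
-/

set_option linter.unusedSectionVars false

namespace Pool.Agent.Lib.MP_6adaea_nt.W
open Matrix Polynomial G U
open scoped TensorProduct

variable {k kb K Ω : Type} [Field k] [Finite k] [Field kb] [Field K] [Field Ω] [Algebra k kb]
  [Algebra k K] [Algebra k Ω] [Algebra kb K] [Algebra kb Ω] [Algebra K Ω]
  [IsScalarTower k kb K] [IsScalarTower k kb Ω] [IsScalarTower k K Ω] [IsScalarTower kb K Ω]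
  [IsAlgClosed kb] [Algebra.IsAlgebraic k kb] [IsSepClosed Ω] [IsGalois K Ω] {θ : K} {r : ℕ}

theorem winl_map {S S' n : Type} [CommRing S] [CommRing S'] [Fintype n] [DecidableEq n]
    (f : S →+* S') (M : ℕ) (t : Fin 2 → S) (A : Matrix n n S[X]) (y : JJ n M → S) (j : JJ n M) :
    f ((rep M t A *ᵥ y) j) = (rep M (fun i => f (t i)) (pmap f A) *ᵥ fun l => f (y l)) j := by
  rw [← rep_map]
  exact RingHom.map_mulVec f _ y j

theorem winl_elc {F S S' n : Type} [CommRing F] [CommRing S] [CommRing S'] [Algebra F S]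
    [Algebra F S'] [Fintype n] [DecidableEq n] (f : S →+* S')
    (hf : ∀ c : F, f (algebraMap F S c) = algebraMap F S' c) (M : ℕ) (t : Fin 2 → S) (a b : n)
    (c0 c1 : F) (y : JJ n M → S) (j : JJ n M) : f ((rep M t (elc S a b c0 c1) *ᵥ y - y) j) =
      ((rep M (fun i => f (t i)) (elc S' a b c0 c1) *ᵥ fun l => f (y l)) - fun l => f (y l)) j := by
  rw [Pi.sub_apply, map_sub, winl_map, pmap_elc f hf, Pi.sub_apply]

theorem winl_zero {m : ℕ} {f : PowerSeries kb} :
    (Ideal.Quotient.mk _ f : Sm kb m) = 0 ↔ (PowerSeries.X : PowerSeries kb) ^ m ∣ f := by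
  rw [Ideal.Quotient.eq_zero_iff_mem, Ideal.mem_span_singleton]

theorem winl_eig {τ : Fin 2 → PowerSeries kb} {M : ℕ} {w : JJ (Fin r) M → PowerSeries kb} {m : ℕ}
    {B : Matrix (Fin r) (Fin r) k[X]} (h : EigX τ w m B) : ∃ χ : Sm kb m,
      (rep M (fun i => (Ideal.Quotient.mk _ (τ i) : Sm kb m)) (pmap (algebraMap k (Sm kb m)) B) *ᵥ
        fun j => Ideal.Quotient.mk _ (w j)) = χ • fun j => Ideal.Quotient.mk _ (w j) := by
  obtain ⟨χ, hχ⟩ := h
  refine ⟨Ideal.Quotient.mk _ χ, funext fun j => ?_⟩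
  have h1 := winl_zero.mpr (hχ j)
  rw [Pi.sub_apply, map_sub, winl_map, pmap_pmap, sub_eq_zero] at h1
  exact h1

theorem winl_dvd {F : Type} [Field F] {f : PowerSeries F} (h : ¬IsUnit f) :
    PowerSeries.X ∣ f := by
  rw [PowerSeries.X_dvd_iff]
  by_contra h0
  exact h (PowerSeries.isUnit_iff_constantCoeff.mpr (Ne.isUnit h0))

/-- Build the prewindow over `Sm kb m`, apply `win_unit` with `j = 0`, lift `y` and `μ` along
`exists_trc` (`trc_ext` for the compatibilities). If no `y j` is a unit use `pw_ne` with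
`exists_down` to level one; `inc μ` is a unit, so `X ∤ μ`. `pw_fix` with `exists_down`. -/
theorem win_lift (hr : 0 < r) {D : DM k Ω θ r} {Fr : Frb k kb K Ω} (hD : D.Fix Fr)
    {τ : Fin 2 → PowerSeries kb} {M : ℕ} {w : JJ (Fin r) M → PowerSeries kb}
    (hw : ∃ j, IsUnit (w j)) {m : ℕ} (hm : 0 < m) {b : k[X]} (hb : b.Monic)
    (hq : qd (fun i => (Ideal.Quotient.mk _ (τ i) : Sm kb m)) ∣ b.map (algebraMap k (Sm kb m)))
    (h : ¬D.NoThick Fr τ w m b) : ∃ (y : JJ (Fin r) M → PowerSeries K) (μ : PowerSeries K),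
      (∃ j, IsUnit (y j)) ∧ IsUnit μ ∧
      (∀ l, (PowerSeries.X : PowerSeries K) ^ m ∣
        μ * PowerSeries.map ((Fr.pow 0).FK : K →+* K) (y l) -
          ((Psi k θ r D.g (Fr.pow 0).c M).map (gp K τ) *ᵥ y) l) ∧
      ∀ m' ≤ m, Fxd τ m' y → ∀ a b : Fin r, a ≠ b → ∀ (c0 c1 : kb) (j : JJ (Fin r) M),
        (PowerSeries.X : PowerSeries kb) ^ m' ∣
          (rep M τ (elc (PowerSeries kb) a b c0 c1) *ᵥ w - w) j := by
  obtain ⟨E, hE1, hE2⟩ : ∃ E : Coord D.φ b (Fin r),
      (∀ σ : Ω ≃ₐ[K] Ω, ∃ B, Act E σ B ∧ EigX τ w m B) ∧ ∃ B, Act E Fr.γ B ∧ EigX τ w m B := by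
    by_contra hc
    exact h fun E h1 h2 => hc ⟨E, h1, h2⟩
  obtain ⟨j0, hj0⟩ := hw
  let P : PW D Fr M (Sm kb m) :=
    { t := fun i => Ideal.Quotient.mk _ (τ i)
      a := b
      monic := hb
      E := E
      dvd := hq
      w := fun j => Ideal.Quotient.mk _ (w j)
      uni := Ideal.eq_top_of_isUnit_mem _ (Ideal.subset_span ⟨j0, rfl⟩) (hj0.map _)
      eigK := fun σ => by
        obtain ⟨B, h1, h2⟩ := hE1 σ
        obtain ⟨χ, h3⟩ := winl_eig h2
        exact ⟨B, χ, h1, h3⟩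
      eigγ := by
        obtain ⟨B, h1, h2⟩ := hE2
        obtain ⟨χ, h3⟩ := winl_eig h2
        exact ⟨B, χ, h1, h3⟩ }
  obtain ⟨z, z', y0, hz, hy, -, hμ⟩ := win_unit hr hD P
  obtain ⟨μ0, χ, h1, h2⟩ := hμ 0
  obtain ⟨κ, hs, hk, hC, hmap⟩ := exists_trc kb K m
  choose y hy0 using fun j => hs (y0 j)
  obtain ⟨μ, rfl⟩ := hs μ0
  obtain rfl : (fun j => κ (y j)) = y0 := funext hy0
  have hX : κ PowerSeries.X = 1 ⊗ₜ Ideal.Quotient.mk _ PowerSeries.X := by
    rw [← hmap, PowerSeries.map_X]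
  have hdown : ∀ {m' : ℕ} (π : Sm kb m →ₐ[kb] Sm kb m'),
      (∀ f, π (Ideal.Quotient.mk _ f) = Ideal.Quotient.mk _ f) → ∀ f : PowerSeries K,
      PowerSeries.X ^ m' ∣ f → Algebra.TensorProduct.map (AlgHom.id kb K) π (κ f) = 0 := by
    rintro m' π hπ _ ⟨f, rfl⟩
    rw [map_mul, map_mul, map_pow, hX, Algebra.TensorProduct.tmul_pow, ← map_pow,
      Algebra.TensorProduct.map_tmul, hπ, winl_zero.mpr dvd_rfl, TensorProduct.tmul_zero, zero_mul]
  refine ⟨y, μ, ?_, ?_, fun l => ?_, fun m' hm' hF a b hab c0 c1 j => ?_⟩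
  · by_contra hc
    obtain ⟨π, hπ⟩ := exists_down kb (show 1 ≤ m from hm)
    have h3 := pw_ne hr P hy π (fun j => hdown π hπ _ (by
      rw [pow_one]
      exact winl_dvd fun hu => hc ⟨j, hu⟩)) j0
    rw [hπ, winl_zero, pow_one] at h3
    exact PowerSeries.X_prime.not_isUnit (isUnit_of_dvd_unit h3 hj0)
  · by_contra hc
    have h3 : κ μ ^ m = 0 := by
      rw [← map_pow, hk]
      exact pow_dvd_pow_of_dvd (winl_dvd hc) m
    have h4 : IsUnit (inc (Sm kb m) K Ω (κ μ)) := by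
      refine isUnit_of_mul_isUnit_left (y := (1 ⊗ₜ (χ : Sm kb m)) * z) ?_
      rw [h1]
      exact (IsUnit.of_mul_eq_one z' hz).map _
    have h5 := h4.pow m
    rw [← map_pow, h3, map_zero, isUnit_zero_iff] at h5
    have h6 : (Ideal.Quotient.mk _ 1 : Sm kb m) = 0 := one_tmul_injective (kb := kb) Ω (by
      simp only [map_one, TensorProduct.tmul_zero]
      exact h5.symm)
    rw [winl_zero] at h6
    exact PowerSeries.X_prime.not_isUnit
      (isUnit_of_dvd_one ((dvd_pow_self _ hm.ne').trans h6))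
  · have e1 : κ.comp (PowerSeries.map ((Fr.pow 0).FK : K →+* K)) =
        (act (Sm kb m) (Fr.pow 0).FK).toRingHom.comp κ := by
      refine trc_ext (R := K ⊗[kb] Sm kb m) (m := m) ?_ (fun x => ?_) ?_
      · change κ (PowerSeries.map _ _) = 0
        rw [map_pow, PowerSeries.map_X, hk]
      · change κ (PowerSeries.map _ _) = act _ _ (κ _)
        rw [PowerSeries.map_C, hC, hC]
        rfl
      · change κ (PowerSeries.map _ _) = act _ _ (κ _)
        rw [PowerSeries.map_X, hX, act_tmul, map_one]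
    have e2 : κ.comp (gp K τ).toRingHom = (evS kb K P.t).toRingHom := by
      refine MvPolynomial.ringHom_ext (A := K ⊗[kb] Sm kb m) (fun x => ?_) fun i => ?_
      · change κ (gp K τ _) = evS kb K P.t _
        rw [gp, evS, MvPolynomial.aeval_C, MvPolynomial.aeval_C]
        exact hC x
      · change κ (gp K τ _) = evS kb K P.t _
        rw [gp, evS, MvPolynomial.aeval_X, MvPolynomial.aeval_X]
        exact hmap _
    rw [← hk, map_sub, map_mul, sub_eq_zero]
    refine (congrArg (κ μ * ·) (RingHom.congr_fun e1 (y l))).trans ((h2 l).trans ?_)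
    rw [mulVec, dotProduct, map_sum]
    refine Finset.sum_congr rfl fun l' _ => ?_
    rw [map_mul]
    exact congrArg (· * κ (y l')) (RingHom.congr_fun e2 _).symm
  · obtain ⟨π, hπ⟩ := exists_down kb hm'
    have h3 := pw_fix hr P hy π (fun a b hab c0 c1 j => by
      have h4 := winl_elc (F := kb) (S' := K ⊗[kb] Sm kb m) κ (fun c => by
        rw [PowerSeries.algebraMap_apply, Algebra.TensorProduct.algebraMap_apply]
        exact hC _) M
        (fun i => PowerSeries.map (algebraMap kb K) (τ i)) a b c0 c1 y j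
      have h5 : (fun i => κ (PowerSeries.map (algebraMap kb K) (τ i))) = fun i => 1 ⊗ₜ P.t i :=
        funext fun i => hmap _
      have h6 := hdown π hπ _ (hF a b hab c0 c1 j)
      exact (congrArg _ (h4.trans (by rw [← h5]))).symm.trans h6) hab c0 c1 j
    rw [← winl_zero, ← hπ, winl_elc (F := kb) (S := PowerSeries kb) (S' := Sm kb m)
      (Ideal.Quotient.mk _) fun _ => rfl]
    exact h3

end Pool.Agent.Lib.MP_6adaea_nt.W
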